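import Pool.Agent.JX.Base
import Pool.Agent.JL.Field

/-!
# [JX] the condition on the class group and the units of `ℚ(ω, √D)`
-/

set_option autoImplicit false

open NumberField
open scoped Classical ComplexConjugate

namespace JX

open CM27 JZ JL
open CU (la)

/-- `E = 1 + ... + B s` with `s² = D` and `B/λ mod λ²` on the line of `D` (`E⁻¹ = 1 + ... - B s`). -/
def OnLine (D : Eis) (s E : ℂ) : Prop :=
  ∃ d₀ d₁ d₂ t : ℤ, Dig D d₀ d₁ d₂ ∧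
    IsIntegral ℤ ((E - E⁻¹ - (t : ℂ) * emb (la * (1 + ((d₁ * (1 + d₂) : ℤ) : Eis) * la)) * s) / emb la ^ 3)

/-- The class number of `ℚ(ω, √D)` is prime to `3`, and there is a unit `u = u₁ + u₂ √D` such that
`E = (u / ū) ^ 8` is not on the line of `D`, `ū = u₁ - u₂ √D`. -/
def UCX (D : Eis) : Prop :=
  ¬ 3 ∣ classNumber (KD D) ∧
  ∃ u₁ u₂ : ℂ, u₁ ∈ CF.KK ∧ u₂ ∈ CF.KK ∧ u₁ + u₂ * sD D ≠ 0 ∧ IsIntegral ℤ (u₁ + u₂ * sD D) ∧
    IsIntegral ℤ (u₁ + u₂ * sD D)⁻¹ ∧ ¬ OnLine D (sD D) (((u₁ + u₂ * sD D) / (u₁ - u₂ * sD D)) ^ 8)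

end JX
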