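import Pool.Agent.JX.Defs

/-!
# [JX-H3] pairing and averaging

PROOF (model JL/H3.lean `VV_eq`). For `b ∈ W3` put `t = b/λ³`. As in CUL/V1.lean `pair_si`: for `OT P`: `ez (P + t) + ez (-P + t) = 2 ez t + yw t / (xw t - xw P)` (`ez_sd`; `Nl (t ± P)`: `OT.add_nl` with `λ³ t ∈` lattice; `Nl t`: `λ³ ∤ b`).
(1) `2 VF = ∑_α conj χ(α) ∑_b cu u b · y_b / (x_b - x_α)` (`sum_chi`, `sum_neg`).
(2) substitutions `α → ω α → ω² α`; for `k ∈ {0,1,2}`, `a³ ≠ x³`: `1/(a - x) + ρ/(a - w x) + ρ²/(a - w² x) = 3 a^(2-k) x^k / (a³ - x³)`, `ρ = zw (-k)` (model `h3_alg`).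
(3) `sum_R`: `VF = 3 ∑_{c ∈ R} conj χ(c) x_c^k ∑_b cu u b · y_b x_b^(2-k) / (x_b³ - x_c³)`.
-/

set_option autoImplicit false

open NumberField IsDedekindDomain
open scoped Classical ComplexConjugate

namespace JX

open CM27 JZ JL
open CU (la eE)
open CUL (Nl ez si ta rh DS Cont LV IsRep rp cr mn zw OT GalU cu us FF W3)

variable {D : Eis}

/-- `∑_b (u/b)_3 y_b x_b^(2-k) / (x_b³ - z³)` over the three points `b/λ³` -/
noncomputable def BS (u : Eis) (k : ℕ) (z : ℂ) : ℂ :=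
  ∑ b ∈ W3, cu u b * (yw (emb b / emb la ^ 3) * xw (emb b / emb la ^ 3) ^ (2 - k) /
    (xw (emb b / emb la ^ 3) ^ 3 - z ^ 3))

theorem h3_num {a x : ℂ} (k : ZMod 3) :
    (a - w * x) * (a - w ^ 2 * x) + zw (-k) * ((a - x) * (a - w ^ 2 * x)) +
      zw (-k) ^ 2 * ((a - x) * (a - w * x)) = 3 * a ^ (2 - k.val) * x ^ k.val := by
  have hw3 := CUL.w3
  have hw2 := CUL.w2
  have hz : w ^ 2 + w + 1 = 0 := by rw [hw2]; ring
  have e1 : (a - w * x) * (a - w ^ 2 * x) = a ^ 2 + a * x + x ^ 2 := by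
    linear_combination (-(a * x)) * hz + x ^ 2 * hw3
  have e2 : (a - x) * (a - w ^ 2 * x) = a ^ 2 + w * a * x + w ^ 2 * x ^ 2 := by
    linear_combination (-(a * x)) * hz
  have e3 : (a - x) * (a - w * x) = a ^ 2 + w ^ 2 * a * x + w * x ^ 2 := by
    linear_combination (-(a * x)) * hz
  rw [e1, e2, e3]
  rcases CUL.l5_zw_cases k with rfl | rfl | rfl
  · rw [neg_zero, CUL.zw_zero]
    change _ = 3 * a ^ 2 * x ^ 0
    linear_combination (a * x + x ^ 2) * hz
  · rw [show (-1 : ZMod 3) = 2 by decide, CUL.zw_two]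
    change _ = 3 * a ^ 1 * x ^ 1
    linear_combination (a ^ 2 + x ^ 2) * hz + (a ^ 2 * w + a * x * (w ^ 3 + 2) + x ^ 2 * (w + w ^ 2)) * hw3
  · rw [show (-2 : ZMod 3) = 1 by decide, CUL.zw_one]
    change _ = 3 * a ^ 0 * x ^ 2
    linear_combination (a ^ 2 + a * x) * hz + (a * x * w + 2 * x ^ 2) * hw3

theorem h3_frac {a x : ℂ} (hx : a ^ 3 - x ^ 3 ≠ 0) (k : ZMod 3) :
    1 / (a - x) + zw (-k) * (1 / (a - w * x)) + zw (-k) ^ 2 * (1 / (a - w ^ 2 * x)) =
      3 * a ^ (2 - k.val) * (x ^ k.val / (a ^ 3 - x ^ 3)) := by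
  have hw3 := CUL.w3
  have hw2 := CUL.w2
  have e1 : (a - x) * (a - w * x) * (a - w ^ 2 * x) = a ^ 3 - x ^ 3 := by
    have : (a - x) * (a - w * x) * (a - w ^ 2 * x) = a ^ 3 - x ^ 3 * w ^ 3
        - (1 + w + w ^ 2) * (a ^ 2 * x) + (1 + w + w ^ 2) * (w * a * x ^ 2) := by ring
    rw [this, hw3, hw2]; ring
  have e2 : (a - x) * (a - w * x) * (a - w ^ 2 * x) ≠ 0 := by
    rw [e1]; exact hx
  have n1 : a - x ≠ 0 := fun h => e2 (by rw [h]; ring)
  have n2 : a - w * x ≠ 0 := fun h => e2 (by rw [h]; ring)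
  have n3 : a - w ^ 2 * x ≠ 0 := fun h => e2 (by rw [h]; ring)
  have i1 : 1 / (a - x) = ((a - w * x) * (a - w ^ 2 * x)) / (a ^ 3 - x ^ 3) := by
    rw [div_eq_div_iff n1 hx]; linear_combination -e1
  have i2 : 1 / (a - w * x) = ((a - x) * (a - w ^ 2 * x)) / (a ^ 3 - x ^ 3) := by
    rw [div_eq_div_iff n2 hx]; linear_combination -e1
  have i3 : 1 / (a - w ^ 2 * x) = ((a - x) * (a - w * x)) / (a ^ 3 - x ^ 3) := by
    rw [div_eq_div_iff n3 hx]; linear_combination -e1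
  rw [i1, i2, i3]
  have h := h3_num (a := a) (x := x) k
  calc _ = ((a - w * x) * (a - w ^ 2 * x) + zw (-k) * ((a - x) * (a - w ^ 2 * x)) +
      zw (-k) ^ 2 * ((a - x) * (a - w * x))) / (a ^ 3 - x ^ 3) := by ring
    _ = _ := by rw [h]; ring

theorem h3_ne (h : Cl0 D) (d : Dat D) {t : ℂ} (ht : Nl t) {n : ℕ} (htn : emb la ^ n * t ∈ Set.range emb)
    {c : Eis} (hc : IsCoprime c (4 * D)) : xw t ≠ xc D c := by
  intro h1
  have hP := OT_c h d hc
  rcases (xw_eq_iff t _ ht hP.1).1 h1 with h2 | h2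
  · refine hP.neg.add_nl n htn ?_
    rwa [neg_add_eq_sub]
  · refine hP.add_nl n htn ?_
    rwa [add_comm]

theorem h3_ne3 (h : Cl0 D) (d : Dat D) {t : ℂ} (ht : Nl t) {n : ℕ} (htn : emb la ^ n * t ∈ Set.range emb)
    {c : Eis} (hc : IsCoprime c (4 * D)) : xw t ^ 3 - xc D c ^ 3 ≠ 0 := by
  have hom : IsCoprime (CU.om * c) (4 * D) := (h3_cop h3_unit_om _).mul_left hc
  have hom2 : IsCoprime (CU.om * (CU.om * c)) (4 * D) := (h3_cop h3_unit_om _).mul_left hom
  have n1 := sub_ne_zero.2 (h3_ne h d ht htn hc)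
  have n2 := sub_ne_zero.2 (h3_ne h d ht htn hom)
  have n3 := sub_ne_zero.2 (h3_ne h d ht htn hom2)
  rw [h3_xc_om] at n2
  rw [h3_xc_om, h3_xc_om] at n3
  have hw3 := CUL.w3
  have hw2 := CUL.w2
  have e1 : (xw t - xc D c) * (xw t - w * xc D c) * (xw t - w * (w * xc D c)) = xw t ^ 3 - xc D c ^ 3 := by
    have : (xw t - xc D c) * (xw t - w * xc D c) * (xw t - w * (w * xc D c)) = xw t ^ 3 - xc D c ^ 3 * w ^ 3
        - (1 + w + w ^ 2) * (xw t ^ 2 * xc D c) + (1 + w + w ^ 2) * (w * xw t * xc D c ^ 2) := by ring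
    rw [this, hw3, hw2]; ring
  rw [← e1]
  exact mul_ne_zero (mul_ne_zero n1 n2) n3

theorem h3_pair {P t : ℂ} (hP : OT P) (ht : Nl t) {n : ℕ} (htn : emb la ^ n * t ∈ Set.range emb) :
    ez (P + t) + ez (-P + t) = 2 * ez t + yw t / (xw t - xw P) := by
  have h1 : Nl (t + P) := by
    rw [add_comm]
    exact hP.add_nl n htn
  have h2 : Nl (t - P) := by
    rw [sub_eq_add_neg, add_comm]
    exact hP.neg.add_nl n htn
  have h := CUL.ez_sd ht hP.1 h1 h2
  rw [add_comm P t, add_comm (-P) t, ← sub_eq_add_neg]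
  linear_combination h

theorem h3_gen (h : Cl0 D) (d : Dat D) {R : Finset Eis} (hR : IsR d R) {t : ℂ} (ht : Nl t) {n : ℕ}
    (htn : emb la ^ n * t ∈ Set.range emb) :
    ∑ α ∈ rp (4 * D), conj (chi d α) * ez (emb α / emb (4 * D) + t) =
      3 * ∑ c ∈ R, conj (chi d c) * (xc D c ^ (kk d).val *
        (yw t * xw t ^ (2 - (kk d).val) / (xw t ^ 3 - xc D c ^ 3))) := by
  have hf := h3_four_ne h
  have hfe : emb (4 * D) ≠ 0 := CUL.l2_emb_ne hf
  have hrep := CUL.rp_spec hf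
  have hcop : ∀ α : Eis, chi d α ≠ 0 → IsCoprime α (4 * D) := fun α hα => (chi_ne_zero_iff d α).1 hα
  obtain ⟨V, hV⟩ : ∃ V, V = ∑ α ∈ rp (4 * D), conj (chi d α) * ez (emb α / emb (4 * D) + t) := ⟨_, rfl⟩
  -- step 1
  have s1 : 2 * V = yw t * ∑ α ∈ rp (4 * D), conj (chi d α) * (1 / (xw t - xc D α)) := by
    have h1 : ∑ α ∈ rp (4 * D), conj (chi d (-α)) * ez (emb (-α) / emb (4 * D) + t) = V := by
      rw [hV]
      refine hrep.sum_neg (fun α => conj (chi d α) * ez (emb α / emb (4 * D) + t)) ?_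
      intro a b hab
      obtain ⟨r, hr⟩ := hab
      have h2 : a = b + 4 * D * r := by linear_combination hr
      have h3 : emb a / emb (4 * D) = emb b / emb (4 * D) + emb r := by
        rw [h2, map_add, map_mul]; field_simp
      show conj (chi d a) * ez (emb a / emb (4 * D) + t) = conj (chi d b) * ez (emb b / emb (4 * D) + t)
      rw [chi_congr d (x := a) (y := b) ⟨r, hr⟩, h3, add_right_comm, CUL.ez_add_emb]
    have h2 : 2 * V = ∑ α ∈ rp (4 * D), (conj (chi d α) * ez (emb α / emb (4 * D) + t) +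
        conj (chi d (-α)) * ez (emb (-α) / emb (4 * D) + t)) := by
      rw [Finset.sum_add_distrib, h1, two_mul, ← hV]
    have h3 : ∀ α ∈ rp (4 * D), (conj (chi d α) * ez (emb α / emb (4 * D) + t) +
        conj (chi d (-α)) * ez (emb (-α) / emb (4 * D) + t)) =
        2 * ez t * conj (chi d α) + yw t * (conj (chi d α) * (1 / (xw t - xc D α))) := by
      intro α _
      by_cases hα : chi d α = 0
      · rw [chi_neg, hα]; simp
      · have h4 := h3_pair (OT_c h d (hcop α hα)) ht htn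
        rw [chi_neg, map_neg, neg_div]
        rw [← mul_add, h4, xc]
        ring
    rw [h2, Finset.sum_congr rfl h3, Finset.sum_add_distrib, ← Finset.mul_sum, ← Finset.mul_sum, sum_chi h d,
      mul_zero, zero_add]
  -- step 2
  have hG : ∀ a b : Eis, 4 * D ∣ a - b → conj (chi d a) * (1 / (xw t - xc D a)) =
      conj (chi d b) * (1 / (xw t - xc D b)) := by
    intro a b hab
    rw [chi_congr d hab, h3_xc_congr h hab]
  have hom : IsCoprime (CU.om : Eis) (4 * D) := h3_cop h3_unit_om _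
  have s2 : ∑ α ∈ rp (4 * D), conj (chi d (CU.om * α)) * (1 / (xw t - xc D (CU.om * α))) =
      ∑ α ∈ rp (4 * D), conj (chi d α) * (1 / (xw t - xc D α)) :=
    hrep.sum_mul hom (fun α => conj (chi d α) * (1 / (xw t - xc D α))) hG
  have hom2 : IsCoprime (CU.om * CU.om : Eis) (4 * D) := h3_cop (h3_unit_om.mul h3_unit_om) _
  have s3 : ∑ α ∈ rp (4 * D), conj (chi d (CU.om * CU.om * α)) * (1 / (xw t - xc D (CU.om * CU.om * α))) =
      ∑ α ∈ rp (4 * D), conj (chi d α) * (1 / (xw t - xc D α)) :=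
    hrep.sum_mul hom2 (fun α => conj (chi d α) * (1 / (xw t - xc D α))) hG
  have s4 : 3 * ∑ α ∈ rp (4 * D), conj (chi d α) * (1 / (xw t - xc D α)) =
      ∑ α ∈ rp (4 * D), 3 * xw t ^ (2 - (kk d).val) *
        (conj (chi d α) * xc D α ^ (kk d).val / (xw t ^ 3 - xc D α ^ 3)) := by
    have h5 : 3 * ∑ α ∈ rp (4 * D), conj (chi d α) * (1 / (xw t - xc D α)) =
        ∑ α ∈ rp (4 * D), (conj (chi d α) * (1 / (xw t - xc D α)) +
          conj (chi d (CU.om * α)) * (1 / (xw t - xc D (CU.om * α))) +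
          conj (chi d (CU.om * CU.om * α)) * (1 / (xw t - xc D (CU.om * CU.om * α)))) := by
      rw [Finset.sum_add_distrib, Finset.sum_add_distrib, s2, s3]; ring
    rw [h5]
    refine Finset.sum_congr rfl fun α _ => ?_
    rw [mul_assoc CU.om CU.om α, h3_chi_om d (CU.om * α), h3_chi_om d α, h3_xc_om (CU.om * α), h3_xc_om α]
    by_cases hα : chi d α = 0
    · rw [hα]; simp
    · have h6 := h3_frac (h3_ne3 h d ht htn (hcop α hα)) (kk d)
      have h7 : 3 * xw t ^ (2 - (kk d).val) * (conj (chi d α) * xc D α ^ (kk d).val / (xw t ^ 3 - xc D α ^ 3)) =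
          conj (chi d α) * (3 * xw t ^ (2 - (kk d).val) * (xc D α ^ (kk d).val / (xw t ^ 3 - xc D α ^ 3))) := by
        ring
      rw [h7, ← h6]
      rw [show w * (w * xc D α) = w ^ 2 * xc D α by ring]
      ring
  -- step 3
  have s5 : ∑ α ∈ rp (4 * D), 3 * xw t ^ (2 - (kk d).val) *
        (conj (chi d α) * xc D α ^ (kk d).val / (xw t ^ 3 - xc D α ^ 3)) =
      3 * xw t ^ (2 - (kk d).val) *
        (6 * ∑ c ∈ R, conj (chi d c) * xc D c ^ (kk d).val / (xw t ^ 3 - xc D c ^ 3)) := by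
    rw [← Finset.mul_sum]
    congr 1
    have h8 := sum_R h d hR (fun α => conj (chi d α) * xc D α ^ (kk d).val / (xw t ^ 3 - xc D α ^ 3)) ?_ ?_
    · rw [← h8]
      rw [Finset.sum_filter_of_ne]
      intro α _ hne
      apply hcop
      intro h9
      apply hne
      rw [h9]; simp
    · intro x y hxy
      show _ / _ = _ / _
      rw [chi_congr d hxy, h3_xc_congr h hxy]
    · have hneg : ∀ x : Eis, conj (chi d (-x)) * xc D (-x) ^ (kk d).val / (xw t ^ 3 - xc D (-x) ^ 3) =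
          conj (chi d x) * xc D x ^ (kk d).val / (xw t ^ 3 - xc D x ^ 3) := by
        intro x
        rw [chi_neg, h3_xc_neg]
      have homi : ∀ x : Eis, conj (chi d (CU.om * x)) * xc D (CU.om * x) ^ (kk d).val /
          (xw t ^ 3 - xc D (CU.om * x) ^ 3) =
            conj (chi d x) * xc D x ^ (kk d).val / (xw t ^ 3 - xc D x ^ 3) := by
        intro x
        have h9 : zw (-(kk d)) * w ^ (kk d).val = 1 := by
          change zw (-(kk d)) * zw (kk d) = 1
          rw [← CUL.zw_add, neg_add_cancel, CUL.zw_zero]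
        rw [h3_chi_om, h3_xc_om, mul_pow w (xc D x) 3, CUL.w3, one_mul]
        congr 1
        rw [mul_pow]
        linear_combination (conj (chi d x) * xc D x ^ (kk d).val) * h9
      intro ζ x hζ
      show conj (chi d (ζ * x)) * xc D (ζ * x) ^ (kk d).val / (xw t ^ 3 - xc D (ζ * x) ^ 3) =
          conj (chi d x) * xc D x ^ (kk d).val / (xw t ^ 3 - xc D x ^ 3)
      rcases CUL.unit_cases hζ with rfl | rfl | rfl | rfl | rfl | rfl
      · rw [one_mul]
      · rw [neg_one_mul, hneg]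
      · rw [homi]
      · rw [neg_mul, hneg, homi]
      · rw [pow_two, mul_assoc, homi, homi]
      · rw [neg_mul, hneg, pow_two, mul_assoc, homi, homi]
  have s6 := s4.trans s5
  have s7 : ∑ c ∈ R, conj (chi d c) * (xc D c ^ (kk d).val *
        (yw t * xw t ^ (2 - (kk d).val) / (xw t ^ 3 - xc D c ^ 3))) =
      (yw t * xw t ^ (2 - (kk d).val)) *
        ∑ c ∈ R, conj (chi d c) * xc D c ^ (kk d).val / (xw t ^ 3 - xc D c ^ 3) := by
    rw [Finset.mul_sum]
    refine Finset.sum_congr rfl fun c _ => ?_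
    ring
  rw [← hV, s7]
  linear_combination (1 / 2) * s1 + (1 / 6 * yw t) * s6

theorem h3_W3 {b : Eis} (hb : b ∈ W3) : Nl (emb b / emb la ^ 3) ∧
    emb la ^ 3 * (emb b / emb la ^ 3) ∈ Set.range emb := by
  have hla : emb la ≠ 0 := CUL.la_ne
  have hla3 : (la : Eis) ^ 3 ≠ 0 := by
    intro h0
    have h1 := congrArg emb h0
    rw [map_pow, map_zero] at h1
    exact pow_ne_zero 3 hla h1
  refine ⟨?_, b, ?_⟩
  · rw [← map_pow, CUL.nl_div_iff hla3]
    intro hd
    have hP := CUL.l5_prim hb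
    have hc : IsCoprime la b := (CUL.cop_la hP).symm
    have h2 : (la : Eis) ∣ b := (dvd_pow_self la (by norm_num)).trans hd
    have h3 : IsUnit (la : Eis) := hc.isUnit_of_dvd' dvd_rfl h2
    exact TH.la_prime.not_isUnit h3
  · rw [mul_div_cancel₀]
    exact pow_ne_zero 3 hla

theorem VF_sum (h : Cl0 D) (d : Dat D) {R : Finset Eis} (hR : IsR d R) (i : ℕ) :
    VF d i = 3 * ∑ c ∈ R, conj (chi d c) * (xc D c ^ (kk d).val * BS (iu i) (kk d).val (xc D c)) := by
  have e1 : VF d i = ∑ b ∈ W3, cu (iu i) b *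
      ∑ α ∈ rp (4 * D), conj (chi d α) * ez (emb α / emb (4 * D) + emb b / emb la ^ 3) := by
    unfold VF FF
    simp only [Finset.mul_sum]
    rw [Finset.sum_comm]
    refine Finset.sum_congr rfl fun b _ => Finset.sum_congr rfl fun α _ => ?_
    ring
  have e2 : ∀ b ∈ W3, cu (iu i) b *
      ∑ α ∈ rp (4 * D), conj (chi d α) * ez (emb α / emb (4 * D) + emb b / emb la ^ 3) =
      3 * ∑ c ∈ R, conj (chi d c) * (xc D c ^ (kk d).val * (cu (iu i) b *
        (yw (emb b / emb la ^ 3) * xw (emb b / emb la ^ 3) ^ (2 - (kk d).val) /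
          (xw (emb b / emb la ^ 3) ^ 3 - xc D c ^ 3)))) := by
    intro b hb
    obtain ⟨h1, h2⟩ := h3_W3 hb
    rw [h3_gen h d hR h1 h2, Finset.mul_sum, Finset.mul_sum, Finset.mul_sum]
    refine Finset.sum_congr rfl fun c _ => ?_
    ring
  rw [e1, Finset.sum_congr rfl e2, ← Finset.mul_sum, Finset.sum_comm]
  congr 1
  refine Finset.sum_congr rfl fun c _ => ?_
  unfold BS
  rw [← Finset.mul_sum, ← Finset.mul_sum]

end JX
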