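import Pool.Agent.JX.P2
import Pool.Agent.JX.H3
import Pool.Agent.JL.H2
import Pool.Agent.JL.G3

/-!
# [JX-H4] the closed formula

PROOF. `BS (iu i) k z` is the sum over `b = 1, -2, 4` with the weights `cu u 1 = 1`, `cu u (-2) = zw (us u)`, `cu u 4 = zw (us u)²` (`CUL.cu_W`, `cu_one`). With `q` of `p1_pts` choose `m ∈ {1, 2}` with `q^m = zw (us (iu i))` (`us = 1, 2`: `us_iu'`; `q = w`: `m = us`; `q = w²`: `m = 3 - us`): `p2_sum` with `X 0, X 1, X 2` the `x`-coordinates of the points `1/λ³, -2/λ³, 4/λ³`, `z = xc D c`, `z' = xc D (la c)`.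
Conditions: `xc D c ≠ 0` (`g3_xc_ne`), `1 + x³ ≠ 0` (`h3_x3`), for `c` and `la c` (coprime to `4 D`, `h2_cop`), `xw_la`: `x' = (x³ + 1)/(λ² x²)`, `λ⁶ = -27` (`CUL.la_cube`, `th_sq`), `emb (la * c) / emb (4 D) = emb la * (c/f)`.
`VF_sum`: `VF = 3 ∑ conj χ(c) x_c^k (-(4/3) κ θ Gc)`. `κ^9 = 1`: `κ = υ^(3-m) q^(m-1) C^(2-k)`, `υ^9 = 1`, `q³ = 1`, `C³ = 1`.
-/

set_option autoImplicit false

open NumberField IsDedekindDomain
open scoped Classical ComplexConjugate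

namespace JX

open CM27 JZ JL
open CU (la eE)
open CUL (Nl ez si ta rh DS Cont LV IsRep rp cr mn zw OT GalU cu us FF W3)

variable {D : Eis}

theorem h4_rel (z : ℂ) (hz : xw z ≠ 0) :
    27 * xw (emb la * z) ^ 3 * xw z ^ 6 = -(xw z ^ 3 + 1) ^ 3 := by
  have h6 : emb la ^ 6 = -27 := by
    have h1 : emb la ^ 6 = (emb la ^ 2) ^ 3 := by ring
    rw [h1, CUL.la_sq]
    linear_combination (-27 : ℂ) * CUL.w3
  have hl : emb la ≠ 0 := CUL.la_ne
  rw [CUL.xw_la, div_pow]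
  have h2 : (emb la ^ 2 * xw z ^ 2) ^ 3 = -27 * xw z ^ 6 := by
    linear_combination xw z ^ 6 * h6
  rw [h2]
  field_simp

/-- the choice of `m` -/
theorem h4_m {q : ℂ} (hq : q = w ∨ q = w ^ 2) {s : ZMod 3} (hs : s = 1 ∨ s = 2) :
    ∃ m : ℕ, (m = 1 ∨ m = 2) ∧ q ^ m = zw s := by
  have h3 := CUL.w3
  rcases hq with rfl | rfl <;> rcases hs with rfl | rfl
  · exact ⟨1, Or.inl rfl, by rw [CUL.zw_one, pow_one]⟩
  · exact ⟨2, Or.inr rfl, by rw [CUL.zw_two]⟩
  · exact ⟨2, Or.inr rfl, by rw [CUL.zw_one]; linear_combination w * h3⟩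
  · exact ⟨1, Or.inl rfl, by rw [CUL.zw_two, pow_one]⟩

theorem VF_eq (h : Cl0 D) (d : Dat D) {R : Finset Eis} (hR : IsR d R) {i : ℕ} (hi : i = 1 ∨ i = 2) :
    ∃ (q κ : ℂ) (m : ℕ), (q = w ∨ q = w ^ 2) ∧ (m = 1 ∨ m = 2) ∧ q ^ m = zw (-(i : ZMod 3)) ∧ κ ^ 9 = 1 ∧
      VF d i = -4 * κ * (w - w ^ 2) * TF d R q m := by
  obtain ⟨q, υ, C, hq, hυ, hC, p0, p1, p2⟩ := p1_pts
  have hus : us (iu i) = 1 ∨ us (iu i) = 2 := us_iu' hi
  obtain ⟨m, hm, hqm⟩ := h4_m hq hus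
  have hq1 : q ^ 2 + q + 1 = 0 := by
    rcases hq with rfl | rfl
    · linear_combination CUL.w2
    · linear_combination CUL.w2 + w * CUL.w3
  have hq3 : q ^ 3 = 1 := by linear_combination (q - 1) * hq1
  set k : ℕ := (kk d).val with hk
  have hk3 : k < 3 := ZMod.val_lt _
  refine ⟨q, υ ^ (3 - m) * q ^ (m - 1) * C ^ (2 - k), m, hq, hm, ?_, ?_, ?_⟩
  · rw [hqm, us_iu hi]
  · have e1 : υ ^ 9 = 1 := by
      have : υ ^ 9 = (υ ^ 3) ^ 3 := by ring
      rw [this, hυ, hq3]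
    have e2 : q ^ 9 = 1 := by
      have : q ^ 9 = (q ^ 3) ^ 3 := by ring
      rw [this, hq3, one_pow]
    have e3 : C ^ 9 = 1 := by
      have : C ^ 9 = (C ^ 3) ^ 3 := by ring
      rw [this, hC, one_pow]
    rw [mul_pow, mul_pow, ← pow_mul, ← pow_mul, ← pow_mul, mul_comm (3 - m) 9, mul_comm (m - 1) 9,
      mul_comm (2 - k) 9, pow_mul, pow_mul, pow_mul, e1, e2, e3, one_pow, one_pow, one_pow, mul_one,
      mul_one]
  · have hBS : ∀ c ∈ R, BS (iu i) k (xc D c) =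
        -(4 / 3) * (υ ^ (3 - m) * q ^ (m - 1) * C ^ (2 - k)) * (w - w ^ 2) *
          Gc q k m (xc D c) (xc D (la * c)) := by
      intro c hc
      have hcop : IsCoprime c (4 * D) := hR.1 c hc
      have hcop' : IsCoprime (la * c) (4 * D) := (h2_cop d).mul_left hcop
      have hz : xc D c ≠ 0 := g3_xc_ne h d hcop
      have hz1 : 1 + xc D c ^ 3 ≠ 0 := by
        rw [add_comm]
        exact h3_x3 h d hcop
      have hz' : 1 + xc D (la * c) ^ 3 ≠ 0 := by
        rw [add_comm]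
        exact h3_x3 h d hcop'
      have hxl : xc D (la * c) = xw (emb la * (emb c / emb (4 * D))) := by
        rw [xc, map_mul, mul_div_assoc]
      have hr : 27 * xc D (la * c) ^ 3 * xc D c ^ 6 = -(xc D c ^ 3 + 1) ^ 3 := by
        rw [hxl]
        exact h4_rel _ hz
      have h1 := p2_sum (X := fun n => if n = 0 then xw (emb 1 / emb la ^ 3) else
          if n = 1 then xw (emb (-2) / emb la ^ 3) else xw (emb 4 / emb la ^ 3))
        (Y := fun n => if n = 0 then yw (emb 1 / emb la ^ 3) else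
          if n = 1 then yw (emb (-2) / emb la ^ 3) else yw (emb 4 / emb la ^ 3))
        hq1 hυ hC p0 p1 p2 hz hz1 hz' hr hk3 hm
      rw [← h1]
      rw [Finset.sum_range_succ, Finset.sum_range_succ, Finset.sum_range_succ, Finset.sum_range_zero]
      unfold BS
      have hW : W3 = ({1, 4, -2} : Finset Eis) := rfl
      rw [hW, Finset.sum_insert (by decide), Finset.sum_insert (by decide), Finset.sum_singleton,
        CUL.cu_one, (CUL.cu_W (iu i)).1, (CUL.cu_W (iu i)).2, hqm]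
      simp only [if_true, one_ne_zero, if_false, OfNat.ofNat_ne_zero, OfNat.ofNat_ne_one, pow_zero,
        pow_one]
      ring
    rw [VF_sum h d hR i]
    unfold TF
    have hs : ∑ c ∈ R, conj (chi d c) * (xc D c ^ k * BS (iu i) k (xc D c)) =
        -(4 / 3) * (υ ^ (3 - m) * q ^ (m - 1) * C ^ (2 - k)) * (w - w ^ 2) *
        ∑ c ∈ R, conj (chi d c) * (xc D c ^ k * Gc q k m (xc D c) (xc D (la * c))) := by
      rw [Finset.mul_sum]
      refine Finset.sum_congr rfl fun c hc => ?_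
      rw [hBS c hc]
      ring
    rw [hs]
    ring

end JX
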