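import Pool.Agent.JX.A6
import Pool.Agent.JX.H4
import Pool.Agent.JL.G3
import Pool.Agent.JL.A4
import Pool.Agent.JL.H2

/-!
# [JX-A7] the valuation of `V`

Model: `TT_val`, `VV_val` in JL/A4.lean (construction of `r, X, ψ, l`; copy). New: `x' c = xc D (la * c)`; `hxx`: `xc D (la c) = xw (la (c/f)) = (x³ + 1)/(la² x²)` (`CUL.xw_la`), `la^6 = -27`; `hp`: `∑_{c ∈ R} q2 c · xc (la c)³ = q2(la) ∑_{c ∈ R} q2 c · xc c³` (`c ↦ la c` permutes `R` modulo the units and `4 D`: `g3_perm`, `g3_unit`, `g3_q2` in JL/G3.lean; `xc (ζ c)³ = xc c³` for units `ζ`; `q2 (la c) = q2 la q2 c`, `q2 la = η`: `q2_la`, `h2_cop`), `η = ei d`.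
`ψ = n` for `k ≠ 0`: there `c3 d c = 1` on `R` (`IsR`).
`VF_eq`: `VF = -4 κ (w - w²) TF`: `v(4) = v(κ) = 1`, `v(w - w²) = v(la)` (`(w - w²)² = -3`: `th_sq`). `TF` is the sum of `AX_main` with `ψ c = conj (chi d c)`.
-/

set_option autoImplicit false

open NumberField IsDedekindDomain
open scoped Classical ComplexConjugate

namespace JX

open CM27 JZ JL
open CU (la eE)
open CUL (Nl ez si ta rh DS Cont LV IsRep rp cr mn zw OT GalU cu us FF W3)

variable {D : Eis}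

theorem a7_ei (d : Dat D) : ((ei d : ℤ) : Eis) = d.η ∧ (ei d = 1 ∨ ei d = -1) := by
  rcases d.hη with h1 | h1
  · have h2 : ei d = 1 := by rw [ei, if_pos h1]
    rw [h2, h1]
    exact ⟨by simp, Or.inl rfl⟩
  · have h2 : ei d = -1 := by
      rw [ei, if_neg]
      rw [h1]
      decide
    rw [h2, h1]
    exact ⟨by simp, Or.inr rfl⟩

theorem a7_q2la (h : Cl0 D) (d : Dat D) : q2 d la = ei d := by
  have h1 := q2_la h d
  rw [← (a7_ei d).1] at h1
  exact_mod_cast h1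

/-- `x(c la)` -/
theorem a7_xla (c : Eis) : xc D (la * c) = (xc D c ^ 3 + 1) / (emb la ^ 2 * xc D c ^ 2) := by
  rw [xc, xc, map_mul, mul_div_assoc, CUL.xw_la]

theorem a7_la6 : emb la ^ 6 = -27 := by
  have h1 := CUL.la_cube
  have h2 := CUL.th_sq
  have h3 : emb la ^ 6 = (emb la ^ 3) ^ 2 := by ring
  rw [h3, h1, mul_pow, h2]
  norm_num

theorem a7_xx (h : Cl0 D) (d : Dat D) {c : Eis} (hc : IsCoprime c (4 * D)) :
    27 * xc D (la * c) ^ 3 * xc D c ^ 6 = -(xc D c ^ 3 + 1) ^ 3 := by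
  have hx := g3_xc_ne h d hc
  have hl := CUL.la_ne
  rw [a7_xla, div_pow, mul_pow, ← pow_mul, ← pow_mul, a7_la6]
  field_simp
  ring

/-- sums over `R` are permuted -/
theorem a7_perm (h : Cl0 D) (d : Dat D) {R : Finset Eis} (hR : IsR d R) :
    ∑ c ∈ R, (q2 d c : ℂ) * xc D (la * c) ^ 3 = ((ei d : ℤ) : ℂ) * ∑ c ∈ R, (q2 d c : ℂ) * xc D c ^ 3 := by
  have hla := h2_cop d
  obtain ⟨φ, hφ, hprod⟩ := g3_perm d hR hla
  have hinj : ∀ F : Eis → ℂ, ∑ c ∈ R, F (φ c) = ∑ c ∈ R, F c := by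
    -- from the product formula one cannot read off the sum; use the permutation property
    intro F
    have himg : R.image φ = R ∧ Set.InjOn φ (R : Set Eis) := by
      have hinj : Set.InjOn φ (R : Set Eis) := by
        intro c hc c' hc' he
        rw [Finset.mem_coe] at hc hc'
        obtain ⟨-, ζ, hζ, t, ht⟩ := hφ c hc
        obtain ⟨-, ζ', hζ', t', ht'⟩ := hφ c' hc'
        rw [← he] at ht'
        have h2 : 4 * D ∣ la * (ζ' * c - ζ * c') := ⟨ζ' * t - ζ * t', by linear_combination ζ' * ht - ζ * ht'⟩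
        have h3 : 4 * D ∣ ζ' * c - ζ * c' := hla.symm.dvd_of_dvd_mul_left h2
        obtain ⟨c₀, -, h4⟩ := hR.2.1 c (hR.1 c hc)
        have h5 := h4 c ⟨hc, 1, isUnit_one, by rw [one_mul, sub_self]; exact dvd_zero _⟩
        obtain ⟨v, hv⟩ := hζ'.exists_left_inv
        have h6 := h4 c' ⟨hc', v * ζ, (IsUnit.of_mul_eq_one _ hv).mul hζ, by
          obtain ⟨u, hu⟩ := h3
          exact ⟨v * u, by linear_combination v * hu - c * hv⟩⟩
        rw [h5, h6]
      refine ⟨?_, hinj⟩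
      apply Finset.eq_of_subset_of_card_le
      · intro x hx
        obtain ⟨c, hc, rfl⟩ := Finset.mem_image.1 hx
        exact (hφ c hc).1
      · rw [Finset.card_image_of_injOn hinj]
    conv_rhs => rw [← himg.1]
    rw [Finset.sum_image himg.2]
  have hq : q2 d la = 1 ∨ q2 d la = -1 := by
    rw [a7_q2la h d]
    exact (a7_ei d).2
  rw [← hinj (fun c => (q2 d c : ℂ) * xc D c ^ 3), Finset.mul_sum]
  refine Finset.sum_congr rfl fun c hc => ?_
  obtain ⟨h2, ζ, hζ, hd⟩ := hφ c hc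
  have h3 := g3_q2 d hR hq hζ hd
  have h4 : xc D (la * c) ^ 3 = xc D (φ c) ^ 3 := by
    rw [h3_xc_congr h hd]
    obtain ⟨t, -, ht⟩ := g3_unit d hζ
    have h1 : zw t ^ 3 = 1 := by
      rw [CUL.zw_pow]
      have h2 : ((3 : ℕ) : ZMod 3) = 0 := by decide
      rw [h2, zero_mul, CUL.zw_zero]
    rw [ht, mul_pow, h1, one_mul]
  rw [h4, h3, a7_q2la h d]
  push_cast
  ring

theorem TF_val (h : Cl0 D) (d : Dat D) {R : Finset Eis} (hR : IsR d R) (A : ValuationSubring ℂ)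
    (hA : A.valuation 3 < 1) {i : ℕ} (hi : i = 1 ∨ i = 2) {s : ℂ} (hs : s ^ 2 = emb D) {m : ZMod 3}
    (hm : kk d ≠ 0 → m = 0) {u₁ u₂ : ℂ} (h1 : u₁ ∈ CF.KK) (h2 : u₂ ∈ CF.KK)
    (he : zw m * ee d R = u₁ + u₂ * s) (he' : (zw m * ee d R)⁻¹ = u₁ - u₂ * s) (h0 : zw m * ee d R ≠ 0)
    {q : ℂ} {m' : ℕ} (hq : q = w ∨ q = w ^ 2) (hm' : m' = 1 ∨ m' = 2) (hqm : q ^ m' = zw (-(i : ZMod 3))) :
    A.valuation (TF d R q m') ≤ A.valuation 3 ∧
      A.valuation (zw m * ee d R - 1) ≤ A.valuation (emb la) ∧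
      (A.valuation (TF d R q m') = A.valuation 3 ↔
        ¬ LC A (sl i (kk d).val (ei d)) (u₂ / emb la)) := by
  obtain ⟨r, hr⟩ := a4_exists_r
  have hrv := JZ.a1_r A hA hr
  have hrA : r ∈ A := (ValuationSubring.valuation_le_one_iff A _).1 hrv.le
  have hXv : ∀ c ∈ R, A.valuation ((xc D c - r) / emb la) ≤ 1 := by
    intro c hc
    have h1 := JZ.x_sub_r A hA hr (OT_c h d (hR.1 c hc))
    have h2 : A.valuation (emb la) ≠ 0 := (CUL.v2_wla A)
    rw [map_div₀]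
    exact div_le_one_of_le₀ h1 zero_le
  let X : Eis → A := fun c => if hc : A.valuation ((xc D c - r) / emb la) ≤ 1 then
    ⟨(xc D c - r) / emb la, (ValuationSubring.valuation_le_one_iff A _).1 hc⟩ else 0
  have hX : ∀ c ∈ R, xc D c = ((⟨r, hrA⟩ : A) : ℂ) + emb la * (X c : ℂ) := by
    intro c hc
    have h1 : (X c : ℂ) = (xc D c - r) / emb la := by
      simp only [X, dif_pos (hXv c hc)]
    rw [h1]
    have h2 := CUL.la_ne
    field_simp
    ring
  -- the character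
  have hcz : ∀ c ∈ R, ∃ l : ZMod 3, c3 d c = zw l ∧ (kk d ≠ 0 → l = 0) := by
    intro c hc
    by_cases hk : kk d = 0
    · obtain ⟨l, hl⟩ := c3_zw d (hR.1 c hc)
      exact ⟨l, hl, fun h1 => absurd hk h1⟩
    · exact ⟨0, by rw [hR.2.2 hk c hc, CUL.zw_zero], fun _ => rfl⟩
  choose! l hl1 hl2 using hcz
  let ψ : Eis → A := fun c => (q2 d c : A) * JZ.wA A ^ (-(l c)).val
  have hψc : ∀ c ∈ R, (ψ c : ℂ) = conj (chi d c) := by
    intro c hc
    have h1 : ((JZ.wA A : A) : ℂ) = w := rfl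
    have h2 : (ψ c : ℂ) = (q2 d c : ℂ) * w ^ (-(l c)).val := by
      simp only [ψ]
      push_cast
      rw [h1]
    rw [h2, chi, map_mul, hl1 c hc, CUL.zw_conj, map_intCast]
    rfl
  have hq1 : ∀ c ∈ R, q2 d c = 1 ∨ q2 d c = -1 := by
    intro c hc
    have h1 := (q2_ne_zero_iff d c).2 (hR.1 c hc)
    rcases q2_cases d c with h2 | h2 | h2
    · exact absurd h2 h1
    · exact Or.inl h2
    · exact Or.inr h2
  have hψ0 : ∑ c ∈ R, ψ c = 0 := by
    apply Subtype.ext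
    have h1 : ((∑ c ∈ R, ψ c : A) : ℂ) = ∑ c ∈ R, conj (chi d c) := by
      rw [← Finset.sum_congr rfl hψc]
      push_cast
      rfl
    rw [h1]
    by_cases hk : kk d = 0
    · rw [sum_R_chi h d hR hk]; rfl
    · have h2 : ∀ c ∈ R, conj (chi d c) = ((q2 d c : ℤ) : ℂ) := by
        intro c hc
        rw [chi, hR.2.2 hk c hc, mul_one, map_intCast]
      rw [Finset.sum_congr rfl h2, ← Int.cast_sum, sum_R_q2 h d hR]
      simp
  have hψn : ∀ c ∈ R, JZ.rsd A (ψ c) = (q2 d c : IsLocalRing.ResidueField A) := by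
    intro c hc
    simp only [ψ]
    rw [map_mul, map_pow, JZ.rsd_w A hA, one_pow, mul_one, map_intCast]
  have hψk : (kk d).val ≠ 0 → ∀ c ∈ R, ψ c = ((q2 d c : ℤ) : A) := by
    intro hk c hc
    have hk' : kk d ≠ 0 := fun h => hk (by rw [h]; rfl)
    simp only [ψ]
    rw [hl2 c hc hk', neg_zero]
    change _ * JZ.wA A ^ 0 = _
    rw [pow_zero, mul_one]
  have hDη : (3 : Eis) ∣ D - ((ei d : ℤ) : Eis) := by rw [(a7_ei d).1]; exact d.congr
  have hnorm : u₁ ^ 2 - u₂ ^ 2 * emb D = 1 := by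
    have h1 : (u₁ + u₂ * s) * (u₁ - u₂ * s) = 1 := by
      rw [← he, ← he', mul_inv_cancel₀ h0]
    rw [← hs, ← h1]; ring
  have hjm : (kk d).val ≠ 0 → m.val = 0 := by
    intro hk
    rw [hm fun h => hk (by rw [h]; rfl)]; rfl
  have hmain := AX_main A hA (r := ⟨r, hrA⟩) (by apply Subtype.ext; push_cast; exact hr) R X ψ (q2 d) (xc D)
    (fun c => xc D (la * c)) hX hq1 (fun c hc => a7_xx h d (hR.1 c hc)) (sum_R_q2 h d hR) hψ0 hψn
    (a7_ei d).2 (a7_perm h d hR) (ZMod.val_lt (kk d)) hψk hjm hq hm' hi hqm hDη hs h1 h2 hnorm he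
  rw [← he] at hmain
  have hT : ∑ c ∈ R, (ψ c : ℂ) * (xc D c ^ (kk d).val * Gc q (kk d).val m' (xc D c) (xc D (la * c))) =
      TF d R q m' := by
    rw [TF]
    refine Finset.sum_congr rfl fun c hc => ?_
    rw [hψc c hc]
  rw [hT] at hmain
  exact hmain

theorem VF_val (h : Cl0 D) (d : Dat D) {R : Finset Eis} (hR : IsR d R) (A : ValuationSubring ℂ)
    (hA : A.valuation 3 < 1) {i : ℕ} (hi : i = 1 ∨ i = 2) {s : ℂ} (hs : s ^ 2 = emb D) {m : ZMod 3}
    (hm : kk d ≠ 0 → m = 0) {u₁ u₂ : ℂ} (h1 : u₁ ∈ CF.KK) (h2 : u₂ ∈ CF.KK)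
    (he : zw m * ee d R = u₁ + u₂ * s) (he' : (zw m * ee d R)⁻¹ = u₁ - u₂ * s) (h0 : zw m * ee d R ≠ 0) :
    A.valuation (VF d i) ≤ A.valuation 3 * A.valuation (emb la) ∧
      A.valuation (zw m * ee d R - 1) ≤ A.valuation (emb la) ∧
      (A.valuation (VF d i) = A.valuation 3 * A.valuation (emb la) ↔
        ¬ LC A (sl i (kk d).val (ei d)) (u₂ / emb la)) := by
  obtain ⟨q, κ, m', hq, hm', hqm, hκ, hV⟩ := VF_eq h d hR hi
  obtain ⟨t1, t2, t3⟩ := TF_val h d hR A hA hi hs hm h1 h2 he he' h0 hq hm' hqm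
  have e1 : A.valuation κ = 1 := by
    have e2 : A.valuation κ ^ 9 = 1 := by rw [← map_pow, hκ, map_one]
    exact (pow_eq_one_iff_of_nonneg zero_le (by norm_num)).1 e2
  have e2 : A.valuation (w - w ^ 2) = A.valuation (emb la) := by
    have e3 : A.valuation (w - w ^ 2) ^ 2 = A.valuation (emb la) ^ 2 := by
      rw [← map_pow, CUL.th_sq, Valuation.map_neg, CUL.w_la A hA]
    exact (pow_left_inj₀ zero_le zero_le (by norm_num)).1 e3
  have e3 : A.valuation (VF d i) = A.valuation (TF d R q m') * A.valuation (emb la) := by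
    rw [hV, map_mul, map_mul, map_mul, Valuation.map_neg, JZ.a1_four A hA, e1, e2, one_mul, one_mul, mul_comm]
  have e4 := CUL.v2_wla A
  rw [← t3, e3]
  refine ⟨mul_le_mul_left t1 _, t2, ?_, ?_⟩
  · intro h7
    exact mul_right_cancel₀ e4 h7
  · intro h7
    rw [h7]

end JX
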