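import Pool.Agent.JX.Defs
import Pool.Agent.CUL.G6

/-!
# [JX-G1] `V s / (t F(0))` is in `ℚ(ω)`

PROOF (model JL/G2.lean). `M = 24 D λ³`. `α/f + b/λ³ = c/M`, `c = 6 λ³ α + 24 D b`, so `σ (ez (α/f + b/λ³)) = ez (g α/f + g b/λ³)` (`ez_gal`). `σ VF = ∑_α conj χ(α) ∑_{b ∈ W3} cu u b · ez (g α/f + g b/λ³)`, `cu u b = conj (cu u g) cu u (g b)` (`cu_mul`), and `b ↦ g b` permutes the primary classes modulo `λ³`:
  `∑_{b ∈ W3} G (g b) = ∑_{b ∈ W3} G b` for `G` periodic modulo `λ³` on the primary elements (by `l5_sum` with the representatives `g b`, or: every `g b` is congruent to a unique element of `W3` (`l5_rep`, `l5_inj`), `Finset.sum_bij`). Then `α → g α` as in `g2_VV`: `σ VF = χ(g) conj (cu u g) VF`.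
`σ (FF u 0) = conj (cu u g) FF u 0` in the same way (`FF u 0 = ∑ cu u b ez (b/λ³)`; or `CUL.LV_gal` with `S = ∅`). `gal_s`, `gal_t` (level `24 D ∣ M`): `σ s = q2(g) s`, `σ t = c3(g) t`. So `VF s/(t FF u 0)` is fixed; `CUL.fixed_KK`. (`FF u 0 ≠ 0`: `CUL.v2_FF0_ne`.)
-/

set_option autoImplicit false

open NumberField IsDedekindDomain
open scoped Classical ComplexConjugate

namespace JX

open CM27 JZ JL
open CU (la eE)
open CUL (Nl ez si ta rh DS Cont LV IsRep rp cr mn zw OT GalU cu us FF W3)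

variable {D : Eis}

/-- multiplication by `g` permutes the primary classes modulo `λ³` -/
theorem g1_perm {g : Eis} (hg : Primary g) (G : Eis → ℂ)
    (hG : ∀ a b, Primary a → la ^ 3 ∣ a - b → G a = G b) : ∑ b ∈ W3, G (g * b) = ∑ b ∈ W3, G b := by
  have h1 : ∀ b : Eis, ∃ c : Eis, b ∈ W3 → c ∈ W3 ∧ la ^ 3 ∣ g * b - c := by
    intro b
    by_cases hb : b ∈ W3
    · obtain ⟨c, hc, hd⟩ := CUL.l5_rep (CUL.primary_mul hg (CUL.l5_prim hb))
      exact ⟨c, fun _ => ⟨hc, hd⟩⟩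
    · exact ⟨0, fun h => absurd h hb⟩
  choose f hf using h1
  have hcop : IsCoprime (la ^ 3) g := ((CUL.cop_la hg).pow_right).symm
  have hinj : ∀ b ∈ W3, ∀ b' ∈ W3, f b = f b' → b = b' := by
    intro b hb b' hb' he
    have h2 := (hf b hb).2
    have h3 := (hf b' hb').2
    rw [← he] at h3
    apply CUL.l5_inj hb hb'
    have h4 : la ^ 3 ∣ g * (b - b') := by
      have e : g * (b - b') = (g * b - f b) - (g * b' - f b) := by ring
      rw [e]
      exact dvd_sub h2 h3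
    exact hcop.dvd_of_dvd_mul_left h4
  have himg : W3.image f = W3 := by
    apply Finset.eq_of_subset_of_card_le
    · intro c hc
      obtain ⟨b, hb, rfl⟩ := Finset.mem_image.1 hc
      exact (hf b hb).1
    · rw [Finset.card_image_of_injOn (fun b hb b' hb' he => hinj b hb b' hb' he)]
  calc ∑ b ∈ W3, G (g * b) = ∑ b ∈ W3, G (f b) :=
        Finset.sum_congr rfl fun b hb => hG _ _ (CUL.primary_mul hg (CUL.l5_prim hb)) (hf b hb).2
    _ = ∑ c ∈ W3.image f, G c := (Finset.sum_image fun b hb b' hb' he => hinj b hb b' hb' he).symm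
    _ = ∑ b ∈ W3, G b := by rw [himg]

/-- the point `α/(4 D) + b/λ³` is `c/M`, `M = 24 D λ³` -/
theorem g1_gal (σ : ℂ ≃+* ℂ) (hσ : σ w = w) {g : Eis}
    (hM : 24 * D * la ^ 3 ≠ 0) (hg : GalU σ (24 * D * la ^ 3) g) (α b : Eis) :
    σ (ez (emb α / emb (4 * D) + emb b / emb la ^ 3)) =
      ez (emb (g * α) / emb (4 * D) + emb (g * b) / emb la ^ 3) := by
  have hM0 : emb (24 * D * la ^ 3) ≠ 0 := fun h0 => hM (emb_injective (by rw [h0, map_zero]))
  have e4 : emb (24 * D * la ^ 3) = 24 * emb D * emb la ^ 3 := by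
    rw [map_mul, map_mul, map_ofNat, map_pow]
  have e5 : emb (4 * D) = 4 * emb D := by rw [map_mul, map_ofNat]
  have hM1 := hM0
  rw [e4] at hM1
  have hD0 : emb D ≠ 0 := right_ne_zero_of_mul (left_ne_zero_of_mul hM1)
  have hl0 : emb la ≠ 0 := fun h0 => right_ne_zero_of_mul hM1 (by rw [h0]; norm_num)
  have e1 : ∀ β c : Eis, emb (6 * la ^ 3 * β + 24 * D * c) / emb (24 * D * la ^ 3) =
      emb β / emb (4 * D) + emb c / emb la ^ 3 := by
    intro β c
    have h2 : emb (6 * la ^ 3 * β + 24 * D * c) = 6 * emb la ^ 3 * emb β + 24 * emb D * emb c := by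
      rw [map_add, map_mul, map_mul, map_mul, map_mul, map_ofNat, map_ofNat, map_pow]
    rw [h2, e4, e5]
    field_simp
    ring
  have e2 : g * (6 * la ^ 3 * α + 24 * D * b) = 6 * la ^ 3 * (g * α) + 24 * D * (g * b) := by ring
  rw [← e1, CUL.ez_gal σ hσ hM hg, e2, e1]

theorem g1_cu_conj (u : Eis) (g : Eis) : cu u g * conj (cu u g) = 1 := by
  unfold cu
  rw [CUL.zw_conj, ← CUL.zw_add, add_neg_cancel, CUL.zw_zero]

theorem g1_FF (σ : ℂ ≃+* ℂ) (hσ : σ w = w) {g : Eis} (u : Eis)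
    (hM : 24 * D * la ^ 3 ≠ 0) (hg : GalU σ (24 * D * la ^ 3) g) (α : Eis) :
    σ (FF u (emb α / emb (4 * D))) = conj (cu u g) * FF u (emb (g * α) / emb (4 * D)) := by
  have hla : emb la ^ 3 ≠ 0 := pow_ne_zero _ CUL.la_ne
  obtain ⟨G, hGdef⟩ : ∃ G : Eis → ℂ, G = fun c => cu u c * ez (emb (g * α) / emb (4 * D) + emb c / emb la ^ 3) :=
    ⟨_, rfl⟩
  have hG : ∀ a b, Primary a → la ^ 3 ∣ a - b → G a = G b := by
    intro a b ha hab
    rw [hGdef]
    simp only
    rw [CUL.cu_congr u ha hab]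
    obtain ⟨k, hk⟩ := hab
    have h2 : emb (g * α) / emb (4 * D) + emb a / emb la ^ 3 =
        emb (g * α) / emb (4 * D) + emb b / emb la ^ 3 + emb k := by
      have h3 : a = b + la ^ 3 * k := by linear_combination hk
      rw [h3, map_add emb b, map_mul emb (la ^ 3) k, map_pow, add_div, mul_div_cancel_left₀ _ hla]
      ring
    rw [h2, CUL.ez_add_emb]
  have h1 : ∀ b ∈ W3, σ (cu u b * ez (emb α / emb (4 * D) + emb b / emb la ^ 3)) = conj (cu u g) * G (g * b) := by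
    intro b hb
    have hcu : σ (cu u b) = cu u b := by
      unfold cu
      exact CUL.sigma_zw σ hσ _
    rw [map_mul, hcu, g1_gal σ hσ hM hg, hGdef]
    simp only
    rw [CUL.cu_mul u hg.1 (CUL.l5_prim hb)]
    linear_combination (-(cu u b * ez (emb (g * α) / emb (4 * D) + emb (g * b) / emb la ^ 3))) * g1_cu_conj u g
  have h2 : FF u (emb (g * α) / emb (4 * D)) = ∑ b ∈ W3, G b := by
    rw [hGdef]
    rfl
  unfold FF at h2 ⊢
  rw [map_sum, Finset.sum_congr rfl h1, ← Finset.mul_sum, g1_perm hg.1 G hG, h2]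

/-- the summand of `VF` -/
noncomputable def g1F (d : Dat D) (u b : Eis) : ℂ := conj (chi d b) * FF u (emb b / emb (4 * D))

theorem g1F_congr (h : Cl0 D) (d : Dat D) (u : Eis) {a b : Eis} (hab : 4 * D ∣ a - b) : g1F d u a = g1F d u b := by
  have hf : emb (4 * D) ≠ 0 := by
    intro h0
    have := eis_isDomain
    have h1 : (4 : Eis) * D = 0 := emb_injective (by rw [h0, map_zero])
    rcases mul_eq_zero.1 h1 with h2 | h2
    · have h3 := congrArg emb h2
      rw [map_ofNat, map_zero] at h3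
      norm_num at h3
    · exact cl_ne h h2
  unfold g1F
  rw [chi_congr d hab]
  obtain ⟨k, hk⟩ := hab
  have h2 : emb a / emb (4 * D) = emb b / emb (4 * D) + emb k := by
    have h3 : a = b + 4 * D * k := by linear_combination hk
    rw [h3, map_add emb b, map_mul emb (4 * D) k, add_div, mul_div_cancel_left₀ _ hf]
  rw [h2, CUL.FF_add_emb]

theorem g1_VF (h : Cl0 D) (d : Dat D) (i : ℕ) (σ : ℂ ≃+* ℂ) (hσ : σ w = w) {g : Eis}
    (hM : 24 * D * la ^ 3 ≠ 0) (hg : GalU σ (24 * D * la ^ 3) g) (hc : IsCoprime g (4 * D)) :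
    σ (VF d i) = conj (cu (iu i) g) * chi d g * VF d i := by
  have hD : (4 : Eis) * D ≠ 0 := by
    intro h0
    apply hM
    have h1 : (24 : Eis) * D * la ^ 3 = 6 * (4 * D) * la ^ 3 := by ring
    rw [h1, h0, mul_zero, zero_mul]
  have hR := CUL.rp_spec hD
  have h1 : VF d i = ∑ α ∈ rp (4 * D), g1F d (iu i) α := rfl
  have h2 : ∑ α ∈ rp (4 * D), g1F d (iu i) (g * α) = ∑ α ∈ rp (4 * D), g1F d (iu i) α :=
    hR.sum_mul hc _ fun a b hab => g1F_congr h d (iu i) hab
  have h3 : ∀ α, σ (g1F d (iu i) α) = conj (cu (iu i) g) * chi d g * g1F d (iu i) (g * α) := by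
    intro α
    unfold g1F
    rw [map_mul, g2_sigma_chi d σ hσ, g1_FF σ hσ (iu i) hM hg, chi_mul, map_mul (starRingEnd ℂ)]
    have h4 := chi_conj d hc
    linear_combination (-(conj (chi d α) * (conj (cu (iu i) g) * FF (iu i) (emb (g * α) / emb (4 * D))))) * h4
  rw [h1, map_sum, Finset.sum_congr rfl fun α _ => h3 α, ← Finset.mul_sum, h2]

theorem b_memX (h : Cl0 D) (d : Dat D) {i : ℕ} (hi : i = 1 ∨ i = 2) {s t : ℂ} (hs : s ^ 2 = emb D)
    (ht : t ^ 3 = emb (4 * D)) : VF d i * s / (t * FF (iu i) 0) ∈ CF.KK := by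
  refine CUL.fixed_KK _ fun σ hσ => ?_
  have := eis_isDomain
  have hD0 := cl_ne h
  have h24 : (24 : Eis) ≠ 0 := by
    intro h0
    have h3 := congrArg emb h0
    rw [map_ofNat, map_zero] at h3
    norm_num at h3
  have hM : 24 * D * la ^ 3 ≠ 0 :=
    mul_ne_zero (mul_ne_zero h24 hD0) (pow_ne_zero _ CU.la_prime.ne_zero)
  obtain ⟨g, hg⟩ := CUL.exists_galU σ hσ (24 * D * la ^ 3) hM
  have hc : IsCoprime g (4 * D) := by
    refine hg.2.1.of_isCoprime_of_dvd_right ⟨6 * la ^ 3, by ring⟩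
  have hs' := gal_s d σ hσ hM (dvd_mul_right _ _) hg hs
  have ht' := gal_t d σ hσ hM (dvd_mul_right _ _) hg ht
  have hV := g1_VF h d i σ hσ hM hg hc
  have hF : σ (FF (iu i) 0) = conj (cu (iu i) g) * FF (iu i) 0 := by
    have h1 := g1_FF σ hσ (iu i) hM hg 0
    rw [mul_zero, map_zero, zero_div] at h1
    exact h1
  have hq : ((q2 d g : ℤ) : ℂ) * ((q2 d g : ℤ) : ℂ) = 1 := by
    have h5 := (q2_ne_zero_iff d g).2 hc
    rcases q2_cases d g with h6 | h6 | h6
    · exact absurd h6 h5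
    · rw [h6]
      norm_num
    · rw [h6]
      norm_num
  have hc3 := (c3_ne_zero_iff d g).2 hc
  have hcu : conj (cu (iu i) g) ≠ 0 := by
    intro h0
    have h1 := g1_cu_conj (iu i) g
    rw [h0, mul_zero] at h1
    exact zero_ne_one h1
  rw [map_div₀, map_mul, map_mul, hV, hs', ht', hF, chi]
  have h7 : conj (cu (iu i) g) * (((q2 d g : ℤ) : ℂ) * c3 d g) * VF d i * (((q2 d g : ℤ) : ℂ) * s) =
      (conj (cu (iu i) g) * c3 d g) * (VF d i * s) := by
    linear_combination (conj (cu (iu i) g) * c3 d g * (VF d i * s)) * hq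
  have h8 : c3 d g * t * (conj (cu (iu i) g) * FF (iu i) 0) = (conj (cu (iu i) g) * c3 d g) * (t * FF (iu i) 0) := by ring
  rw [h7, h8, mul_div_mul_left _ _ (mul_ne_zero hcu hc3)]

end JX
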