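import Pool.Agent.JX.Defs
import Pool.Agent.CUL.L5
import Pool.Agent.JL.H2

/-!
# [JX-H2] the value at 1 as a sum over the points of order `4 D`

PROOF (models JL/H2.lean and CUL/L5.lean `RS_eq`). `FfX d i` is periodic modulo `λ³ f`, `f = 4 D`. `LV_periodic`, Chinese remainder theorem (`IsRep.crt`, moduli `f`, `λ³`): `x = α λ³ + β f`, `x / (λ³ f) = α / f + β / λ³`.
`Primary x` iff `3 ∣ β f - 1` iff `3 ∣ β - η` (`h2_mod`) iff `η β` is primary. Then `cu u x = cu u (β f) = cu u (η β) cu u (η f)` (`cu_congr`, `cu_mul`; `η f = 4 (η D)` is primary) and `conj χ(x) = conj χ(α) conj χ(λ)³`.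
Substitute `β = η b`, `b ∈ W3` (`l5_sum` for the function `b ↦` the summand at `η b`), and then `α → η α` (`chi_neg`, `IsRep.sum_neg`), `E1 (η z) = η E1 z`: `LV = (λ³ f)⁻¹ conj χ(λ)³ cu u (η f) η OmC VF`. `u₀ = conj χ(λ)³ cu u (η f) η` has absolute value 1.
-/

set_option autoImplicit false

open NumberField IsDedekindDomain
open scoped Classical ComplexConjugate

namespace JX

open CM27 JZ JL
open CU (la eE)
open CUL (Nl ez si ta rh DS Cont LV IsRep rp cr mn zw OT GalU cu us FF W3)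

variable {D : Eis}

theorem h2_x_prim (d : Dat D) : Primary (d.η * (4 * D)) := by
  obtain ⟨k, hk⟩ := h2_mod d
  have h4 := h2_eta d
  rw [Primary]
  exact ⟨d.η * k, by linear_combination d.η * hk + h4⟩

theorem h2_x_cop (d : Dat D) : IsCoprime (4 * D) (la ^ 3) := (h2_cop d).symm.pow_right

theorem h2_x_chi (d : Dat D) (α β : Eis) : chi d (α * la ^ 3 + β * (4 * D)) = chi d α * chi d la ^ 3 := by
  have e1 : chi d (α * la ^ 3 + β * (4 * D)) = chi d (α * la ^ 3) := by
    apply chi_congr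
    exact ⟨β, by ring⟩
  have e2 : la ^ 3 = la * la * la := by ring
  rw [e1, chi_mul, e2, chi_mul, chi_mul]
  ring

theorem h2_x_E {x y : Eis} {M : Eis} (hM : emb M ≠ 0) (t : ℂ) (h : M ∣ x - y) :
    NAB.E1 (t + emb x / emb M) = NAB.E1 (t + emb y / emb M) := by
  obtain ⟨k, hk⟩ := h
  have e3 : x = y + M * k := by rw [← hk]; ring
  have e2 : t + emb x / emb M = t + emb y / emb M + emb k := by
    rw [e3, map_add, map_mul emb M k]
    field_simp
    ring
  rw [e2, NAB.E1_per]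

theorem h2_x_E' {x y : Eis} {M : Eis} (hM : emb M ≠ 0) (t : ℂ) (h : M ∣ x - y) :
    NAB.E1 (emb x / emb M + t) = NAB.E1 (emb y / emb M + t) := by
  rw [add_comm, h2_x_E hM t h, add_comm]

theorem h2_x_dvd {x y : Eis} (h : la ^ 3 ∣ x - y) : la ^ 3 ∣ y - x := by
  have e1 : y - x = -(x - y) := by ring
  rw [e1]
  exact (dvd_neg).2 h

theorem h2_x_per (d : Dat D) (i : ℕ) (a b : Eis) (hab : 4 * D * la ^ 3 ∣ a - b) : FfX d i a = FfX d i b := by
  have h3 : la ^ 3 ∣ a - b := dvd_trans (Dvd.intro_left _ rfl) hab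
  have h4 : 4 * D ∣ a - b := dvd_trans (Dvd.intro _ rfl) hab
  rw [FfX, FfX]
  by_cases ha : Primary a
  · rw [if_pos ha, if_pos (CUL.primary_congr ha h3), chi_congr d h4, CUL.cu_congr (iu i) ha h3]
  · rw [if_neg ha, if_neg (fun hb => ha (CUL.primary_congr hb (h2_x_dvd h3)))]

/-- the function on the classes modulo `la ^ 3` -/
noncomputable def h2_x_H (i : ℕ) (η : Eis) (t : ℂ) (b : Eis) : ℂ :=
  if Primary b then cu (iu i) b * NAB.E1 (t + emb (η * b) / emb (la ^ 3)) else 0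

theorem h2_x_Hper (i : ℕ) (η : Eis) (t : ℂ) (x y : Eis) (hxy : la ^ 3 ∣ x - y) :
    h2_x_H i η t x = h2_x_H i η t y := by
  have hla : emb (la ^ 3) ≠ 0 := CUL.l2_emb_ne CUL.l5_la_ne
  rw [h2_x_H, h2_x_H]
  by_cases hx : Primary x
  · rw [if_pos hx, if_pos (CUL.primary_congr hx hxy), CUL.cu_congr (iu i) hx hxy]
    congr 1
    apply h2_x_E hla
    have e1 : η * x - η * y = η * (x - y) := by ring
    rw [e1]
    exact dvd_mul_of_dvd_right hxy _
  · rw [if_neg hx, if_neg (fun hb => hx (CUL.primary_congr hb (h2_x_dvd hxy)))]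

theorem h2_x_inner (i : ℕ) {η : Eis} (hη : η * η = 1) (t : ℂ) :
    ∑ β ∈ rp (la ^ 3), h2_x_H i η t (η * β) = ∑ b ∈ W3, cu (iu i) b * NAB.E1 (t + emb (η * b) / emb (la ^ 3)) := by
  have hR := CUL.rp_spec CUL.l5_la_ne
  have hcop : IsCoprime η (la ^ 3) := ⟨η, 0, by rw [hη]; ring⟩
  rw [hR.sum_mul hcop (h2_x_H i η t) (h2_x_Hper i η t),
    CUL.l5_sum hR (h2_x_H i η t) (h2_x_Hper i η t) (fun a ha => if_neg ha)]
  refine Finset.sum_congr rfl fun b hb => ?_
  exact if_pos (CUL.l5_prim hb)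

theorem h2_x_outer (h : Cl0 D) (d : Dat D) (i : ℕ) :
    ∑ α ∈ rp (4 * D), conj (chi d α) * ∑ b ∈ W3, cu (iu i) b *
      NAB.E1 (emb α / emb (4 * D) + emb (d.η * b) / emb (la ^ 3)) = emb d.η * (OmC * VF d i) := by
  have hD := h2_D_ne h
  have hemD : emb (4 * D) ≠ 0 := CUL.l2_emb_ne hD
  have hOm : OmC ≠ 0 := OmC_ne
  have hE : ∀ z : ℂ, NAB.E1 z = OmC * ez z := by
    intro z
    rw [CUL.ez]
    field_simp
  have hF : ∀ z : ℂ, ∑ b ∈ W3, cu (iu i) b * NAB.E1 (z + emb b / emb (la ^ 3)) = OmC * FF (iu i) z := by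
    intro z
    unfold CUL.FF
    rw [Finset.mul_sum]
    refine Finset.sum_congr rfl fun b _ => ?_
    rw [hE, map_pow]
    ring
  have hV : ∑ α ∈ rp (4 * D), conj (chi d α) * (OmC * FF (iu i) (emb α / emb (4 * D))) = OmC * VF d i := by
    unfold VF
    rw [Finset.mul_sum]
    refine Finset.sum_congr rfl fun α _ => ?_
    ring
  rcases d.hη with h5 | h5
  · rw [h5, map_one, one_mul, ← hV]
    refine Finset.sum_congr rfl fun α _ => ?_
    rw [← hF]
    refine congrArg _ (Finset.sum_congr rfl fun b _ => ?_)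
    rw [one_mul]
  · rw [h5, map_neg, map_one, ← hV]
    have hneg := CUL.IsRep.sum_neg (CUL.rp_spec hD) (fun α => conj (chi d α) * ∑ b ∈ W3, cu (iu i) b *
      NAB.E1 (emb α / emb (4 * D) + emb (-1 * b) / emb (la ^ 3))) (by
      intro x y hxy
      show conj (chi d x) * _ = conj (chi d y) * _
      rw [chi_congr d hxy]
      refine congrArg _ (Finset.sum_congr rfl fun b _ => ?_)
      rw [h2_x_E' hemD _ hxy])
    rw [← hneg, Finset.mul_sum]
    refine Finset.sum_congr rfl fun α _ => ?_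
    rw [← hF, chi_neg, Finset.mul_sum, Finset.mul_sum, Finset.mul_sum]
    refine Finset.sum_congr rfl fun b _ => ?_
    have e1 : emb (-α) / emb (4 * D) + emb (-1 * b) / emb (la ^ 3) = -(emb α / emb (4 * D) + emb b / emb (la ^ 3)) := by
      rw [map_neg, neg_one_mul, map_neg]
      ring
    rw [e1, NAB.E1_neg]
    ring

theorem LV_FfX (h : Cl0 D) (d : Dat D) {i : ℕ} (hi : i = 1 ∨ i = 2) : ∃ u : ℂ, ‖u‖ = 1 ∧
    LV (FfX d i) = u * OmC / (emb la ^ 3 * emb (4 * D)) * VF d i := by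
  have hdom := eis_isDomain
  have hD := h2_D_ne h
  have hL : la ^ 3 ≠ 0 := CUL.l5_la_ne
  have hDL : 4 * D * la ^ 3 ≠ 0 := mul_ne_zero hD hL
  have hemD : emb (4 * D) ≠ 0 := CUL.l2_emb_ne hD
  have hemL : emb (la ^ 3) ≠ 0 := CUL.l2_emb_ne hL
  have hemla : emb la ≠ 0 := CUL.l2_emb_ne CU.la_prime.ne_zero
  have hη2 := h2_eta d
  have hη1 : ‖emb d.η‖ = 1 := by
    rcases d.hη with h1 | h1
    · rw [h1, map_one, norm_one]
    · rw [h1, map_neg, map_one, norm_neg, norm_one]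
  have hch : ‖chi d la‖ = 1 := by
    have h1 := chi_conj d (h2_cop d)
    rw [Complex.mul_conj, Complex.normSq_eq_norm_sq] at h1
    have h2 : ‖chi d la‖ ^ 2 = 1 := by exact_mod_cast h1
    exact (pow_eq_one_iff_of_nonneg (norm_nonneg _) two_ne_zero).1 h2
  have hP := h2_x_prim d
  refine ⟨conj (chi d la) ^ 3 * cu (iu i) (d.η * (4 * D)) * emb d.η, ?_, ?_⟩
  · rw [norm_mul, norm_mul, norm_pow, Complex.norm_conj, hch, hη1, CUL.cu_norm, one_pow, one_mul, one_mul]
  · obtain ⟨g, hg⟩ : ∃ g : Eis → ℂ, g = fun c => FfX d i c * NAB.E1 (emb c / emb (4 * D * la ^ 3)) := ⟨_, rfl⟩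
    have hgper : ∀ x y, 4 * D * la ^ 3 ∣ x - y → g x = g y := by
      intro x y hab
      rw [hg]
      show FfX d i x * NAB.E1 (emb x / emb (4 * D * la ^ 3)) = FfX d i y * NAB.E1 (emb y / emb (4 * D * la ^ 3))
      rw [h2_x_per d i x y hab]
      have h1 := h2_x_E (CUL.l2_emb_ne hDL) 0 hab
      rw [zero_add, zero_add] at h1
      rw [h1]
    have key : ∀ α β : Eis, g (α * la ^ 3 + β * (4 * D)) =
        (conj (chi d α) * conj (chi d la) ^ 3 * cu (iu i) (d.η * (4 * D))) *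
          h2_x_H i d.η (emb α / emb (4 * D)) (d.η * β) := by
      intro α β
      have hd : la ^ 3 ∣ (α * la ^ 3 + β * (4 * D)) - d.η * (4 * D) * (d.η * β) := by
        refine ⟨α, ?_⟩
        linear_combination (-(4 * D * β)) * hη2
      have hprim : Primary (α * la ^ 3 + β * (4 * D)) ↔ Primary (d.η * β) := by
        constructor
        · intro h3
          exact (CUL.primary_mul_iff hP _).1 (CUL.primary_congr h3 hd)
        · intro h3
          exact CUL.primary_congr ((CUL.primary_mul_iff hP _).2 h3) (h2_x_dvd hd)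
      rw [hg]
      show FfX d i _ * NAB.E1 _ = _
      rw [FfX, h2_x_H]
      by_cases hb : Primary (d.η * β)
      · rw [if_pos (hprim.2 hb), if_pos hb, h2_x_chi, map_mul, map_pow, CUL.cu_congr (iu i) (hprim.2 hb) hd,
          CUL.cu_mul (iu i) hP hb]
        have e1 : d.η * (d.η * β) = β := by
          rw [← mul_assoc, hη2, one_mul]
        have e2 : emb (α * la ^ 3 + β * (4 * D)) / emb (4 * D * la ^ 3) =
            emb α / emb (4 * D) + emb β / emb (la ^ 3) := by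
          rw [map_mul emb (4 * D) (la ^ 3), map_add emb (α * la ^ 3), map_mul emb α, map_mul emb _ (4 * D)]
          field_simp
        rw [e1, e2]
        ring
      · rw [if_neg (fun h' => hb (hprim.1 h')), if_neg hb, zero_mul, mul_zero]
    have hsum : ∀ α : Eis, ∑ β ∈ rp (la ^ 3), g (α * la ^ 3 + β * (4 * D)) =
        conj (chi d la) ^ 3 * cu (iu i) (d.η * (4 * D)) * (conj (chi d α) * ∑ b ∈ W3, cu (iu i) b *
          NAB.E1 (emb α / emb (4 * D) + emb (d.η * b) / emb (la ^ 3))) := by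
      intro α
      rw [Finset.sum_congr rfl (fun β _ => key α β), ← Finset.mul_sum, h2_x_inner i hη2]
      ring
    rw [CUL.LV_periodic hDL (FfX d i) (h2_x_per d i) (CUL.rp_spec hDL)]
    have h1 := IsRep.crt (h2_x_cop d) (CUL.rp_spec hD) (CUL.rp_spec hL) g (CUL.rp_spec hDL) hgper
    have h2 : ∑ c ∈ rp (4 * D * la ^ 3), FfX d i c * NAB.E1 (emb c / emb (4 * D * la ^ 3)) =
        ∑ c ∈ rp (4 * D * la ^ 3), g c := by
      rw [hg]
    rw [h2, h1, Finset.sum_congr rfl (fun α _ => hsum α), ← Finset.mul_sum, h2_x_outer h d i,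
      map_mul emb (4 * D) (la ^ 3), map_pow]
    field_simp

end JX
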