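import Pool.Agent.JX.A4a
import Pool.Agent.JL.N6

/-!
# [JX-N6] the line and the condition `UCs`

Model: `uc_iff` in JL/N6.lean (all lemmas `n6_...`, `unit_E` can be used). `L = emb la`, `v(L)² = v(3)`.
PROOF. `e' = u₁ + u₂ s = z ε^n`, `e'^16 = E^n`, `E = (ε/ε̄)^8 = 1 + 3 a + L b s`, `E⁻¹ = 1 + 3 a - L b s` (as in `uc_iff`).
(1) `e'` has `v(e' - 1) ≤ v(L)`, `u₁ = 1 + O(3)`, `u₂/L = β`, `v(β) ≤ 1`: `e'^k = P_k + Q_k s` with `P_k = 1 + O(3)`, `Q_k = k u₂ + O(L³)` (induction). So for `k = 16`: `Q_16/L = 16 β + O(3) = β + O(3)` (`15 β = O(3)`).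
(2) `E^n = P + Q s` with `Q/L = n b + O(3)` (`n ∈ ℤ`; for negative `n` use `E⁻¹`). `P, Q ∈ ℚ(ω)`, uniqueness of the representation (`rep_unique`): `β = n b + O(3)`.
(3) `LC A c β ↔ LC A c (n b)` (depends only on `β` modulo `3`), and `LC A c (n b) ↔ 3 ∣ n ∨ LC A c b` (digits: `a4_LC`, `b = β₀ + β₁ L` exactly with integers). `3 ∣ n` iff `3 ∣ classNumber` (as in `uc_iff`).
(4) For `b ∈ ℤ[ω]`: `LC A c (emb b)` iff `∃ t : ℤ, 3 ∣ b - t (1 + c la)` in `ℤ[ω]` (`w_emb_unit`) iff `OnS c (sD D) E`: `E - E⁻¹ = 2 L b s`, and `(2 L b - t L (1 + c L)) s/L³` is integral iff `la² ∣ 2 b - t (1 + c la)` (`KD_int`, `rep_unique`; `la²` is associated to `3`); replace `t` by `2 t`, `-t` (`2 b ≡ -b mod 3`).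
(5) `UCs`: `(⟸)` (not LC) take `u = ε`. `(⟹)` an arbitrary unit `x = y ε^j`: `(x/x̄)^8 = E^j`, of the form `1 + 3 a_j + L b_j s` with `b_j ≡ j b mod 3`; if `b` is on the line so is `j b`: `OnS`.
-/

set_option autoImplicit false

open NumberField IsDedekindDomain
open scoped Classical ComplexConjugate

namespace JX

open CM27 JZ JL
open CU (la eE)
open CUL (Nl ez si ta rh DS Cont LV IsRep rp cr mn zw OT GalU cu us FF W3)

variable {D : Eis}

/-- integral elements of `ℂ` have valuation `≤ 1` -/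
theorem x6_int (A : ValuationSubring ℂ) {z : ℂ} (hz : IsIntegral ℤ z) : A.valuation z ≤ 1 := by
  have h1 : IsIntegral A z := hz.tower_top
  obtain ⟨y, hy⟩ := IsIntegrallyClosed.isIntegral_iff.1 h1
  rw [← hy]
  exact (ValuationSubring.valuation_le_one_iff A _).2 y.2

section val

variable (A : ValuationSubring ℂ)

theorem x6_two (hA : A.valuation 3 < 1) : A.valuation (2 : ℂ) = 1 := by
  have h3 := CUL.w_int_unit A hA 2 (by omega)
  rwa [Int.cast_ofNat] at h3

theorem x6_v1 {x : ℂ} (hA : A.valuation 3 < 1) (hx : A.valuation (x - 1) ≤ A.valuation (emb la)) :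
    A.valuation x = 1 := by
  have e : x = 1 + (x - 1) := by ring
  rw [e, Valuation.map_add_eq_of_lt_left _ (by rw [map_one]; exact lt_of_le_of_lt hx (CUL.w_la_lt A hA)), map_one]

theorem x6_sum {x : ℂ} (hA : A.valuation 3 < 1) (hx : A.valuation (x - 1) ≤ A.valuation (emb la)) :
    A.valuation (x + x⁻¹ - 2) ≤ A.valuation (emb la) ^ 2 := by
  have h1 := x6_v1 A hA hx
  have h0 : x ≠ 0 := by
    rintro rfl
    rw [map_zero] at h1
    exact zero_ne_one h1
  have e : x + x⁻¹ - 2 = (x - 1) ^ 2 * x⁻¹ := by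
    field_simp
    ring
  rw [e, map_mul, map_pow, map_inv₀, h1, inv_one, mul_one]
  exact pow_le_pow_left₀ zero_le hx 2

theorem x6_dif {x : ℂ} (hA : A.valuation 3 < 1) (hx : A.valuation (x - 1) ≤ A.valuation (emb la)) :
    A.valuation (x - x⁻¹) ≤ A.valuation (emb la) := by
  have h1 := x6_v1 A hA hx
  have h0 : x ≠ 0 := by
    rintro rfl
    rw [map_zero] at h1
    exact zero_ne_one h1
  have e : x - x⁻¹ = (x - 1) * ((x - 1) + 2) * x⁻¹ := by
    field_simp
    ring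
  have h2 : A.valuation (x - 1 + 2) ≤ 1 :=
    Valuation.map_add_le _ (hx.trans (CUL.w_la_lt A hA).le) (x6_two A hA).le
  rw [e, map_mul, map_mul, map_inv₀, h1, inv_one, mul_one]
  calc A.valuation (x - 1) * A.valuation (x - 1 + 2) ≤ A.valuation (emb la) * 1 := mul_le_mul' hx h2
    _ = A.valuation (emb la) := mul_one _

theorem x6_nat {x : ℂ} (hA : A.valuation 3 < 1) (hx : A.valuation (x - 1) ≤ A.valuation (emb la)) (k : ℕ) :
    A.valuation (x ^ k - (x⁻¹) ^ k - k * (x - x⁻¹)) ≤ A.valuation (emb la) ^ 3 ∧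
    A.valuation (x ^ (k + 1) - (x⁻¹) ^ (k + 1) - (k + 1 : ℕ) * (x - x⁻¹)) ≤ A.valuation (emb la) ^ 3 := by
  have h1 := x6_v1 A hA hx
  have h0 : x ≠ 0 := by
    rintro rfl
    rw [map_zero] at h1
    exact zero_ne_one h1
  have hs := x6_sum A hA hx
  have hd := x6_dif A hA hx
  have hl := (CUL.w_la_lt A hA).le
  have hl3 : A.valuation (emb la) ^ 3 ≤ A.valuation (emb la) := by
    calc A.valuation (emb la) ^ 3 = A.valuation (emb la) ^ 2 * A.valuation (emb la) := pow_succ _ _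
      _ ≤ 1 * A.valuation (emb la) := mul_le_mul' (pow_le_one₀ zero_le hl) le_rfl
      _ = A.valuation (emb la) := one_mul _
  induction k with
  | zero =>
    constructor
    · simp
    · simp
  | succ k ih =>
    obtain ⟨h2, h3⟩ := ih
    refine ⟨h3, ?_⟩
    have h4 : A.valuation (x ^ (k + 1) - (x⁻¹) ^ (k + 1)) ≤ A.valuation (emb la) := by
      have e : x ^ (k + 1) - (x⁻¹) ^ (k + 1) = (x ^ (k + 1) - (x⁻¹) ^ (k + 1) - (k + 1 : ℕ) * (x - x⁻¹)) +
          ((k + 1 : ℕ) : ℂ) * (x - x⁻¹) := by ring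
      rw [e]
      refine Valuation.map_add_le _ (h3.trans hl3) ?_
      rw [map_mul]
      have h5 := CUL.w_int_le A ((k + 1 : ℕ) : ℤ)
      rw [Int.cast_natCast] at h5
      calc A.valuation ((k + 1 : ℕ) : ℂ) * A.valuation (x - x⁻¹) ≤ 1 * A.valuation (emb la) := mul_le_mul' h5 hd
        _ = A.valuation (emb la) := one_mul _
    have e : x ^ (k + 1 + 1) - (x⁻¹) ^ (k + 1 + 1) - (k + 1 + 1 : ℕ) * (x - x⁻¹) =
        2 * (x ^ (k + 1) - (x⁻¹) ^ (k + 1) - (k + 1 : ℕ) * (x - x⁻¹)) -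
        (x ^ k - (x⁻¹) ^ k - k * (x - x⁻¹)) + (x ^ (k + 1) - (x⁻¹) ^ (k + 1)) * (x + x⁻¹ - 2) := by
      have h6 : x * x⁻¹ = 1 := mul_inv_cancel₀ h0
      push_cast
      have e1 : x ^ (k + 1 + 1) = x ^ k * x * x := by ring
      have e2 : (x⁻¹) ^ (k + 1 + 1) = (x⁻¹) ^ k * x⁻¹ * x⁻¹ := by ring
      rw [e1, e2, pow_succ, pow_succ]
      linear_combination (-(x ^ k - (x⁻¹) ^ k)) * h6
    rw [e]
    refine Valuation.map_add_le _ (Valuation.map_sub_le _ ?_ h2) ?_
    · rw [map_mul, x6_two A hA, one_mul]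
      exact h3
    · rw [map_mul]
      calc A.valuation (x ^ (k + 1) - (x⁻¹) ^ (k + 1)) * A.valuation (x + x⁻¹ - 2) ≤
            A.valuation (emb la) * A.valuation (emb la) ^ 2 := mul_le_mul' h4 hs
        _ = A.valuation (emb la) ^ 3 := by rw [← pow_succ']

theorem x6_zpow {x : ℂ} (hA : A.valuation 3 < 1) (hx : A.valuation (x - 1) ≤ A.valuation (emb la)) (n : ℤ) :
    A.valuation (x ^ n - (x ^ n)⁻¹ - n * (x - x⁻¹)) ≤ A.valuation (emb la) ^ 3 := by
  cases n with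
  | ofNat k =>
    have h1 := (x6_nat A hA hx k).1
    rw [Int.ofNat_eq_natCast, zpow_natCast, Int.cast_natCast, ← inv_pow]
    exact h1
  | negSucc k =>
    have h1 := (x6_nat A hA hx k).2
    have e : x ^ (Int.negSucc k) - (x ^ (Int.negSucc k))⁻¹ - ((Int.negSucc k : ℤ) : ℂ) * (x - x⁻¹) =
        -(x ^ (k + 1) - (x⁻¹) ^ (k + 1) - ((k + 1 : ℕ) : ℂ) * (x - x⁻¹)) := by
      rw [zpow_negSucc, inv_inv, ← inv_pow, Int.cast_negSucc]
      ring
    rw [e, Valuation.map_neg]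
    exact h1

/-- the digits of `b` -/
theorem x6_dig (b : Eis) : emb b = ((b.re + b.im : ℤ) : ℂ) + ((-b.im : ℤ) : ℂ) * emb la := by
  have h1 : b = ((b.re + b.im : ℤ) : Eis) + ((-b.im : ℤ) : Eis) * la := by
    apply QuadraticAlgebra.ext
    · have h2 : la.re = 1 := by decide
      have h3 : la.im = -1 := by decide
      simp [h2]
    · have h2 : la.re = 1 := by decide
      have h3 : la.im = -1 := by decide
      simp [h3]
  conv_lhs => rw [h1]
  rw [map_add, map_mul, map_intCast, map_intCast]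

/-- `b` modulo `3` is on the line -/
def x6_L (c : ℤ) (b : Eis) : Prop := (3 : ℤ) ∣ -b.im - c * (b.re + b.im)

theorem x6_LC (hA : A.valuation 3 < 1) (c : ℤ) {β : ℂ} {b : Eis} {n : ℤ}
    (h : A.valuation (β - n * emb b) ≤ A.valuation 3) : LC A c β ↔ (3 : ℤ) ∣ n ∨ x6_L c b := by
  have h1 := a4_LC A hA (b := β) (β₀ := n * (b.re + b.im)) (β₁ := n * (-b.im)) (by
    have e : β - (((n * (b.re + b.im) : ℤ) : ℂ) + ((n * (-b.im) : ℤ) : ℂ) * emb la) = β - n * emb b := by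
      rw [x6_dig b]
      push_cast
      ring
    rw [e]
    exact h) c
  rw [h1, show n * (-b.im) - c * (n * (b.re + b.im)) = n * (-b.im - c * (b.re + b.im)) by ring]
  constructor
  · intro h2
    exact (Int.prime_three.dvd_mul).1 h2
  · rintro (h2 | h2)
    · exact Dvd.dvd.mul_right h2 _
    · exact Dvd.dvd.mul_left h2 _

/-- the integral condition -/
theorem x6_OnS (h : Cl0 D) (A : ValuationSubring ℂ) (hA : A.valuation 3 < 1) (c : ℤ) {E : ℂ} {a b : Eis}
    (hE : E = 1 + 3 * emb a + emb la * emb b * sD D)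
    (hE' : E⁻¹ = 1 + 3 * emb a - emb la * emb b * sD D) :
    OnS c (sD D) E ↔ x6_L c b := by
  have hl := CUL.la_ne
  have e1 : E - E⁻¹ = 2 * emb la * emb b * sD D := by
    rw [hE', hE]; ring
  have hem : ∀ t : ℤ, emb (la * (1 + (c : Eis) * la)) = emb la * (1 + c * emb la) := by
    intro _
    rw [map_mul, map_add, map_one, map_mul, map_intCast]
  have e2 : ∀ t : ℤ, (E - E⁻¹ - (t : ℂ) * emb (la * (1 + (c : Eis) * la)) * sD D) / emb la ^ 3 =
      ((2 * emb b - (t : ℂ) * (1 + (c : ℂ) * emb la)) / emb la ^ 2) * sD D := by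
    intro t
    rw [e1, hem t]
    field_simp
  constructor
  · rintro ⟨t, ht⟩
    rw [e2] at ht
    have h1 := x6_int A ht
    rw [map_mul, n6_val_s A h hA, mul_one, map_div₀, map_pow] at h1
    have hl0 : A.valuation (emb la) ^ 2 ≠ 0 := pow_ne_zero _ (CUL.v2_wla A)
    have h2 : A.valuation (2 * emb b - (t : ℂ) * (1 + (c : ℂ) * emb la)) ≤ A.valuation 3 := by
      rw [← CUL.w_la A hA]
      exact (div_le_one₀ (zero_lt_iff.2 hl0)).1 h1
    have h3 : LC A c (2 * emb b) := ⟨t, h2⟩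
    have h4 := (x6_LC A hA c (β := 2 * emb b) (b := b) (n := 2) (by
      rw [Int.cast_ofNat, sub_self, map_zero]; exact zero_le)).1 h3
    exact h4.resolve_left (by omega)
  · rintro ⟨m, hm⟩
    refine ⟨2 * (b.re + b.im), ?_⟩
    rw [e2]
    have h3 : emb la ^ 2 = 3 * emb (-CU.om) := by
      rw [← map_pow, n6_la_sq, map_mul, map_ofNat]
    have h5 : emb (-CU.om) * emb (-CU.om ^ 2) = 1 := by
      rw [← map_mul]
      have : (-CU.om * -CU.om ^ 2 : Eis) = 1 := by decide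
      rw [this, map_one]
    have h6 : emb (-CU.om) ≠ 0 := left_ne_zero_of_mul_eq_one h5
    have h4 : (2 * emb b - ((2 * (b.re + b.im) : ℤ) : ℂ) * (1 + (c : ℂ) * emb la)) / emb la ^ 2 =
        emb (2 * ((m : Eis)) * la * (-CU.om ^ 2)) := by
      rw [div_eq_iff (pow_ne_zero _ hl), map_mul, map_mul, map_mul, map_intCast, map_ofNat, h3]
      have h7 : ((-b.im - c * (b.re + b.im) : ℤ) : ℂ) = 3 * m := by
        rw [hm]; push_cast; ring
      have h8 := x6_dig b
      push_cast at h7 h8 ⊢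
      linear_combination 2 * h8 + 2 * emb la * h7 - 6 * m * emb la * h5
    rw [h4]
    exact (isIntegral_emb _).mul (isIntegral_sD D)

end val

theorem ucs_iff (h : Cl0 D) (A : ValuationSubring ℂ) (hA : A.valuation 3 < 1) {u₁ u₂ z : ℂ} {ε : (𝓞 (KD D))ˣ}
    {n : ℤ} (h1 : u₁ ∈ CF.KK) (h2 : u₂ ∈ CF.KK) (hi : (u₁ + u₂ * sD D)⁻¹ = u₁ - u₂ * sD D)
    (h0 : u₁ + u₂ * sD D ≠ 0) (hv : A.valuation (u₁ + u₂ * sD D - 1) ≤ A.valuation (emb la)) (hz : z ^ 6 = 1)
    (he : u₁ + u₂ * sD D = z * (((ε : 𝓞 (KD D)) : KD D) : ℂ) ^ n)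
    (hn : n.natAbs = 2 * classNumber (KD D) ∨ n.natAbs = 4 * classNumber (KD D))
    (hu : ∀ u : (𝓞 (KD D))ˣ, ∃ (y : ℂ) (j : ℤ), y ^ 6 = 1 ∧
        (((u : 𝓞 (KD D)) : KD D) : ℂ) = y * (((ε : 𝓞 (KD D)) : KD D) : ℂ) ^ j) (c : ℤ) :
    ¬ LC A c (u₂ / emb la) ↔ UCs D c := by
  obtain ⟨hεi, hεi', hε0⟩ := n6_unit_int ε
  obtain ⟨v₁, v₂, hv1, hv2, hε⟩ := (mem_KD _).1 ((ε : 𝓞 (KD D)) : KD D).2
  rw [hε] at hεi hεi' hε0
  obtain ⟨a, b, hE, hE'⟩ := unit_E h hv1 hv2 hε0 hεi hεi'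
  have hconj : ∀ (x₁ x₂ y : ℂ) (j : ℤ), x₁ ∈ CF.KK → x₂ ∈ CF.KK → y ^ 6 = 1 →
      x₁ + x₂ * sD D = y * (v₁ + v₂ * sD D) ^ j →
      (x₁ + x₂ * sD D) / (x₁ - x₂ * sD D) = ((v₁ + v₂ * sD D) / (v₁ - v₂ * sD D)) ^ j := by
    intro x₁ x₂ y j hx1 hx2 hy hxy
    have hy0 : y ≠ 0 := by
      rintro rfl
      norm_num at hy
    have h1 := n6_conj h hx1 hx2 hv1 hv2 (n6_root hy) hxy
    rw [h1, hxy, mul_div_mul_left _ _ hy0, div_zpow]
  set E : ℂ := ((v₁ + v₂ * sD D) / (v₁ - v₂ * sD D)) ^ 8 with hEd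
  have h16 : (u₁ + u₂ * sD D) ^ 16 = E ^ n := by
    have h3 := hconj u₁ u₂ z n h1 h2 hz (by rw [he, hε])
    rw [← hi, div_inv_eq_mul] at h3
    have h4 : (u₁ + u₂ * sD D) ^ 16 = ((u₁ + u₂ * sD D) * (u₁ + u₂ * sD D)) ^ 8 := by ring
    rw [h4, h3, n6_zpow_comm]
  have hs := n6_val_s A h hA
  have hs0 : sD D ≠ 0 := by
    intro h3
    rw [h3, map_zero] at hs
    exact zero_ne_one hs
  have hl := CUL.la_ne
  have h2v := x6_two A hA
  have hl3 : A.valuation (emb la) ^ 3 = A.valuation 3 * A.valuation (emb la) := by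
    rw [pow_succ, CUL.w_la A hA]
  -- `E - 1` is small
  have hEv : A.valuation (E - 1) ≤ A.valuation (emb la) := by
    have e : E - 1 = 3 * emb a + emb la * emb b * sD D := by rw [hE]; ring
    rw [e]
    refine Valuation.map_add_le _ ?_ ?_
    · rw [map_mul]
      calc A.valuation 3 * A.valuation (emb a) ≤ A.valuation (emb la) * 1 :=
            mul_le_mul' (n6_L3 A hA).le (CUL.w_emb_le A a)
        _ = A.valuation (emb la) := mul_one _
    · rw [map_mul, map_mul, hs, mul_one]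
      calc A.valuation (emb la) * A.valuation (emb b) ≤ A.valuation (emb la) * 1 :=
            mul_le_mul' le_rfl (CUL.w_emb_le A b)
        _ = A.valuation (emb la) := mul_one _
  have hEE : E - E⁻¹ = 2 * emb la * emb b * sD D := by rw [hE', hE]; ring
  -- the coefficient of a power of `E`
  have hEj : ∀ (j : ℤ) (β : ℂ), E ^ j - (E ^ j)⁻¹ = 2 * emb la * β * sD D →
      A.valuation (β - j * emb b) ≤ A.valuation 3 := by
    intro j β hβ
    have h3 := x6_zpow A hA hEv j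
    rw [hβ, hEE] at h3
    have e : 2 * emb la * β * sD D - j * (2 * emb la * emb b * sD D) =
        2 * emb la * (β - j * emb b) * sD D := by ring
    rw [e, map_mul, map_mul, map_mul, hs, h2v, mul_one, one_mul, hl3, mul_comm] at h3
    exact le_of_mul_le_mul_right h3 (zero_lt_iff.2 (CUL.v2_wla A))
  -- `β`
  have hβ : A.valuation (u₂ / emb la - n * emb b) ≤ A.valuation 3 := by
    have h3 := x6_zpow A hA hv 16
    have h4 := x6_dif A hA hv
    have h5 : (u₁ + u₂ * sD D) - (u₁ + u₂ * sD D)⁻¹ = 2 * emb la * (u₂ / emb la) * sD D := by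
      rw [hi]
      field_simp
      ring
    have h16' : (u₁ + u₂ * sD D) ^ (16 : ℤ) = E ^ n := by
      rw [← h16]
      exact_mod_cast rfl
    rw [h16', h5] at h3
    rw [h5, map_mul, map_mul, map_mul, hs, h2v, mul_one, one_mul] at h4
    have h6 : A.valuation (u₂ / emb la) ≤ 1 := by
      have h7 : A.valuation (emb la) * A.valuation (u₂ / emb la) ≤ A.valuation (emb la) * 1 := by
        rw [mul_one]; exact h4
      exact le_of_mul_le_mul_left h7 (zero_lt_iff.2 (CUL.v2_wla A))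
    have h8 := x6_zpow A hA hEv n
    rw [hEE] at h8
    have h9 : A.valuation ((16 * (u₂ / emb la) - n * emb b) * (2 * emb la * sD D)) ≤ A.valuation (emb la) ^ 3 := by
      have e : (16 * (u₂ / emb la) - n * emb b) * (2 * emb la * sD D) =
          (E ^ n - (E ^ n)⁻¹ - n * (2 * emb la * emb b * sD D)) -
          (E ^ n - (E ^ n)⁻¹ - ((16 : ℤ) : ℂ) * (2 * emb la * (u₂ / emb la) * sD D)) := by
        push_cast
        ring
      rw [e]
      exact Valuation.map_sub_le _ h8 h3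
    have h10 : A.valuation (16 * (u₂ / emb la) - n * emb b) ≤ A.valuation 3 := by
      rw [map_mul, map_mul, map_mul, hs, h2v, mul_one, one_mul, hl3] at h9
      exact le_of_mul_le_mul_right h9 (zero_lt_iff.2 (CUL.v2_wla A))
    have e : u₂ / emb la - n * emb b = (16 * (u₂ / emb la) - n * emb b) - 3 * (5 * (u₂ / emb la)) := by ring
    rw [e]
    refine Valuation.map_sub_le _ h10 ?_
    rw [map_mul, map_mul]
    have h11 : A.valuation (5 : ℂ) ≤ 1 := by
      have h12 := CUL.w_int_le A 5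
      rwa [Int.cast_ofNat] at h12
    calc A.valuation 3 * (A.valuation 5 * A.valuation (u₂ / emb la)) ≤ A.valuation 3 * (1 * 1) :=
          mul_le_mul' le_rfl (mul_le_mul' h11 h6)
      _ = A.valuation 3 := by rw [mul_one, mul_one]
  rw [x6_LC A hA c hβ, not_or]
  unfold UCs
  apply and_congr
  · rcases hn with hn | hn
    · constructor
      · intro h2 h3
        apply h2
        omega
      · intro h2 h3
        apply h2
        omega
    · constructor
      · intro h2 h3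
        apply h2
        omega
      · intro h2 h3
        apply h2
        omega
  · constructor
    · intro hb
      exact ⟨v₁, v₂, hv1, hv2, hε0, hεi, hεi', fun ho => hb ((x6_OnS h A hA c hE hE').1 ho)⟩
    · rintro ⟨x₁, x₂, hx1, hx2, hx0, hxi, hxi', hx⟩ hb
      apply hx
      have hxm : x₁ + x₂ * sD D ∈ KD D := (mem_KD _).2 ⟨x₁, x₂, hx1, hx2, rfl⟩
      obtain ⟨U, hU⟩ := n6_mk_unit hxm hx0 hxi hxi'
      obtain ⟨y, j, hy, hyj⟩ := hu U
      rw [hU, hε] at hyj
      obtain ⟨a', b', hX, hX'⟩ := unit_E h hx1 hx2 hx0 hxi hxi'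
      have h3 : ((x₁ + x₂ * sD D) / (x₁ - x₂ * sD D)) ^ 8 = E ^ j := by
        rw [hconj x₁ x₂ y j hx1 hx2 hy hyj]
        exact n6_zpow_comm _ _ _
      have h4 : A.valuation (emb b' - j * emb b) ≤ A.valuation 3 := by
        apply hEj j
        rw [← h3, hX', hX]
        ring
      rw [x6_OnS h A hA c hX hX']
      have h5 : LC A c (emb b') := (x6_LC A hA c h4).2 (Or.inr hb)
      have h6 := (x6_LC A hA c (β := emb b') (b := b') (n := 1) (by
        rw [Int.cast_one, one_mul, sub_self, map_zero]; exact zero_le)).1 h5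
      exact h6.resolve_left (by omega)

end JX
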