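import Pool.Agent.JX.Defs

/-!
# [JX-Ta] from `D` to `ω^i D`

PROOF. `sD (ω^i D)² = ω^i D = (ω^(2 i) sD D)²`: `sD (ω^i D) = ± ω^(2 i) sD D`. So `KD (ω^i D) = KD D` (adjoin; `t_KD`), and the class numbers are equal (general lemma: for `F = F'` intermediate fields, `classNumber F = classNumber F'`: subst). `u₁ + u₂ s' = u₁ ± u₂ ω^(2i) s`, `u₁ - u₂ s' = u₁ ∓ u₂ ω^(2i) s`: the sets of units and the values `u/ū` (up to conjugation) are the same; if the sign is `-`, `ū/u = E⁻¹` corresponds to `t → -t` (or replace `u₂` by `-ω^(2i) u₂`: then `E` is literally the same).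
The line: `OnLine (ω^i D) s' E`: digits of `D' = ω^i D`: `D ≡ η (1 + 3 (m + n ω)) ≡ η (1 - mn λ²) mod λ³` (`η D` primary, `3 ≡ -λ² mod λ³`), `kk d = 2 + 2 mn (η D) = -1 - mn`, `ω = 1 - λ`, `ω² = 1 + λ + λ² - 3 λ`:
 `i = 1`: `D' ≡ η (1 - λ - mn λ²)`: `d₀ = η, d₁ = -η, d₂ ≡ -η mn`; `i = 2`: `D' ≡ η (1 + λ + (1 - mn) λ²)`: `d₀ = η, d₁ = η, d₂ ≡ η (1 - mn)` (mod 3). `c' = d₁ (1 + d₂)`.
 `E - E⁻¹ - t λ (1 + c' λ) s'` with `s' = ± ω^(2i) s`: `± t λ (1 + c' λ) ω^(2i) ≡ ± t λ (1 + (c' + i) λ) mod λ³`, and `c' + i ≡ sl i k η = -1 - i (k + η - 1) mod 3` with `k ≡ -1 - mn` (12 cases: `decide`/`omega` on `mn` mod 3). The digits of `D'` are unique (`λ³ ∣ ` difference). `λ³ s/λ³` is integral.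
-/

set_option autoImplicit false

open NumberField IsDedekindDomain
open scoped Classical ComplexConjugate

namespace JX

open CM27 JZ JL
open CU (la eE)
open CUL (Nl ez si ta rh DS Cont LV IsRep rp cr mn zw OT GalU cu us FF W3)

variable {D : Eis}

theorem ta_ic_re (n : ℤ) : ((n : Eis)).re = n := by simp

theorem ta_ic_im (n : ℤ) : ((n : Eis)).im = 0 := by simp

theorem ta_la2 : la ^ 2 = (⟨0, -3⟩ : Eis) := by decide

theorem ta_la3e : la ^ 3 = (⟨-3, -6⟩ : Eis) := by decide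

theorem ta_la3 (x : Eis) : la ^ 3 ∣ x ↔ (3 : ℤ) ∣ x.im ∧ (9 : ℤ) ∣ x.re + x.im := by
  rw [ta_la3e]
  constructor
  · rintro ⟨b, rfl⟩
    refine ⟨⟨b.im - 2 * b.re, ?_⟩, ⟨b.im - b.re, ?_⟩⟩
    · rw [QuadraticAlgebra.im_mul]; ring
    · rw [QuadraticAlgebra.im_mul, QuadraticAlgebra.re_mul]; ring
  · rintro ⟨⟨v, hv⟩, ⟨u, hu⟩⟩
    refine ⟨⟨u - v, 2 * u - v⟩, ?_⟩
    ext
    · rw [QuadraticAlgebra.re_mul]; linear_combination hu - hv
    · rw [QuadraticAlgebra.im_mul]; linear_combination hv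

theorem ta_val (d₀ d₁ d₂ : ℤ) :
    ((d₀ : Eis) + (d₁ : Eis) * la + (d₂ : Eis) * la ^ 2) = ⟨d₀ + d₁, -d₁ - 3 * d₂⟩ := by
  rw [ta_la2]
  have h1 : la = (⟨1, -1⟩ : Eis) := rfl
  rw [h1]
  ext
  · simp only [QuadraticAlgebra.re_add, QuadraticAlgebra.re_mul, ta_ic_re, ta_ic_im]
    ring
  · simp only [QuadraticAlgebra.im_add, QuadraticAlgebra.im_mul, ta_ic_re, ta_ic_im]
    ring

theorem ta_dig_iff (x : Eis) (d₀ d₁ d₂ : ℤ) :
    la ^ 3 ∣ x - ((d₀ : Eis) + (d₁ : Eis) * la + (d₂ : Eis) * la ^ 2) ↔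
      (3 : ℤ) ∣ x.im + d₁ ∧ (9 : ℤ) ∣ x.re + x.im - d₀ + 3 * d₂ := by
  rw [ta_val, ta_la3, QuadraticAlgebra.im_sub, QuadraticAlgebra.re_sub]
  constructor
  · rintro ⟨h1, h2⟩
    simp only at h1 h2
    exact ⟨by omega, by omega⟩
  · rintro ⟨h1, h2⟩
    refine ⟨?_, ?_⟩
    · simp only
      omega
    · simp only
      omega

theorem ta_ei (d : Dat D) : (ei d = 1 ∨ ei d = -1) ∧ d.η = (ei d : Eis) := by
  unfold ei
  by_cases h : d.η = 1
  · rw [if_pos h]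
    exact ⟨Or.inl rfl, by rw [h]; simp⟩
  · rw [if_neg h]
    refine ⟨Or.inr rfl, ?_⟩
    rcases d.hη with h1 | h1
    · exact absurd h1 h
    · rw [h1]; simp

/-- the data modulo `λ³` -/
theorem ta_k (d : Dat D) : ∃ M : ℤ, ei d * (D.re + D.im) = 1 + 3 * M ∧
    (3 : ℤ) ∣ ((kk d).val : ℤ) - (2 + 2 * M) ∧ (3 : ℤ) ∣ D.im ∧ (3 : ℤ) ∣ D.re - ei d := by
  obtain ⟨he, hη⟩ := ta_ei d
  have hP := (primary_iff _).1 d.primary
  have e1 : (d.η * D).re = ei d * D.re := by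
    rw [hη, QuadraticAlgebra.re_mul, ta_ic_re, ta_ic_im]; ring
  have e2 : (d.η * D).im = ei d * D.im := by
    rw [hη, QuadraticAlgebra.im_mul, ta_ic_re, ta_ic_im]; ring
  rw [e1, e2] at hP
  obtain ⟨M, hM⟩ : (3 : ℤ) ∣ ei d * D.re - 1 + ei d * D.im := by omega
  refine ⟨M, by linear_combination hM, ?_, ?_, ?_⟩
  · have h1 : ((((kk d).val : ℤ) : ZMod 3)) = ((2 + 2 * M : ℤ) : ZMod 3) := by
      have h2 : ((((kk d).val : ℤ) : ZMod 3)) = kk d := by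
        rw [Int.cast_natCast, ZMod.natCast_val, ZMod.cast_id']
        rfl
      rw [h2, kk, mn, e1, e2, hM]
      rw [Int.mul_ediv_cancel_left M (by norm_num)]
      push_cast
      ring
    have h3 := (ZMod.intCast_eq_intCast_iff_dvd_sub _ _ 3).1 h1.symm
    exact_mod_cast h3
  · rcases he with h | h
    · rw [h] at hP; omega
    · rw [h] at hP; omega
  · rcases he with h | h
    · rw [h] at hP ⊢; omega
    · rw [h] at hP ⊢; omega

theorem ta_c1 (a : Eis) : (CU.om ^ 1 * a).re = -a.im ∧ (CU.om ^ 1 * a).im = a.re - a.im := by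
  have h : CU.om ^ 1 = (⟨0, 1⟩ : Eis) := by decide
  rw [h]
  constructor
  · rw [QuadraticAlgebra.re_mul]; ring
  · rw [QuadraticAlgebra.im_mul]; ring

theorem ta_c2 (a : Eis) : (CU.om ^ 2 * a).re = -a.re + a.im ∧ (CU.om ^ 2 * a).im = -a.re := by
  have h : CU.om ^ 2 = (⟨-1, -1⟩ : Eis) := by decide
  rw [h]
  constructor
  · rw [QuadraticAlgebra.re_mul]; ring
  · rw [QuadraticAlgebra.im_mul]; ring

/-- there are digits -/
theorem ta_ex (d : Dat D) {i : ℕ} (hi : i = 1 ∨ i = 2) : ∃ d₀ d₁ d₂ : ℤ, Dig (CU.om ^ i * D) d₀ d₁ d₂ := by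
  obtain ⟨he, -⟩ := ta_ei d
  obtain ⟨M, hM, -, h1, h2⟩ := ta_k d
  obtain ⟨c1, c2⟩ := ta_c1 D
  obtain ⟨c3, c4⟩ := ta_c2 D
  have key : ∀ n : ℤ, (3 : ℤ) ∣ n → ∃ t : ℤ, (t = 0 ∨ t = 1 ∨ t = -1) ∧ (9 : ℤ) ∣ n + 3 * t := by
    intro n hn
    have h3 : n % 9 = 0 ∨ n % 9 = 3 ∨ n % 9 = 6 := by omega
    rcases h3 with h3 | h3 | h3
    · exact ⟨0, Or.inl rfl, by omega⟩
    · exact ⟨-1, Or.inr (Or.inr rfl), by omega⟩
    · exact ⟨1, Or.inr (Or.inl rfl), by omega⟩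
  rcases hi with rfl | rfl
  · obtain ⟨t, ht, ht'⟩ := key ((CU.om ^ 1 * D).re + (CU.om ^ 1 * D).im - ei d) (by
      rw [c1, c2]
      omega)
    refine ⟨ei d, -ei d, t, he, ?_, ht, ?_⟩
    · rcases he with h | h <;> rw [h] <;> norm_num
    · rw [ta_dig_iff]
      refine ⟨?_, ht'⟩
      rw [c2]
      omega
  · obtain ⟨t, ht, ht'⟩ := key ((CU.om ^ 2 * D).re + (CU.om ^ 2 * D).im - ei d) (by
      rw [c3, c4]
      omega)
    refine ⟨ei d, ei d, t, he, ?_, ht, ?_⟩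
    · rcases he with h | h <;> rw [h] <;> norm_num
    · rw [ta_dig_iff]
      refine ⟨?_, ht'⟩
      rw [c4]
      omega

/-- the slope of the digits -/
theorem ta_sl (d : Dat D) {i : ℕ} (hi : i = 1 ∨ i = 2) {d₀ d₁ d₂ : ℤ} (h : Dig (CU.om ^ i * D) d₀ d₁ d₂) :
    (3 : ℤ) ∣ d₁ * (1 + d₂) + i - sl i (kk d).val (ei d) := by
  obtain ⟨he, -⟩ := ta_ei d
  obtain ⟨M, hM, hk, h1, h2⟩ := ta_k d
  obtain ⟨c1, c2⟩ := ta_c1 D
  obtain ⟨c3, c4⟩ := ta_c2 D
  obtain ⟨g0, g1, g2, g3⟩ := h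
  rw [ta_dig_iff] at g3
  unfold sl
  generalize ((kk d).val : ℤ) = k at hk ⊢
  generalize ei d = e at he hM h2 ⊢
  rcases hi with rfl | rfl
  · rw [c1, c2] at g3
    generalize D.re = a at *
    generalize D.im = b at *
    rcases he with rfl | rfl <;> rcases g1 with rfl | rfl | rfl <;> push_cast <;> omega
  · rw [c3, c4] at g3
    generalize D.re = a at *
    generalize D.im = b at *
    rcases he with rfl | rfl <;> rcases g1 with rfl | rfl | rfl <;> push_cast <;> omega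

theorem ta_la2' {x : Eis} (h : (3 : Eis) ∣ x) : la ^ 2 ∣ x := by
  obtain ⟨k, rfl⟩ := h
  rw [CU.three_eq]
  exact ⟨-CU.om ^ 2 * k, by ring⟩

/-- the comparison of the lines modulo `λ³` -/
theorem ta_q {i : ℕ} (hi : i = 1 ∨ i = 2) {c c' : ℤ} (h : (3 : ℤ) ∣ c' + i - c) :
    ∃ q : Eis, la * (1 + (c' : Eis) * la) * CU.om ^ (2 * i) = la * (1 + (c : Eis) * la) + la ^ 3 * q := by
  have h3 : la ^ 2 ∣ (1 + (c' : Eis) * la) * CU.om ^ (2 * i) - (1 + (c : Eis) * la) := by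
    refine ta_la2' ?_
    have r3 : (3 : Eis).re = 3 := rfl
    have i3 : (3 : Eis).im = 0 := rfl
    have r1 : (1 : Eis).re = 1 := rfl
    have i1 : (1 : Eis).im = 0 := rfl
    have l1 : la = (⟨1, -1⟩ : Eis) := rfl
    rcases hi with rfl | rfl
    · obtain ⟨t, ht⟩ := h
      have o : CU.om ^ (2 * 1) = (⟨-1, -1⟩ : Eis) := by decide
      rw [o, l1]
      refine ⟨⟨t - c' - 1, -t⟩, ?_⟩
      push_cast at ht
      ext
      · simp only [QuadraticAlgebra.re_mul, QuadraticAlgebra.im_mul, QuadraticAlgebra.re_sub, QuadraticAlgebra.re_add,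
          QuadraticAlgebra.im_add, ta_ic_re, ta_ic_im, r1, i1, r3, i3]
        linear_combination ht
      · simp only [QuadraticAlgebra.re_mul, QuadraticAlgebra.im_mul, QuadraticAlgebra.im_sub, QuadraticAlgebra.re_add,
          QuadraticAlgebra.im_add, ta_ic_re, ta_ic_im, r1, i1, r3, i3]
        linear_combination (-1) * ht
    · obtain ⟨t, ht⟩ := h
      have o : CU.om ^ (2 * 2) = (⟨0, 1⟩ : Eis) := by decide
      rw [o, l1]
      refine ⟨⟨t - 1, c' + 1 - t⟩, ?_⟩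
      push_cast at ht
      ext
      · simp only [QuadraticAlgebra.re_mul, QuadraticAlgebra.im_mul, QuadraticAlgebra.re_sub, QuadraticAlgebra.re_add,
          QuadraticAlgebra.im_add, ta_ic_re, ta_ic_im, r1, i1, r3, i3]
        linear_combination ht
      · simp only [QuadraticAlgebra.re_mul, QuadraticAlgebra.im_mul, QuadraticAlgebra.im_sub, QuadraticAlgebra.re_add,
          QuadraticAlgebra.im_add, ta_ic_re, ta_ic_im, r1, i1, r3, i3]
        linear_combination (-1) * ht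
  obtain ⟨q, hq⟩ := h3
  exact ⟨q, by linear_combination la * hq⟩

theorem ta_sD (D : Eis) {i : ℕ} (hi : i = 1 ∨ i = 2) :
    ∃ e : ℤ, (e = 1 ∨ e = -1) ∧ sD (CU.om ^ i * D) = (e : ℂ) * emb (CU.om ^ (2 * i)) * sD D := by
  have h4 : CU.om ^ (2 * i) * CU.om ^ (2 * i) = CU.om ^ i := by
    rcases hi with rfl | rfl <;> decide
  have h1 : sD (CU.om ^ i * D) ^ 2 = (emb (CU.om ^ (2 * i)) * sD D) ^ 2 := by
    rw [sD_sq, mul_pow, sD_sq, map_mul, ← h4, map_mul]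
    ring
  rcases sq_eq_sq_iff_eq_or_eq_neg.1 h1 with h | h
  · exact ⟨1, Or.inl rfl, by rw [h]; push_cast; ring⟩
  · exact ⟨-1, Or.inr rfl, by rw [h]; push_cast; ring⟩

/-- the inverse relation -/
theorem ta_sD' {D : Eis} {i : ℕ} (hi : i = 1 ∨ i = 2) {e : ℤ} (he : e = 1 ∨ e = -1)
    (h : sD (CU.om ^ i * D) = (e : ℂ) * emb (CU.om ^ (2 * i)) * sD D) :
    sD D = (e : ℂ) * emb (CU.om ^ i) * sD (CU.om ^ i * D) := by
  have h4 : CU.om ^ i * CU.om ^ (2 * i) = 1 := by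
    rcases hi with rfl | rfl <;> decide
  have h5 : emb (CU.om ^ i) * emb (CU.om ^ (2 * i)) = 1 := by rw [← map_mul, h4, map_one]
  have h6 : (e : ℂ) * e = 1 := by
    rcases he with rfl | rfl <;> push_cast <;> norm_num
  rw [h]
  linear_combination (-(emb (CU.om ^ i) * emb (CU.om ^ (2 * i)) * sD D)) * h6 - sD D * h5

theorem ta_emb_mem (D a : Eis) : emb a ∈ KD D := by
  have hw : w ∈ KD D := IntermediateField.subset_adjoin _ _ (Set.mem_insert _ _)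
  rw [emb_apply]
  exact add_mem (intCast_mem _ _) (mul_mem (intCast_mem _ _) hw)

theorem ta_le {D D' a : Eis} {e : ℤ} (h : sD D' = (e : ℂ) * emb a * sD D) : KD D' ≤ KD D := by
  have hw : w ∈ KD D := IntermediateField.subset_adjoin _ _ (Set.mem_insert _ _)
  have hs : sD D ∈ KD D := IntermediateField.subset_adjoin _ _ (Set.mem_insert_of_mem _ rfl)
  refine IntermediateField.adjoin_le_iff.2 fun x hx => ?_
  rcases hx with rfl | hx
  · exact hw
  · rw [Set.mem_singleton_iff] at hx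
    rw [hx, h]
    exact mul_mem (mul_mem (intCast_mem _ _) (ta_emb_mem D a)) hs

theorem ta_cn {F F' : IntermediateField ℚ ℂ} [NumberField F] [NumberField F'] (h : F = F') :
    classNumber F = classNumber F' := by
  subst h
  rfl

theorem ta_KK (a : Eis) : emb a ∈ CF.KK := by
  rw [← CU.eE_coe]
  exact SetLike.coe_mem _

theorem ta_KK' (e : ℤ) {x : ℂ} (a : Eis) (hx : x ∈ CF.KK) : (e : ℂ) * emb a * x ∈ CF.KK :=
  mul_mem (mul_mem (intCast_mem _ _) (ta_KK a)) hx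

theorem ta_la_ne : emb la ≠ 0 := by
  rw [Ne, map_eq_zero_iff emb emb_injective]
  decide

/-- the identity between the two lines -/
theorem ta_id {i : ℕ} {c c' t e : ℤ} {q : Eis} {s s' E : ℂ} (h : s' = (e : ℂ) * emb (CU.om ^ (2 * i)) * s)
    (hq : la * (1 + (c' : Eis) * la) * CU.om ^ (2 * i) = la * (1 + (c : Eis) * la) + la ^ 3 * q) :
    (E - E⁻¹ - (t : ℂ) * emb (la * (1 + (c' : Eis) * la)) * s') / emb la ^ 3 =
      (E - E⁻¹ - ((e * t : ℤ) : ℂ) * emb (la * (1 + (c : Eis) * la)) * s) / emb la ^ 3 -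
        ((e * t : ℤ) : ℂ) * emb q * s := by
  have h1 : emb (la * (1 + (c' : Eis) * la)) * emb (CU.om ^ (2 * i)) =
      emb (la * (1 + (c : Eis) * la)) + emb la ^ 3 * emb q := by
    rw [← map_mul, hq, map_add, map_mul emb (la ^ 3), map_pow]
  have h2 := ta_la_ne
  rw [h]
  field_simp
  push_cast
  linear_combination (-(t : ℂ) * e * s) * h1

theorem ta_int {t : ℤ} {q : Eis} (D : Eis) : IsIntegral ℤ ((t : ℂ) * emb q * sD D) :=
  ((isIntegral_algebraMap (A := ℂ) (x := t)).mul (isIntegral_emb q)).mul (isIntegral_sD D)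

/-- the two lines are the same -/
theorem ta_line (d : Dat D) {i : ℕ} (hi : i = 1 ∨ i = 2) {e : ℤ} (he : e = 1 ∨ e = -1)
    (h : sD (CU.om ^ i * D) = (e : ℂ) * emb (CU.om ^ (2 * i)) * sD D) (E : ℂ) :
    OnLine (CU.om ^ i * D) (sD (CU.om ^ i * D)) E ↔ OnS (sl i (kk d).val (ei d)) (sD D) E := by
  have h6 : e * e = 1 := by
    rcases he with rfl | rfl <;> norm_num
  constructor
  · rintro ⟨d₀, d₁, d₂, t, hd, hint⟩
    obtain ⟨q, hq⟩ := ta_q hi (ta_sl d hi hd)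
    refine ⟨e * t, ?_⟩
    rw [ta_id h hq] at hint
    have h7 := hint.add (ta_int (t := e * t) (q := q) D)
    rw [sub_add_cancel] at h7
    exact h7
  · rintro ⟨t, hint⟩
    obtain ⟨d₀, d₁, d₂, hd⟩ := ta_ex d hi
    obtain ⟨q, hq⟩ := ta_q hi (ta_sl d hi hd)
    refine ⟨d₀, d₁, d₂, e * t, hd, ?_⟩
    rw [ta_id h hq]
    have h8 : e * (e * t) = t := by rw [← mul_assoc, h6, one_mul]
    rw [h8]
    exact hint.sub (ta_int (t := t) (q := q) D)

theorem ucs_trans (h : Cl0 D) (d : Dat D) {i : ℕ} (hi : i = 1 ∨ i = 2) :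
    UCX (CU.om ^ i * D) ↔ UCs D (sl i (kk d).val (ei d)) := by
  obtain ⟨e, he, hs⟩ := ta_sD D hi
  have hs' := ta_sD' hi he hs
  have hK : KD (CU.om ^ i * D) = KD D := le_antisymm (ta_le hs) (ta_le hs')
  have hcn := ta_cn hK
  unfold UCX UCs
  rw [hcn]
  refine and_congr_right fun _ => ?_
  constructor
  · rintro ⟨u₁, u₂, h1, h2, h3, h4, h5, h6⟩
    have e1 : u₂ * sD (CU.om ^ i * D) = ((e : ℂ) * emb (CU.om ^ (2 * i)) * u₂) * sD D := by rw [hs]; ring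
    rw [e1] at h3 h4 h5 h6
    refine ⟨u₁, (e : ℂ) * emb (CU.om ^ (2 * i)) * u₂, h1, ta_KK' _ _ h2, h3, h4, h5, ?_⟩
    rw [← ta_line d hi he hs]
    exact h6
  · rintro ⟨u₁, u₂, h1, h2, h3, h4, h5, h6⟩
    have e1 : u₂ * sD D = ((e : ℂ) * emb (CU.om ^ i) * u₂) * sD (CU.om ^ i * D) := by
      calc u₂ * sD D = u₂ * ((e : ℂ) * emb (CU.om ^ i) * sD (CU.om ^ i * D)) := by rw [← hs']
        _ = _ := by ring
    rw [← ta_line d hi he hs] at h6
    rw [e1] at h3 h4 h5 h6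
    exact ⟨u₁, (e : ℂ) * emb (CU.om ^ i) * u₂, h1, ta_KK' _ _ h2, h3, h4, h5, h6⟩

end JX
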