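import Pool.Agent.JX.Defs

/-!
# [JX-Tb] the class `ClY`

PROOF. `(⟸)`: `ω^i D`: squarefree (unit times squarefree), `la ∤` (`cl_not_la`), `CondTwo`: if `4 ∣ ω^i D - m²` then `4 ∣ D - (ω^i m)²·..` (`ω^(2i) ω^i = 1` for `i = 1`; in general `ω^(-i) = (ω^i)²`: `D - (ω^i m)^2 = ω^(2i)(ω^i D - m²)`, use `om_cube`), `ω^i D ≢ ± 1 mod 3` as `D ≡ ± 1` and `3 ∤ ω^i ∓ 1`. `(⟹)`: `D'` is a unit modulo `3` (`la ∤ D'`), so `D' ≡ ± ω^j mod 3`, `j = 0, 1, 2` (coordinates modulo 3: `decide`-like case analysis with `omega`), `j ≠ 0`; `D = ω^(3 - j) D'`.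
-/

set_option autoImplicit false

open NumberField IsDedekindDomain
open scoped Classical ComplexConjugate

namespace JX

open CM27 JZ JL
open CU (la eE)
open CUL (Nl ez si ta rh DS Cont LV IsRep rp cr mn zw OT GalU cu us FF W3)

variable {D : Eis}

theorem tb_three (a : Eis) : (3 : Eis) ∣ a ↔ (3 : ℤ) ∣ a.re ∧ (3 : ℤ) ∣ a.im := by
  have h3 : (3 : Eis).re = 3 := rfl
  have h4 : (3 : Eis).im = 0 := rfl
  constructor
  · rintro ⟨b, rfl⟩
    refine ⟨⟨b.re, ?_⟩, ⟨b.im, ?_⟩⟩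
    · rw [QuadraticAlgebra.re_mul, h3, h4]; ring
    · rw [QuadraticAlgebra.im_mul, h3, h4]; ring
  · rintro ⟨⟨x, hx⟩, ⟨y, hy⟩⟩
    refine ⟨⟨x, y⟩, ?_⟩
    ext
    · rw [QuadraticAlgebra.re_mul, h3, h4, hx]; ring
    · rw [QuadraticAlgebra.im_mul, h3, h4, hy]; ring

theorem tb_om2 : CU.om ^ 2 = ⟨-1, -1⟩ := by decide

theorem tb_om1 : CU.om ^ 1 = ⟨0, 1⟩ := by decide

/-- coordinates of `ω a` -/
theorem tb_c1 (a : Eis) : (CU.om ^ 1 * a).re = -a.im ∧ (CU.om ^ 1 * a).im = a.re - a.im := by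
  rw [tb_om1]
  constructor
  · rw [QuadraticAlgebra.re_mul]; ring
  · rw [QuadraticAlgebra.im_mul]; ring

/-- coordinates of `ω² a` -/
theorem tb_c2 (a : Eis) : (CU.om ^ 2 * a).re = -a.re + a.im ∧ (CU.om ^ 2 * a).im = -a.re := by
  rw [tb_om2]
  constructor
  · rw [QuadraticAlgebra.re_mul]; ring
  · rw [QuadraticAlgebra.im_mul]; ring

theorem tb_sf {a b : Eis} {k l : ℕ} (hk : k + l = 3) (h : a = CU.om ^ k * b) : a ∣ b ∧ b ∣ a := by
  refine ⟨⟨CU.om ^ l, ?_⟩, ⟨CU.om ^ k, ?_⟩⟩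
  · rw [h, mul_assoc, mul_comm b, ← mul_assoc, ← pow_add, hk, CU.om_cube, one_mul]
  · rw [h, mul_comm]

theorem tb_two {a b : Eis} {k l : ℕ} (hk : k + l = 3) (h : a = CU.om ^ k * b) (hb : CondTwo b) : CondTwo a := by
  intro m hm
  apply hb (CU.om ^ k * m)
  have h1 : (4 : Eis) ∣ CU.om ^ l * (a - m ^ 2) := Dvd.dvd.mul_left hm _
  have h2 : CU.om ^ l * (a - m ^ 2) = b - (CU.om ^ k * m) ^ 2 := by
    have h3 : CU.om ^ l * CU.om ^ k = 1 := by rw [← pow_add, add_comm, hk, CU.om_cube]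
    have h4 : CU.om ^ l = CU.om ^ k * CU.om ^ k := by
      have : k = 0 ∧ l = 3 ∨ k = 1 ∧ l = 2 ∨ k = 2 ∧ l = 1 ∨ k = 3 ∧ l = 0 := by omega
      rcases this with ⟨rfl, rfl⟩ | ⟨rfl, rfl⟩ | ⟨rfl, rfl⟩ | ⟨rfl, rfl⟩ <;> decide
    rw [h, mul_sub, ← mul_assoc, h3, one_mul, h4]
    ring
  rwa [h2] at h1

theorem cly_iff (D' : Eis) : ClY D' ↔ ∃ (i : ℕ) (D : Eis), (i = 1 ∨ i = 2) ∧ D' = CU.om ^ i * D ∧ Cl0 D := by
  constructor
  · rintro ⟨h1, h2, h3, h4⟩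
    rw [CU.la_dvd_iff] at h2
    have h5 := h4 1 (Or.inl rfl)
    have h6 := h4 (-1) (Or.inr rfl)
    rw [tb_three] at h5 h6
    simp only [QuadraticAlgebra.re_sub, QuadraticAlgebra.im_sub, QuadraticAlgebra.re_neg, QuadraticAlgebra.im_neg,
      QuadraticAlgebra.re_one, QuadraticAlgebra.im_one] at h5 h6
    -- the class of `D'` modulo `3`
    have key : ∃ (i l : ℕ) (η : Eis), (i = 1 ∨ i = 2) ∧ i + l = 3 ∧ (η = 1 ∨ η = -1) ∧
        (3 : Eis) ∣ CU.om ^ l * D' - η := by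
      obtain ⟨c1, c2⟩ := tb_c1 D'
      obtain ⟨c3, c4⟩ := tb_c2 D'
      have h7 : (D'.re % 3 = 0 ∧ D'.im % 3 = 1) ∨ (D'.re % 3 = 0 ∧ D'.im % 3 = 2) ∨
          (D'.re % 3 = 1 ∧ D'.im % 3 = 1) ∨ (D'.re % 3 = 2 ∧ D'.im % 3 = 2) := by omega
      rcases h7 with ⟨e1, e2⟩ | ⟨e1, e2⟩ | ⟨e1, e2⟩ | ⟨e1, e2⟩
      · refine ⟨1, 2, 1, Or.inl rfl, rfl, Or.inl rfl, ?_⟩
        rw [tb_three]
        simp only [QuadraticAlgebra.re_sub, QuadraticAlgebra.im_sub, QuadraticAlgebra.re_one, QuadraticAlgebra.im_one, c3, c4]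
        omega
      · refine ⟨1, 2, -1, Or.inl rfl, rfl, Or.inr rfl, ?_⟩
        rw [tb_three]
        simp only [QuadraticAlgebra.re_sub, QuadraticAlgebra.im_sub, QuadraticAlgebra.re_neg, QuadraticAlgebra.im_neg,
          QuadraticAlgebra.re_one, QuadraticAlgebra.im_one, c3, c4]
        omega
      · refine ⟨2, 1, -1, Or.inr rfl, rfl, Or.inr rfl, ?_⟩
        rw [tb_three]
        simp only [QuadraticAlgebra.re_sub, QuadraticAlgebra.im_sub, QuadraticAlgebra.re_neg, QuadraticAlgebra.im_neg,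
          QuadraticAlgebra.re_one, QuadraticAlgebra.im_one, c1, c2]
        omega
      · refine ⟨2, 1, 1, Or.inr rfl, rfl, Or.inl rfl, ?_⟩
        rw [tb_three]
        simp only [QuadraticAlgebra.re_sub, QuadraticAlgebra.im_sub, QuadraticAlgebra.re_one, QuadraticAlgebra.im_one, c1, c2]
        omega
    obtain ⟨i, l, η, hi, hil, hη, hd⟩ := key
    refine ⟨i, CU.om ^ l * D', hi, ?_, ?_, ⟨η, hη, hd⟩, ?_⟩
    · rw [← mul_assoc, ← pow_add, hil, CU.om_cube, one_mul]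
    · exact h1.squarefree_of_dvd (tb_sf (k := l) (l := i) (by omega) rfl).1
    · exact tb_two (k := l) (l := i) (by omega) rfl h3
  · rintro ⟨i, D, hi, rfl, h⟩
    have h0 := h
    obtain ⟨h1, ⟨η, hη, h2⟩, h3⟩ := h
    have hil : i + (3 - i) = 3 := by omega
    refine ⟨?_, ?_, ?_, ?_⟩
    · exact h1.squarefree_of_dvd (tb_sf hil rfl).1
    · intro hla
      exact cl_not_la h0 (hla.trans (tb_sf hil rfl).1)
    · exact tb_two hil rfl h3
    · intro η' hη' hd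
      obtain ⟨c1, c2⟩ := tb_c1 D
      obtain ⟨c3, c4⟩ := tb_c2 D
      rw [tb_three] at h2 hd
      rcases hη with rfl | rfl <;> rcases hη' with rfl | rfl <;> rcases hi with rfl | rfl <;>
        simp only [QuadraticAlgebra.re_sub, QuadraticAlgebra.im_sub, QuadraticAlgebra.re_neg, QuadraticAlgebra.im_neg,
          QuadraticAlgebra.re_one, QuadraticAlgebra.im_one, c1, c2, c3, c4] at h2 hd <;> omega

end JX
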