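import Pool.Agent.JX.H1
import Pool.Agent.JX.H2
import Pool.Agent.JX.A7
import Pool.Agent.JX.G1
import Pool.Agent.JX.N6
import Pool.Agent.JX.Ta
import Pool.Agent.JX.Tb
import Pool.Agent.JL.Z

/-!
# [JX-Z] the central value of `y² = x³ + D`, `D` prime to `λ`, `D ≢ ± 1 mod 3`
-/

set_option autoImplicit false

open NumberField IsDedekindDomain
open scoped Classical ComplexConjugate

namespace JX

open CM27 JZ JL
open CU (la eE)
open CUL (Nl ez si ta rh DS Cont LV IsRep rp cr mn zw OT GalU cu us FF W3)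

variable {D : Eis}

theorem zx_norm {u : ℂ} (hu : ‖u‖ = 1) {s t V L f F : ℂ} (ht0 : t ≠ 0) {N : ℝ} (hN : 0 < N)
    (hs : ‖s‖ ^ 2 = N) (ht : ‖t‖ ^ 3 = 4 * N) (hL : ‖L‖ ^ 2 = 3) (hF : ‖F‖ = ‖L‖) (hf : ‖f‖ = 4 * N) (O : ℂ) :
    ‖u * O / (L ^ 3 * f) * V‖ ^ 2 =
      ‖V * s / (t * F)‖ ^ 2 * (4 * N) ^ ((2 : ℝ) / 3) / (144 * N ^ 3) * ‖O‖ ^ 2 := by
  have ht2 : (4 * N) ^ ((2 : ℝ) / 3) = ‖t‖ ^ 2 := by
    rw [← ht, ← Real.rpow_natCast, ← Real.rpow_mul (norm_nonneg _), ← Real.rpow_natCast]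
    norm_num
  have ht' : ‖t‖ ≠ 0 := norm_ne_zero_iff.2 ht0
  have hL0 : ‖L‖ ≠ 0 := by
    intro h0
    rw [h0] at hL
    norm_num at hL
  have hL3 : (‖L‖ ^ 3) ^ 2 = 27 := by
    calc (‖L‖ ^ 3) ^ 2 = (‖L‖ ^ 2) ^ 3 := by ring
      _ = 27 := by rw [hL]; norm_num
  rw [ht2, norm_mul, norm_div, norm_mul, norm_mul, norm_pow, norm_div, norm_mul, norm_mul, hu, hf, hF]
  have e1 : (1 * ‖O‖ / (‖L‖ ^ 3 * (4 * N)) * ‖V‖) ^ 2 = ‖O‖ ^ 2 * ‖V‖ ^ 2 / (27 * (16 * N ^ 2)) := by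
    rw [mul_pow, div_pow, mul_pow, mul_pow, hL3]
    ring
  have e2 : (‖V‖ * ‖s‖ / (‖t‖ * ‖L‖)) ^ 2 = ‖V‖ ^ 2 * N / (‖t‖ ^ 2 * 3) := by
    rw [div_pow, mul_pow, mul_pow, hs, hL]
  rw [e1, e2]
  field_simp
  ring

theorem L_mainX (h : Cl0 D) (hu : ¬ IsUnit D) {i : ℕ} (hi : i = 1 ∨ i = 2) :
    ∃ Φ : ℂ → ℂ, Differentiable ℂ Φ ∧ (∀ s : ℂ, 3 / 2 < s.re →
      Φ s = LSeries (fun n => NAB.IL CF.KK (fun I => conj (emb (Psi6 (eE (CU.om ^ i * D)) I))) n) s) ∧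
    ∃ q : ℚ, 0 ≤ q ∧
      Φ 1 * conj (Φ 1) = (((q : ℝ) * ‖emb (4 * (CU.om ^ i * D))‖ ^ ((2 : ℝ) / 3) /
        (144 * ‖emb (CU.om ^ i * D)‖ ^ 3) : ℝ) : ℂ) * (Om : ℂ) ^ 2 ∧
      (q = 0 ∨ 2 ≤ padicValRat 3 q) ∧ ((q ≠ 0 ∧ padicValRat 3 q = 2) ↔ UCX (CU.om ^ i * D)) := by
  have hom : ‖emb (CU.om ^ i)‖ = 1 := by
    rw [map_pow, CUL.emb_om, norm_pow]
    have h3 : ‖w‖ ^ 3 = 1 := by rw [← norm_pow, CUL.w3, norm_one]
    have h4 : ‖w‖ = 1 := (pow_eq_one_iff_of_nonneg (norm_nonneg _) three_ne_zero).1 h3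
    rw [h4, one_pow]
  have hn1 : ‖emb (CU.om ^ i * D)‖ = ‖emb D‖ := by rw [map_mul, norm_mul, hom, one_mul]
  have hn4 : ‖emb (4 * (CU.om ^ i * D))‖ = ‖emb (4 * D)‖ := by
    rw [map_mul, norm_mul, hn1, map_mul, norm_mul]
  obtain ⟨d⟩ := exists_dat h
  obtain ⟨R, hR⟩ := exists_R h d
  obtain ⟨Φ, h1, h2, h3⟩ := L_entireX h d hi
  obtain ⟨u, hun, hLV⟩ := LV_FfX h d hi
  obtain ⟨m, ε, n, z, hm, hz, hN, he, hn, hgen⟩ := ee_pow h hu d hR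
  obtain ⟨A, hA⟩ := CUL.exists_A
  have hs : sD D ^ 2 = emb D := sD_sq D
  obtain ⟨t, ht⟩ : ∃ t : ℂ, t ^ 3 = emb (4 * D) := IsAlgClosed.exists_pow_nat_eq _ (by norm_num)
  have hb := b_memX h d hi hs ht
  obtain ⟨v₁, v₂, hv1, hv2, hve, hvi, hv0⟩ := hN
  obtain ⟨hV1, hT2, hV2⟩ := VF_val h d hR A hA hi hs hm hv1 hv2 hve hvi hv0
  have hUC := ucs_iff h A hA hv1 hv2 (by rw [← hve, hvi]) (by rw [← hve]; exact hv0) (by rw [← hve]; exact hT2) hz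
    (by rw [← hve, he]) hn hgen (sl i (kk d).val (ei d))
  rw [← ucs_trans h d hi, ← hV2] at hUC
  have hla : ¬ la ∣ D := cl_not_la h
  have hvD : A.valuation (emb D) = 1 := CUL.w_emb_unit A hA D hla
  have hla4 : ¬ la ∣ 4 * D := by
    intro h4
    rcases CUL.la_prime.dvd_or_dvd h4 with h5 | h5
    · rw [CUL.la_dvd_iff] at h5
      revert h5
      decide
    · exact hla h5
  have hv4 : A.valuation (emb (4 * D)) = 1 := CUL.w_emb_unit A hA _ hla4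
  have hD0 : emb D ≠ 0 := by
    intro h0
    rw [h0, map_zero] at hvD
    exact zero_ne_one hvD
  have h40 : emb (4 * D) ≠ 0 := by
    intro h0
    rw [h0, map_zero] at hv4
    exact zero_ne_one hv4
  have hs0 : sD D ≠ 0 := by
    intro h0
    rw [h0, zero_pow two_ne_zero] at hs
    exact hD0 hs.symm
  have ht0 : t ≠ 0 := by
    intro h0
    rw [h0, zero_pow three_ne_zero] at ht
    exact h40 ht.symm
  have hvs : A.valuation (sD D) = 1 := by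
    refine CUL.z_pow_one two_ne_zero ?_
    rw [← map_pow, hs, hvD]
  have hvt : A.valuation t = 1 := by
    refine CUL.z_pow_one three_ne_zero ?_
    rw [← map_pow, ht, hv4]
  have hF0 : FF (iu i) 0 ≠ 0 := CUL.v2_FF0_ne (us_iu' hi)
  have hvF : A.valuation (FF (iu i) 0) = A.valuation (emb la) := CUL.v2_FF0_w A (us_iu' hi)
  have hla0 : A.valuation (emb la) ≠ 0 := CUL.v2_wla A
  have hvb : A.valuation (VF d i * sD D / (t * FF (iu i) 0)) = A.valuation (VF d i) / A.valuation (emb la) := by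
    rw [map_div₀, map_mul, map_mul, hvs, hvt, mul_one, one_mul, hvF]
  have h30 : A.valuation (3 : ℂ) ≠ 0 := (map_ne_zero _).2 three_ne_zero
  have hN0 : 0 < ‖emb D‖ := norm_pos_iff.2 hD0
  have hnorm : ‖Φ 1‖ ^ 2 = ‖VF d i * sD D / (t * FF (iu i) 0)‖ ^ 2 * ‖emb (4 * D)‖ ^ ((2 : ℝ) / 3) /
      (144 * ‖emb D‖ ^ 3) * Om ^ 2 := by
    have e4 : ‖emb (4 * D)‖ = 4 * ‖emb D‖ := by
      rw [map_mul, norm_mul, map_ofNat]
      norm_num
    rw [h3, hLV, zx_norm hun ht0 hN0 (by rw [← norm_pow, hs]) (by rw [← norm_pow, ht, e4]) ?_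
      (CUL.v2_norm_FF0 (us_iu' hi)) e4, CUL.z_norm_OmC, e4]
    rw [norm_emb_sq, CUL.g6_norm_la]
    norm_num
  have hcon : Φ 1 * conj (Φ 1) = ((‖Φ 1‖ ^ 2 : ℝ) : ℂ) := by
    rw [Complex.mul_conj, Complex.normSq_eq_norm_sq]
  have hiff : A.valuation (VF d i) = A.valuation 3 * A.valuation (emb la) ↔
      A.valuation (VF d i * sD D / (t * FF (iu i) 0)) = A.valuation 3 := by
    rw [hvb]
    constructor
    · intro h5
      rw [h5, mul_div_cancel_right₀ _ hla0]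
    · intro h5
      rw [← h5, div_mul_cancel₀ _ hla0]
  have hle : A.valuation (VF d i * sD D / (t * FF (iu i) 0)) ≤ A.valuation 3 := by
    rw [hvb]
    calc A.valuation (VF d i) / A.valuation (emb la) ≤ A.valuation 3 * A.valuation (emb la) / A.valuation (emb la) :=
          div_le_div_of_nonneg_right hV1 zero_le
      _ = A.valuation 3 := mul_div_cancel_right₀ _ hla0
  refine ⟨Φ, h1, h2, ?_⟩
  rw [hn4, hn1, ← hUC, hiff]
  by_cases hb0 : VF d i * sD D / (t * FF (iu i) 0) = 0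
  · refine ⟨0, le_rfl, ?_, Or.inl rfl, ?_⟩
    · rw [hcon, hnorm, hb0]
      simp
    · constructor
      · rintro ⟨h0, -⟩
        exact absurd rfl h0
      · intro hv
        rw [hb0, map_zero] at hv
        exact absurd hv.symm h30
  · obtain ⟨q, hq, hqq, hval⟩ := CUL.val_KK A hA hb hb0
    have hq2 : ‖VF d i * sD D / (t * FF (iu i) 0)‖ ^ 2 = (q : ℝ) := by
      rw [Complex.mul_conj, Complex.normSq_eq_norm_sq] at hqq
      exact_mod_cast hqq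
    have h3pos : 0 < A.valuation (3 : ℂ) := zero_lt_iff.2 h30
    refine ⟨q, hq.le, ?_, Or.inr ?_, ?_⟩
    · rw [hcon, hnorm, hq2]
      push_cast
      ring
    · by_contra hlt
      rw [not_le] at hlt
      have h5 : A.valuation (3 : ℂ) ^ padicValRat 3 q ≤ A.valuation (3 : ℂ) ^ (2 : ℤ) := by
        rw [← hval, zpow_ofNat]
        exact pow_le_pow_left' hle 2
      have h6 := zpow_lt_zpow_right_of_lt_one₀ h3pos hA hlt
      exact absurd h5 (not_le.2 h6)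
    · constructor
      · rintro ⟨-, h5⟩
        rw [h5] at hval
        rw [zpow_ofNat] at hval
        exact (pow_left_inj₀ zero_le zero_le two_ne_zero).1 hval
      · intro h5
        refine ⟨hq.ne', ?_⟩
        rw [h5] at hval
        have h6 : A.valuation (3 : ℂ) ^ (padicValRat 3 q) = A.valuation (3 : ℂ) ^ (2 : ℤ) := by
          rw [← hval, zpow_ofNat]
        exact CUL.z_zpow_inj h30 hA h6

/-- [JX-L] -/
theorem L_main (h : ClY D) (hu : ¬ IsUnit D) : ∃ Φ : ℂ → ℂ, Differentiable ℂ Φ ∧ (∀ s : ℂ, 3 / 2 < s.re →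
      Φ s = LSeries (fun n => NAB.IL CF.KK (fun I => conj (emb (Psi6 (eE D) I))) n) s) ∧
    ∃ q : ℚ, 0 ≤ q ∧
      Φ 1 * conj (Φ 1) = (((q : ℝ) * ‖emb (4 * D)‖ ^ ((2 : ℝ) / 3) / (144 * ‖emb D‖ ^ 3) : ℝ) : ℂ) * (Om : ℂ) ^ 2 ∧
      (q = 0 ∨ 2 ≤ padicValRat 3 q) ∧ ((q ≠ 0 ∧ padicValRat 3 q = 2) ↔ UCX D) := by
  obtain ⟨i, D0, hi, rfl, h0⟩ := (cly_iff D).1 h
  refine L_mainX h0 (fun h1 => hu ?_) hi
  exact (CU.om_unit.pow i).mul h1

end JX
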