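import Pool.Agent.JZ.Defs

/-!
# [JX] the sextic twists `y² = x³ + D` over `ℚ(ω)`, `D` prime to `λ`: common definitions

The mathematics is in `JX.md` (team-store). `la = 1 - ω`.
-/

set_option autoImplicit false

namespace JX

open CM27 CU JZ

/-- `D ≡ d₀ + d₁ λ + d₂ λ² mod λ³` with digits `d_j ∈ {-1, 0, 1}`, `d₀ ≠ 0`. -/
def Dig (D : Eis) (d₀ d₁ d₂ : ℤ) : Prop :=
  (d₀ = 1 ∨ d₀ = -1) ∧ (d₁ = 0 ∨ d₁ = 1 ∨ d₁ = -1) ∧ (d₂ = 0 ∨ d₂ = 1 ∨ d₂ = -1) ∧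
    la ^ 3 ∣ D - ((d₀ : Eis) + (d₁ : Eis) * la + (d₂ : Eis) * la ^ 2)

/-- `β mod λ²` is on the line generated by `1 + d₁ (1 + d₂) λ`. -/
def Ln (D β : Eis) : Prop :=
  ∃ d₀ d₁ d₂ t : ℤ, Dig D d₀ d₁ d₂ ∧ la ^ 2 ∣ β - (t : Eis) * (1 + ((d₁ * (1 + d₂) : ℤ) : Eis) * la)

/-- The class of the `D` considered: squarefree, prime to `λ`, not a square modulo `4`, and
`D ≢ ± 1 + λ² mod λ³`. -/
def ClX (D : Eis) : Prop :=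
  Squarefree D ∧ ¬ la ∣ D ∧ CondTwo D ∧ ∀ η : Eis, (η = 1 ∨ η = -1) → ¬ la ^ 3 ∣ D - η - la ^ 2

/-- The new part: `D ≢ ± 1 mod 3`. -/
def ClY (D : Eis) : Prop :=
  Squarefree D ∧ ¬ la ∣ D ∧ CondTwo D ∧ ∀ η : Eis, (η = 1 ∨ η = -1) → ¬ (3 : Eis) ∣ D - η

/-- There is a binary cubic form `f = a x³ + 3 b x² y + 3 c x y² + d y³` over `ℤ[ω]` of discriminant
`4 λ⁶ D = -27 * 4 D` without a zero over `ℚ(ω)`, and `f(v)/λ mod λ²` is on the line of `D` for all `v`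
(not divisible by `λ`) with `λ ∣ f(v)`. -/
def HasFormX (D : Eis) : Prop :=
  ∃ a b c d : Eis,
    a ^ 2 * d ^ 2 - 6 * a * b * c * d + 4 * a * c ^ 3 + 4 * b ^ 3 * d - 3 * b ^ 2 * c ^ 2 = 4 * D ∧
    (∀ x y : Eis, a * x ^ 3 + 3 * b * x ^ 2 * y + 3 * c * x * y ^ 2 + d * y ^ 3 = 0 → x = 0 ∧ y = 0) ∧
    ∀ x y m : Eis, ¬ (la ∣ x ∧ la ∣ y) →
      a * x ^ 3 + 3 * b * x ^ 2 * y + 3 * c * x * y ^ 2 + d * y ^ 3 = la * m → Ln D m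

end JX
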