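import Pool.Agent.JX.B1
import Pool.Agent.JL.H1

/-!
# [JX-H1] the `L`-function is entire, its value at 1

PROOF: port of JL/H1.lean (`h1_IL`, `L_entire6`), with `FfX d i` for `Ff d` and `Psi6_spanX` for `Psi6_span`; `conj (emb Psi6 (b)) = conj χ(b) cu (iu i) b conj b`. `FfX d i` is periodic modulo `9 · 4 D` (`Primary` depends on `b mod 3`, `cu u b` on `b mod λ³`: `CUL.cu_congr`, `λ³ ∣ 9`; `chi_congr`). `|FfX| ≤ 1`.
-/

set_option autoImplicit false

open NumberField IsDedekindDomain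
open scoped Classical ComplexConjugate

namespace JX

open CM27 JZ JL
open CU (la eE)
open CUL (Nl ez si ta rh DS Cont LV IsRep rp cr mn zw OT GalU cu us FF W3)

variable {D : Eis}

theorem h1_la : la ^ 3 ∣ (9 : Eis) := ⟨1 + 2 * CU.om, by decide⟩

theorem h1_per (d : Dat D) (i : ℕ) {a b : Eis} (h : 9 * (4 * D) ∣ a - b) : FfX d i a = FfX d i b := by
  have h9 : (9 : Eis) ∣ a - b := (Dvd.intro _ rfl).trans h
  have h3 : (3 : Eis) ∣ a - b := (Dvd.intro 3 (by decide)).trans h9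
  have h4 : 4 * D ∣ a - b := (Dvd.intro_left _ rfl).trans h
  have hl : la ^ 3 ∣ a - b := h1_la.trans h9
  unfold FfX
  rw [chi_congr d h4]
  by_cases hp : Primary a
  · rw [if_pos hp, if_pos ((JL.h1_primary h3).1 hp), CUL.cu_congr (iu i) hp hl]
  · rw [if_neg hp, if_neg (fun h5 => hp ((JL.h1_primary h3).2 h5))]

theorem h1_norm (d : Dat D) (i : ℕ) (b : Eis) : ‖FfX d i b‖ ≤ 1 := by
  unfold FfX
  split_ifs
  · rw [norm_mul, Complex.norm_conj, CUL.cu_norm, mul_one]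
    exact chi_norm d b
  · rw [norm_zero]
    exact zero_le_one

theorem h1_Psi_norm (d : Dat D) {i : ℕ} (hi : i = 1 ∨ i = 2) (I : Ideal (𝓞 CF.KK)) (_ : I ≠ 0) :
    ‖conj (emb (Psi6 (eE (CU.om ^ i * D)) I))‖ ^ 2 ≤ Ideal.absNorm I := by
  rcases CUL.l6_cases I with ⟨b, hb, rfl⟩ | ⟨b, hb, rfl⟩
  · rw [Psi6_la _ hb, map_zero, map_zero, norm_zero, zero_pow two_ne_zero]
    exact Nat.cast_nonneg _
  · rw [Psi6_spanX d hi hb, Complex.norm_conj, norm_mul, norm_mul, Complex.norm_conj, CUL.cu_norm, mul_one,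
      mul_pow, CUL.l6_absNorm, CUL.l6_norm]
    have h1 := chi_norm d b
    have h2 : ‖chi d b‖ ^ 2 ≤ 1 := pow_le_one₀ (norm_nonneg _) h1
    calc ‖chi d b‖ ^ 2 * ((b.norm.natAbs : ℕ) : ℝ) ≤ 1 * ((b.norm.natAbs : ℕ) : ℝ) :=
          mul_le_mul_of_nonneg_right h2 (Nat.cast_nonneg _)
      _ = _ := one_mul _

theorem h1_IL (d : Dat D) {i : ℕ} (hi : i = 1 ∨ i = 2) (s : ℂ) (hs : 3 / 2 < s.re) :
    LSeries (fun n => NAB.IL CF.KK (fun I => conj (emb (Psi6 (eE (CU.om ^ i * D)) I))) n) s =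
      DS (FfX d i) s := by
  rw [NAB.LSeries_IL CF.KK _ (h1_Psi_norm d hi) s hs, DS]
  have hinj : Function.Injective
      (fun b : {b : Eis // Primary b} => (Ideal.span {eE (b : Eis)} : Ideal (𝓞 CF.KK))) := by
    intro b c hbc
    exact Subtype.ext (CUL.l6_inj b.2 c.2 hbc)
  have h1 := hinj.tsum_eq
    (f := NAB.itm CF.KK (fun I => conj (emb (Psi6 (eE (CU.om ^ i * D)) I))) s) (by
    intro I hI
    rcases CUL.l6_cases I with ⟨b, hb, rfl⟩ | ⟨b, hb, rfl⟩
    · exfalso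
      apply hI
      rw [NAB.itm]
      split_ifs
      · rfl
      · rw [Psi6_la _ hb, map_zero, map_zero, zero_mul]
    · exact ⟨⟨b, hb⟩, rfl⟩)
  have h2 := (Subtype.val_injective (p := fun b : Eis => Primary b)).tsum_eq
    (f := fun c : Eis => FfX d i c * gs s (emb c)) (by
      intro c hc
      by_cases hp : Primary c
      · exact ⟨⟨c, hp⟩, rfl⟩
      · exfalso
        apply hc
        simp only [FfX, if_neg hp, zero_mul])
  rw [← h1, ← h2]
  refine tsum_congr fun b => ?_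
  have hb := b.2
  have hpos : 0 < ‖emb (b : Eis)‖ := by
    rw [norm_pos_iff]
    intro h0
    exact CUL.primary_ne hb (emb_injective (by rw [h0, map_zero]))
  have hF : FfX d i (b : Eis) = conj (chi d b) * cu (iu i) b := by
    unfold FfX
    rw [if_pos hb]
  rw [NAB.itm, if_neg (CUL.l6_span_ne hb), Psi6_spanX d hi hb, map_mul, map_mul, Complex.conj_conj,
    CUL.l6_absNorm, gs, ← CUL.l6_pow hpos, CUL.l6_norm, hF]
  push_cast
  ring

theorem L_entireX (h : Cl0 D) (d : Dat D) {i : ℕ} (hi : i = 1 ∨ i = 2) :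
    ∃ Φ : ℂ → ℂ, Differentiable ℂ Φ ∧ (∀ s : ℂ, 3 / 2 < s.re →
      Φ s = LSeries (fun n => NAB.IL CF.KK (fun I => conj (emb (Psi6 (eE (CU.om ^ i * D)) I))) n) s) ∧
      Φ 1 = LV (FfX d i) := by
  have := eis_isDomain
  have hD := cl_ne h
  have hM : (9 : Eis) * (4 * D) ≠ 0 := by
    refine mul_ne_zero ?_ (mul_ne_zero ?_ hD)
    · decide
    · decide
  obtain ⟨Φ, h1, -⟩ := CUL.cont_of_periodic hM (FfX d i) (fun a b hab => h1_per d i hab) (CUL.rp_spec hM)
  exact ⟨Φ, h1.1, fun s hs => by rw [h1.2 s hs, h1_IL d hi s hs], (CUL.LV_eq h1).symm⟩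

end JX
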