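import Pool.Agent.JX.Defs

/-!
# [JX-P1a] the points `1/λ³ + j/λ`

`θ = w - w²`, `θ² = -3`, `δ = yw ta = ± 1`, `4 x³ = y² - 1`.
PROOF. `p1_add`: `a2/a3` addition formulas (`CUL.xw_sum`, `CUL.yw_sum` in CUL/U4.lean with `v = ta`, `xw ta = 0`): `xw (z + ta) = (1/4) ((y - δ)/x)² - x = (1 - δ y)/(2 x²)`, and `4 x³ = (y - δ)(y + δ)`. (`y + δ = 0` gives `x = 0`, so `z = ± ta` mod the lattice, excluded. `xw z ≠ 0` as `Nl z`, `Nl (z ± ta)`: `xw_eq_zero_iff`.) `ez`-free; the formula for `y` follows from the slope formula or from `yw_sum`.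
`p1_si`: `yw_la si`: `yw ta = yw (la si) = yw si (x³ - 2)/(la³ x³)`, `x³ = xw si ^ 3 = -1`: `= 3 yw si / la³`, `la³ = -3 θ` (`la_cube`), so `yw ta = - yw si / θ`.
`p1_pts`: `q = w` if `yw ta = -1`, `q = w²` if `yw ta = 1`. `υ = (θ - yw rh)/(θ + yw rh)`. `phi_cube` (CUL/V1.lean, for `z = rh`, `la rh = si`, `d = ± 1`): `((y + θ)/x)³ = 4 λ³ (yw si - 1)`, `((y - θ)/x)³ = 4 λ³ (yw si + 1)`, so `(-υ)³ = (yw si + 1)/(yw si - 1)`, `υ³ = q` (two cases, `p1_si`).
  `yw rh = θ (1 - υ)/(1 + υ)`; `C = xw rh υ (1 + υ)`: `C³ = x³ q (1 + υ)³ = 1` from `4 x³ = y² - 1`. For `rh + ta`: `p1_add`: `yw (rh + ta) = (δ y - 3)/(y + δ) = θ (1 - q υ)/(1 + q υ)`, `xw (rh + ta) = -2 δ x/(y + δ) = C/(q υ (1 + q υ))` (cases `δ = ± 1`, `w² = -1 - w`, field_simp). For `rh - ta = rh + ta + ta - 3 ta`, `3 ta` in the lattice (`three_ta`): apply `p1_add` to `z = rh + ta`.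
  `4/λ³ = rh - ta + lattice`, `-2/λ³ = rh + ta + lattice` (proof in `v1_sum`, CUL/V1.lean).
-/

set_option autoImplicit false

open NumberField IsDedekindDomain
open scoped Classical ComplexConjugate

namespace JX

open CM27 JZ JL
open CU (la eE)
open CUL (Nl ez si ta rh DS Cont LV IsRep rp cr mn zw OT GalU cu us FF W3)

variable {D : Eis}

theorem p1_add {z : ℂ} (hz : Nl z) (h1 : Nl (z + ta)) (h2 : Nl (z - ta)) :
    yw z + yw ta ≠ 0 ∧ xw (z + ta) * (yw z + yw ta) = -2 * yw ta * xw z ∧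
      yw (z + ta) * (yw z + yw ta) = yw ta * yw z - 3 := by
  have hx : xw z ≠ 0 := by
    intro h0
    rcases (CUL.xw_eq_zero_iff hz).1 h0 with h | h
    · exact h2 h
    · exact h1 h
  have hw := weq z hz
  have hd : yw ta ^ 2 = 1 := CUL.yw_ta_sq
  have hprod : (yw z + yw ta) * (yw z - yw ta) = 4 * xw z ^ 3 := by
    linear_combination hw - hd
  have hne : yw z + yw ta ≠ 0 := by
    intro h0
    rw [h0, zero_mul] at hprod
    have h3 : xw z ^ 3 = 0 := by linear_combination (-(1 : ℂ) / 4) * hprod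
    exact hx (pow_eq_zero_iff (by norm_num) |>.1 h3)
  have hne2 : xw z ≠ xw ta := by
    rw [CUL.xw_ta]
    exact hx
  have e1 := CUL.xw_sum hz CUL.nl_ta h1 hne2
  have e2 := CUL.yw_sum hz CUL.nl_ta h1 hne2
  rw [CUL.xw_ta, sub_zero, sub_zero] at e1
  rw [CUL.xw_ta, sub_zero] at e2
  have e3 : xw (z + ta) * (yw z + yw ta) = -2 * yw ta * xw z := by
    rw [e1]
    field_simp
    linear_combination (yw z - yw ta) * hprod
  refine ⟨hne, e3, ?_⟩
  have e4 : yw (z + ta) * (yw z + yw ta) * xw z = (yw ta * yw z - 3) * xw z := by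
    have e5 : yw (z + ta) * xw z = -(yw z * xw z + (yw z - yw ta) * (xw (z + ta) - xw z)) := by
      rw [e2]
      field_simp
    linear_combination (yw z + yw ta) * e5 - (yw z - yw ta) * e3 - 3 * xw z * hd
  exact mul_right_cancel₀ hx e4

end JX
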