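import Pool.Agent.JX.Defs

/-!
# [JX-P1b] the points `1/λ³ + j/λ`

`θ = w - w²`, `θ² = -3`, `δ = yw ta = ± 1`, `4 x³ = y² - 1`.
PROOF. `p1_add`: `a2/a3` addition formulas (`CUL.xw_sum`, `CUL.yw_sum` in CUL/U4.lean with `v = ta`, `xw ta = 0`): `xw (z + ta) = (1/4) ((y - δ)/x)² - x = (1 - δ y)/(2 x²)`, and `4 x³ = (y - δ)(y + δ)`. (`y + δ = 0` gives `x = 0`, so `z = ± ta` mod the lattice, excluded. `xw z ≠ 0` as `Nl z`, `Nl (z ± ta)`: `xw_eq_zero_iff`.) `ez`-free; the formula for `y` follows from the slope formula or from `yw_sum`.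
`p1_si`: `yw_la si`: `yw ta = yw (la si) = yw si (x³ - 2)/(la³ x³)`, `x³ = xw si ^ 3 = -1`: `= 3 yw si / la³`, `la³ = -3 θ` (`la_cube`), so `yw ta = - yw si / θ`.
`p1_pts`: `q = w` if `yw ta = -1`, `q = w²` if `yw ta = 1`. `υ = (θ - yw rh)/(θ + yw rh)`. `phi_cube` (CUL/V1.lean, for `z = rh`, `la rh = si`, `d = ± 1`): `((y + θ)/x)³ = 4 λ³ (yw si - 1)`, `((y - θ)/x)³ = 4 λ³ (yw si + 1)`, so `(-υ)³ = (yw si + 1)/(yw si - 1)`, `υ³ = q` (two cases, `p1_si`).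
  `yw rh = θ (1 - υ)/(1 + υ)`; `C = xw rh υ (1 + υ)`: `C³ = x³ q (1 + υ)³ = 1` from `4 x³ = y² - 1`. For `rh + ta`: `p1_add`: `yw (rh + ta) = (δ y - 3)/(y + δ) = θ (1 - q υ)/(1 + q υ)`, `xw (rh + ta) = -2 δ x/(y + δ) = C/(q υ (1 + q υ))` (cases `δ = ± 1`, `w² = -1 - w`, field_simp). For `rh - ta = rh + ta + ta - 3 ta`, `3 ta` in the lattice (`three_ta`): apply `p1_add` to `z = rh + ta`.
  `4/λ³ = rh - ta + lattice`, `-2/λ³ = rh + ta + lattice` (proof in `v1_sum`, CUL/V1.lean).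
-/

set_option autoImplicit false

open NumberField IsDedekindDomain
open scoped Classical ComplexConjugate

namespace JX

open CM27 JZ JL
open CU (la eE)
open CUL (Nl ez si ta rh DS Cont LV IsRep rp cr mn zw OT GalU cu us FF W3)

variable {D : Eis}

theorem p1_si : yw si = -(w - w ^ 2) * yw ta := by
  have h := CUL.yw_la si
  rw [CUL.la_si, CUL.xw_si, CUL.la_cube] at h
  have hth := CUL.th_sq
  have hne : (w - w ^ 2) ≠ 0 := by
    intro h0
    rw [h0] at hth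
    norm_num at hth
  have hne3 : (-3 * (w - w ^ 2) * -1 : ℂ) ≠ 0 := by
    intro h0
    apply hne
    linear_combination h0 / 3
  rw [eq_div_iff hne3] at h
  linear_combination h / 3

end JX
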