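import Pool.Agent.JX.P1a
import Pool.Agent.JX.P1b

/-!
# [JX-P1] the points `1/λ³ + j/λ`

`θ = w - w²`, `θ² = -3`, `δ = yw ta = ± 1`, `4 x³ = y² - 1`.
PROOF. `p1_add`: `a2/a3` addition formulas (`CUL.xw_sum`, `CUL.yw_sum` in CUL/U4.lean with `v = ta`, `xw ta = 0`): `xw (z + ta) = (1/4) ((y - δ)/x)² - x = (1 - δ y)/(2 x²)`, and `4 x³ = (y - δ)(y + δ)`. (`y + δ = 0` gives `x = 0`, so `z = ± ta` mod the lattice, excluded. `xw z ≠ 0` as `Nl z`, `Nl (z ± ta)`: `xw_eq_zero_iff`.) `ez`-free; the formula for `y` follows from the slope formula or from `yw_sum`.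
`p1_si`: `yw_la si`: `yw ta = yw (la si) = yw si (x³ - 2)/(la³ x³)`, `x³ = xw si ^ 3 = -1`: `= 3 yw si / la³`, `la³ = -3 θ` (`la_cube`), so `yw ta = - yw si / θ`.
`p1_pts`: `q = w` if `yw ta = -1`, `q = w²` if `yw ta = 1`. `υ = (θ - yw rh)/(θ + yw rh)`. `phi_cube` (CUL/V1.lean, for `z = rh`, `la rh = si`, `d = ± 1`): `((y + θ)/x)³ = 4 λ³ (yw si - 1)`, `((y - θ)/x)³ = 4 λ³ (yw si + 1)`, so `(-υ)³ = (yw si + 1)/(yw si - 1)`, `υ³ = q` (two cases, `p1_si`).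
  `yw rh = θ (1 - υ)/(1 + υ)`; `C = xw rh υ (1 + υ)`: `C³ = x³ q (1 + υ)³ = 1` from `4 x³ = y² - 1`. For `rh + ta`: `p1_add`: `yw (rh + ta) = (δ y - 3)/(y + δ) = θ (1 - q υ)/(1 + q υ)`, `xw (rh + ta) = -2 δ x/(y + δ) = C/(q υ (1 + q υ))` (cases `δ = ± 1`, `w² = -1 - w`, field_simp). For `rh - ta = rh + ta + ta - 3 ta`, `3 ta` in the lattice (`three_ta`): apply `p1_add` to `z = rh + ta`.
  `4/λ³ = rh - ta + lattice`, `-2/λ³ = rh + ta + lattice` (proof in `v1_sum`, CUL/V1.lean).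
-/

set_option autoImplicit false

open NumberField IsDedekindDomain
open scoped Classical ComplexConjugate

namespace JX

open CM27 JZ JL
open CU (la eE)
open CUL (Nl ez si ta rh DS Cont LV IsRep rp cr mn zw OT GalU cu us FF W3)

variable {D : Eis}

def IsPt (C v X Y : ℂ) : Prop :=
  v ≠ 0 ∧ 1 + v ≠ 0 ∧ X = C / (v * (1 + v)) ∧ Y = (w - w ^ 2) * (1 - v) / (1 + v)


theorem p1_w_ne : w ≠ 0 := by
  intro h
  have h3 := CUL.w3
  rw [h] at h3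
  norm_num at h3

theorem p1_step {q δ C v X Y X' Y' : ℂ} (hq : (q = w ^ 2 ∧ δ = 1) ∨ (q = w ∧ δ = -1))
    (h : IsPt C v X Y) (h0 : Y + δ ≠ 0) (hX : X' * (Y + δ) = -2 * δ * X)
    (hY : Y' * (Y + δ) = δ * Y - 3) : IsPt C (q * v) X' Y' := by
  obtain ⟨hv, hv1, hX0, hY0⟩ := h
  have h2 := CUL.w2
  have h3 := CUL.w3
  have hw0 := p1_w_ne
  have hYv : Y * (1 + v) = (w - w ^ 2) * (1 - v) := by
    rw [hY0, div_mul_cancel₀ _ hv1]
  have hXv : X * (v * (1 + v)) = C := by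
    rw [hX0, div_mul_cancel₀ _ (mul_ne_zero hv hv1)]
  have hM : (Y + δ) * (1 + v) ≠ 0 := mul_ne_zero h0 hv1
  rcases hq with ⟨rfl, rfl⟩ | ⟨rfl, rfl⟩
  · have hM1 : (Y + 1) * (1 + v) = -2 * w ^ 2 * (1 + w ^ 2 * v) := by
      linear_combination hYv + (1 + v * (2 * w ^ 2 - 2 * w + 1)) * h2
    have hne : 1 + w ^ 2 * v ≠ 0 := by
      intro h
      rw [h, mul_zero] at hM1
      exact hM hM1
    refine ⟨mul_ne_zero (pow_ne_zero 2 hw0) hv, hne, ?_, ?_⟩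
    · rw [eq_div_iff (mul_ne_zero (mul_ne_zero (pow_ne_zero 2 hw0) hv) hne)]
      linear_combination hXv - v * (1 + v) / 2 * hX + X' * v / 2 * hM1
    · rw [eq_div_iff hne]
      have h5 : (-2 * w ^ 2 : ℂ) ≠ 0 := mul_ne_zero (by norm_num) (pow_ne_zero 2 hw0)
      apply mul_left_cancel₀ h5
      linear_combination (-Y') * hM1 + (1 + v) * hY + hYv +
        ((-2 * w ^ 2 + 4 * w - 3) + v * (2 * w ^ 4 - 4 * w ^ 3 + 2 * w ^ 2 + 2 * w - 3)) * h2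
  · have hM1 : (Y + -1) * (1 + v) = 2 * w * (1 + w * v) := by
      linear_combination hYv - (1 + v) * h2
    have hne : 1 + w * v ≠ 0 := by
      intro h
      rw [h, mul_zero] at hM1
      exact hM hM1
    refine ⟨mul_ne_zero hw0 hv, hne, ?_, ?_⟩
    · rw [eq_div_iff (mul_ne_zero (mul_ne_zero hw0 hv) hne)]
      linear_combination hXv + v * (1 + v) / 2 * hX - X' * v / 2 * hM1
    · rw [eq_div_iff hne]
      have h5 : (2 * w : ℂ) ≠ 0 := mul_ne_zero (by norm_num) hw0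
      apply mul_left_cancel₀ h5
      linear_combination (-Y') * hM1 + (1 + v) * hY - hYv +
        ((2 * w - 3) + v * (-2 * w ^ 2 + 4 * w - 3)) * h2

theorem p1_base {q : ℂ} (hq : (q = w ^ 2 ∧ yw ta = 1) ∨ (q = w ∧ yw ta = -1)) :
    ∃ υ C : ℂ, υ ^ 3 = q ∧ C ^ 3 = 1 ∧ IsPt C υ (xw rh) (yw rh) := by
  have h2 := CUL.w2
  have h3 := CUL.w3
  have hw0 := p1_w_ne
  have hx := CUL.xw_rh_ne
  have hth := CUL.th_sq
  have hthne := CUL.v1_th_ne
  have hp := CUL.phi_cube hx (d := 1) (by norm_num)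
  have hm := CUL.phi_cube hx (d := -1) (by norm_num)
  rw [CUL.la_rh, p1_si, CUL.la_cube, div_pow, div_eq_iff (pow_ne_zero 3 hx)] at hp hm
  have hq3 : q ^ 3 = 1 := by
    rcases hq with ⟨rfl, -⟩ | ⟨rfl, -⟩
    · rw [← pow_mul, mul_comm, pow_mul, h3, one_pow]
    · exact h3
  have hq0 : q ≠ 0 := by
    intro h
    rw [h] at hq3
    norm_num at hq3
  have f1 : 1 + (w - w ^ 2) * yw ta = -2 * q := by
    rcases hq with ⟨rfl, h⟩ | ⟨rfl, h⟩
    · rw [h]; linear_combination h2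
    · rw [h]; linear_combination h2
  have f2 : 1 - (w - w ^ 2) * yw ta = -2 * q ^ 2 := by
    rcases hq with ⟨rfl, h⟩ | ⟨rfl, h⟩
    · rw [h]; linear_combination h2 + 2 * w * h3
    · rw [h]; linear_combination h2
  generalize yw rh = y at hp hm ⊢
  generalize xw rh = x at hp hm hx ⊢
  generalize yw ta = δ at hp hm f1 f2
  generalize hθ : w - w ^ 2 = θ at hp hm f1 f2 hth hthne
  have hP : (θ + y) ^ 3 = -24 * q * θ * x ^ 3 := by
    linear_combination hp + 12 * θ * x ^ 3 * f1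
  have hMm : (θ - y) ^ 3 = -24 * q ^ 2 * θ * x ^ 3 := by
    linear_combination -hm + 12 * θ * x ^ 3 * f2
  have hA : θ + y ≠ 0 := by
    intro h
    rw [h] at hP
    have : (-24 * q * θ * x ^ 3 : ℂ) ≠ 0 :=
      mul_ne_zero (mul_ne_zero (mul_ne_zero (by norm_num) hq0) hthne) (pow_ne_zero 3 hx)
    apply this
    rw [← hP]
    norm_num
  have hB : θ - y ≠ 0 := by
    intro h
    rw [h] at hMm
    have : (-24 * q ^ 2 * θ * x ^ 3 : ℂ) ≠ 0 :=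
      mul_ne_zero (mul_ne_zero (mul_ne_zero (by norm_num) (pow_ne_zero 2 hq0)) hthne)
        (pow_ne_zero 3 hx)
    apply this
    rw [← hMm]
    norm_num
  have hA3 : (θ + y) ^ 3 ≠ 0 := pow_ne_zero 3 hA
  have e1 : 1 + (θ - y) / (θ + y) = 2 * θ / (θ + y) := by
    rw [eq_div_iff hA, add_mul, div_mul_cancel₀ _ hA]
    ring
  have e2 : 1 - (θ - y) / (θ + y) = 2 * y / (θ + y) := by
    rw [eq_div_iff hA, sub_mul, div_mul_cancel₀ _ hA]
    ring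
  have hυ : ((θ - y) / (θ + y)) ^ 3 = q := by
    rw [div_pow, div_eq_iff hA3, hP, hMm]
    ring
  have hυ0 : (θ - y) / (θ + y) ≠ 0 := div_ne_zero hB hA
  have h1υ : 1 + (θ - y) / (θ + y) ≠ 0 := by
    rw [e1]
    exact div_ne_zero (mul_ne_zero (by norm_num) hthne) hA
  refine ⟨(θ - y) / (θ + y), x * ((θ - y) / (θ + y) * (1 + (θ - y) / (θ + y))), hυ, ?_, hυ0, h1υ,
    ?_, ?_⟩
  · rw [mul_pow, mul_pow, hυ, e1, div_pow, hP]
    have h5 : (-24 * q * θ * x ^ 3 : ℂ) ≠ 0 :=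
      mul_ne_zero (mul_ne_zero (mul_ne_zero (by norm_num) hq0) hthne) (pow_ne_zero 3 hx)
    rw [mul_div_assoc', mul_div_assoc', div_eq_iff h5]
    linear_combination (8 * x ^ 3 * q * θ) * hth
  · rw [mul_div_assoc, div_self (mul_ne_zero hυ0 h1υ), mul_one]
  · rw [hθ, e1, e2, eq_div_iff (div_ne_zero (mul_ne_zero (by norm_num) hthne) hA)]
    rw [mul_div_assoc', mul_div_assoc']
    congr 1
    ring

theorem p1_four : emb (4 : Eis) / emb la ^ 3 = rh - ta + emb (1 + CU.om) := by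
  have : emb (4 : Eis) / emb la ^ 3 = 1 / emb la ^ 3 + 3 / emb la ^ 3 := by
    rw [← add_div, map_ofNat]
    norm_num
  rw [this, CUL.v1_three, rh]
  ring

theorem p1_mtwo : emb (-2 : Eis) / emb la ^ 3 = rh + ta + emb (-(1 + CU.om)) := by
  have : emb (-2 : Eis) / emb la ^ 3 = 1 / emb la ^ 3 - 3 / emb la ^ 3 := by
    rw [← sub_div, map_neg, map_ofNat]
    norm_num
  rw [this, CUL.v1_three, rh, map_neg]
  ring

theorem p1_pts : ∃ q υ C : ℂ, (q = w ∨ q = w ^ 2) ∧ υ ^ 3 = q ∧ C ^ 3 = 1 ∧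
    IsPt C υ (xw (emb 1 / emb la ^ 3)) (yw (emb 1 / emb la ^ 3)) ∧
    IsPt C (q * υ) (xw (emb (-2) / emb la ^ 3)) (yw (emb (-2) / emb la ^ 3)) ∧
    IsPt C (q ^ 2 * υ) (xw (emb 4 / emb la ^ 3)) (yw (emb 4 / emb la ^ 3)) := by
  obtain ⟨q, hq⟩ : ∃ q : ℂ, (q = w ^ 2 ∧ yw ta = 1) ∨ (q = w ∧ yw ta = -1) := by
    rcases CUL.yw_ta' with h | h
    · exact ⟨w ^ 2, Or.inl ⟨rfl, h⟩⟩
    · exact ⟨w, Or.inr ⟨rfl, h⟩⟩
  obtain ⟨υ, C, h1, h2, h3⟩ := p1_base hq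
  have hx := CUL.xw_rh_ne
  have n1 : Nl (rh + ta) := fun h => hx ((CUL.xw_eq_zero_iff CUL.nl_rh).2 (Or.inr h))
  have n2 : Nl (rh - ta) := fun h => hx ((CUL.xw_eq_zero_iff CUL.nl_rh).2 (Or.inl h))
  have e3 : rh + ta + ta = rh - ta + emb (2 + CU.om) := by
    rw [← CUL.three_ta]
    ring
  have n3 : Nl (rh + ta + ta) := by
    rw [e3]
    exact n2.add_emb _
  have n4 : Nl (rh + ta - ta) := by
    rw [add_sub_cancel_right]
    exact CUL.nl_rh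
  obtain ⟨a1, a2, a3⟩ := p1_add CUL.nl_rh n1 n2
  obtain ⟨b1, b2, b3⟩ := p1_add n1 n3 n4
  have s1 := p1_step hq h3 a1 a2 a3
  have s2 := p1_step hq s1 b1 b2 b3
  have c1 : emb (1 : Eis) / emb la ^ 3 = rh := by rw [map_one]; rfl
  refine ⟨q, υ, C, ?_, h1, h2, ?_, ?_, ?_⟩
  · rcases hq with ⟨h, -⟩ | ⟨h, -⟩
    · exact Or.inr h
    · exact Or.inl h
  · rw [c1]
    exact h3
  · rw [p1_mtwo, xw_add, yw_add]
    exact s1
  · rw [p1_four, xw_add, yw_add]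
    rw [e3, xw_add, yw_add] at s2
    have e4 : q ^ 2 * υ = q * (q * υ) := by ring
    rw [e4]
    exact s2

end JX
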