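import Pool.Agent.JX.P1

/-!
# [JX-P2] the sum over the three points, pure algebra

`v_n = q^n υ` (`n = 0, 1, 2`), `υ³ = q`, `q² + q + 1 = 0`, `X_n = C/(v_n (1 + v_n))`, `Y_n = θ (1 - v_n)/(1 + v_n)`. `X_n³ = 1/(q (1 + v_n)³)` (`v_n³ = q`). `Z = z³`, `z' ` with `27 z'³ z⁶ = -(z³ + 1)³`.
PROOF. `1/(X_n³ - Z) = q (1 + v)³ / (1 - q Z (1 + v)³)`, `1 - q Z (1 + v)³ = 3 B(v)`, `B(v) = p - q Z (v + v²)`, `3 p = 1 + Z` (`(1 + v)³ = 1 + 3 v + 3 v² + q`, `q (1 + q) = -1`).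
`∏ B(v_n) = p³ - Z²` and `p³ - Z² = -Z² (1 + z'³)` (from the relation), not zero. Every term: `q^(m n) Y_n X_n^(2-k)/(X_n³ - Z) = (θ C^(2-k) q / 3) q^(m n) v^(k-2) (1 - v) (1 + v)^k / B(v)`, and `q^(m n) = (v_n/υ)^m`; with `v^(-1) = v²/q`.
So the sum is `κ (θ/3) ∑_n g(v_n)/B(v_n)`, `g = q v^(m' + k - 2) (1 - v)(1 + v)^k` up to the constant `κ` (`m' = 1, -1` for `m = 1, 2`; `κ = υ^(-m') C^(2-k) q`: `κ = υ² C^(2-k)` for `m = 1`, `κ = υ q C^(2-k)` for `m = 2`), where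
  `g_{0,1} = q² v² (1-v)`, `g_{0,2} = q² (1-v)`, `g_{1,1} = 1 - v²`, `g_{1,2} = q² v (1 - v²)`, `g_{2,1} = v (1-v)(1+v)²`, `g_{2,2} = q² v² (1-v)(1+v)²`.
`∑_n g(v_n) B(v_{n+1}) B(v_{n+2}) = 3 P_{k,m}`:
  `P_{0,1} = -p² + q p Z + 2 Z²`, `P_{0,2} = q² (p² - q² p Z - 2 Z²)`, `P_{1,1} = p² - q² p Z + q² Z²`, `P_{1,2} = -p² + q p Z - q Z²`, `P_{2,1} = q (-p² + (2 q - q²) p Z - q Z²)`, `P_{2,2} = p² + (q - 2 q²) p Z + q² Z²`.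
(polynomial identities modulo `υ³ = q`, `q² + q + 1`: linear_combination; six cases.) With `U1 = -4 Z`, `U2 = 4 p`, `U2' = (4/3)(1 + z'³)`: sum `= κ (θ/3) · 3 P / (p³ - Z²) = κ θ · P/(-Z² (1 + z'³)) = -(4/3) κ θ · 16 P/(U1² U2')` and `16 P = ca U2² + cb U1 U2 + cg U1²`. Checked numerically.
-/

set_option autoImplicit false

open NumberField IsDedekindDomain
open scoped Classical ComplexConjugate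

namespace JX

open CM27 JZ JL
open CU (la eE)
open CUL (Nl ez si ta rh DS Cont LV IsRep rp cr mn zw OT GalU cu us FF W3)

variable {D : Eis}

theorem p2_alg01 {q υ p : ℂ} (hq : q ^ 2 + q + 1 = 0) (hυ : υ ^ 3 = q) :
    (q ^ 1) ^ 0 * (q * (q ^ 2 * υ) * (1 - υ) * (1 + υ) ^ 0) * ((p - q * (3 * p - 1) * ((q * υ) + (q * υ) ^ 2)) * (p - q * (3 * p - 1) * ((q ^ 2 * υ) + (q ^ 2 * υ) ^ 2))) +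
    (q ^ 1) ^ 1 * (q * (q ^ 2 * (q * υ)) * (1 - (q * υ)) * (1 + (q * υ)) ^ 0) * ((p - q * (3 * p - 1) * ((q ^ 2 * υ) + (q ^ 2 * υ) ^ 2)) * (p - q * (3 * p - 1) * (υ + υ ^ 2))) +
    (q ^ 1) ^ 2 * (q * (q ^ 2 * (q ^ 2 * υ)) * (1 - (q ^ 2 * υ)) * (1 + (q ^ 2 * υ)) ^ 0) * ((p - q * (3 * p - 1) * (υ + υ ^ 2)) * (p - q * (3 * p - 1) * ((q * υ) + (q * υ) ^ 2))) =
      υ ^ (3 - 1) * q ^ (1 - 1) * (3 * (-p ^ 2 + q * p * (3 * p - 1) + 2 * (3 * p - 1) ^ 2)) := by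
  linear_combination ((-9) * υ ^ 3 * q ^ 13 * p ^ 2 + (6) * υ ^ 3 * q ^ 13 * p + (-1) * υ ^ 3 * q ^ 13 +
    (-9) * υ ^ 3 * q ^ 12 * p ^ 2 + (6) * υ ^ 3 * q ^ 12 * p + (-1) * υ ^ 3 * q ^ 12 +
    (-9) * υ ^ 3 * q ^ 11 * p ^ 2 + (6) * υ ^ 3 * q ^ 11 * p + (-1) * υ ^ 3 * q ^ 11 +
    (-9) * υ ^ 2 * q ^ 13 * p ^ 2 + (6) * υ ^ 2 * q ^ 13 * p + (-1) * υ ^ 2 * q ^ 13 +
    (-18) * υ ^ 2 * q ^ 12 * p ^ 2 + (12) * υ ^ 2 * q ^ 12 * p + (-2) * υ ^ 2 * q ^ 12 +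
    (27) * υ ^ 2 * q ^ 11 * p ^ 2 + (-18) * υ ^ 2 * q ^ 11 * p + (3) * υ ^ 2 * q ^ 11 +
    (-18) * υ ^ 2 * q ^ 10 * p ^ 2 + (12) * υ ^ 2 * q ^ 10 * p + (-2) * υ ^ 2 * q ^ 10 +
    (-9) * υ ^ 2 * q ^ 9 * p ^ 2 + (6) * υ ^ 2 * q ^ 9 * p + (-1) * υ ^ 2 * q ^ 9 + (-6) * υ * q ^ 12 * p ^ 2 +
    (5) * υ * q ^ 12 * p + (-1) * υ * q ^ 12 + (21) * υ * q ^ 11 * p ^ 2 + (-13) * υ * q ^ 11 * p +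
    (2) * υ * q ^ 11 + (12) * υ * q ^ 10 * p ^ 2 + (-7) * υ * q ^ 10 * p + (1) * υ * q ^ 10 +
    (18) * υ * q ^ 9 * p ^ 2 + (-12) * υ * q ^ 9 * p + (2) * υ * q ^ 9 + (-6) * υ * q ^ 8 * p ^ 2 +
    (5) * υ * q ^ 8 * p + (-1) * υ * q ^ 8 + (3) * υ * q ^ 7 * p ^ 2 + (-1) * υ * q ^ 7 * p +
    (3) * υ * q ^ 6 * p ^ 2 + (-1) * υ * q ^ 6 * p + (-9) * q ^ 14 * p ^ 2 + (6) * q ^ 14 * p + (-1) * q ^ 14 +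
    (-9) * q ^ 13 * p ^ 2 + (6) * q ^ 13 * p + (-1) * q ^ 13 + (-9) * q ^ 12 * p ^ 2 + (6) * q ^ 12 * p +
    (-1) * q ^ 12 + (3) * q ^ 11 * p ^ 2 + (-1) * q ^ 11 * p + (6) * q ^ 10 * p ^ 2 + (-5) * q ^ 10 * p +
    (1) * q ^ 10 + (12) * q ^ 9 * p ^ 2 + (-7) * q ^ 9 * p + (1) * q ^ 9 + (3) * q ^ 8 * p ^ 2 +
    (-4) * q ^ 8 * p + (1) * q ^ 8 + (3) * q ^ 7 * p ^ 2 + (-1) * q ^ 7 * p + (-3) * q ^ 6 * p ^ 2 +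
    (1) * q ^ 6 * p + (3) * q ^ 5 * p ^ 2 + (-1) * q ^ 5 * p) * hυ +
    ((-9) * υ ^ 2 * q ^ 12 * p ^ 2 + (6) * υ ^ 2 * q ^ 12 * p + (-1) * υ ^ 2 * q ^ 12 +
    (-9) * υ ^ 2 * q ^ 11 * p ^ 2 + (6) * υ ^ 2 * q ^ 11 * p + (-1) * υ ^ 2 * q ^ 11 +
    (45) * υ ^ 2 * q ^ 10 * p ^ 2 + (-30) * υ ^ 2 * q ^ 10 * p + (5) * υ ^ 2 * q ^ 10 +
    (-54) * υ ^ 2 * q ^ 9 * p ^ 2 + (36) * υ ^ 2 * q ^ 9 * p + (-6) * υ ^ 2 * q ^ 9 +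
    (50) * υ ^ 2 * q ^ 7 * p ^ 2 + (-35) * υ ^ 2 * q ^ 7 * p + (6) * υ ^ 2 * q ^ 7 +
    (-56) * υ ^ 2 * q ^ 6 * p ^ 2 + (37) * υ ^ 2 * q ^ 6 * p + (-6) * υ ^ 2 * q ^ 6 +
    (6) * υ ^ 2 * q ^ 5 * p ^ 2 + (-2) * υ ^ 2 * q ^ 5 * p + (43) * υ ^ 2 * q ^ 4 * p ^ 2 +
    (-33) * υ ^ 2 * q ^ 4 * p + (6) * υ ^ 2 * q ^ 4 + (-52) * υ ^ 2 * q ^ 3 * p ^ 2 + (36) * υ ^ 2 * q ^ 3 * p +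
    (-6) * υ ^ 2 * q ^ 3 + (9) * υ ^ 2 * q ^ 2 * p ^ 2 + (-3) * υ ^ 2 * q ^ 2 * p + (42) * υ ^ 2 * q * p ^ 2 +
    (-33) * υ ^ 2 * q * p + (6) * υ ^ 2 * q + (-51) * υ ^ 2 * p ^ 2 + (36) * υ ^ 2 * p + (-6) * υ ^ 2 +
    (-6) * υ * q ^ 11 * p ^ 2 + (5) * υ * q ^ 11 * p + (-1) * υ * q ^ 11 + (27) * υ * q ^ 10 * p ^ 2 +
    (-18) * υ * q ^ 10 * p + (3) * υ * q ^ 10 + (-9) * υ * q ^ 9 * p ^ 2 + (6) * υ * q ^ 9 * p +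
    (-1) * υ * q ^ 9 + (3) * υ * q ^ 7 * p ^ 2 + (-1) * υ * q ^ 7 * p + (1) * υ * q ^ 5 * p ^ 2 +
    (-1) * υ * q ^ 4 * p ^ 2 + (1) * υ * q ^ 3 * p ^ 2 + (-9) * q ^ 13 * p ^ 2 + (6) * q ^ 13 * p +
    (-1) * q ^ 13 + (3) * q ^ 10 * p ^ 2 + (-1) * q ^ 10 * p + (3) * q ^ 9 * p ^ 2 + (-4) * q ^ 9 * p +
    (1) * q ^ 9 + (6) * q ^ 8 * p ^ 2 + (-2) * q ^ 8 * p + (-6) * q ^ 7 * p ^ 2 + (2) * q ^ 7 * p +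
    (3) * q ^ 6 * p ^ 2 + (-1) * q ^ 6 * p) * hq

theorem p2_alg02 {q υ p : ℂ} (hq : q ^ 2 + q + 1 = 0) (hυ : υ ^ 3 = q) :
    (q ^ 2) ^ 0 * (q * (q ^ 2 * υ) * (1 - υ) * (1 + υ) ^ 0) * ((p - q * (3 * p - 1) * ((q * υ) + (q * υ) ^ 2)) * (p - q * (3 * p - 1) * ((q ^ 2 * υ) + (q ^ 2 * υ) ^ 2))) +
    (q ^ 2) ^ 1 * (q * (q ^ 2 * (q * υ)) * (1 - (q * υ)) * (1 + (q * υ)) ^ 0) * ((p - q * (3 * p - 1) * ((q ^ 2 * υ) + (q ^ 2 * υ) ^ 2)) * (p - q * (3 * p - 1) * (υ + υ ^ 2))) +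
    (q ^ 2) ^ 2 * (q * (q ^ 2 * (q ^ 2 * υ)) * (1 - (q ^ 2 * υ)) * (1 + (q ^ 2 * υ)) ^ 0) * ((p - q * (3 * p - 1) * (υ + υ ^ 2)) * (p - q * (3 * p - 1) * ((q * υ) + (q * υ) ^ 2))) =
      υ ^ (3 - 2) * q ^ (2 - 1) * (3 * (q ^ 2 * (p ^ 2 - q ^ 2 * p * (3 * p - 1) - 2 * (3 * p - 1) ^ 2))) := by
  linear_combination ((-9) * υ ^ 3 * q ^ 15 * p ^ 2 + (6) * υ ^ 3 * q ^ 15 * p + (-1) * υ ^ 3 * q ^ 15 +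
    (-9) * υ ^ 3 * q ^ 13 * p ^ 2 + (6) * υ ^ 3 * q ^ 13 * p + (-1) * υ ^ 3 * q ^ 13 +
    (-9) * υ ^ 3 * q ^ 11 * p ^ 2 + (6) * υ ^ 3 * q ^ 11 * p + (-1) * υ ^ 3 * q ^ 11 +
    (-9) * υ ^ 2 * q ^ 15 * p ^ 2 + (6) * υ ^ 2 * q ^ 15 * p + (-1) * υ ^ 2 * q ^ 15 +
    (-9) * υ ^ 2 * q ^ 14 * p ^ 2 + (6) * υ ^ 2 * q ^ 14 * p + (-1) * υ ^ 2 * q ^ 14 +
    (9) * υ ^ 2 * q ^ 12 * p ^ 2 + (-6) * υ ^ 2 * q ^ 12 * p + (1) * υ ^ 2 * q ^ 12 +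
    (-9) * υ ^ 2 * q ^ 10 * p ^ 2 + (6) * υ ^ 2 * q ^ 10 * p + (-1) * υ ^ 2 * q ^ 10 +
    (-9) * υ ^ 2 * q ^ 9 * p ^ 2 + (6) * υ ^ 2 * q ^ 9 * p + (-1) * υ ^ 2 * q ^ 9 + (-6) * υ * q ^ 14 * p ^ 2 +
    (5) * υ * q ^ 14 * p + (-1) * υ * q ^ 14 + (9) * υ * q ^ 13 * p ^ 2 + (-6) * υ * q ^ 13 * p +
    (1) * υ * q ^ 13 + (24) * υ * q ^ 12 * p ^ 2 + (-14) * υ * q ^ 12 * p + (2) * υ * q ^ 12 +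
    (-9) * υ * q ^ 11 * p ^ 2 + (6) * υ * q ^ 11 * p + (-1) * υ * q ^ 11 + (18) * υ * q ^ 10 * p ^ 2 +
    (-12) * υ * q ^ 10 * p + (2) * υ * q ^ 10 + (9) * υ * q ^ 9 * p ^ 2 + (-6) * υ * q ^ 9 * p + (1) * υ * q ^ 9 +
    (-3) * υ * q ^ 8 * p ^ 2 + (4) * υ * q ^ 8 * p + (-1) * υ * q ^ 8 + (3) * υ * q ^ 6 * p ^ 2 +
    (-1) * υ * q ^ 6 * p + (-9) * q ^ 16 * p ^ 2 + (6) * q ^ 16 * p + (-1) * q ^ 16 + (-9) * q ^ 14 * p ^ 2 +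
    (6) * q ^ 14 * p + (-1) * q ^ 14 + (3) * q ^ 13 * p ^ 2 + (-1) * q ^ 13 * p + (-3) * q ^ 11 * p ^ 2 +
    (1) * q ^ 11 * p + (9) * q ^ 10 * p ^ 2 + (-6) * q ^ 10 * p + (1) * q ^ 10 + (9) * q ^ 8 * p ^ 2 +
    (-6) * q ^ 8 * p + (1) * q ^ 8 + (-3) * q ^ 7 * p ^ 2 + (1) * q ^ 7 * p + (3) * q ^ 5 * p ^ 2 +
    (-1) * q ^ 5 * p) * hυ +
    ((-9) * υ ^ 2 * q ^ 14 * p ^ 2 + (6) * υ ^ 2 * q ^ 14 * p + (-1) * υ ^ 2 * q ^ 14 +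
    (9) * υ ^ 2 * q ^ 12 * p ^ 2 + (-6) * υ ^ 2 * q ^ 12 * p + (1) * υ ^ 2 * q ^ 12 +
    (-9) * υ ^ 2 * q ^ 10 * p ^ 2 + (6) * υ ^ 2 * q ^ 10 * p + (-1) * υ ^ 2 * q ^ 10 +
    (-4) * υ ^ 2 * q ^ 9 * p ^ 2 + (1) * υ ^ 2 * q ^ 9 * p + (1) * υ ^ 2 * q ^ 8 * p ^ 2 +
    (-1) * υ ^ 2 * q ^ 6 * p ^ 2 + (-3) * υ ^ 2 * q ^ 5 * p ^ 2 + (1) * υ ^ 2 * q ^ 5 * p +
    (1) * υ ^ 2 * q ^ 4 * p ^ 2 + (-1) * υ ^ 2 * q ^ 3 * p ^ 2 + (-6) * υ * q ^ 13 * p ^ 2 +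
    (5) * υ * q ^ 13 * p + (-1) * υ * q ^ 13 + (15) * υ * q ^ 12 * p ^ 2 + (-11) * υ * q ^ 12 * p +
    (2) * υ * q ^ 12 + (15) * υ * q ^ 11 * p ^ 2 + (-8) * υ * q ^ 11 * p + (1) * υ * q ^ 11 +
    (-39) * υ * q ^ 10 * p ^ 2 + (25) * υ * q ^ 10 * p + (-4) * υ * q ^ 10 + (42) * υ * q ^ 9 * p ^ 2 +
    (-29) * υ * q ^ 9 * p + (5) * υ * q ^ 9 + (6) * υ * q ^ 8 * p ^ 2 + (-2) * υ * q ^ 8 * p +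
    (-50) * υ * q ^ 7 * p ^ 2 + (35) * υ * q ^ 7 * p + (-6) * υ * q ^ 7 + (44) * υ * q ^ 6 * p ^ 2 +
    (-33) * υ * q ^ 6 * p + (6) * υ * q ^ 6 + (9) * υ * q ^ 5 * p ^ 2 + (-3) * υ * q ^ 5 * p +
    (-52) * υ * q ^ 4 * p ^ 2 + (36) * υ * q ^ 4 * p + (-6) * υ * q ^ 4 + (52) * υ * q ^ 3 * p ^ 2 +
    (-36) * υ * q ^ 3 * p + (6) * υ * q ^ 3 + (-9) * q ^ 15 * p ^ 2 + (6) * q ^ 15 * p + (-1) * q ^ 15 +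
    (9) * q ^ 14 * p ^ 2 + (-6) * q ^ 14 * p + (1) * q ^ 14 + (-9) * q ^ 13 * p ^ 2 + (6) * q ^ 13 * p +
    (-1) * q ^ 13 + (3) * q ^ 12 * p ^ 2 + (-1) * q ^ 12 * p + (6) * q ^ 11 * p ^ 2 + (-5) * q ^ 11 * p +
    (1) * q ^ 11 + (-12) * q ^ 10 * p ^ 2 + (7) * q ^ 10 * p + (-1) * q ^ 10 + (15) * q ^ 9 * p ^ 2 +
    (-8) * q ^ 9 * p + (1) * q ^ 9 + (-3) * q ^ 8 * p ^ 2 + (1) * q ^ 8 * p + (-3) * q ^ 7 * p ^ 2 +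
    (1) * q ^ 7 * p + (3) * q ^ 6 * p ^ 2 + (-1) * q ^ 6 * p) * hq

theorem p2_alg11 {q υ p : ℂ} (hq : q ^ 2 + q + 1 = 0) (hυ : υ ^ 3 = q) :
    (q ^ 1) ^ 0 * (q * (q ^ 2 * υ ^ 2) * (1 - υ) * (1 + υ) ^ 1) * ((p - q * (3 * p - 1) * ((q * υ) + (q * υ) ^ 2)) * (p - q * (3 * p - 1) * ((q ^ 2 * υ) + (q ^ 2 * υ) ^ 2))) +
    (q ^ 1) ^ 1 * (q * (q ^ 2 * (q * υ) ^ 2) * (1 - (q * υ)) * (1 + (q * υ)) ^ 1) * ((p - q * (3 * p - 1) * ((q ^ 2 * υ) + (q ^ 2 * υ) ^ 2)) * (p - q * (3 * p - 1) * (υ + υ ^ 2))) +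
    (q ^ 1) ^ 2 * (q * (q ^ 2 * (q ^ 2 * υ) ^ 2) * (1 - (q ^ 2 * υ)) * (1 + (q ^ 2 * υ)) ^ 1) * ((p - q * (3 * p - 1) * (υ + υ ^ 2)) * (p - q * (3 * p - 1) * ((q * υ) + (q * υ) ^ 2))) =
      υ ^ (3 - 1) * q ^ (1 - 1) * (3 * (p ^ 2 - q ^ 2 * p * (3 * p - 1) + q ^ 2 * (3 * p - 1) ^ 2)) := by
  linear_combination ((-9) * υ ^ 5 * q ^ 17 * p ^ 2 + (6) * υ ^ 5 * q ^ 17 * p + (-1) * υ ^ 5 * q ^ 17 +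
    (-9) * υ ^ 5 * q ^ 14 * p ^ 2 + (6) * υ ^ 5 * q ^ 14 * p + (-1) * υ ^ 5 * q ^ 14 +
    (-9) * υ ^ 5 * q ^ 11 * p ^ 2 + (6) * υ ^ 5 * q ^ 11 * p + (-1) * υ ^ 5 * q ^ 11 +
    (-9) * υ ^ 4 * q ^ 17 * p ^ 2 + (6) * υ ^ 4 * q ^ 17 * p + (-1) * υ ^ 4 * q ^ 17 +
    (-9) * υ ^ 4 * q ^ 16 * p ^ 2 + (6) * υ ^ 4 * q ^ 16 * p + (-1) * υ ^ 4 * q ^ 16 +
    (-9) * υ ^ 4 * q ^ 14 * p ^ 2 + (6) * υ ^ 4 * q ^ 14 * p + (-1) * υ ^ 4 * q ^ 14 +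
    (-9) * υ ^ 4 * q ^ 12 * p ^ 2 + (6) * υ ^ 4 * q ^ 12 * p + (-1) * υ ^ 4 * q ^ 12 +
    (-9) * υ ^ 4 * q ^ 10 * p ^ 2 + (6) * υ ^ 4 * q ^ 10 * p + (-1) * υ ^ 4 * q ^ 10 +
    (-9) * υ ^ 4 * q ^ 9 * p ^ 2 + (6) * υ ^ 4 * q ^ 9 * p + (-1) * υ ^ 4 * q ^ 9 +
    (-6) * υ ^ 3 * q ^ 16 * p ^ 2 + (5) * υ ^ 3 * q ^ 16 * p + (-1) * υ ^ 3 * q ^ 16 +
    (3) * υ ^ 3 * q ^ 14 * p ^ 2 + (-1) * υ ^ 3 * q ^ 14 * p + (12) * υ ^ 3 * q ^ 13 * p ^ 2 +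
    (-7) * υ ^ 3 * q ^ 13 * p + (1) * υ ^ 3 * q ^ 13 + (9) * υ ^ 3 * q ^ 11 * p ^ 2 + (-6) * υ ^ 3 * q ^ 11 * p +
    (1) * υ ^ 3 * q ^ 11 + (3) * υ ^ 3 * q ^ 9 * p ^ 2 + (-1) * υ ^ 3 * q ^ 9 * p + (-6) * υ ^ 3 * q ^ 8 * p ^ 2 +
    (5) * υ ^ 3 * q ^ 8 * p + (-1) * υ ^ 3 * q ^ 8 + (3) * υ ^ 3 * q ^ 6 * p ^ 2 + (-1) * υ ^ 3 * q ^ 6 * p +
    (-9) * υ ^ 2 * q ^ 18 * p ^ 2 + (6) * υ ^ 2 * q ^ 18 * p + (-1) * υ ^ 2 * q ^ 18 +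
    (-6) * υ ^ 2 * q ^ 15 * p ^ 2 + (5) * υ ^ 2 * q ^ 15 * p + (-1) * υ ^ 2 * q ^ 15 +
    (3) * υ ^ 2 * q ^ 14 * p ^ 2 + (-1) * υ ^ 2 * q ^ 14 * p + (9) * υ ^ 2 * q ^ 13 * p ^ 2 +
    (-6) * υ ^ 2 * q ^ 13 * p + (1) * υ ^ 2 * q ^ 13 + (9) * υ ^ 2 * q ^ 12 * p ^ 2 + (-6) * υ ^ 2 * q ^ 12 * p +
    (1) * υ ^ 2 * q ^ 12 + (3) * υ ^ 2 * q ^ 11 * p ^ 2 + (-1) * υ ^ 2 * q ^ 11 * p +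
    (18) * υ ^ 2 * q ^ 10 * p ^ 2 + (-12) * υ ^ 2 * q ^ 10 * p + (2) * υ ^ 2 * q ^ 10 +
    (12) * υ ^ 2 * q ^ 9 * p ^ 2 + (-7) * υ ^ 2 * q ^ 9 * p + (1) * υ ^ 2 * q ^ 9 + (3) * υ ^ 2 * q ^ 6 * p ^ 2 +
    (-1) * υ ^ 2 * q ^ 6 * p + (3) * υ ^ 2 * q ^ 5 * p ^ 2 + (-1) * υ ^ 2 * q ^ 5 * p +
    (-9) * υ * q ^ 18 * p ^ 2 + (6) * υ * q ^ 18 * p + (-1) * υ * q ^ 18 + (-9) * υ * q ^ 17 * p ^ 2 +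
    (6) * υ * q ^ 17 * p + (-1) * υ * q ^ 17 + (-9) * υ * q ^ 15 * p ^ 2 + (6) * υ * q ^ 15 * p +
    (-1) * υ * q ^ 15 + (-10) * υ * q ^ 13 * p ^ 2 + (6) * υ * q ^ 13 * p + (-1) * υ * q ^ 13 +
    (6) * υ * q ^ 12 * p ^ 2 + (-5) * υ * q ^ 12 * p + (1) * υ * q ^ 12 + (-12) * υ * q ^ 11 * p ^ 2 +
    (7) * υ * q ^ 11 * p + (-1) * υ * q ^ 11 + (-3) * υ * q ^ 10 * p ^ 2 + (1) * υ * q ^ 10 * p +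
    (5) * υ * q ^ 8 * p ^ 2 + (-5) * υ * q ^ 8 * p + (1) * υ * q ^ 8 + (-3) * υ * q ^ 7 * p ^ 2 +
    (1) * υ * q ^ 7 * p + (-3) * υ * q ^ 6 * p ^ 2 + (1) * υ * q ^ 6 * p + (-1) * υ * q ^ 3 * p ^ 2 +
    (-6) * q ^ 17 * p ^ 2 + (5) * q ^ 17 * p + (-1) * q ^ 17 + (3) * q ^ 15 * p ^ 2 + (-1) * q ^ 15 * p +
    (12) * q ^ 14 * p ^ 2 + (-7) * q ^ 14 * p + (1) * q ^ 14 + (9) * q ^ 12 * p ^ 2 + (-6) * q ^ 12 * p +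
    (1) * q ^ 12 + (-3) * q ^ 11 * p ^ 2 + (1) * q ^ 11 * p + (-9) * q ^ 9 * p ^ 2 + (6) * q ^ 9 * p +
    (-1) * q ^ 9 + (-3) * q ^ 6 * p ^ 2 + (1) * q ^ 6 * p + (-3) * q ^ 5 * p ^ 2 + (1) * q ^ 5 * p) * hυ +
    ((-9) * υ ^ 2 * q ^ 17 * p ^ 2 + (6) * υ ^ 2 * q ^ 17 * p + (-1) * υ ^ 2 * q ^ 17 +
    (9) * υ ^ 2 * q ^ 16 * p ^ 2 + (-6) * υ ^ 2 * q ^ 16 * p + (1) * υ ^ 2 * q ^ 16 +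
    (-15) * υ ^ 2 * q ^ 14 * p ^ 2 + (11) * υ ^ 2 * q ^ 14 * p + (-2) * υ ^ 2 * q ^ 14 +
    (18) * υ ^ 2 * q ^ 13 * p ^ 2 + (-12) * υ ^ 2 * q ^ 13 * p + (2) * υ ^ 2 * q ^ 13 +
    (6) * υ ^ 2 * q ^ 12 * p ^ 2 + (-5) * υ ^ 2 * q ^ 12 * p + (1) * υ ^ 2 * q ^ 12 +
    (-15) * υ ^ 2 * q ^ 11 * p ^ 2 + (11) * υ ^ 2 * q ^ 11 * p + (-2) * υ ^ 2 * q ^ 11 +
    (12) * υ ^ 2 * q ^ 10 * p ^ 2 + (-7) * υ ^ 2 * q ^ 10 * p + (1) * υ ^ 2 * q ^ 10 +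
    (21) * υ ^ 2 * q ^ 9 * p ^ 2 + (-16) * υ ^ 2 * q ^ 9 * p + (3) * υ ^ 2 * q ^ 9 +
    (-21) * υ ^ 2 * q ^ 8 * p ^ 2 + (16) * υ ^ 2 * q ^ 8 * p + (-3) * υ ^ 2 * q ^ 8 +
    (1) * υ ^ 2 * q ^ 7 * p ^ 2 + (20) * υ ^ 2 * q ^ 6 * p ^ 2 + (-16) * υ ^ 2 * q ^ 6 * p + (3) * υ ^ 2 * q ^ 6 +
    (-18) * υ ^ 2 * q ^ 5 * p ^ 2 + (15) * υ ^ 2 * q ^ 5 * p + (-3) * υ ^ 2 * q ^ 5 +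
    (2) * υ ^ 2 * q ^ 4 * p ^ 2 + (16) * υ ^ 2 * q ^ 3 * p ^ 2 + (-15) * υ ^ 2 * q ^ 3 * p + (3) * υ ^ 2 * q ^ 3 +
    (-18) * υ ^ 2 * q ^ 2 * p ^ 2 + (15) * υ ^ 2 * q ^ 2 * p + (-3) * υ ^ 2 * q ^ 2 + (3) * υ ^ 2 * q * p ^ 2 +
    (-3) * υ ^ 2 * p ^ 2 + (-9) * υ * q ^ 17 * p ^ 2 + (6) * υ * q ^ 17 * p + (-1) * υ * q ^ 17 +
    (9) * υ * q ^ 15 * p ^ 2 + (-6) * υ * q ^ 15 * p + (1) * υ * q ^ 15 + (-18) * υ * q ^ 14 * p ^ 2 +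
    (12) * υ * q ^ 14 * p + (-2) * υ * q ^ 14 + (9) * υ * q ^ 13 * p ^ 2 + (-6) * υ * q ^ 13 * p +
    (1) * υ * q ^ 13 + (-1) * υ * q ^ 12 * p ^ 2 + (-2) * υ * q ^ 11 * p ^ 2 + (1) * υ * q ^ 11 * p +
    (-9) * υ * q ^ 10 * p ^ 2 + (6) * υ * q ^ 10 * p + (-1) * υ * q ^ 10 + (8) * υ * q ^ 9 * p ^ 2 +
    (-6) * υ * q ^ 9 * p + (1) * υ * q ^ 9 + (1) * υ * q ^ 8 * p ^ 2 + (-4) * υ * q ^ 7 * p ^ 2 +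
    (1) * υ * q ^ 7 * p + (1) * υ * q ^ 5 * p ^ 2 + (-1) * υ * q ^ 4 * p ^ 2 + (-6) * q ^ 16 * p ^ 2 +
    (5) * q ^ 16 * p + (-1) * q ^ 16 + (6) * q ^ 15 * p ^ 2 + (-5) * q ^ 15 * p + (1) * q ^ 15 +
    (3) * q ^ 14 * p ^ 2 + (-1) * q ^ 14 * p + (3) * q ^ 13 * p ^ 2 + (-1) * q ^ 13 * p + (-6) * q ^ 12 * p ^ 2 +
    (2) * q ^ 12 * p + (12) * q ^ 11 * p ^ 2 + (-7) * q ^ 11 * p + (1) * q ^ 11 + (-9) * q ^ 10 * p ^ 2 +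
    (6) * q ^ 10 * p + (-1) * q ^ 10 + (-3) * q ^ 9 * p ^ 2 + (1) * q ^ 9 * p + (3) * q ^ 8 * p ^ 2 +
    (-1) * q ^ 8 * p + (-3) * q ^ 6 * p ^ 2 + (1) * q ^ 6 * p) * hq

theorem p2_alg12 {q υ p : ℂ} (hq : q ^ 2 + q + 1 = 0) (hυ : υ ^ 3 = q) :
    (q ^ 2) ^ 0 * (q * (q ^ 2 * υ ^ 2) * (1 - υ) * (1 + υ) ^ 1) * ((p - q * (3 * p - 1) * ((q * υ) + (q * υ) ^ 2)) * (p - q * (3 * p - 1) * ((q ^ 2 * υ) + (q ^ 2 * υ) ^ 2))) +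
    (q ^ 2) ^ 1 * (q * (q ^ 2 * (q * υ) ^ 2) * (1 - (q * υ)) * (1 + (q * υ)) ^ 1) * ((p - q * (3 * p - 1) * ((q ^ 2 * υ) + (q ^ 2 * υ) ^ 2)) * (p - q * (3 * p - 1) * (υ + υ ^ 2))) +
    (q ^ 2) ^ 2 * (q * (q ^ 2 * (q ^ 2 * υ) ^ 2) * (1 - (q ^ 2 * υ)) * (1 + (q ^ 2 * υ)) ^ 1) * ((p - q * (3 * p - 1) * (υ + υ ^ 2)) * (p - q * (3 * p - 1) * ((q * υ) + (q * υ) ^ 2))) =
      υ ^ (3 - 2) * q ^ (2 - 1) * (3 * (-p ^ 2 + q * p * (3 * p - 1) - q * (3 * p - 1) ^ 2)) := by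
  linear_combination ((-9) * υ ^ 5 * q ^ 19 * p ^ 2 + (6) * υ ^ 5 * q ^ 19 * p + (-1) * υ ^ 5 * q ^ 19 +
    (-9) * υ ^ 5 * q ^ 15 * p ^ 2 + (6) * υ ^ 5 * q ^ 15 * p + (-1) * υ ^ 5 * q ^ 15 +
    (-9) * υ ^ 5 * q ^ 11 * p ^ 2 + (6) * υ ^ 5 * q ^ 11 * p + (-1) * υ ^ 5 * q ^ 11 +
    (-9) * υ ^ 4 * q ^ 19 * p ^ 2 + (6) * υ ^ 4 * q ^ 19 * p + (-1) * υ ^ 4 * q ^ 19 +
    (-9) * υ ^ 4 * q ^ 18 * p ^ 2 + (6) * υ ^ 4 * q ^ 18 * p + (-1) * υ ^ 4 * q ^ 18 +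
    (-9) * υ ^ 4 * q ^ 15 * p ^ 2 + (6) * υ ^ 4 * q ^ 15 * p + (-1) * υ ^ 4 * q ^ 15 +
    (-9) * υ ^ 4 * q ^ 13 * p ^ 2 + (6) * υ ^ 4 * q ^ 13 * p + (-1) * υ ^ 4 * q ^ 13 +
    (-9) * υ ^ 4 * q ^ 10 * p ^ 2 + (6) * υ ^ 4 * q ^ 10 * p + (-1) * υ ^ 4 * q ^ 10 +
    (-9) * υ ^ 4 * q ^ 9 * p ^ 2 + (6) * υ ^ 4 * q ^ 9 * p + (-1) * υ ^ 4 * q ^ 9 +
    (-6) * υ ^ 3 * q ^ 18 * p ^ 2 + (5) * υ ^ 3 * q ^ 18 * p + (-1) * υ ^ 3 * q ^ 18 +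
    (3) * υ ^ 3 * q ^ 16 * p ^ 2 + (-1) * υ ^ 3 * q ^ 16 * p + (9) * υ ^ 3 * q ^ 15 * p ^ 2 +
    (-6) * υ ^ 3 * q ^ 15 * p + (1) * υ ^ 3 * q ^ 15 + (3) * υ ^ 3 * q ^ 14 * p ^ 2 + (-1) * υ ^ 3 * q ^ 14 * p +
    (9) * υ ^ 3 * q ^ 11 * p ^ 2 + (-6) * υ ^ 3 * q ^ 11 * p + (1) * υ ^ 3 * q ^ 11 +
    (3) * υ ^ 3 * q ^ 10 * p ^ 2 + (-1) * υ ^ 3 * q ^ 10 * p + (-6) * υ ^ 3 * q ^ 8 * p ^ 2 +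
    (5) * υ ^ 3 * q ^ 8 * p + (-1) * υ ^ 3 * q ^ 8 + (3) * υ ^ 3 * q ^ 6 * p ^ 2 + (-1) * υ ^ 3 * q ^ 6 * p +
    (-9) * υ ^ 2 * q ^ 20 * p ^ 2 + (6) * υ ^ 2 * q ^ 20 * p + (-1) * υ ^ 2 * q ^ 20 +
    (3) * υ ^ 2 * q ^ 17 * p ^ 2 + (-1) * υ ^ 2 * q ^ 17 * p + (-6) * υ ^ 2 * q ^ 16 * p ^ 2 +
    (5) * υ ^ 2 * q ^ 16 * p + (-1) * υ ^ 2 * q ^ 16 + (9) * υ ^ 2 * q ^ 15 * p ^ 2 + (-6) * υ ^ 2 * q ^ 15 * p +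
    (1) * υ ^ 2 * q ^ 15 + (9) * υ ^ 2 * q ^ 14 * p ^ 2 + (-6) * υ ^ 2 * q ^ 14 * p + (1) * υ ^ 2 * q ^ 14 +
    (9) * υ ^ 2 * q ^ 13 * p ^ 2 + (-6) * υ ^ 2 * q ^ 13 * p + (1) * υ ^ 2 * q ^ 13 +
    (-6) * υ ^ 2 * q ^ 12 * p ^ 2 + (5) * υ ^ 2 * q ^ 12 * p + (-1) * υ ^ 2 * q ^ 12 +
    (9) * υ ^ 2 * q ^ 11 * p ^ 2 + (-6) * υ ^ 2 * q ^ 11 * p + (1) * υ ^ 2 * q ^ 11 +
    (12) * υ ^ 2 * q ^ 10 * p ^ 2 + (-7) * υ ^ 2 * q ^ 10 * p + (1) * υ ^ 2 * q ^ 10 +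
    (9) * υ ^ 2 * q ^ 9 * p ^ 2 + (-6) * υ ^ 2 * q ^ 9 * p + (1) * υ ^ 2 * q ^ 9 + (3) * υ ^ 2 * q ^ 6 * p ^ 2 +
    (-1) * υ ^ 2 * q ^ 6 * p + (3) * υ ^ 2 * q ^ 5 * p ^ 2 + (-1) * υ ^ 2 * q ^ 5 * p +
    (-9) * υ * q ^ 20 * p ^ 2 + (6) * υ * q ^ 20 * p + (-1) * υ * q ^ 20 + (-9) * υ * q ^ 19 * p ^ 2 +
    (6) * υ * q ^ 19 * p + (-1) * υ * q ^ 19 + (-9) * υ * q ^ 16 * p ^ 2 + (6) * υ * q ^ 16 * p +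
    (-1) * υ * q ^ 16 + (-1) * υ * q ^ 15 * p ^ 2 + (-3) * υ * q ^ 14 * p ^ 2 + (1) * υ * q ^ 14 * p +
    (-6) * υ * q ^ 12 * p ^ 2 + (2) * υ * q ^ 12 * p + (-9) * υ * q ^ 10 * p ^ 2 + (6) * υ * q ^ 10 * p +
    (-1) * υ * q ^ 10 + (-1) * υ * q ^ 9 * p ^ 2 + (3) * υ * q ^ 8 * p ^ 2 + (-4) * υ * q ^ 8 * p +
    (1) * υ * q ^ 8 + (-3) * υ * q ^ 6 * p ^ 2 + (1) * υ * q ^ 6 * p + (-1) * υ * q ^ 3 * p ^ 2 +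
    (-6) * q ^ 19 * p ^ 2 + (5) * q ^ 19 * p + (-1) * q ^ 19 + (3) * q ^ 17 * p ^ 2 + (-1) * q ^ 17 * p +
    (9) * q ^ 16 * p ^ 2 + (-6) * q ^ 16 * p + (1) * q ^ 16 + (3) * q ^ 15 * p ^ 2 + (-1) * q ^ 15 * p +
    (-3) * q ^ 13 * p ^ 2 + (1) * q ^ 13 * p + (6) * q ^ 12 * p ^ 2 + (-5) * q ^ 12 * p + (1) * q ^ 12 +
    (3) * q ^ 11 * p ^ 2 + (-1) * q ^ 11 * p + (-3) * q ^ 10 * p ^ 2 + (1) * q ^ 10 * p + (-6) * q ^ 9 * p ^ 2 +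
    (5) * q ^ 9 * p + (-1) * q ^ 9 + (-3) * q ^ 8 * p ^ 2 + (1) * q ^ 8 * p + (3) * q ^ 7 * p ^ 2 +
    (-1) * q ^ 7 * p + (-3) * q ^ 6 * p ^ 2 + (1) * q ^ 6 * p + (-3) * q ^ 5 * p ^ 2 + (1) * q ^ 5 * p) * hυ +
    ((-9) * υ ^ 2 * q ^ 19 * p ^ 2 + (6) * υ ^ 2 * q ^ 19 * p + (-1) * υ ^ 2 * q ^ 19 +
    (9) * υ ^ 2 * q ^ 18 * p ^ 2 + (-6) * υ ^ 2 * q ^ 18 * p + (1) * υ ^ 2 * q ^ 18 +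
    (-6) * υ ^ 2 * q ^ 16 * p ^ 2 + (5) * υ ^ 2 * q ^ 16 * p + (-1) * υ ^ 2 * q ^ 16 +
    (15) * υ ^ 2 * q ^ 14 * p ^ 2 + (-11) * υ ^ 2 * q ^ 14 * p + (2) * υ ^ 2 * q ^ 14 +
    (-6) * υ ^ 2 * q ^ 13 * p ^ 2 + (5) * υ ^ 2 * q ^ 13 * p + (-1) * υ ^ 2 * q ^ 13 +
    (9) * υ ^ 2 * q ^ 10 * p ^ 2 + (-6) * υ ^ 2 * q ^ 10 * p + (1) * υ ^ 2 * q ^ 10 +
    (4) * υ ^ 2 * q ^ 9 * p ^ 2 + (-1) * υ ^ 2 * q ^ 9 * p + (-4) * υ ^ 2 * q ^ 8 * p ^ 2 +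
    (1) * υ ^ 2 * q ^ 8 * p + (4) * υ ^ 2 * q ^ 6 * p ^ 2 + (-1) * υ ^ 2 * q ^ 6 * p +
    (-1) * υ ^ 2 * q ^ 4 * p ^ 2 + (1) * υ ^ 2 * q ^ 3 * p ^ 2 + (-9) * υ * q ^ 19 * p ^ 2 +
    (6) * υ * q ^ 19 * p + (-1) * υ * q ^ 19 + (9) * υ * q ^ 17 * p ^ 2 + (-6) * υ * q ^ 17 * p +
    (1) * υ * q ^ 17 + (-9) * υ * q ^ 16 * p ^ 2 + (6) * υ * q ^ 16 * p + (-1) * υ * q ^ 16 +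
    (-9) * υ * q ^ 15 * p ^ 2 + (6) * υ * q ^ 15 * p + (-1) * υ * q ^ 15 + (17) * υ * q ^ 14 * p ^ 2 +
    (-12) * υ * q ^ 14 * p + (2) * υ * q ^ 14 + (-11) * υ * q ^ 13 * p ^ 2 + (7) * υ * q ^ 13 * p +
    (-1) * υ * q ^ 13 + (-6) * υ * q ^ 12 * p ^ 2 + (5) * υ * q ^ 12 * p + (-1) * υ * q ^ 12 +
    (11) * υ * q ^ 11 * p ^ 2 + (-10) * υ * q ^ 11 * p + (2) * υ * q ^ 11 + (-5) * υ * q ^ 10 * p ^ 2 +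
    (5) * υ * q ^ 10 * p + (-1) * υ * q ^ 10 + (-15) * υ * q ^ 9 * p ^ 2 + (11) * υ * q ^ 9 * p +
    (-2) * υ * q ^ 9 + (19) * υ * q ^ 8 * p ^ 2 + (-16) * υ * q ^ 8 * p + (3) * υ * q ^ 8 +
    (-1) * υ * q ^ 7 * p ^ 2 + (1) * υ * q ^ 7 * p + (-18) * υ * q ^ 6 * p ^ 2 + (15) * υ * q ^ 6 * p +
    (-3) * υ * q ^ 6 + (16) * υ * q ^ 5 * p ^ 2 + (-15) * υ * q ^ 5 * p + (3) * υ * q ^ 5 +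
    (2) * υ * q ^ 4 * p ^ 2 + (-18) * υ * q ^ 3 * p ^ 2 + (15) * υ * q ^ 3 * p + (-3) * υ * q ^ 3 +
    (15) * υ * q ^ 2 * p ^ 2 + (-15) * υ * q ^ 2 * p + (3) * υ * q ^ 2 + (3) * υ * q * p ^ 2 +
    (-6) * q ^ 18 * p ^ 2 + (5) * q ^ 18 * p + (-1) * q ^ 18 + (6) * q ^ 17 * p ^ 2 + (-5) * q ^ 17 * p +
    (1) * q ^ 17 + (3) * q ^ 16 * p ^ 2 + (-1) * q ^ 16 * p + (-3) * q ^ 12 * p ^ 2 + (1) * q ^ 12 * p +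
    (9) * q ^ 11 * p ^ 2 + (-6) * q ^ 11 * p + (1) * q ^ 11 + (-3) * q ^ 10 * p ^ 2 + (4) * q ^ 10 * p +
    (-1) * q ^ 10 + (-9) * q ^ 9 * p ^ 2 + (3) * q ^ 9 * p + (6) * q ^ 8 * p ^ 2 + (-2) * q ^ 8 * p +
    (-3) * q ^ 6 * p ^ 2 + (1) * q ^ 6 * p) * hq

theorem p2_alg21 {q υ p : ℂ} (hq : q ^ 2 + q + 1 = 0) (hυ : υ ^ 3 = q) :
    (q ^ 1) ^ 0 * (q * (1) * (1 - υ) * (1 + υ) ^ 2) * ((p - q * (3 * p - 1) * ((q * υ) + (q * υ) ^ 2)) * (p - q * (3 * p - 1) * ((q ^ 2 * υ) + (q ^ 2 * υ) ^ 2))) +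
    (q ^ 1) ^ 1 * (q * (1) * (1 - (q * υ)) * (1 + (q * υ)) ^ 2) * ((p - q * (3 * p - 1) * ((q ^ 2 * υ) + (q ^ 2 * υ) ^ 2)) * (p - q * (3 * p - 1) * (υ + υ ^ 2))) +
    (q ^ 1) ^ 2 * (q * (1) * (1 - (q ^ 2 * υ)) * (1 + (q ^ 2 * υ)) ^ 2) * ((p - q * (3 * p - 1) * (υ + υ ^ 2)) * (p - q * (3 * p - 1) * ((q * υ) + (q * υ) ^ 2))) =
      υ ^ (3 - 1) * q ^ (1 - 1) * (3 * (q * (-p ^ 2 + (2 * q - q ^ 2) * p * (3 * p - 1) - q * (3 * p - 1) ^ 2))) := by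
  linear_combination ((-9) * υ ^ 4 * q ^ 13 * p ^ 2 + (6) * υ ^ 4 * q ^ 13 * p + (-1) * υ ^ 4 * q ^ 13 +
    (-9) * υ ^ 4 * q ^ 11 * p ^ 2 + (6) * υ ^ 4 * q ^ 11 * p + (-1) * υ ^ 4 * q ^ 11 +
    (-9) * υ ^ 4 * q ^ 9 * p ^ 2 + (6) * υ ^ 4 * q ^ 9 * p + (-1) * υ ^ 4 * q ^ 9 +
    (-9) * υ ^ 3 * q ^ 13 * p ^ 2 + (6) * υ ^ 3 * q ^ 13 * p + (-1) * υ ^ 3 * q ^ 13 +
    (-9) * υ ^ 3 * q ^ 12 * p ^ 2 + (6) * υ ^ 3 * q ^ 12 * p + (-1) * υ ^ 3 * q ^ 12 +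
    (-18) * υ ^ 3 * q ^ 11 * p ^ 2 + (12) * υ ^ 3 * q ^ 11 * p + (-2) * υ ^ 3 * q ^ 11 +
    (-9) * υ ^ 3 * q ^ 10 * p ^ 2 + (6) * υ ^ 3 * q ^ 10 * p + (-1) * υ ^ 3 * q ^ 10 +
    (-18) * υ ^ 3 * q ^ 9 * p ^ 2 + (12) * υ ^ 3 * q ^ 9 * p + (-2) * υ ^ 3 * q ^ 9 +
    (-9) * υ ^ 3 * q ^ 8 * p ^ 2 + (6) * υ ^ 3 * q ^ 8 * p + (-1) * υ ^ 3 * q ^ 8 + (-9) * υ ^ 3 * q ^ 7 * p ^ 2 +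
    (6) * υ ^ 3 * q ^ 7 * p + (-1) * υ ^ 3 * q ^ 7 + (-6) * υ ^ 2 * q ^ 12 * p ^ 2 + (5) * υ ^ 2 * q ^ 12 * p +
    (-1) * υ ^ 2 * q ^ 12 + (-9) * υ ^ 2 * q ^ 11 * p ^ 2 + (6) * υ ^ 2 * q ^ 11 * p + (-1) * υ ^ 2 * q ^ 11 +
    (-12) * υ ^ 2 * q ^ 10 * p ^ 2 + (10) * υ ^ 2 * q ^ 10 * p + (-2) * υ ^ 2 * q ^ 10 +
    (18) * υ ^ 2 * q ^ 9 * p ^ 2 + (-12) * υ ^ 2 * q ^ 9 * p + (2) * υ ^ 2 * q ^ 9 +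
    (-18) * υ ^ 2 * q ^ 8 * p ^ 2 + (12) * υ ^ 2 * q ^ 8 * p + (-2) * υ ^ 2 * q ^ 8 +
    (-9) * υ ^ 2 * q ^ 7 * p ^ 2 + (6) * υ ^ 2 * q ^ 7 * p + (-1) * υ ^ 2 * q ^ 7 + (-3) * υ ^ 2 * q ^ 6 * p ^ 2 +
    (4) * υ ^ 2 * q ^ 6 * p + (-1) * υ ^ 2 * q ^ 6 + (3) * υ ^ 2 * q ^ 4 * p ^ 2 + (-1) * υ ^ 2 * q ^ 4 * p +
    (-9) * υ * q ^ 14 * p ^ 2 + (6) * υ * q ^ 14 * p + (-1) * υ * q ^ 14 + (-9) * υ * q ^ 12 * p ^ 2 +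
    (6) * υ * q ^ 12 * p + (-1) * υ * q ^ 12 + (3) * υ * q ^ 11 * p ^ 2 + (-1) * υ * q ^ 11 * p +
    (-12) * υ * q ^ 10 * p ^ 2 + (10) * υ * q ^ 10 * p + (-2) * υ * q ^ 10 + (30) * υ * q ^ 9 * p ^ 2 +
    (-19) * υ * q ^ 9 * p + (3) * υ * q ^ 9 + (24) * υ * q ^ 8 * p ^ 2 + (-14) * υ * q ^ 8 * p + (2) * υ * q ^ 8 +
    (27) * υ * q ^ 7 * p ^ 2 + (-18) * υ * q ^ 7 * p + (3) * υ * q ^ 7 + (-3) * υ * q ^ 6 * p ^ 2 +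
    (4) * υ * q ^ 6 * p + (-1) * υ * q ^ 6 + (3) * υ * q ^ 5 * p ^ 2 + (-1) * υ * q ^ 5 * p +
    (6) * υ * q ^ 4 * p ^ 2 + (-2) * υ * q ^ 4 * p + (3) * υ * q ^ 3 * p ^ 2 + (-1) * υ * q ^ 3 * p +
    (-9) * q ^ 14 * p ^ 2 + (6) * q ^ 14 * p + (-1) * q ^ 14 + (-9) * q ^ 13 * p ^ 2 + (6) * q ^ 13 * p +
    (-1) * q ^ 13 + (-18) * q ^ 12 * p ^ 2 + (12) * q ^ 12 * p + (-2) * q ^ 12 + (-9) * q ^ 11 * p ^ 2 +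
    (6) * q ^ 11 * p + (-1) * q ^ 11 + (-18) * q ^ 10 * p ^ 2 + (12) * q ^ 10 * p + (-2) * q ^ 10 +
    (-7) * q ^ 9 * p ^ 2 + (5) * q ^ 9 * p + (-1) * q ^ 9 + (15) * q ^ 8 * p ^ 2 + (-11) * q ^ 8 * p +
    (2) * q ^ 8 + (30) * q ^ 7 * p ^ 2 + (-19) * q ^ 7 * p + (3) * q ^ 7 + (21) * q ^ 6 * p ^ 2 +
    (-16) * q ^ 6 * p + (3) * q ^ 6 + (2) * q ^ 5 * p ^ 2 + (-1) * q ^ 5 * p + (-3) * q ^ 4 * p ^ 2 +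
    (1) * q ^ 4 * p + (3) * q ^ 3 * p ^ 2 + (-1) * q ^ 3 * p + (-1) * q * p ^ 2) * hυ +
    ((-6) * υ ^ 2 * q ^ 11 * p ^ 2 + (5) * υ ^ 2 * q ^ 11 * p + (-1) * υ ^ 2 * q ^ 11 +
    (-3) * υ ^ 2 * q ^ 10 * p ^ 2 + (1) * υ ^ 2 * q ^ 10 * p + (-3) * υ ^ 2 * q ^ 9 * p ^ 2 +
    (4) * υ ^ 2 * q ^ 9 * p + (-1) * υ ^ 2 * q ^ 9 + (24) * υ ^ 2 * q ^ 8 * p ^ 2 + (-17) * υ ^ 2 * q ^ 8 * p +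
    (3) * υ ^ 2 * q ^ 8 + (-39) * υ ^ 2 * q ^ 7 * p ^ 2 + (25) * υ ^ 2 * q ^ 7 * p + (-4) * υ ^ 2 * q ^ 7 +
    (6) * υ ^ 2 * q ^ 6 * p ^ 2 + (-2) * υ ^ 2 * q ^ 6 * p + (23) * υ ^ 2 * q ^ 5 * p ^ 2 +
    (-17) * υ ^ 2 * q ^ 5 * p + (3) * υ ^ 2 * q ^ 5 + (-14) * υ ^ 2 * q ^ 4 * p ^ 2 + (5) * υ ^ 2 * q ^ 4 * p +
    (-6) * υ ^ 2 * q ^ 3 * p ^ 2 + (11) * υ ^ 2 * q ^ 3 * p + (-3) * υ ^ 2 * q ^ 3 + (7) * υ ^ 2 * q ^ 2 * p ^ 2 +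
    (-12) * υ ^ 2 * q ^ 2 * p + (3) * υ ^ 2 * q ^ 2 + (2) * υ ^ 2 * q * p ^ 2 + (-9) * υ * q ^ 13 * p ^ 2 +
    (6) * υ * q ^ 13 * p + (-1) * υ * q ^ 13 + (9) * υ * q ^ 12 * p ^ 2 + (-6) * υ * q ^ 12 * p +
    (1) * υ * q ^ 12 + (-9) * υ * q ^ 11 * p ^ 2 + (6) * υ * q ^ 11 * p + (-1) * υ * q ^ 11 +
    (3) * υ * q ^ 10 * p ^ 2 + (-1) * υ * q ^ 10 * p + (-6) * υ * q ^ 9 * p ^ 2 + (5) * υ * q ^ 9 * p +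
    (-1) * υ * q ^ 9 + (33) * υ * q ^ 8 * p ^ 2 + (-23) * υ * q ^ 8 * p + (4) * υ * q ^ 8 +
    (-3) * υ * q ^ 7 * p ^ 2 + (4) * υ * q ^ 7 * p + (-1) * υ * q ^ 7 + (-3) * υ * q ^ 6 * p ^ 2 +
    (1) * υ * q ^ 6 * p + (3) * υ * q ^ 5 * p ^ 2 + (-1) * υ * q ^ 5 * p + (3) * υ * q ^ 4 * p ^ 2 +
    (-1) * υ * q ^ 4 * p + (-5) * υ * q ^ 3 * p ^ 2 + (2) * υ * q ^ 3 * p + (-1) * υ * q ^ 2 * p ^ 2 +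
    (1) * υ * q * p ^ 2 + (-9) * q ^ 13 * p ^ 2 + (6) * q ^ 13 * p + (-1) * q ^ 13 + (-9) * q ^ 11 * p ^ 2 +
    (6) * q ^ 11 * p + (-1) * q ^ 11 + (-9) * q ^ 9 * p ^ 2 + (6) * q ^ 9 * p + (-1) * q ^ 9 +
    (2) * q ^ 8 * p ^ 2 + (-1) * q ^ 8 * p + (22) * q ^ 7 * p ^ 2 + (-16) * q ^ 7 * p + (3) * q ^ 7 +
    (6) * q ^ 6 * p ^ 2 + (-2) * q ^ 6 * p + (-7) * q ^ 5 * p ^ 2 + (2) * q ^ 5 * p + (3) * q ^ 4 * p ^ 2 +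
    (-1) * q ^ 4 * p + (1) * q ^ 3 * p ^ 2 + (-1) * q ^ 2 * p ^ 2 + (1) * q * p ^ 2) * hq

theorem p2_alg22 {q υ p : ℂ} (hq : q ^ 2 + q + 1 = 0) (hυ : υ ^ 3 = q) :
    (q ^ 2) ^ 0 * (q * (1) * (1 - υ) * (1 + υ) ^ 2) * ((p - q * (3 * p - 1) * ((q * υ) + (q * υ) ^ 2)) * (p - q * (3 * p - 1) * ((q ^ 2 * υ) + (q ^ 2 * υ) ^ 2))) +
    (q ^ 2) ^ 1 * (q * (1) * (1 - (q * υ)) * (1 + (q * υ)) ^ 2) * ((p - q * (3 * p - 1) * ((q ^ 2 * υ) + (q ^ 2 * υ) ^ 2)) * (p - q * (3 * p - 1) * (υ + υ ^ 2))) +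
    (q ^ 2) ^ 2 * (q * (1) * (1 - (q ^ 2 * υ)) * (1 + (q ^ 2 * υ)) ^ 2) * ((p - q * (3 * p - 1) * (υ + υ ^ 2)) * (p - q * (3 * p - 1) * ((q * υ) + (q * υ) ^ 2))) =
      υ ^ (3 - 2) * q ^ (2 - 1) * (3 * (p ^ 2 + (q - 2 * q ^ 2) * p * (3 * p - 1) + q ^ 2 * (3 * p - 1) ^ 2)) := by
  linear_combination ((-9) * υ ^ 4 * q ^ 15 * p ^ 2 + (6) * υ ^ 4 * q ^ 15 * p + (-1) * υ ^ 4 * q ^ 15 +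
    (-9) * υ ^ 4 * q ^ 12 * p ^ 2 + (6) * υ ^ 4 * q ^ 12 * p + (-1) * υ ^ 4 * q ^ 12 +
    (-9) * υ ^ 4 * q ^ 9 * p ^ 2 + (6) * υ ^ 4 * q ^ 9 * p + (-1) * υ ^ 4 * q ^ 9 +
    (-9) * υ ^ 3 * q ^ 15 * p ^ 2 + (6) * υ ^ 3 * q ^ 15 * p + (-1) * υ ^ 3 * q ^ 15 +
    (-9) * υ ^ 3 * q ^ 14 * p ^ 2 + (6) * υ ^ 3 * q ^ 14 * p + (-1) * υ ^ 3 * q ^ 14 +
    (-9) * υ ^ 3 * q ^ 13 * p ^ 2 + (6) * υ ^ 3 * q ^ 13 * p + (-1) * υ ^ 3 * q ^ 13 +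
    (-9) * υ ^ 3 * q ^ 12 * p ^ 2 + (6) * υ ^ 3 * q ^ 12 * p + (-1) * υ ^ 3 * q ^ 12 +
    (-9) * υ ^ 3 * q ^ 11 * p ^ 2 + (6) * υ ^ 3 * q ^ 11 * p + (-1) * υ ^ 3 * q ^ 11 +
    (-9) * υ ^ 3 * q ^ 10 * p ^ 2 + (6) * υ ^ 3 * q ^ 10 * p + (-1) * υ ^ 3 * q ^ 10 +
    (-9) * υ ^ 3 * q ^ 9 * p ^ 2 + (6) * υ ^ 3 * q ^ 9 * p + (-1) * υ ^ 3 * q ^ 9 + (-9) * υ ^ 3 * q ^ 8 * p ^ 2 +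
    (6) * υ ^ 3 * q ^ 8 * p + (-1) * υ ^ 3 * q ^ 8 + (-9) * υ ^ 3 * q ^ 7 * p ^ 2 + (6) * υ ^ 3 * q ^ 7 * p +
    (-1) * υ ^ 3 * q ^ 7 + (-6) * υ ^ 2 * q ^ 14 * p ^ 2 + (5) * υ ^ 2 * q ^ 14 * p + (-1) * υ ^ 2 * q ^ 14 +
    (-9) * υ ^ 2 * q ^ 13 * p ^ 2 + (6) * υ ^ 2 * q ^ 13 * p + (-1) * υ ^ 2 * q ^ 13 +
    (-6) * υ ^ 2 * q ^ 12 * p ^ 2 + (5) * υ ^ 2 * q ^ 12 * p + (-1) * υ ^ 2 * q ^ 12 +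
    (3) * υ ^ 2 * q ^ 11 * p ^ 2 + (-1) * υ ^ 2 * q ^ 11 * p + (-9) * υ ^ 2 * q ^ 8 * p ^ 2 +
    (6) * υ ^ 2 * q ^ 8 * p + (-1) * υ ^ 2 * q ^ 8 + (-6) * υ ^ 2 * q ^ 7 * p ^ 2 + (5) * υ ^ 2 * q ^ 7 * p +
    (-1) * υ ^ 2 * q ^ 7 + (-6) * υ ^ 2 * q ^ 6 * p ^ 2 + (5) * υ ^ 2 * q ^ 6 * p + (-1) * υ ^ 2 * q ^ 6 +
    (3) * υ ^ 2 * q ^ 4 * p ^ 2 + (-1) * υ ^ 2 * q ^ 4 * p + (-9) * υ * q ^ 16 * p ^ 2 + (6) * υ * q ^ 16 * p +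
    (-1) * υ * q ^ 16 + (-6) * υ * q ^ 13 * p ^ 2 + (5) * υ * q ^ 13 * p + (-1) * υ * q ^ 13 +
    (-3) * υ * q ^ 12 * p ^ 2 + (4) * υ * q ^ 12 * p + (-1) * υ * q ^ 12 + (9) * υ * q ^ 11 * p ^ 2 +
    (-6) * υ * q ^ 11 * p + (1) * υ * q ^ 11 + (15) * υ * q ^ 10 * p ^ 2 + (-8) * υ * q ^ 10 * p +
    (1) * υ * q ^ 10 + (21) * υ * q ^ 9 * p ^ 2 + (-13) * υ * q ^ 9 * p + (2) * υ * q ^ 9 +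
    (18) * υ * q ^ 8 * p ^ 2 + (-12) * υ * q ^ 8 * p + (2) * υ * q ^ 8 + (12) * υ * q ^ 7 * p ^ 2 +
    (-7) * υ * q ^ 7 * p + (1) * υ * q ^ 7 + (-3) * υ * q ^ 6 * p ^ 2 + (4) * υ * q ^ 6 * p + (-1) * υ * q ^ 6 +
    (6) * υ * q ^ 4 * p ^ 2 + (-2) * υ * q ^ 4 * p + (3) * υ * q ^ 3 * p ^ 2 + (-1) * υ * q ^ 3 * p +
    (-9) * q ^ 16 * p ^ 2 + (6) * q ^ 16 * p + (-1) * q ^ 16 + (-9) * q ^ 15 * p ^ 2 + (6) * q ^ 15 * p +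
    (-1) * q ^ 15 + (-9) * q ^ 14 * p ^ 2 + (6) * q ^ 14 * p + (-1) * q ^ 14 + (-9) * q ^ 13 * p ^ 2 +
    (6) * q ^ 13 * p + (-1) * q ^ 13 + (-9) * q ^ 12 * p ^ 2 + (6) * q ^ 12 * p + (-1) * q ^ 12 +
    (-7) * q ^ 11 * p ^ 2 + (5) * q ^ 11 * p + (-1) * q ^ 11 + (6) * q ^ 9 * p ^ 2 + (-5) * q ^ 9 * p +
    (1) * q ^ 9 + (18) * q ^ 8 * p ^ 2 + (-12) * q ^ 8 * p + (2) * q ^ 8 + (18) * q ^ 7 * p ^ 2 +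
    (-12) * q ^ 7 * p + (2) * q ^ 7 + (8) * q ^ 6 * p ^ 2 + (-6) * q ^ 6 * p + (1) * q ^ 6 +
    (-3) * q ^ 5 * p ^ 2 + (1) * q ^ 5 * p + (3) * q ^ 3 * p ^ 2 + (-1) * q ^ 3 * p + (-1) * q * p ^ 2) * hυ +
    ((-6) * υ ^ 2 * q ^ 13 * p ^ 2 + (5) * υ ^ 2 * q ^ 13 * p + (-1) * υ ^ 2 * q ^ 13 +
    (-3) * υ ^ 2 * q ^ 12 * p ^ 2 + (1) * υ ^ 2 * q ^ 12 * p + (3) * υ ^ 2 * q ^ 11 * p ^ 2 +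
    (-1) * υ ^ 2 * q ^ 11 * p + (3) * υ ^ 2 * q ^ 10 * p ^ 2 + (-1) * υ ^ 2 * q ^ 10 * p +
    (-6) * υ ^ 2 * q ^ 9 * p ^ 2 + (2) * υ ^ 2 * q ^ 9 * p + (3) * υ ^ 2 * q ^ 8 * p ^ 2 +
    (-1) * υ ^ 2 * q ^ 8 * p + (-10) * υ ^ 2 * q ^ 7 * p ^ 2 + (6) * υ ^ 2 * q ^ 7 * p + (-1) * υ ^ 2 * q ^ 7 +
    (1) * υ ^ 2 * q ^ 6 * p ^ 2 + (-3) * υ ^ 2 * q ^ 6 * p + (1) * υ ^ 2 * q ^ 6 + (9) * υ ^ 2 * q ^ 5 * p ^ 2 +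
    (-3) * υ ^ 2 * q ^ 5 * p + (-7) * υ ^ 2 * q ^ 4 * p ^ 2 + (2) * υ ^ 2 * q ^ 4 * p +
    (-3) * υ ^ 2 * q ^ 3 * p ^ 2 + (1) * υ ^ 2 * q ^ 3 * p + (1) * υ ^ 2 * q ^ 2 * p ^ 2 +
    (-1) * υ ^ 2 * q * p ^ 2 + (-9) * υ * q ^ 15 * p ^ 2 + (6) * υ * q ^ 15 * p + (-1) * υ * q ^ 15 +
    (9) * υ * q ^ 14 * p ^ 2 + (-6) * υ * q ^ 14 * p + (1) * υ * q ^ 14 + (-15) * υ * q ^ 12 * p ^ 2 +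
    (11) * υ * q ^ 12 * p + (-2) * υ * q ^ 12 + (12) * υ * q ^ 11 * p ^ 2 + (-7) * υ * q ^ 11 * p +
    (1) * υ * q ^ 11 + (12) * υ * q ^ 10 * p ^ 2 + (-10) * υ * q ^ 10 * p + (2) * υ * q ^ 10 +
    (-9) * υ * q ^ 9 * p ^ 2 + (9) * υ * q ^ 9 * p + (-2) * υ * q ^ 9 + (18) * υ * q ^ 8 * p ^ 2 +
    (-12) * υ * q ^ 8 * p + (2) * υ * q ^ 8 + (9) * υ * q ^ 7 * p ^ 2 + (-9) * υ * q ^ 7 * p + (2) * υ * q ^ 7 +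
    (-15) * υ * q ^ 6 * p ^ 2 + (14) * υ * q ^ 6 * p + (-3) * υ * q ^ 6 + (1) * υ * q ^ 5 * p ^ 2 +
    (8) * υ * q ^ 4 * p ^ 2 + (-12) * υ * q ^ 4 * p + (3) * υ * q ^ 4 + (-3) * υ * q ^ 3 * p ^ 2 +
    (10) * υ * q ^ 3 * p + (-3) * υ * q ^ 3 + (-7) * υ * q ^ 2 * p ^ 2 + (3) * υ * q ^ 2 * p +
    (-2) * υ * q * p ^ 2 + (-9) * q ^ 15 * p ^ 2 + (6) * q ^ 15 * p + (-1) * q ^ 15 + (-9) * q ^ 12 * p ^ 2 +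
    (6) * q ^ 12 * p + (-1) * q ^ 12 + (2) * q ^ 10 * p ^ 2 + (-1) * q ^ 10 * p + (-2) * q ^ 9 * p ^ 2 +
    (1) * q ^ 9 * p + (6) * q ^ 8 * p ^ 2 + (-5) * q ^ 8 * p + (1) * q ^ 8 + (14) * q ^ 7 * p ^ 2 +
    (-8) * q ^ 7 * p + (1) * q ^ 7 + (-2) * q ^ 6 * p ^ 2 + (1) * q ^ 6 * p + (-4) * q ^ 5 * p ^ 2 +
    (1) * q ^ 5 * p + (3) * q ^ 4 * p ^ 2 + (-1) * q ^ 4 * p + (2) * q ^ 3 * p ^ 2 + (-2) * q ^ 2 * p ^ 2 +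
    (1) * q * p ^ 2) * hq

theorem p2_prod {q υ p : ℂ} (hq : q ^ 2 + q + 1 = 0) (hυ : υ ^ 3 = q) :
    (p - q * (3 * p - 1) * (υ + υ ^ 2)) * ((p - q * (3 * p - 1) * ((q * υ) + (q * υ) ^ 2)) *
      (p - q * (3 * p - 1) * ((q ^ 2 * υ) + (q ^ 2 * υ) ^ 2))) = p ^ 3 - (3 * p - 1) ^ 2 := by
  linear_combination ((-27) * υ ^ 3 * q ^ 9 * p ^ 3 + (27) * υ ^ 3 * q ^ 9 * p ^ 2 + (-9) * υ ^ 3 * q ^ 9 * p +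
    (1) * υ ^ 3 * q ^ 9 + (-27) * υ ^ 2 * q ^ 9 * p ^ 3 + (27) * υ ^ 2 * q ^ 9 * p ^ 2 +
    (-9) * υ ^ 2 * q ^ 9 * p + (1) * υ ^ 2 * q ^ 9 + (-27) * υ ^ 2 * q ^ 8 * p ^ 3 +
    (27) * υ ^ 2 * q ^ 8 * p ^ 2 + (-9) * υ ^ 2 * q ^ 8 * p + (1) * υ ^ 2 * q ^ 8 +
    (-27) * υ ^ 2 * q ^ 7 * p ^ 3 + (27) * υ ^ 2 * q ^ 7 * p ^ 2 + (-9) * υ ^ 2 * q ^ 7 * p +
    (1) * υ ^ 2 * q ^ 7 + (-18) * υ * q ^ 8 * p ^ 3 + (21) * υ * q ^ 8 * p ^ 2 + (-8) * υ * q ^ 8 * p +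
    (1) * υ * q ^ 8 + (-27) * υ * q ^ 7 * p ^ 3 + (27) * υ * q ^ 7 * p ^ 2 + (-9) * υ * q ^ 7 * p +
    (1) * υ * q ^ 7 + (-18) * υ * q ^ 6 * p ^ 3 + (21) * υ * q ^ 6 * p ^ 2 + (-8) * υ * q ^ 6 * p +
    (1) * υ * q ^ 6 + (9) * υ * q ^ 4 * p ^ 3 + (-6) * υ * q ^ 4 * p ^ 2 + (1) * υ * q ^ 4 * p +
    (-27) * q ^ 10 * p ^ 3 + (27) * q ^ 10 * p ^ 2 + (-9) * q ^ 10 * p + (1) * q ^ 10 + (9) * q ^ 7 * p ^ 3 +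
    (-6) * q ^ 7 * p ^ 2 + (1) * q ^ 7 * p + (-9) * q ^ 6 * p ^ 3 + (15) * q ^ 6 * p ^ 2 + (-7) * q ^ 6 * p +
    (1) * q ^ 6 + (18) * q ^ 4 * p ^ 3 + (-12) * q ^ 4 * p ^ 2 + (2) * q ^ 4 * p + (9) * q ^ 3 * p ^ 3 +
    (-6) * q ^ 3 * p ^ 2 + (1) * q ^ 3 * p) * hυ +
    ((-27) * υ ^ 2 * q ^ 8 * p ^ 3 + (27) * υ ^ 2 * q ^ 8 * p ^ 2 + (-9) * υ ^ 2 * q ^ 8 * p +
    (1) * υ ^ 2 * q ^ 8 + (6) * υ ^ 2 * q ^ 3 * p ^ 3 + (-5) * υ ^ 2 * q ^ 3 * p ^ 2 + (1) * υ ^ 2 * q ^ 3 * p +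
    (3) * υ ^ 2 * q ^ 2 * p ^ 3 + (-1) * υ ^ 2 * q ^ 2 * p ^ 2 + (-3) * υ ^ 2 * q * p ^ 3 +
    (1) * υ ^ 2 * q * p ^ 2 + (-18) * υ * q ^ 7 * p ^ 3 + (21) * υ * q ^ 7 * p ^ 2 + (-8) * υ * q ^ 7 * p +
    (1) * υ * q ^ 7 + (-9) * υ * q ^ 6 * p ^ 3 + (6) * υ * q ^ 6 * p ^ 2 + (-1) * υ * q ^ 6 * p +
    (9) * υ * q ^ 5 * p ^ 3 + (-6) * υ * q ^ 5 * p ^ 2 + (1) * υ * q ^ 5 * p + (-3) * υ * q * p ^ 3 +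
    (1) * υ * q * p ^ 2 + (-27) * q ^ 9 * p ^ 3 + (27) * q ^ 9 * p ^ 2 + (-9) * q ^ 9 * p + (1) * q ^ 9 +
    (27) * q ^ 8 * p ^ 3 + (-27) * q ^ 8 * p ^ 2 + (9) * q ^ 8 * p + (-1) * q ^ 8 + (-18) * q ^ 6 * p ^ 3 +
    (21) * q ^ 6 * p ^ 2 + (-8) * q ^ 6 * p + (1) * q ^ 6 + (9) * q ^ 5 * p ^ 3 + (-6) * q ^ 5 * p ^ 2 +
    (1) * q ^ 5 * p + (9) * q ^ 4 * p ^ 3 + (-15) * q ^ 4 * p ^ 2 + (7) * q ^ 4 * p + (-1) * q ^ 4 +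
    (9) * q ^ 3 * p ^ 2 + (-6) * q ^ 3 * p + (1) * q ^ 3 + (-9) * q * p ^ 2 + (6) * q * p + (-1) * q +
    (9) * p ^ 2 + (-6) * p + (1)) * hq

/-- the weight `v^(k-2)` modulo `v³ = q` -/
noncomputable def p2_h (q v : ℂ) (k : ℕ) : ℂ := if k = 0 then q ^ 2 * v else if k = 1 then q ^ 2 * v ^ 2 else 1

theorem p2_term {q v C X Y p : ℂ} (hq : q ^ 2 + q + 1 = 0) (hv : v ^ 3 = q) (hC : C ^ 3 = 1) (h : IsPt C v X Y)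
    (hB : p - q * (3 * p - 1) * (v + v ^ 2) ≠ 0) {k : ℕ} (hk : k < 3) :
    Y * X ^ (2 - k) / (X ^ 3 - (3 * p - 1)) =
      (w - w ^ 2) / 3 * C ^ (2 - k) * (q * p2_h q v k * (1 - v) * (1 + v) ^ k) / (p - q * (3 * p - 1) * (v + v ^ 2)) := by
  obtain ⟨h1, h2, h3, h4⟩ := h
  have hq0 : q ≠ 0 := by
    rintro rfl
    norm_num at hq
  have hq3 : q ^ 3 = 1 := by linear_combination (q - 1) * hq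
  have e1 : X ^ 3 - (3 * p - 1) = 3 * (p - q * (3 * p - 1) * (v + v ^ 2)) / (q * (1 + v) ^ 3) := by
    rw [h3, div_pow, hC, mul_pow, hv, eq_div_iff (mul_ne_zero hq0 (pow_ne_zero 3 h2))]
    rw [sub_mul, div_mul_cancel₀ _ (mul_ne_zero hq0 (pow_ne_zero 3 h2))]
    linear_combination (-(3 * p - 1) * q) * hv - (3 * p - 1) * hq
  have hvq : v ^ 3 * q ^ 2 = 1 := by
    rw [hv]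
    linear_combination hq3
  have hB' : p - v * (1 + v) * q * (3 * p - 1) ≠ 0 := by
    intro h
    exact hB (by linear_combination h)
  rw [e1, h3, h4]
  interval_cases k
  · simp only [p2_h, if_true, Nat.sub_zero, pow_zero, mul_one]
    field_simp
    linear_combination (-(w * (1 - w) * (1 - v) * C ^ 2)) * hvq
  · simp only [p2_h, if_false, if_true, one_ne_zero, show 2 - 1 = 1 from rfl, pow_one]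
    field_simp
    linear_combination (-(w * (1 - w) * (1 - v) * C)) * hvq
  · simp only [p2_h, if_false, OfNat.ofNat_ne_zero, OfNat.ofNat_ne_one, Nat.sub_self, pow_zero]
    field_simp

theorem p2_sum {q υ C z z' : ℂ} (hq : q ^ 2 + q + 1 = 0) (hυ : υ ^ 3 = q) (hC : C ^ 3 = 1)
    {X Y : ℕ → ℂ} (h0 : IsPt C υ (X 0) (Y 0)) (h1 : IsPt C (q * υ) (X 1) (Y 1)) (h2 : IsPt C (q ^ 2 * υ) (X 2) (Y 2))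
    (hz : z ≠ 0) (hz1 : 1 + z ^ 3 ≠ 0) (hz' : 1 + z' ^ 3 ≠ 0) (hr : 27 * z' ^ 3 * z ^ 6 = -(z ^ 3 + 1) ^ 3)
    {k m : ℕ} (hk : k < 3) (hm : m = 1 ∨ m = 2) :
    ∑ n ∈ Finset.range 3, (q ^ m) ^ n * (Y n * X n ^ (2 - k) / (X n ^ 3 - z ^ 3)) =
      -(4 / 3) * (υ ^ (3 - m) * q ^ (m - 1) * C ^ (2 - k)) * (w - w ^ 2) * Gc q k m z z' := by
  have hq3 : q ^ 3 = 1 := by linear_combination (q - 1) * hq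
  obtain ⟨p, hp⟩ : ∃ p : ℂ, z ^ 3 = 3 * p - 1 := ⟨(1 + z ^ 3) / 3, by ring⟩
  have hZ : (3 * p - 1 : ℂ) ≠ 0 := by
    rw [← hp]
    exact pow_ne_zero 3 hz
  have hr' : p ^ 3 = -(z' ^ 3 * (3 * p - 1) ^ 2) := by
    rw [show z ^ 6 = (z ^ 3) ^ 2 by ring, hp] at hr
    linear_combination (1 / 27 : ℂ) * hr
  have hprod := p2_prod (p := p) hq hυ
  have hD : p ^ 3 - (3 * p - 1) ^ 2 = -((3 * p - 1) ^ 2 * (1 + z' ^ 3)) := by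
    rw [hr']
    ring
  have hD0 : p ^ 3 - (3 * p - 1) ^ 2 ≠ 0 := by
    rw [hD]
    exact neg_ne_zero.2 (mul_ne_zero (pow_ne_zero 2 hZ) hz')
  have hB := hprod.symm ▸ hD0
  rw [hD] at hprod
  have hB0 := left_ne_zero_of_mul hB
  have hB1 := left_ne_zero_of_mul (right_ne_zero_of_mul hB)
  have hB2 := right_ne_zero_of_mul (right_ne_zero_of_mul hB)
  have v1 : (q * υ) ^ 3 = q := by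
    rw [mul_pow, hq3, hυ, one_mul]
  have v2 : (q ^ 2 * υ) ^ 3 = q := by
    rw [mul_pow, hυ, ← pow_mul, mul_comm 2 3, pow_mul, hq3]
    ring
  simp only [Finset.sum_range_succ, Finset.sum_range_zero, zero_add]
  rw [hp, p2_term hq hυ hC h0 hB0 hk, p2_term hq v1 hC h1 hB1 hk, p2_term hq v2 hC h2 hB2 hk]
  have key : ∀ (T0 T1 T2 B0 B1 B2 K a0 a1 a2 : ℂ), B0 ≠ 0 → B1 ≠ 0 → B2 ≠ 0 →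
      a0 * (K * T0 / B0) + a1 * (K * T1 / B1) + a2 * (K * T2 / B2) =
        K * (a0 * T0 * (B1 * B2) + a1 * T1 * (B2 * B0) + a2 * T2 * (B0 * B1)) / (B0 * (B1 * B2)) := by
    intro T0 T1 T2 B0 B1 B2 K a0 a1 a2 b0 b1 b2
    field_simp
  rw [key _ _ _ _ _ _ _ _ _ _ hB0 hB1 hB2, hprod]
  have hU1 : U1 z ^ 2 = 16 * (3 * p - 1) ^ 2 := by
    unfold U1
    rw [hp]
    ring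
  have hU2 : U2 z = 4 * p := by
    unfold U2
    rw [hp]
    ring
  have hU1' : U1 z = -4 * (3 * p - 1) := by
    unfold U1
    rw [hp]
  have hfin : ∀ P : ℂ, ca q k m * (4 * p) ^ 2 + cb q k m * (-4 * (3 * p - 1) * (4 * p)) + cg q k m * (16 * (3 * p - 1) ^ 2) = 16 * P →
      (w - w ^ 2) / 3 * C ^ (2 - k) * (υ ^ (3 - m) * q ^ (m - 1) * (3 * P)) / -((3 * p - 1) ^ 2 * (1 + z' ^ 3)) =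
      -(4 / 3) * (υ ^ (3 - m) * q ^ (m - 1) * C ^ (2 - k)) * (w - w ^ 2) * Gc q k m z z' := by
    intro P hP
    unfold Gc
    rw [hU1, hU2, hU1', hP]
    unfold U2
    field_simp
    try ring
  rcases hm with rfl | rfl
  · interval_cases k
    · have e := p2_alg01 (p := p) hq hυ
      simp only [p2_h, if_true, if_false, one_ne_zero, OfNat.ofNat_ne_zero, OfNat.ofNat_ne_one] at e ⊢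
      rw [e]
      refine hfin _ ?_
      simp only [ca, cb, cg]
      ring
    · have e := p2_alg11 (p := p) hq hυ
      simp only [p2_h, if_true, if_false, one_ne_zero, OfNat.ofNat_ne_zero, OfNat.ofNat_ne_one] at e ⊢
      rw [e]
      refine hfin _ ?_
      simp only [ca, cb, cg]
      ring
    · have e := p2_alg21 (p := p) hq hυ
      simp only [p2_h, if_true, if_false, one_ne_zero, OfNat.ofNat_ne_zero, OfNat.ofNat_ne_one] at e ⊢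
      rw [e]
      refine hfin _ ?_
      simp only [ca, cb, cg]
      linear_combination (16 * p * (3 * p - 1)) * hq3
  · interval_cases k
    · have e := p2_alg02 (p := p) hq hυ
      simp only [p2_h, if_true, if_false, one_ne_zero, OfNat.ofNat_ne_zero, OfNat.ofNat_ne_one] at e ⊢
      rw [e]
      refine hfin _ ?_
      simp only [ca, cb, cg]
      linear_combination (16 * q * p * (3 * p - 1)) * hq3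
    · have e := p2_alg12 (p := p) hq hυ
      simp only [p2_h, if_true, if_false, one_ne_zero, OfNat.ofNat_ne_zero, OfNat.ofNat_ne_one] at e ⊢
      rw [e]
      refine hfin _ ?_
      simp only [ca, cb, cg]
      ring
    · have e := p2_alg22 (p := p) hq hυ
      simp only [p2_h, if_true, if_false, one_ne_zero, OfNat.ofNat_ne_zero, OfNat.ofNat_ne_one] at e ⊢
      rw [e]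
      refine hfin _ ?_
      simp only [ca, cb, cg]
      ring

end JX
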