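import Pool.Agent.JX.Defs

/-!
# [JX-A4a] digits of the elements of `ℚ(ω)`, the product

`a4_dig`: as in `a4_KK` (JZ/LA4.lean): `b = emb a / emb c` with `la ∤ c` (`g6_split`); modulo `la²` (i.e. modulo `3`) `c` is invertible: there is `c'` with `3 ∣ c c' - 1`, so `v(b - emb (a c')) ≤ v 3`; and every `e ∈ ℤ[ω]`, `e = x + y ω = (x + y) - y λ`: `β₀ = x + y`, `β₁ = -y`.
`a4_LC`: `β ≡ β₀ + β₁ λ`. `β - t (1 + c λ) ≡ (β₀ - t) + (β₁ - t c) λ`. If `v(..) ≤ v 3 = v(λ)²` then `3 ∣ β₀ - t` (an integer of valuation `< 1` is divisible by 3: `w_int_unit`, so its valuation is `≤ v 3`), then `v((β₁ - t c) λ) ≤ v(λ)²`, `3 ∣ β₁ - t c`, so `3 ∣ β₁ - c β₀`. Conversely `t = β₀`.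
`a4_prod`: `(1 + L³ Y)^(±1) = 1 ± L³ Y + O(L⁶)`, model `a3_inv`, `a3_zpow`, `a3_prod` in JZ/LA3.lean (`v(L)² = v 3`, so `v(L)^6 = v(3)³`).
`a4_cube`: `(∑ a)³ - ∑ a³` is `3` times an element of `A` (induction; `n³ - n` divisible by 3 for `n = ± 1`: equal).
-/

set_option autoImplicit false

open NumberField IsDedekindDomain
open scoped Classical ComplexConjugate

namespace JX

open CM27 JZ JL
open CU (la eE)
open CUL (Nl ez si ta rh DS Cont LV IsRep rp cr mn zw OT GalU cu us FF W3)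

variable {D : Eis}

theorem a4a_norm {m : Eis} (h : ¬ la ∣ m) : ¬ (3 : ℤ) ∣ m.norm := by
  have h0 : ¬ (3 : ℤ) ∣ m.re + m.im := by
    rintro ⟨k, hk⟩
    apply h
    refine ⟨⟨2, 1⟩ * (k : Eis) - (m.im : Eis), emb_injective ?_⟩
    have h1 : ((m.re + m.im : ℤ) : ℂ) = ((3 * k : ℤ) : ℂ) := by rw [hk]
    push_cast at h1
    have h2 := congrArg emb CUL.u7_three
    rw [map_mul, map_ofNat] at h2
    rw [map_mul, map_sub, map_mul, map_intCast, map_intCast, mul_sub, ← mul_assoc, ← h2, CUL.emb_la,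
      emb_apply]
    linear_combination h1
  intro h1
  rw [norm_eq] at h1
  have e : m.re ^ 2 - m.re * m.im + m.im ^ 2 = (m.re + m.im) ^ 2 - 3 * (m.re * m.im) := by ring
  rw [e] at h1
  have h2 : (3 : ℤ) ∣ (m.re + m.im) ^ 2 := by
    have := dvd_add h1 (Dvd.intro (m.re * m.im) rfl : (3 : ℤ) ∣ 3 * (m.re * m.im))
    rwa [sub_add_cancel] at this
  exact h0 (Int.prime_three.dvd_of_dvd_pow h2)

/-- an inverse modulo `3` -/
theorem a4a_inv (A : ValuationSubring ℂ) {c : Eis} (h : ¬ la ∣ c) :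
    ∃ c' : Eis, A.valuation (1 - emb c * emb c') ≤ A.valuation 3 := by
  have hN := a4a_norm h
  obtain ⟨k, hk⟩ : ∃ k : ℤ, c.norm ^ 2 - 1 = 3 * k := by
    obtain ⟨q, hq⟩ : ∃ q, q = c.norm / 3 := ⟨_, rfl⟩
    have h1 : c.norm % 3 = 1 ∨ c.norm % 3 = 2 := by omega
    rcases h1 with h1 | h1
    · have h2 : c.norm = 3 * q + 1 := by omega
      exact ⟨3 * q ^ 2 + 2 * q, by rw [h2]; ring⟩
    · have h2 : c.norm = 3 * q + 2 := by omega
      exact ⟨3 * q ^ 2 + 4 * q + 1, by rw [h2]; ring⟩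
  refine ⟨star c * ((c.norm : ℤ) : Eis), ?_⟩
  have h3 : emb c * emb (star c) = ((c.norm : ℤ) : ℂ) := by
    rw [← map_mul, ← QuadraticAlgebra.algebraMap_norm_eq_mul_star]
    simp
  have h4 : (1 : ℂ) - emb c * emb (star c * ((c.norm : ℤ) : Eis)) = -(3 * ((k : ℤ) : ℂ)) := by
    rw [map_mul, map_intCast, ← mul_assoc, h3]
    have h5 : (((c.norm ^ 2 - 1 : ℤ)) : ℂ) = ((3 * k : ℤ) : ℂ) := by rw [hk]
    push_cast at h5
    linear_combination -h5
  rw [h4, Valuation.map_neg, map_mul]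
  calc A.valuation 3 * A.valuation ((k : ℤ) : ℂ) ≤ A.valuation 3 * 1 :=
        mul_le_mul' le_rfl (CUL.w_int_le A k)
    _ = A.valuation 3 := mul_one _

theorem a4a_emb (e : Eis) : emb e = ((e.re + e.im : ℤ) : ℂ) + ((-e.im : ℤ) : ℂ) * emb la := by
  rw [emb_apply, CUL.emb_la]
  push_cast
  ring

theorem a4a_frac (A : ValuationSubring ℂ) (hA : A.valuation 3 < 1) {z : ℂ} (hz : z ∈ CF.KK)
    (hv : A.valuation z ≤ 1) (h0 : z ≠ 0) : ∃ b a : Eis, ¬ la ∣ b ∧ emb b * z = emb a := by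
  have h1 : ∃ (n : ℕ) (a : Eis), n ≠ 0 ∧ (n : ℂ) * z = emb a := by
    obtain ⟨x, y, hxy⟩ := (CUL.mem_KK z).1 hz
    rw [hxy]
    refine ⟨x.den * y.den, ⟨x.num * y.den, y.num * x.den⟩,
      mul_ne_zero x.den_nz y.den_nz, ?_⟩
    rw [emb_apply]
    have hx : (x : ℂ) * x.den = x.num := by exact_mod_cast Rat.mul_den_eq_num x
    have hy : (y : ℂ) * y.den = y.num := by exact_mod_cast Rat.mul_den_eq_num y
    push_cast
    rw [← hx, ← hy]
    ring
  obtain ⟨n, a, hn, hna⟩ := h1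
  have hnC : (n : ℂ) ≠ 0 := Nat.cast_ne_zero.2 hn
  have hn0 : (n : Eis) ≠ 0 := by
    intro h
    have := congrArg emb h
    rw [map_natCast, map_zero] at this
    exact hnC this
  have ha : a ≠ 0 := by
    rintro rfl
    rw [map_zero] at hna
    exact (mul_ne_zero hnC h0) hna
  obtain ⟨l, b, hb, hbl⟩ := CUL.g6_split hn0
  obtain ⟨k, c, hc, hcl⟩ := CUL.g6_split ha
  have hbC : (n : ℂ) = emb la ^ l * emb b := by
    have := congrArg emb hb
    rwa [map_natCast, map_mul, map_pow] at this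
  have hcC : emb a = emb la ^ k * emb c := by rw [hc, map_mul, map_pow]
  have hl := CUL.w_la_lt A hA
  have hl0 : 0 < A.valuation (emb la) := by
    rw [Valuation.pos_iff]
    exact CUL.la_ne
  rw [hbC, hcC] at hna
  have hvz : A.valuation (emb la) ^ l * A.valuation z = A.valuation (emb la) ^ k := by
    have := congrArg A.valuation hna
    rw [map_mul, map_mul, map_mul, map_pow, map_pow, CUL.w_emb_unit A hA b hbl,
      CUL.w_emb_unit A hA c hcl, mul_one, mul_one] at this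
    exact this
  have hkl : l ≤ k := by
    by_contra hlt
    push Not at hlt
    have h2 : A.valuation (emb la) ^ l < A.valuation (emb la) ^ k :=
      pow_lt_pow_right_of_lt_one₀ hl0 hl hlt
    have h3 : A.valuation (emb la) ^ l * A.valuation z ≤ A.valuation (emb la) ^ l * 1 :=
      mul_le_mul' le_rfl hv
    rw [hvz, mul_one] at h3
    exact absurd h3 (not_le.2 h2)
  obtain ⟨m, rfl⟩ := Nat.exists_eq_add_of_le hkl
  refine ⟨b, la ^ m * c, hbl, ?_⟩
  apply mul_left_cancel₀ (pow_ne_zero l CUL.la_ne)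
  rw [map_mul, map_pow]
  linear_combination hna

theorem a4a_int3 (A : ValuationSubring ℂ) {n : ℤ} (h : (3 : ℤ) ∣ n) :
    A.valuation (n : ℂ) ≤ A.valuation 3 := by
  obtain ⟨k, rfl⟩ := h
  rw [Int.cast_mul, Int.cast_ofNat, map_mul]
  calc A.valuation 3 * A.valuation ((k : ℤ) : ℂ) ≤ A.valuation 3 * 1 :=
        mul_le_mul' le_rfl (CUL.w_int_le A k)
    _ = A.valuation 3 := mul_one _

variable (A : ValuationSubring ℂ) (hA : A.valuation 3 < 1)

include hA in
theorem a4_dig {b : ℂ} (hb : b ∈ CF.KK) (hv : A.valuation b ≤ 1) :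
    ∃ β₀ β₁ : ℤ, A.valuation (b - ((β₀ : ℂ) + (β₁ : ℂ) * emb la)) ≤ A.valuation 3 := by
  by_cases h0 : b = 0
  · refine ⟨0, 0, ?_⟩
    rw [h0]
    simp
  obtain ⟨c, a, hc, hca⟩ := a4a_frac A hA hb hv h0
  obtain ⟨c', hc'⟩ := a4a_inv A hc
  refine ⟨(c' * a).re + (c' * a).im, -(c' * a).im, ?_⟩
  rw [← a4a_emb, map_mul]
  have hcC : emb c ≠ 0 := by
    intro h
    apply hc
    rw [emb_injective (h.trans (map_zero emb).symm)]
    exact dvd_zero _
  have h1 : b - emb c' * emb a = b * (1 - emb c * emb c') := by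
    rw [← hca]
    ring
  rw [h1, map_mul]
  calc A.valuation b * A.valuation (1 - emb c * emb c') ≤ 1 * A.valuation 3 := mul_le_mul' hv hc'
    _ = A.valuation 3 := one_mul _


include hA in
theorem a4_LC {b : ℂ} {β₀ β₁ : ℤ} (hb : A.valuation (b - ((β₀ : ℂ) + (β₁ : ℂ) * emb la)) ≤ A.valuation 3) (c : ℤ) :
    LC A c b ↔ (3 : ℤ) ∣ β₁ - c * β₀ := by
  have hl := CUL.w_la_lt A hA
  have hl2 := CUL.w_la A hA
  have hl0 : 0 < A.valuation (emb la) := by
    rw [Valuation.pos_iff]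
    exact CUL.la_ne
  constructor
  · rintro ⟨t, ht⟩
    have h1 : A.valuation (((β₀ - t : ℤ) : ℂ) + ((β₁ - t * c : ℤ) : ℂ) * emb la) ≤ A.valuation 3 := by
      have e : ((β₀ - t : ℤ) : ℂ) + ((β₁ - t * c : ℤ) : ℂ) * emb la =
          (b - (t : ℂ) * (1 + (c : ℂ) * emb la)) - (b - ((β₀ : ℂ) + (β₁ : ℂ) * emb la)) := by
        push_cast
        ring
      rw [e]
      exact Valuation.map_sub_le _ ht hb
    have h2 : A.valuation (((β₁ - t * c : ℤ) : ℂ) * emb la) < 1 := by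
      rw [map_mul]
      calc A.valuation ((β₁ - t * c : ℤ) : ℂ) * A.valuation (emb la) ≤ 1 * A.valuation (emb la) :=
            mul_le_mul' (CUL.w_int_le A _) le_rfl
        _ < 1 := by rw [one_mul]; exact hl
    have h3 : (3 : ℤ) ∣ β₀ - t := by
      by_contra h4
      have h5 := CUL.w_int_unit A hA _ h4
      have h6 : A.valuation (((β₀ - t : ℤ) : ℂ) + ((β₁ - t * c : ℤ) : ℂ) * emb la) = 1 := by
        rw [Valuation.map_add_eq_of_lt_left _ (by rwa [h5]), h5]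
      rw [h6] at h1
      exact absurd hA (not_lt.2 h1)
    have h4 : A.valuation (((β₁ - t * c : ℤ) : ℂ) * emb la) ≤ A.valuation 3 := by
      have e : ((β₁ - t * c : ℤ) : ℂ) * emb la =
          (((β₀ - t : ℤ) : ℂ) + ((β₁ - t * c : ℤ) : ℂ) * emb la) - ((β₀ - t : ℤ) : ℂ) := by ring
      rw [e]
      exact Valuation.map_sub_le _ h1 (a4a_int3 A h3)
    have h5 : (3 : ℤ) ∣ β₁ - t * c := by
      by_contra h6
      have h7 := CUL.w_int_unit A hA _ h6
      rw [map_mul, h7, one_mul, ← hl2, pow_two] at h4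
      have h8 : A.valuation (emb la) * A.valuation (emb la) < A.valuation (emb la) := by
        calc A.valuation (emb la) * A.valuation (emb la) < A.valuation (emb la) * 1 :=
              mul_lt_mul_of_pos_left hl hl0
          _ = A.valuation (emb la) := mul_one _
      exact absurd h8 (not_lt.2 h4)
    have h6 : β₁ - c * β₀ = (β₁ - t * c) - c * (β₀ - t) := by ring
    rw [h6]
    exact dvd_sub h5 (Dvd.dvd.mul_left h3 c)
  · intro h
    refine ⟨β₀, ?_⟩
    have e : b - (β₀ : ℂ) * (1 + (c : ℂ) * emb la) =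
        (b - ((β₀ : ℂ) + (β₁ : ℂ) * emb la)) + ((β₁ - c * β₀ : ℤ) : ℂ) * emb la := by
      push_cast
      ring
    rw [e]
    refine Valuation.map_add_le _ hb ?_
    rw [map_mul]
    calc A.valuation ((β₁ - c * β₀ : ℤ) : ℂ) * A.valuation (emb la) ≤ A.valuation 3 * 1 :=
          mul_le_mul' (a4a_int3 A h) hl.le
      _ = A.valuation 3 := mul_one _

end JX
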