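import Pool.Agent.JX.Defs

/-!
# [JX-A4b] digits of the elements of `ℚ(ω)`, the product

`a4_dig`: as in `a4_KK` (JZ/LA4.lean): `b = emb a / emb c` with `la ∤ c` (`g6_split`); modulo `la²` (i.e. modulo `3`) `c` is invertible: there is `c'` with `3 ∣ c c' - 1`, so `v(b - emb (a c')) ≤ v 3`; and every `e ∈ ℤ[ω]`, `e = x + y ω = (x + y) - y λ`: `β₀ = x + y`, `β₁ = -y`.
`a4_LC`: `β ≡ β₀ + β₁ λ`. `β - t (1 + c λ) ≡ (β₀ - t) + (β₁ - t c) λ`. If `v(..) ≤ v 3 = v(λ)²` then `3 ∣ β₀ - t` (an integer of valuation `< 1` is divisible by 3: `w_int_unit`, so its valuation is `≤ v 3`), then `v((β₁ - t c) λ) ≤ v(λ)²`, `3 ∣ β₁ - t c`, so `3 ∣ β₁ - c β₀`. Conversely `t = β₀`.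
`a4_prod`: `(1 + L³ Y)^(±1) = 1 ± L³ Y + O(L⁶)`, model `a3_inv`, `a3_zpow`, `a3_prod` in JZ/LA3.lean (`v(L)² = v 3`, so `v(L)^6 = v(3)³`).
`a4_cube`: `(∑ a)³ - ∑ a³` is `3` times an element of `A` (induction; `n³ - n` divisible by 3 for `n = ± 1`: equal).
-/

set_option autoImplicit false

open NumberField IsDedekindDomain
open scoped Classical ComplexConjugate

namespace JX

open CM27 JZ JL
open CU (la eE)
open CUL (Nl ez si ta rh DS Cont LV IsRep rp cr mn zw OT GalU cu us FF W3)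

variable {D : Eis}

variable (A : ValuationSubring ℂ) (hA : A.valuation 3 < 1)

theorem a4b_le (x : A) : A.valuation (x : ℂ) ≤ 1 := (ValuationSubring.valuation_le_one_iff A _).2 x.2

theorem a4b_inv {L : ℂ} (hL : A.valuation L < 1) (Y : A) : A.valuation ((1 + L * (Y : ℂ))⁻¹ - (1 - L * (Y : ℂ))) ≤
    A.valuation L ^ 2 ∧ A.valuation (1 + L * (Y : ℂ)) = 1 := by
  have h1 : A.valuation (L * (Y : ℂ)) < 1 := by
    rw [map_mul]
    exact lt_of_le_of_lt (mul_le_mul' le_rfl (a4b_le A Y)) (by rwa [mul_one])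
  have h2 : A.valuation (1 + L * (Y : ℂ)) = 1 := Valuation.map_one_add_of_lt _ h1
  refine ⟨?_, h2⟩
  have h0 : (1 : ℂ) + L * (Y : ℂ) ≠ 0 := by
    intro h
    rw [h, map_zero] at h2
    exact zero_ne_one h2
  have e : (1 + L * (Y : ℂ))⁻¹ - (1 - L * (Y : ℂ)) = L ^ 2 * (Y : ℂ) ^ 2 * (1 + L * (Y : ℂ))⁻¹ := by
    field_simp
    ring
  rw [e, map_mul, map_mul, map_inv₀, h2, inv_one, mul_one, map_pow, map_pow]
  calc A.valuation L ^ 2 * A.valuation (Y : ℂ) ^ 2 ≤ A.valuation L ^ 2 * 1 :=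
        mul_le_mul' le_rfl (pow_le_one₀ zero_le (a4b_le A Y))
    _ = _ := mul_one _

theorem a4b_zpow {L : ℂ} (hL : A.valuation L < 1) (Y : A) {n : ℤ} (hn : n = 1 ∨ n = -1) :
    A.valuation ((1 + L * (Y : ℂ)) ^ n - 1 - L * ((n : ℂ) * (Y : ℂ))) ≤ A.valuation L ^ 2 := by
  rcases hn with rfl | rfl
  · rw [zpow_one]
    have : (1 : ℂ) + L * (Y : ℂ) - 1 - L * (((1 : ℤ) : ℂ) * (Y : ℂ)) = 0 := by
      push_cast
      ring
    rw [this, map_zero]
    exact zero_le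
  · rw [zpow_neg_one]
    have : (1 + L * (Y : ℂ))⁻¹ - 1 - L * (((-1 : ℤ) : ℂ) * (Y : ℂ)) =
        (1 + L * (Y : ℂ))⁻¹ - (1 - L * (Y : ℂ)) := by
      push_cast
      ring
    rw [this]
    exact (a4b_inv A hL Y).1

theorem a4b_prod {L : ℂ} (hl : A.valuation L < 1) {ι : Type*} (s : Finset ι) (Y : ι → A) (n : ι → ℤ)
    (hn : ∀ c ∈ s, n c = 1 ∨ n c = -1) :
    A.valuation (∏ c ∈ s, (1 + L * (Y c : ℂ)) ^ n c - 1 -
      L * ∑ c ∈ s, ((n c : ℂ) * (Y c : ℂ))) ≤ A.valuation L ^ 2 := by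
  have hl2 : A.valuation L ^ 2 ≤ 1 := pow_le_one₀ zero_le hl.le
  induction s using Finset.induction_on with
  | empty => simp
  | insert a s ha ih =>
    have ih' := ih fun c hc => hn c (Finset.mem_insert_of_mem hc)
    have hna := hn a (Finset.mem_insert_self a s)
    have ha' := a4b_zpow A hl (Y a) hna
    rw [Finset.prod_insert ha, Finset.sum_insert ha]
    have vS : A.valuation (∑ c ∈ s, ((n c : ℂ) * (Y c : ℂ))) ≤ 1 := by
      rw [ValuationSubring.valuation_le_one_iff]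
      exact sum_mem fun c _ => mul_mem (intCast_mem A _) (Y c).2
    have vY : A.valuation ((n a : ℂ) * (Y a : ℂ)) ≤ 1 := by
      rw [ValuationSubring.valuation_le_one_iff]
      exact mul_mem (intCast_mem A _) (Y a).2
    have vf : A.valuation ((1 + L * (Y a : ℂ)) ^ n a) = 1 := by
      rw [map_zpow₀, (a4b_inv A hl (Y a)).2, one_zpow]
    obtain ⟨P, hP⟩ : ∃ P, P = ∏ c ∈ s, (1 + L * (Y c : ℂ)) ^ n c := ⟨_, rfl⟩
    obtain ⟨S, hS⟩ : ∃ S, S = ∑ c ∈ s, ((n c : ℂ) * (Y c : ℂ)) := ⟨_, rfl⟩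
    obtain ⟨f, hf⟩ : ∃ f, f = (1 + L * (Y a : ℂ)) ^ n a := ⟨_, rfl⟩
    obtain ⟨y, hy⟩ : ∃ y, y = (n a : ℂ) * (Y a : ℂ) := ⟨_, rfl⟩
    rw [← hP, ← hS] at ih'
    rw [← hf, ← hy] at ha'
    rw [← hP, ← hS, ← hf, ← hy]
    rw [← hS] at vS
    rw [← hy] at vY
    rw [← hf] at vf
    have e : f * P - 1 - L * (y + S) = f * (P - 1 - L * S) + (f - 1 - L * y) * (1 + L * S) +
        L ^ 2 * (y * S) := by ring
    rw [e]
    refine (A.valuation.map_add _ _).trans (max_le ((A.valuation.map_add _ _).trans (max_le ?_ ?_)) ?_)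
    · rw [map_mul, vf, one_mul]
      exact ih'
    · rw [map_mul]
      have : A.valuation (1 + L * S) ≤ 1 := by
        refine (A.valuation.map_add _ _).trans (max_le (by rw [map_one]) ?_)
        rw [map_mul]
        exact mul_le_one' hl.le vS
      calc A.valuation (f - 1 - L * y) * A.valuation (1 + L * S) ≤
          A.valuation L ^ 2 * 1 := mul_le_mul' ha' this
        _ = _ := mul_one _
    · rw [map_mul, map_pow, map_mul]
      calc A.valuation L ^ 2 * (A.valuation y * A.valuation S) ≤ A.valuation L ^ 2 * 1 :=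
            mul_le_mul' le_rfl (mul_le_one' vY vS)
        _ = _ := mul_one _

include hA in
theorem a4_prod {ι : Type*} (s : Finset ι) (Y : ι → A) (n : ι → ℤ) (hn : ∀ c ∈ s, n c = 1 ∨ n c = -1) :
    A.valuation (∏ c ∈ s, (1 + emb la ^ 3 * (Y c : ℂ)) ^ n c - 1 -
      emb la ^ 3 * ∑ c ∈ s, ((n c : ℂ) * (Y c : ℂ))) ≤ A.valuation 3 ^ 3 := by
  have hl := CUL.w_la_lt A hA
  have h1 : A.valuation (emb la ^ 3) < 1 := by
    rw [map_pow]
    exact pow_lt_one₀ zero_le hl (by norm_num)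
  have h2 : A.valuation (emb la ^ 3) ^ 2 = A.valuation 3 ^ 3 := by
    rw [map_pow, ← pow_mul, mul_comm 3 2, pow_mul, CUL.w_la A hA]
  rw [← h2]
  exact a4b_prod A h1 s Y n hn


theorem a4b_cube {ι : Type*} (s : Finset ι) (Y : ι → A) (n : ι → ℤ) (hn : ∀ c ∈ s, n c = 1 ∨ n c = -1) :
    ∃ x : A, ∑ c ∈ s, ((n c : A) * Y c ^ 3) - (∑ c ∈ s, ((n c : A) * Y c)) ^ 3 = 3 * x := by
  induction s using Finset.induction_on with
  | empty => exact ⟨0, by simp⟩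
  | insert a s ha ih =>
    obtain ⟨x, hx⟩ := ih fun c hc => hn c (Finset.mem_insert_of_mem hc)
    rw [Finset.sum_insert ha, Finset.sum_insert ha]
    obtain ⟨S, hS⟩ : ∃ S, S = ∑ c ∈ s, ((n c : A) * Y c) := ⟨_, rfl⟩
    obtain ⟨T, hT⟩ : ∃ T, T = ∑ c ∈ s, ((n c : A) * Y c ^ 3) := ⟨_, rfl⟩
    rw [← hS, ← hT] at hx
    rw [← hS, ← hT]
    have h3 : (n a : A) ^ 3 = (n a : A) := by
      rcases hn a (Finset.mem_insert_self a s) with h | h <;> rw [h] <;> push_cast <;> ring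
    refine ⟨x - ((n a : A) * Y a) ^ 2 * S - ((n a : A) * Y a) * S ^ 2, ?_⟩
    linear_combination hx - Y a ^ 3 * h3

include hA in
theorem a4_cube {ι : Type*} (s : Finset ι) (Y : ι → A) (n : ι → ℤ) (hn : ∀ c ∈ s, n c = 1 ∨ n c = -1) :
    A.valuation (∑ c ∈ s, ((n c : ℂ) * (Y c : ℂ) ^ 3) - (∑ c ∈ s, ((n c : ℂ) * (Y c : ℂ))) ^ 3) ≤ A.valuation 3 := by
  obtain ⟨x, hx⟩ := a4b_cube A s Y n hn
  have e : ∑ c ∈ s, ((n c : ℂ) * (Y c : ℂ) ^ 3) - (∑ c ∈ s, ((n c : ℂ) * (Y c : ℂ))) ^ 3 = 3 * (x : ℂ) := by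
    have h1 := congrArg (fun t : A => (t : ℂ)) hx
    push_cast at h1
    exact h1
  rw [e, map_mul]
  calc A.valuation 3 * A.valuation (x : ℂ) ≤ A.valuation 3 * 1 := mul_le_mul' le_rfl (a4b_le A x)
    _ = _ := mul_one _

end JX
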