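import Pool.Agent.JX.Defs

/-!
# [JX-A1a] the function `W`

`A` a valuation ring of `ℂ`, `v(3) < 1`, `L = emb la`. `W = a2_W w r X = X³ - w² r² X - w² r L X²` (JZ/LA2.lean), `a2_one_add`: `4 (1 + (r + L X)³) = L² (-w² + 4 L W)`; `3 = -w² L²` (JZ/LA2: in the proof of `a2_one_add`), `w³ = 1`.
`a1_U`: `U1 x = -4 x³ = 4 - 4 (1 + x³) = 1 - 4 L³ W`; `U2 x = (4/3)(1 + x³) = 1 - 4 w L W` (`L²/3 = -w`).
`a1_W`: `27 x'³ x⁶ = -(x³ + 1)³` gives `U1 x' · U1 x ^ 2 = U2 x ^ 3`. So with `W' := (16 W³ + 4 w L W² - 3 W + 4 L³ W²)/(1 - 4 L³ W)²` (in `A`: `v(1 - 4 L³ W) = 1`): `U1 x' = 1 - 4 L³ W'` [identity: `(1 - 4 L³ W)² - (1 - 4 w L W)³ = 4 L³ (16 W³ + 4 w L W² - 3 W + 4 L³ W²)`, from `3 = -w² L²`], `U2 x' = (4 - U1 x')/3 = 1 - 4 w L W'`.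
`W' - W³ - L W²`: `v(1/(1 - 4 L³ W)² - 1) ≤ v(L)³`, `16 = 1 + 15`, `4 w = 1 + 3 w - (1 - w)`, so modulo `L²` (valuation `v 3`): `W' ≡ 16 W³ + 4 w L W² - 3 W ≡ W³ + L W²`.
-/

set_option autoImplicit false

open NumberField IsDedekindDomain
open scoped Classical ComplexConjugate

namespace JX

open CM27 JZ JL
open CU (la eE)
open CUL (Nl ez si ta rh DS Cont LV IsRep rp cr mn zw OT GalU cu us FF W3)

variable {D : Eis}

variable (A : ValuationSubring ℂ) (hA : A.valuation 3 < 1)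

theorem a1_U {r X : A} (hr : 4 * r ^ 3 = -1) {x : ℂ} (hx : x = (r : ℂ) + emb la * (X : ℂ)) :
    U1 x = 1 - 4 * emb la ^ 3 * ((a2_W (wA A) r X : A) : ℂ) ∧
      U2 x = 1 - 4 * w * emb la * ((a2_W (wA A) r X : A) : ℂ) := by
  have hL : emb la = 1 - w := CUL.emb_la
  have hL2 : emb la ^ 2 = -3 * w := by rw [hL]; linear_combination CUL.w2
  have hw3 : w ^ 3 = 1 := by linear_combination (w - 1) * CUL.w2
  have e1 := congrArg (fun y : A => (y : ℂ)) (a2_one_add (wA_sq A) hr X)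
  unfold a2_u at e1
  push_cast at e1
  have e4 : (1 : ℂ) - (wA A : ℂ) = emb la := by rw [CUL.emb_la]; rfl
  have e5 : ((wA A : A) : ℂ) = w := rfl
  have e6 : ((4 : A) : ℂ) = 4 := rfl
  rw [e4, e5, e6, ← hx] at e1
  generalize ((a2_W (wA A) r X : A) : ℂ) = W at e1 ⊢
  constructor
  · unfold U1
    linear_combination (-1 : ℂ) * e1 + w ^ 2 * hL2 - 3 * hw3
  · unfold U2
    linear_combination (1 / 3 : ℂ) * e1 + (1 / 3 : ℂ) * (-w ^ 2 + 4 * emb la * W) * hL2 + hw3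

end JX
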