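import Pool.Agent.JX.Defs

/-!
# [JX-A1b] the function `W`

`A` a valuation ring of `ℂ`, `v(3) < 1`, `L = emb la`. `W = a2_W w r X = X³ - w² r² X - w² r L X²` (JZ/LA2.lean), `a2_one_add`: `4 (1 + (r + L X)³) = L² (-w² + 4 L W)`; `3 = -w² L²` (JZ/LA2: in the proof of `a2_one_add`), `w³ = 1`.
`a1_U`: `U1 x = -4 x³ = 4 - 4 (1 + x³) = 1 - 4 L³ W`; `U2 x = (4/3)(1 + x³) = 1 - 4 w L W` (`L²/3 = -w`).
`a1_W`: `27 x'³ x⁶ = -(x³ + 1)³` gives `U1 x' · U1 x ^ 2 = U2 x ^ 3`. So with `W' := (16 W³ + 4 w L W² - 3 W + 4 L³ W²)/(1 - 4 L³ W)²` (in `A`: `v(1 - 4 L³ W) = 1`): `U1 x' = 1 - 4 L³ W'` [identity: `(1 - 4 L³ W)² - (1 - 4 w L W)³ = 4 L³ (16 W³ + 4 w L W² - 3 W + 4 L³ W²)`, from `3 = -w² L²`], `U2 x' = (4 - U1 x')/3 = 1 - 4 w L W'`.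
`W' - W³ - L W²`: `v(1/(1 - 4 L³ W)² - 1) ≤ v(L)³`, `16 = 1 + 15`, `4 w = 1 + 3 w - (1 - w)`, so modulo `L²` (valuation `v 3`): `W' ≡ 16 W³ + 4 w L W² - 3 W ≡ W³ + L W²`.
-/

set_option autoImplicit false

open NumberField IsDedekindDomain
open scoped Classical ComplexConjugate

namespace JX

open CM27 JZ JL
open CU (la eE)
open CUL (Nl ez si ta rh DS Cont LV IsRep rp cr mn zw OT GalU cu us FF W3)

variable {D : Eis}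

variable (A : ValuationSubring ℂ) (hA : A.valuation 3 < 1)

include hA in
theorem a1b_unit (W : A) : ∃ U : A, (1 - 4 * (1 - wA A) ^ 3 * W) * U = 1 := by
  have h1 : rsd A (1 - 4 * (1 - wA A) ^ 3 * W) ≠ 0 := by
    have hw := rsd_w A hA
    simp only [map_mul, map_sub, map_pow, map_ofNat, map_one, hw]
    norm_num
  have h2 : IsUnit (1 - 4 * (1 - wA A) ^ 3 * W) := by
    by_contra h
    exact h1 ((IsLocalRing.residue_eq_zero_iff _).2 ((IsLocalRing.mem_maximalIdeal _).2 h))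
  obtain ⟨u, hu⟩ := h2
  exact ⟨((u⁻¹ : Aˣ) : A), by rw [← hu, Units.mul_inv]⟩

include hA in
theorem a1_W {x x' : ℂ} {W : A} (h1 : U1 x = 1 - 4 * emb la ^ 3 * (W : ℂ)) (h2 : U2 x = 1 - 4 * w * emb la * (W : ℂ))
    (hr : 27 * x' ^ 3 * x ^ 6 = -(x ^ 3 + 1) ^ 3) :
    ∃ W' : A, U1 x' = 1 - 4 * emb la ^ 3 * (W' : ℂ) ∧ U2 x' = 1 - 4 * w * emb la * (W' : ℂ) ∧
      A.valuation ((W' : ℂ) - (W : ℂ) ^ 3 - emb la * (W : ℂ) ^ 2) ≤ A.valuation 3 := by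
  have hL : emb la = 1 - w := CUL.emb_la
  have hL2 : emb la ^ 2 = -3 * w := by rw [hL]; linear_combination CUL.w2
  have hw3 : w ^ 3 = 1 := by linear_combination (w - 1) * CUL.w2
  have h3 : (3 : ℂ) = -(w ^ 2 * emb la ^ 2) := by linear_combination w ^ 2 * hL2 - 3 * hw3
  obtain ⟨U, hU⟩ := a1b_unit A hA W
  have e4 : (1 : ℂ) - (wA A : ℂ) = emb la := by rw [CUL.emb_la]; rfl
  have e5 : ((wA A : A) : ℂ) = w := rfl
  have c3 : ((3 : A) : ℂ) = 3 := rfl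
  have c4 : ((4 : A) : ℂ) = 4 := rfl
  have c5 : ((5 : A) : ℂ) = 5 := rfl
  have c8 : ((8 : A) : ℂ) = 8 := rfl
  have c16 : ((16 : A) : ℂ) = 16 := rfl
  have c144 : ((144 : A) : ℂ) = 144 := rfl
  have hU' := congrArg (fun y : A => (y : ℂ)) hU
  push_cast at hU'
  rw [e4, c4] at hU'
  have hUU : (1 - 4 * emb la ^ 3 * (W : ℂ)) ^ 2 * (U : ℂ) ^ 2 = 1 := by
    rw [← mul_pow, hU', one_pow]
  have hkey : U1 x' * U1 x ^ 2 = U2 x ^ 3 := by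
    unfold U1 U2
    linear_combination (-64 / 27 : ℂ) * hr
  rw [h1, h2] at hkey
  have hsum : U1 x' + 3 * U2 x' = 4 := by
    unfold U1 U2
    ring
  have hW' : (((16 * W ^ 3 + 4 * wA A * (1 - wA A) * W ^ 2 - 3 * W + 4 * (1 - wA A) ^ 3 * W ^ 2) *
      U ^ 2 : A) : ℂ) = (16 * (W : ℂ) ^ 3 + 4 * w * emb la * (W : ℂ) ^ 2 - 3 * (W : ℂ) +
      4 * emb la ^ 3 * (W : ℂ) ^ 2) * (U : ℂ) ^ 2 := by
    push_cast
    rw [e4, e5, c3, c4, c16]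
  have hU1 : U1 x' = 1 - 4 * emb la ^ 3 * ((16 * (W : ℂ) ^ 3 + 4 * w * emb la * (W : ℂ) ^ 2 -
      3 * (W : ℂ) + 4 * emb la ^ 3 * (W : ℂ) ^ 2) * (U : ℂ) ^ 2) := by
    generalize emb la = L at *
    generalize (W : ℂ) = Y at *
    generalize (U : ℂ) = Z at *
    linear_combination (-U1 x') * hUU + Z ^ 2 * hkey + hUU +
      (-Z ^ 2 * (4 * w * L * Y - 16 * w ^ 2 * L ^ 2 * Y ^ 2)) * h3 -
      Z ^ 2 * (-4 * L ^ 3 * Y + 16 * w * L ^ 4 * Y ^ 2 + 64 * L ^ 3 * Y ^ 3) * hw3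
  refine ⟨(16 * W ^ 3 + 4 * wA A * (1 - wA A) * W ^ 2 - 3 * W + 4 * (1 - wA A) ^ 3 * W ^ 2) *
      U ^ 2, ?_, ?_, ?_⟩
  · rw [hW']
    exact hU1
  · rw [hW']
    linear_combination (1 / 3 : ℂ) * hsum - (1 / 3 : ℂ) * hU1 +
      (4 / 3 : ℂ) * emb la * ((16 * (W : ℂ) ^ 3 + 4 * w * emb la * (W : ℂ) ^ 2 - 3 * (W : ℂ) +
      4 * emb la ^ 3 * (W : ℂ) ^ 2) * (U : ℂ) ^ 2) * hL2
  · rw [hW']
    have hQ : (16 * (W : ℂ) ^ 3 + 4 * w * emb la * (W : ℂ) ^ 2 - 3 * (W : ℂ) +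
        4 * emb la ^ 3 * (W : ℂ) ^ 2) * (U : ℂ) ^ 2 - (W : ℂ) ^ 3 - emb la * (W : ℂ) ^ 2 =
        3 * (((5 * W ^ 3 + (wA A * (1 - wA A) + wA A) * W ^ 2 - W -
          4 * wA A * (1 - wA A) * W ^ 2 + (W ^ 3 + (1 - wA A) * W ^ 2) *
          (-8 * wA A * (1 - wA A) * W + 144 * W ^ 2)) * U ^ 2 : A) : ℂ) := by
      push_cast
      rw [e4, e5, c4, c5, c8, c144]
      generalize emb la = L at *
      generalize (W : ℂ) = Y at *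
      generalize (U : ℂ) = Z at *
      linear_combination (Y ^ 3 + L * Y ^ 2) * hUU + Z ^ 2 * (L * Y ^ 2 * hL - Y ^ 2 * hL2 +
        4 * L * Y ^ 2 * hL2 + (Y ^ 3 + L * Y ^ 2) * (8 * L * Y * hL2 -
        16 * Y ^ 2 * ((L ^ 4 - 3 * w * L ^ 2 + 9 * w ^ 2) * hL2 - 27 * hw3)))
    rw [hQ, map_mul]
    exact mul_le_of_le_one_right' (A.valuation_le_one _)

end JX
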