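import Pool.Agent.JX.Defs

/-!
# [JX-A2a] the expansion of the function `Gc`

`L = emb la = 1 - w`, residues: `w ↦ 1`, `L ↦ 0`, `3 ↦ 0`.
`coef`: for `q = w` or `w²`: `1 - q`, `1 + 2 q`, `2 + q` etc. are divisible by `L`: `1 - w = L`, `1 - w² = L (1 + w)`, `1 + 2 w = w L`, `1 + 2 w² = - w L`, `2 + w² = L`, `2 + w = L (1 + w)... ` (`(2 + w) = -w² L · ` something: `3 = -w² L²`, `(2 + w) L = 3`), `3 = -w² L²`. Table (`k`, `m`): sums `ca + cb + cg`: `(0,1): 1 - q`, `(0,2): q - q²`, `(1,1): 1 + 2 q²`, `(1,2): -1 - 2 q`, `(2,1): 1 - q - 3 q²`, `(2,2): 1 - q + 3 q²`; `2 ca + cb`: `-2 - q`, `2 q² + q`, `2 + q²`, `-2 - q`, `3`, `-3 q`. Residues: `σ₀ ≡ τ (-1)^k`, `σ₁ ≡ τ` for `k < 2`, `0` for `k = 2`, `α ≡ -(-1)^k μ`. (Choose `σ₀, σ₁` explicitly in each of the 12 cases as polynomials in `wA A`; `rsd_w`, `rsd_three`.)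
`a2_G`: `Gc = (α U2² + β U1 U2 + γ U1²)/(U1² U2')`, `U1 = 1 - 4 L³ W`, `U2 = 1 - 4 w L W`, `U2' = 1 - 4 w L W'`; `v(U1) = v(U2') = 1`. Numerator `= (α + β + γ) - 4 w L W (2 α + β) + 16 w² L² α W² + L³ (...)` `= L σ₀ + L² (-4 w σ₁ W + 16 w² α W²) + L³ (...)`; `1/(U1² U2') = 1 + 4 w L W' + L² (...)`. So `Gc = L σ₀ + L² H`, `H = -4 w σ₁ W + 16 w² α W² + 4 w σ₀ W' + L (...)`, residue `- σ₁ W + α W² + σ₀ W'` (`4 ≡ 16 ≡ 1`), `W' ≡ W³` by `hW`. (In Lean: put `V1 = 1/U1², V3 = 1/U2'` in `A`, `V1 = 1 + L³ (..)`, `V3 = 1 + 4 w L W' + L² (..)` with explicit elements of `A`.)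
-/

set_option autoImplicit false

open NumberField IsDedekindDomain
open scoped Classical ComplexConjugate

namespace JX

open CM27 JZ JL
open CU (la eE)
open CUL (Nl ez si ta rh DS Cont LV IsRep rp cr mn zw OT GalU cu us FF W3)

variable {D : Eis}

variable (A : ValuationSubring ℂ) (hA : A.valuation 3 < 1)

include hA in
theorem coef {q : ℂ} {τ μ : ℤ} {k m : ℕ} (hq : (q = w ∧ τ = 1) ∨ (q = w ^ 2 ∧ τ = -1)) (hk : k < 3)
    (hm : (m = 1 ∧ μ = 1) ∨ (m = 2 ∧ μ = -1)) :
    ∃ σ₀ σ₁ α : A, ca q k m = (α : ℂ) ∧ ca q k m + cb q k m + cg q k m = emb la * (σ₀ : ℂ) ∧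
      2 * ca q k m + cb q k m = emb la * (σ₁ : ℂ) ∧
      rsd A σ₀ = (τ : IsLocalRing.ResidueField A) * (-1) ^ k ∧
      rsd A σ₁ = (if k = 2 then 0 else (τ : IsLocalRing.ResidueField A)) ∧
      rsd A α = -((-1) ^ k * (μ : IsLocalRing.ResidueField A)) := by
  have h3 := rsd_three A hA
  have hw := rsd_w A hA
  have hwA : ((wA A : A) : ℂ) = w := rfl
  have w2 := CUL.w2
  have emb_la := CUL.emb_la
  have c2 : ((2 : A) : ℂ) = 2 := rfl
  have hk' : k = 0 ∨ k = 1 ∨ k = 2 := by omega
  rcases hq with ⟨rfl, rfl⟩ | ⟨rfl, rfl⟩ <;> rcases hk' with rfl | rfl | rfl <;>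
    rcases hm with ⟨rfl, rfl⟩ | ⟨rfl, rfl⟩
  -- tau = 1, k = 0, m = 1
  · refine ⟨((1 : ℤ) : A) + ((0 : ℤ) : A) * wA A, ((-1 : ℤ) : A) + ((-1 : ℤ) : A) * wA A,
      ((-1 : ℤ) : A) + ((0 : ℤ) : A) * wA A, ?_, ?_, ?_, ?_, ?_, ?_⟩
    · simp only [ca]
      push_cast
      rw [hwA]
      linear_combination (0) * w2
    · simp only [ca, cb, cg]
      push_cast
      try simp only [c2]
      rw [hwA, emb_la]
      linear_combination (0) * w2
    · simp only [ca, cb]
      push_cast
      try simp only [c2]
      rw [hwA, emb_la]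
      linear_combination ((-1)) * w2
    · simp only [map_add, map_mul, map_intCast, hw]
      push_cast
      linear_combination (0) * h3
    · simp only [map_add, map_mul, map_intCast, hw]
      push_cast
      norm_num
      try linear_combination (-1) * h3
    · simp only [map_add, map_mul, map_intCast, hw]
      push_cast
      linear_combination (0) * h3
  -- tau = 1, k = 0, m = 2
  · refine ⟨((0 : ℤ) : A) + ((1 : ℤ) : A) * wA A, ((-1 : ℤ) : A) + ((-1 : ℤ) : A) * wA A,
      ((-1 : ℤ) : A) + ((-1 : ℤ) : A) * wA A, ?_, ?_, ?_, ?_, ?_, ?_⟩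
    · simp only [ca]
      push_cast
      rw [hwA]
      linear_combination ((1)) * w2
    · simp only [ca, cb, cg]
      push_cast
      try simp only [c2]
      rw [hwA, emb_la]
      linear_combination (0) * w2
    · simp only [ca, cb]
      push_cast
      try simp only [c2]
      rw [hwA, emb_la]
      linear_combination ((1)) * w2
    · simp only [map_add, map_mul, map_intCast, hw]
      push_cast
      linear_combination (0) * h3
    · simp only [map_add, map_mul, map_intCast, hw]
      push_cast
      norm_num
      try linear_combination (-1) * h3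
    · simp only [map_add, map_mul, map_intCast, hw]
      push_cast
      linear_combination (-1) * h3
  -- tau = 1, k = 1, m = 1
  · refine ⟨((0 : ℤ) : A) + ((-1 : ℤ) : A) * wA A, ((1 : ℤ) : A) + ((0 : ℤ) : A) * wA A,
      ((1 : ℤ) : A) + ((0 : ℤ) : A) * wA A, ?_, ?_, ?_, ?_, ?_, ?_⟩
    · simp only [ca]
      push_cast
      rw [hwA]
      linear_combination (0) * w2
    · simp only [ca, cb, cg]
      push_cast
      try simp only [c2]
      rw [hwA, emb_la]
      linear_combination ((1)) * w2
    · simp only [ca, cb]
      push_cast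
      try simp only [c2]
      rw [hwA, emb_la]
      linear_combination ((1)) * w2
    · simp only [map_add, map_mul, map_intCast, hw]
      push_cast
      linear_combination (0) * h3
    · simp only [map_add, map_mul, map_intCast, hw]
      push_cast
      norm_num
      try linear_combination (0) * h3
    · simp only [map_add, map_mul, map_intCast, hw]
      push_cast
      linear_combination (0) * h3
  -- tau = 1, k = 1, m = 2
  · refine ⟨((0 : ℤ) : A) + ((-1 : ℤ) : A) * wA A, ((-1 : ℤ) : A) + ((-1 : ℤ) : A) * wA A,
      ((-1 : ℤ) : A) + ((0 : ℤ) : A) * wA A, ?_, ?_, ?_, ?_, ?_, ?_⟩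
    · simp only [ca]
      push_cast
      rw [hwA]
      linear_combination (0) * w2
    · simp only [ca, cb, cg]
      push_cast
      try simp only [c2]
      rw [hwA, emb_la]
      linear_combination ((-1)) * w2
    · simp only [ca, cb]
      push_cast
      try simp only [c2]
      rw [hwA, emb_la]
      linear_combination ((-1)) * w2
    · simp only [map_add, map_mul, map_intCast, hw]
      push_cast
      linear_combination (0) * h3
    · simp only [map_add, map_mul, map_intCast, hw]
      push_cast
      norm_num
      try linear_combination (-1) * h3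
    · simp only [map_add, map_mul, map_intCast, hw]
      push_cast
      linear_combination (0) * h3
  -- tau = 1, k = 2, m = 1
  · refine ⟨((2 : ℤ) : A) + ((2 : ℤ) : A) * wA A, ((2 : ℤ) : A) + ((1 : ℤ) : A) * wA A,
      ((0 : ℤ) : A) + ((-1 : ℤ) : A) * wA A, ?_, ?_, ?_, ?_, ?_, ?_⟩
    · simp only [ca]
      push_cast
      rw [hwA]
      linear_combination (0) * w2
    · simp only [ca, cb, cg]
      push_cast
      try simp only [c2]
      rw [hwA, emb_la]
      linear_combination ((-1)) * w2
    · simp only [ca, cb]
      push_cast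
      try simp only [c2]
      rw [hwA, emb_la]
      linear_combination ((-1)) * w2
    · simp only [map_add, map_mul, map_intCast, hw]
      push_cast
      linear_combination (1) * h3
    · simp only [map_add, map_mul, map_intCast, hw]
      push_cast
      norm_num
      try linear_combination (1) * h3
    · simp only [map_add, map_mul, map_intCast, hw]
      push_cast
      linear_combination (0) * h3
  -- tau = 1, k = 2, m = 2
  · refine ⟨((0 : ℤ) : A) + ((-2 : ℤ) : A) * wA A, ((1 : ℤ) : A) + ((-1 : ℤ) : A) * wA A,
      ((1 : ℤ) : A) + ((0 : ℤ) : A) * wA A, ?_, ?_, ?_, ?_, ?_, ?_⟩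
    · simp only [ca]
      push_cast
      rw [hwA]
      linear_combination (0) * w2
    · simp only [ca, cb, cg]
      push_cast
      try simp only [c2]
      rw [hwA, emb_la]
      linear_combination ((1)) * w2
    · simp only [ca, cb]
      push_cast
      try simp only [c2]
      rw [hwA, emb_la]
      linear_combination ((1)) * w2
    · simp only [map_add, map_mul, map_intCast, hw]
      push_cast
      linear_combination (-1) * h3
    · simp only [map_add, map_mul, map_intCast, hw]
      push_cast
      norm_num
      try linear_combination (0) * h3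
    · simp only [map_add, map_mul, map_intCast, hw]
      push_cast
      linear_combination (0) * h3
  -- tau = -1, k = 0, m = 1
  · refine ⟨((1 : ℤ) : A) + ((1 : ℤ) : A) * wA A, ((-1 : ℤ) : A) + ((0 : ℤ) : A) * wA A,
      ((-1 : ℤ) : A) + ((0 : ℤ) : A) * wA A, ?_, ?_, ?_, ?_, ?_, ?_⟩
    · simp only [ca]
      push_cast
      rw [hwA]
      linear_combination (0) * w2
    · simp only [ca, cb, cg]
      push_cast
      try simp only [c2]
      rw [hwA, emb_la]
      linear_combination (0) * w2
    · simp only [ca, cb]
      push_cast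
      try simp only [c2]
      rw [hwA, emb_la]
      linear_combination ((-1)) * w2
    · simp only [map_add, map_mul, map_intCast, hw]
      push_cast
      linear_combination (1) * h3
    · simp only [map_add, map_mul, map_intCast, hw]
      push_cast
      norm_num
      try linear_combination (0) * h3
    · simp only [map_add, map_mul, map_intCast, hw]
      push_cast
      linear_combination (0) * h3
  -- tau = -1, k = 0, m = 2
  · refine ⟨((0 : ℤ) : A) + ((-1 : ℤ) : A) * wA A, ((-1 : ℤ) : A) + ((0 : ℤ) : A) * wA A,
      ((0 : ℤ) : A) + ((1 : ℤ) : A) * wA A, ?_, ?_, ?_, ?_, ?_, ?_⟩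
    · simp only [ca]
      push_cast
      rw [hwA]
      linear_combination ((-1) * w + (1) * w ^ 2) * w2
    · simp only [ca, cb, cg]
      push_cast
      try simp only [c2]
      rw [hwA, emb_la]
      linear_combination ((1) * w + (-1) * w ^ 2) * w2
    · simp only [ca, cb]
      push_cast
      try simp only [c2]
      rw [hwA, emb_la]
      linear_combination ((1) + (-2) * w + (2) * w ^ 2) * w2
    · simp only [map_add, map_mul, map_intCast, hw]
      push_cast
      linear_combination (0) * h3
    · simp only [map_add, map_mul, map_intCast, hw]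
      push_cast
      norm_num
      try linear_combination (0) * h3
    · simp only [map_add, map_mul, map_intCast, hw]
      push_cast
      linear_combination (0) * h3
  -- tau = -1, k = 1, m = 1
  · refine ⟨((0 : ℤ) : A) + ((1 : ℤ) : A) * wA A, ((1 : ℤ) : A) + ((1 : ℤ) : A) * wA A,
      ((1 : ℤ) : A) + ((0 : ℤ) : A) * wA A, ?_, ?_, ?_, ?_, ?_, ?_⟩
    · simp only [ca]
      push_cast
      rw [hwA]
      linear_combination (0) * w2
    · simp only [ca, cb, cg]
      push_cast
      try simp only [c2]
      rw [hwA, emb_la]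
      linear_combination ((1) + (-2) * w + (2) * w ^ 2) * w2
    · simp only [ca, cb]
      push_cast
      try simp only [c2]
      rw [hwA, emb_la]
      linear_combination ((1) + (-1) * w + (1) * w ^ 2) * w2
    · simp only [map_add, map_mul, map_intCast, hw]
      push_cast
      linear_combination (0) * h3
    · simp only [map_add, map_mul, map_intCast, hw]
      push_cast
      norm_num
      try linear_combination (1) * h3
    · simp only [map_add, map_mul, map_intCast, hw]
      push_cast
      linear_combination (0) * h3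
  -- tau = -1, k = 1, m = 2
  · refine ⟨((0 : ℤ) : A) + ((1 : ℤ) : A) * wA A, ((-1 : ℤ) : A) + ((0 : ℤ) : A) * wA A,
      ((-1 : ℤ) : A) + ((0 : ℤ) : A) * wA A, ?_, ?_, ?_, ?_, ?_, ?_⟩
    · simp only [ca]
      push_cast
      rw [hwA]
      linear_combination (0) * w2
    · simp only [ca, cb, cg]
      push_cast
      try simp only [c2]
      rw [hwA, emb_la]
      linear_combination ((-1)) * w2
    · simp only [ca, cb]
      push_cast
      try simp only [c2]
      rw [hwA, emb_la]
      linear_combination ((-1)) * w2
    · simp only [map_add, map_mul, map_intCast, hw]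
      push_cast
      linear_combination (0) * h3
    · simp only [map_add, map_mul, map_intCast, hw]
      push_cast
      norm_num
      try linear_combination (0) * h3
    · simp only [map_add, map_mul, map_intCast, hw]
      push_cast
      linear_combination (0) * h3
  -- tau = -1, k = 2, m = 1
  · refine ⟨((2 : ℤ) : A) + ((0 : ℤ) : A) * wA A, ((2 : ℤ) : A) + ((1 : ℤ) : A) * wA A,
      ((1 : ℤ) : A) + ((1 : ℤ) : A) * wA A, ?_, ?_, ?_, ?_, ?_, ?_⟩
    · simp only [ca]
      push_cast
      rw [hwA]
      linear_combination ((-1)) * w2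
    · simp only [ca, cb, cg]
      push_cast
      try simp only [c2]
      rw [hwA, emb_la]
      linear_combination ((-1) + (3) * w + (-3) * w ^ 2) * w2
    · simp only [ca, cb]
      push_cast
      try simp only [c2]
      rw [hwA, emb_la]
      linear_combination ((-1) + (2) * w + (-2) * w ^ 2) * w2
    · simp only [map_add, map_mul, map_intCast, hw]
      push_cast
      linear_combination (1) * h3
    · simp only [map_add, map_mul, map_intCast, hw]
      push_cast
      norm_num
      try linear_combination (1) * h3
    · simp only [map_add, map_mul, map_intCast, hw]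
      push_cast
      linear_combination (1) * h3
  -- tau = -1, k = 2, m = 2
  · refine ⟨((0 : ℤ) : A) + ((2 : ℤ) : A) * wA A, ((1 : ℤ) : A) + ((2 : ℤ) : A) * wA A,
      ((1 : ℤ) : A) + ((0 : ℤ) : A) * wA A, ?_, ?_, ?_, ?_, ?_, ?_⟩
    · simp only [ca]
      push_cast
      rw [hwA]
      linear_combination (0) * w2
    · simp only [ca, cb, cg]
      push_cast
      try simp only [c2]
      rw [hwA, emb_la]
      linear_combination ((1) + (-3) * w + (3) * w ^ 2) * w2
    · simp only [ca, cb]
      push_cast
      try simp only [c2]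
      rw [hwA, emb_la]
      linear_combination ((1) + (-2) * w + (2) * w ^ 2) * w2
    · simp only [map_add, map_mul, map_intCast, hw]
      push_cast
      linear_combination (1) * h3
    · simp only [map_add, map_mul, map_intCast, hw]
      push_cast
      norm_num
      try linear_combination (1) * h3
    · simp only [map_add, map_mul, map_intCast, hw]
      push_cast
      linear_combination (0) * h3

end JX
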