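import Pool.Agent.JX.Defs

/-!
# [JX-A2b] the expansion of the function `Gc`

`L = emb la = 1 - w`, residues: `w ↦ 1`, `L ↦ 0`, `3 ↦ 0`.
`coef`: for `q = w` or `w²`: `1 - q`, `1 + 2 q`, `2 + q` etc. are divisible by `L`: `1 - w = L`, `1 - w² = L (1 + w)`, `1 + 2 w = w L`, `1 + 2 w² = - w L`, `2 + w² = L`, `2 + w = L (1 + w)... ` (`(2 + w) = -w² L · ` something: `3 = -w² L²`, `(2 + w) L = 3`), `3 = -w² L²`. Table (`k`, `m`): sums `ca + cb + cg`: `(0,1): 1 - q`, `(0,2): q - q²`, `(1,1): 1 + 2 q²`, `(1,2): -1 - 2 q`, `(2,1): 1 - q - 3 q²`, `(2,2): 1 - q + 3 q²`; `2 ca + cb`: `-2 - q`, `2 q² + q`, `2 + q²`, `-2 - q`, `3`, `-3 q`. Residues: `σ₀ ≡ τ (-1)^k`, `σ₁ ≡ τ` for `k < 2`, `0` for `k = 2`, `α ≡ -(-1)^k μ`. (Choose `σ₀, σ₁` explicitly in each of the 12 cases as polynomials in `wA A`; `rsd_w`, `rsd_three`.)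
`a2_G`: `Gc = (α U2² + β U1 U2 + γ U1²)/(U1² U2')`, `U1 = 1 - 4 L³ W`, `U2 = 1 - 4 w L W`, `U2' = 1 - 4 w L W'`; `v(U1) = v(U2') = 1`. Numerator `= (α + β + γ) - 4 w L W (2 α + β) + 16 w² L² α W² + L³ (...)` `= L σ₀ + L² (-4 w σ₁ W + 16 w² α W²) + L³ (...)`; `1/(U1² U2') = 1 + 4 w L W' + L² (...)`. So `Gc = L σ₀ + L² H`, `H = -4 w σ₁ W + 16 w² α W² + 4 w σ₀ W' + L (...)`, residue `- σ₁ W + α W² + σ₀ W'` (`4 ≡ 16 ≡ 1`), `W' ≡ W³` by `hW`. (In Lean: put `V1 = 1/U1², V3 = 1/U2'` in `A`, `V1 = 1 + L³ (..)`, `V3 = 1 + 4 w L W' + L² (..)` with explicit elements of `A`.)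
-/

set_option autoImplicit false

open NumberField IsDedekindDomain
open scoped Classical ComplexConjugate

namespace JX

open CM27 JZ JL
open CU (la eE)
open CUL (Nl ez si ta rh DS Cont LV IsRep rp cr mn zw OT GalU cu us FF W3)

variable {D : Eis}

variable (A : ValuationSubring ℂ) (hA : A.valuation 3 < 1)

include hA in
theorem a2_G {x x' : ℂ} {W W' σ₀ σ₁ α : A} (h1 : U1 x = 1 - 4 * emb la ^ 3 * (W : ℂ))
    (h2 : U2 x = 1 - 4 * w * emb la * (W : ℂ)) (h3 : U2 x' = 1 - 4 * w * emb la * (W' : ℂ))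
    (hW : A.valuation ((W' : ℂ) - (W : ℂ) ^ 3 - emb la * (W : ℂ) ^ 2) ≤ A.valuation 3) {q : ℂ} {k m : ℕ}
    (ha : ca q k m = (α : ℂ)) (h0 : ca q k m + cb q k m + cg q k m = emb la * (σ₀ : ℂ))
    (hs : 2 * ca q k m + cb q k m = emb la * (σ₁ : ℂ)) :
    ∃ H : A, Gc q k m x x' = emb la * (σ₀ : ℂ) + emb la ^ 2 * (H : ℂ) ∧
      rsd A H = -(rsd A σ₁ * rsd A W) + rsd A α * rsd A W ^ 2 + rsd A σ₀ * rsd A W ^ 3 := by
  have r3 := rsd_three A hA
  have rw1 := rsd_w A hA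
  have hwA : ((wA A : A) : ℂ) = w := rfl
  -- the elements of `A`
  set l : A := 1 - wA A with hl
  have hlc : ((l : A) : ℂ) = emb la := coe_la A
  have hlr : rsd A l = 0 := by
    rw [hl, map_sub, map_one, rw1, sub_self]
  set u1 : A := 1 - 4 * l ^ 3 * W with hu1
  set u2 : A := 1 - 4 * wA A * l * W' with hu2
  have hu1r : rsd A u1 = 1 := by
    rw [hu1]
    simp only [map_sub, map_mul, map_pow, map_one, hlr]
    ring
  have hu2r : rsd A u2 = 1 := by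
    rw [hu2]
    simp only [map_sub, map_mul, map_one, hlr]
    ring
  have hu1c : ((u1 : A) : ℂ) = 1 - 4 * emb la ^ 3 * (W : ℂ) := by
    rw [hu1, ← hlc]
    push_cast
    rfl
  have hu2c : ((u2 : A) : ℂ) = 1 - 4 * w * emb la * (W' : ℂ) := by
    rw [hu2, ← hlc, ← hwA]
    push_cast
    rfl
  have hprod : rsd A (u1 ^ 2 * u2) = 1 := by
    rw [map_mul, map_pow, hu1r, hu2r, one_pow, one_mul]
  have hunit : IsUnit (u1 ^ 2 * u2) := by
    by_contra h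
    have h4 := (IsLocalRing.residue_eq_zero_iff _).2 ((IsLocalRing.mem_maximalIdeal _).2 h)
    have h5 : rsd A (u1 ^ 2 * u2) = 0 := h4
    rw [hprod] at h5
    exact one_ne_zero h5
  obtain ⟨v, hv⟩ := hunit
  set V : A := ((v⁻¹ : Aˣ) : A) with hV
  have hVu : V * (u1 ^ 2 * u2) = 1 := by
    rw [← hv, hV, Units.inv_mul]
  have hVr : rsd A V = 1 := by
    have h4 := congrArg (rsd A) hVu
    rw [map_mul, hprod, mul_one, map_one] at h4
    exact h4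
  have hVc : (V : ℂ) * ((1 - 4 * emb la ^ 3 * (W : ℂ)) ^ 2 * (1 - 4 * w * emb la * (W' : ℂ))) = 1 := by
    rw [← hu1c, ← hu2c]
    have h4 := congrArg (fun y : A => (y : ℂ)) hVu
    push_cast at h4
    exact h4
  have hWr : rsd A W' = rsd A W ^ 3 := by
    have h4 : rsd A W' = rsd A (W ^ 3 + l * W ^ 2) := by
      rw [rsd_eq]
      refine lt_of_le_of_lt ?_ hA
      refine le_trans (le_of_eq ?_) hW
      congr 1
      push_cast
      rw [hlc]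
      ring
    rw [h4, map_add, map_mul, hlr, zero_mul, add_zero, map_pow]
  refine ⟨V * (16 * α * W ^ 2 * (wA A - l ^ 2) ^ 2 - 4 * σ₁ * u1 * W * (wA A - l ^ 2) +
    4 * σ₀ * wA A * W' * u1 ^ 2), ?_, ?_⟩
  · unfold Gc
    rw [h1, h2, h3]
    have hden : (1 - 4 * emb la ^ 3 * (W : ℂ)) ^ 2 * (1 - 4 * w * emb la * (W' : ℂ)) ≠ 0 := by
      intro h
      rw [h, mul_zero] at hVc
      exact zero_ne_one hVc
    rw [div_eq_iff hden]
    have hH : ((V * (16 * α * W ^ 2 * (wA A - l ^ 2) ^ 2 - 4 * σ₁ * u1 * W * (wA A - l ^ 2) +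
        4 * σ₀ * wA A * W' * u1 ^ 2) : A) : ℂ) =
        (V : ℂ) * (16 * (α : ℂ) * (W : ℂ) ^ 2 * (w - emb la ^ 2) ^ 2 -
          4 * (σ₁ : ℂ) * (1 - 4 * emb la ^ 3 * (W : ℂ)) * (W : ℂ) * (w - emb la ^ 2) +
          4 * (σ₀ : ℂ) * w * (W' : ℂ) * (1 - 4 * emb la ^ 3 * (W : ℂ)) ^ 2) := by
      rw [← hu1c, ← hlc, ← hwA]
      push_cast
      rfl
    rw [hH]
    generalize ca q k m = a at *
    generalize cb q k m = b at *
    generalize cg q k m = g at *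
    generalize emb la = L at *
    generalize (w : ℂ) = z at *
    generalize (V : ℂ) = V' at *
    generalize (W : ℂ) = X at *
    generalize (W' : ℂ) = X' at *
    generalize (σ₀ : ℂ) = s0 at *
    generalize (σ₁ : ℂ) = s1 at *
    generalize (α : ℂ) = al at *
    linear_combination ((1 - 4 * z * L * X) ^ 2 - 2 * (1 - 4 * L ^ 3 * X) * (1 - 4 * z * L * X) +
      (1 - 4 * L ^ 3 * X) ^ 2) * ha + ((1 - 4 * L ^ 3 * X) * (1 - 4 * z * L * X) -
      (1 - 4 * L ^ 3 * X) ^ 2) * hs + (1 - 4 * L ^ 3 * X) ^ 2 * h0 -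
      L ^ 2 * (16 * al * X ^ 2 * (z - L ^ 2) ^ 2 - 4 * s1 * (1 - 4 * L ^ 3 * X) * X * (z - L ^ 2) +
        4 * s0 * z * X' * (1 - 4 * L ^ 3 * X) ^ 2) * hVc
  · simp only [map_mul, map_sub, map_add, map_pow, map_ofNat, hVr, rw1, hlr, hu1r, hWr]
    linear_combination (5 * rsd A α * rsd A W ^ 2 - rsd A σ₁ * rsd A W +
      rsd A σ₀ * rsd A W ^ 3) * r3


end JX
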