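import Pool.Agent.JX.Defs

/-!
# [JX-A3] the sum

`x c = r + L X c`, `Gc(c) = L σ₀ + L² H_c` (`a2_G`), `∑ ψ = 0`, `ψ ≡ n mod 𝔪`, and `ψ = n` if `k ≠ 0`. `rsd r = -1` (`a1_r_one` in JZ/LA1.lean).
`∑ ψ x^k Gc = L σ₀ ∑ ψ x^k + L² ∑ ψ x^k H`. `k = 0`: the first sum is `0`. `k = 1`: `∑ n x = r ∑ n + L ∑ n X = L ∑ n X`. `k = 2`: `∑ n x² = 2 r L ∑ n X + L² ∑ n X²`. So `= L² t`, `t = ∑ ψ x^k H + {0, σ₀ ∑ n X, 2 r σ₀ ∑ n X + L σ₀ ∑ n X²}`, residue: `2 r ≡ -2 ≡ 1`, `x ≡ -1`.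
`∑ n (- σ₁ W + α W² + σ₀ W³)`, and `∑ n W³ = (∑ n W)³` in the residue field (characteristic 3: `rsd_char`, `sum_pow_char`, `n³ = n`; see the proof of `a2_T` in JZ/LA2.lean).
-/

set_option autoImplicit false

open NumberField IsDedekindDomain
open scoped Classical ComplexConjugate

namespace JX

open CM27 JZ JL
open CU (la eE)
open CUL (Nl ez si ta rh DS Cont LV IsRep rp cr mn zw OT GalU cu us FF W3)

variable {D : Eis}

variable (A : ValuationSubring ℂ) (hA : A.valuation 3 < 1)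

/-- the linear part -/
def a3_E {O : Type*} [CommRing O] (L r s0 S1 S2 : O) : ℕ → O
  | 0 => 0
  | 1 => s0 * S1
  | 2 => 2 * r * s0 * S1 + L * s0 * S2
  | _ => 0

theorem a3_lin {O : Type*} [CommRing O] {L r s0 : O} {ι : Type*} (s : Finset ι) (X ψ : ι → O) (n : ι → ℤ)
    (hn0 : ∑ c ∈ s, n c = 0) (hψ : ∑ c ∈ s, ψ c = 0) {k : ℕ} (hk : k < 3)
    (hψk : k ≠ 0 → ∀ c ∈ s, ψ c = (n c : O)) :
    L * s0 * ∑ c ∈ s, ψ c * (r + L * X c) ^ k =
      L ^ 2 * a3_E L r s0 (∑ c ∈ s, (n c : O) * X c) (∑ c ∈ s, (n c : O) * X c ^ 2) k := by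
  have hn0' : ∑ c ∈ s, (n c : O) = 0 := by
    rw [← Int.cast_sum, hn0, Int.cast_zero]
  interval_cases k
  · simp only [a3_E, pow_zero, mul_one, hψ, mul_zero]
  · have h1 : ∑ c ∈ s, ψ c * (r + L * X c) ^ 1 = ∑ c ∈ s, ((n c : O) * r + L * ((n c : O) * X c)) := by
      refine Finset.sum_congr rfl fun c hc => ?_
      rw [hψk (by norm_num) c hc]
      ring
    rw [h1, Finset.sum_add_distrib, ← Finset.sum_mul, ← Finset.mul_sum, hn0']
    simp only [a3_E]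
    ring
  · have h1 : ∑ c ∈ s, ψ c * (r + L * X c) ^ 2 =
        ∑ c ∈ s, ((n c : O) * r ^ 2 + (2 * r * L * ((n c : O) * X c) + L ^ 2 * ((n c : O) * X c ^ 2))) := by
      refine Finset.sum_congr rfl fun c hc => ?_
      rw [hψk (by norm_num) c hc]
      ring
    rw [h1, Finset.sum_add_distrib, Finset.sum_add_distrib, ← Finset.sum_mul, ← Finset.mul_sum,
      ← Finset.mul_sum, hn0']
    simp only [a3_E]
    ring

include hA in
theorem a3_T {r : A} (hr : 4 * r ^ 3 = -1) {ι : Type*} (s : Finset ι) (X W ψ : ι → A) (n : ι → ℤ)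
    (x x' : ι → ℂ) (hx : ∀ c ∈ s, x c = (r : ℂ) + emb la * (X c : ℂ)) (hn : ∀ c ∈ s, n c = 1 ∨ n c = -1)
    (hn0 : ∑ c ∈ s, n c = 0) (hψ : ∑ c ∈ s, ψ c = 0)
    (hψn : ∀ c ∈ s, rsd A (ψ c) = (n c : IsLocalRing.ResidueField A)) {q : ℂ} {k m : ℕ} (hk : k < 3)
    (hψk : k ≠ 0 → ∀ c ∈ s, ψ c = (n c : A)) {σ₀ σ₁ α : A}
    (hG : ∀ c ∈ s, ∃ H : A, Gc q k m (x c) (x' c) = emb la * (σ₀ : ℂ) + emb la ^ 2 * (H : ℂ) ∧
      rsd A H = -(rsd A σ₁ * rsd A (W c)) + rsd A α * rsd A (W c) ^ 2 + rsd A σ₀ * rsd A (W c) ^ 3) :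
    ∃ t : A, ∑ c ∈ s, (ψ c : ℂ) * (x c ^ k * Gc q k m (x c) (x' c)) = emb la ^ 2 * (t : ℂ) ∧
      rsd A t = (if k = 0 then 0 else rsd A σ₀ * rsd A (∑ c ∈ s, (n c : A) * X c)) +
        (-1) ^ k * (-(rsd A σ₁ * rsd A (∑ c ∈ s, (n c : A) * W c)) +
          rsd A α * rsd A (∑ c ∈ s, (n c : A) * W c ^ 2) + rsd A σ₀ * rsd A (∑ c ∈ s, (n c : A) * W c) ^ 3) := by
  have hr1 : rsd A r = -1 := by
    have e : rsd A r = rsd A (-1) := by
      rw [rsd_eq]
      have h4 : 4 * (r : ℂ) ^ 3 = -1 := by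
        have := congrArg (fun y : A => (y : ℂ)) hr
        push_cast at this
        exact this
      have := a1_r_one A hA h4
      push_cast
      rwa [sub_neg_eq_add]
    rw [e, map_neg, map_one]
  have h3 := rsd_three A hA
  have hw := rsd_w A hA
  have hchar := rsd_char A hA
  have hfact : Fact (Nat.Prime 3) := ⟨Nat.prime_three⟩
  have hexp : ExpChar (IsLocalRing.ResidueField A) 3 := ExpChar.prime Nat.prime_three
  have hL := coe_la A
  have hLr : rsd A (1 - wA A) = 0 := by rw [map_sub, map_one, hw, sub_self]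
  have hG1 : ∀ c, ∃ H : A, c ∈ s → (Gc q k m (x c) (x' c) = emb la * (σ₀ : ℂ) + emb la ^ 2 * (H : ℂ) ∧
      rsd A H = -(rsd A σ₁ * rsd A (W c)) + rsd A α * rsd A (W c) ^ 2 + rsd A σ₀ * rsd A (W c) ^ 3) := by
    intro c
    by_cases hc : c ∈ s
    · obtain ⟨H, h⟩ := hG c hc
      exact ⟨H, fun _ => h⟩
    · exact ⟨0, fun h => absurd h hc⟩
  choose H hH using hG1
  refine ⟨∑ c ∈ s, ψ c * (r + (1 - wA A) * X c) ^ k * H c +
    a3_E (1 - wA A) r σ₀ (∑ c ∈ s, (n c : A) * X c) (∑ c ∈ s, (n c : A) * X c ^ 2) k, ?_, ?_⟩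
  · have h1 : ∑ c ∈ s, (ψ c : ℂ) * (x c ^ k * Gc q k m (x c) (x' c)) =
        (((1 - wA A) * σ₀ * ∑ c ∈ s, ψ c * (r + (1 - wA A) * X c) ^ k +
          (1 - wA A) ^ 2 * ∑ c ∈ s, ψ c * (r + (1 - wA A) * X c) ^ k * H c : A) : ℂ) := by
      have h2 : (1 - wA A) * σ₀ * ∑ c ∈ s, ψ c * (r + (1 - wA A) * X c) ^ k +
          (1 - wA A) ^ 2 * ∑ c ∈ s, ψ c * (r + (1 - wA A) * X c) ^ k * H c =
          ∑ c ∈ s, ψ c * ((r + (1 - wA A) * X c) ^ k * ((1 - wA A) * σ₀ + (1 - wA A) ^ 2 * H c)) := by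
        rw [Finset.mul_sum, Finset.mul_sum, ← Finset.sum_add_distrib]
        refine Finset.sum_congr rfl fun c _ => ?_
        ring
      rw [h2, AddSubmonoidClass.coe_finsetSum]
      refine Finset.sum_congr rfl fun c hc => ?_
      rw [(hH c hc).1, hx c hc]
      have hL2 : (1 : ℂ) - ((wA A : A) : ℂ) = emb la := by
        rw [← hL]
        push_cast
        rfl
      push_cast
      rw [hL2]
    rw [h1, a3_lin s X ψ n hn0 hψ hk hψk, ← mul_add, MulMemClass.coe_mul, SubmonoidClass.coe_pow, hL,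
      add_comm]
  · have hE : rsd A (a3_E (1 - wA A) r σ₀ (∑ c ∈ s, (n c : A) * X c) (∑ c ∈ s, (n c : A) * X c ^ 2) k) =
        if k = 0 then 0 else rsd A σ₀ * rsd A (∑ c ∈ s, (n c : A) * X c) := by
      interval_cases k
      · simp only [a3_E, map_zero, if_true]
      · simp only [a3_E]
        rw [if_neg one_ne_zero, map_mul]
      · simp only [a3_E]
        rw [if_neg two_ne_zero, map_add, map_mul, map_mul, map_mul, map_mul, map_mul, hLr, hr1, map_ofNat]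
        linear_combination (-(rsd A σ₀ * rsd A (∑ c ∈ s, (n c : A) * X c))) * h3
    have hn3 : ∀ c ∈ s, (n c : IsLocalRing.ResidueField A) * rsd A (W c) ^ 3 =
        ((n c : IsLocalRing.ResidueField A) * rsd A (W c)) ^ 3 := by
      intro c hc
      rcases hn c hc with h | h
      · rw [h, Int.cast_one, one_mul, one_mul]
      · rw [h, Int.cast_neg, Int.cast_one]
        ring
    have hS1 : rsd A (∑ c ∈ s, (n c : A) * W c) =
        ∑ c ∈ s, (n c : IsLocalRing.ResidueField A) * rsd A (W c) := by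
      rw [map_sum]
      refine Finset.sum_congr rfl fun c _ => ?_
      rw [map_mul, map_intCast]
    have hS2 : rsd A (∑ c ∈ s, (n c : A) * W c ^ 2) =
        ∑ c ∈ s, (n c : IsLocalRing.ResidueField A) * rsd A (W c) ^ 2 := by
      rw [map_sum]
      refine Finset.sum_congr rfl fun c _ => ?_
      rw [map_mul, map_intCast, map_pow]
    have hS3 : rsd A (∑ c ∈ s, (n c : A) * W c) ^ 3 =
        ∑ c ∈ s, (n c : IsLocalRing.ResidueField A) * rsd A (W c) ^ 3 := by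
      rw [hS1, sum_pow_char 3]
      exact Finset.sum_congr rfl fun c hc => (hn3 c hc).symm
    have hM : rsd A (∑ c ∈ s, ψ c * (r + (1 - wA A) * X c) ^ k * H c) =
        (-1) ^ k * (-(rsd A σ₁ * rsd A (∑ c ∈ s, (n c : A) * W c)) +
          rsd A α * rsd A (∑ c ∈ s, (n c : A) * W c ^ 2) + rsd A σ₀ * rsd A (∑ c ∈ s, (n c : A) * W c) ^ 3) := by
      rw [hS3, hS2, hS1, map_sum, Finset.mul_sum, Finset.mul_sum, Finset.mul_sum, ← Finset.sum_neg_distrib,
        ← Finset.sum_add_distrib, ← Finset.sum_add_distrib, Finset.mul_sum]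
      refine Finset.sum_congr rfl fun c hc => ?_
      have e1 : rsd A (r + (1 - wA A) * X c) = -1 := by
        rw [map_add, map_mul, hLr, hr1, zero_mul, add_zero]
      rw [map_mul, map_mul, map_pow, hψn c hc, e1, (hH c hc).2]
      ring
    rw [map_add, hM, hE, add_comm]

end JX
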