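import Pool.Agent.JX.A4a

/-!
# [JX-A5a] the elements `w₁, w₂` in terms of the unit `e' = u₁ + u₂ s`

`L = emb la`, `L B = 1 - e'`, `e' = u₁ + u₂ s`, `s² = emb D`, `u₁² - u₂² emb D = 1`, `3 = -w² L²`, `D ≡ η mod 3`; `O(x)` = valuation `≤ v(x)`. `β = u₂/L`.
(1) `v(β) ≤ 1`, `v(s) = 1`, `v(e') = 1`: see the proof of `a4_B` in JZ/LA4.lean (`2 u₁ = e' + e'⁻¹`, so `u₁ = 1 + O(L²)`). `a4_dig`: `β = β₀ + β₁ L + O(L²)`.
(2) `u₁ - 1 = u₂² D/(u₁ + 1) = L² β² D/(u₁ + 1)`, `u₁ + 1 = 2 + O(L²)`, so `B = -β s - L β² D/(u₁ + 1) = -β s + L β² D + O(L³)` (`-1/2 = 1 + O(L²)`) `= -(β₀ + β₁ L) s + L η β₀² + O(L²)`. In particular `rsd B = -β₀ rsd s`.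
(3) `e'³ = (1 - L B)³ = 1 - 3 L B + 3 L² B² - L³ B³ = 1 + w² L³ B - w² L⁴ B² - L³ B³`. Hypothesis: `4 L³ w₁ = 1 - e'³ + O(L⁶)`: `4 w₁ = B³ - w² B + w² L B² + O(L³)`. `B³ = (-β₀ s)³ + O(L²)` (`(x + L y)³ = x³ + 3 L x² y + 3 L² x y² + L³ y³`) `= -β₀³ s D + O(L²) = -η β₀ s + O(L²)` (`3 ∣ β₀³ - β₀`, `D = η + O(3)`).
    `w² = 1 + L + O(L²)`, `4 = 1 + 3`: `w₁ = -η β₀ s - (1 + L)(-β₀ s + L (η β₀² - β₁ s)) + L β₀² η + O(L²) = (1 - η) β₀ s + L (β₀ + β₁) s + O(L²)` (`s² = η + O(3)`).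
`a5_w2`: `w₁³ = ((1 - η) β₀ s)³ + O(L²) = (1 - η) η β₀ s + O(L²)` (`η = ± 1`: `(1 - η)³ - (1 - η)` is divisible by 3), so `L w₂ = η w₁ - w₁³ + O(L²) = L η (β₀ + β₁) s + O(L²)`, `w₂ = η (β₀ + β₁) s + O(L)`.
-/

set_option autoImplicit false

open NumberField IsDedekindDomain
open scoped Classical ComplexConjugate

namespace JX

open CM27 JZ JL
open CU (la eE)
open CUL (Nl ez si ta rh DS Cont LV IsRep rp cr mn zw OT GalU cu us FF W3)

variable {D : Eis}

variable (A : ValuationSubring ℂ) (hA : A.valuation 3 < 1)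

theorem a5a_core {R : Type*} [CommRing R] {L w s B t' β β0 β1 b η D d w1 c : R} (h3 : (3 : R) = 0)
    (hw : L = 1 - w) (hL2 : L ^ 2 = -3 * w) (hs : s ^ 2 = D) (hD : D = η + 3 * d)
    (hβ : β = β0 + β1 * L + 3 * b) (hβ0 : β0 ^ 3 = β0)
    (ht' : t' = -w ^ 2 * L * (L * t') - (L * t') ^ 2 + β ^ 2 * D) (hB : L * t' = B + β * s)
    (hw1 : 4 * w1 = B ^ 3 - w ^ 2 * B + w ^ 2 * L * B ^ 2 - L ^ 3 * c) :
    w1 = (1 - η) * β0 * s + L * ((β0 + β1) * s) := by
  have hL : L ^ 2 = 0 := by linear_combination hL2 - w * h3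
  have hw' : w = 1 - L := by linear_combination hw
  have hD' : D = η := by linear_combination hD + d * h3
  have hβ' : β = β0 + β1 * L := by linear_combination hβ + b * h3
  have h4 : t' = β ^ 2 * D := by
    linear_combination ht' + (-w ^ 2 * t' - t' ^ 2) * hL
  have hs' : s ^ 2 = η := by rw [hs, hD']
  have hB1 : B = L * (β ^ 2 * D) - β * s := by
    linear_combination -hB + L * h4
  obtain ⟨p, hp⟩ : ∃ p, p = -β0 * s := ⟨_, rfl⟩
  obtain ⟨q, hq⟩ : ∃ q, q = η * β0 ^ 2 - β1 * s := ⟨_, rfl⟩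
  have hB2 : B = p + L * q := by
    rw [hB1, hβ', hD', hp, hq]
    linear_combination (η * (2 * β0 * β1 + β1 ^ 2 * L)) * hL
  rw [hB2, hw'] at hw1
  have e1 : w1 = p ^ 3 - p - L * p - L * q + L * p ^ 2 := by
    linear_combination hw1 + (p ^ 2 * L * q + L * p - w1) * h3 +
      (3 * p * q ^ 2 + L * q ^ 3 - p + 2 * q - L * q - L * c + (2 * p * q + L * q ^ 2 - 2 * p ^ 2 -
        4 * p * q * L - 2 * L ^ 2 * q ^ 2 + L * p ^ 2 + 2 * p * q * L ^ 2 + L ^ 3 * q ^ 2)) * hL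
  rw [e1, hp, hq]
  linear_combination (-β0 ^ 3 * s + L * β0 ^ 2) * hs' - s * η * hβ0

theorem a5a_int3 (n : ℤ) : (3 : ℤ) ∣ n ^ 3 - n := by
  have h1 : n % 3 = 0 ∨ n % 3 = 1 ∨ n % 3 = 2 := by omega
  obtain ⟨q, hq⟩ : ∃ q, q = n / 3 := ⟨_, rfl⟩
  have h2 : n = 3 * q + n % 3 := by omega
  rcases h1 with h1 | h1 | h1
  · rw [h2, h1]
    exact ⟨9 * q ^ 3 - q, by ring⟩
  · rw [h2, h1]
    exact ⟨9 * q ^ 3 + 9 * q ^ 2 + 2 * q, by ring⟩
  · rw [h2, h1]
    exact ⟨9 * q ^ 3 + 18 * q ^ 2 + 11 * q + 2, by ring⟩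

theorem a5a_lift {A : ValuationSubring ℂ} {x y : ℂ} (hy : y ≠ 0)
    (h : A.valuation x ≤ A.valuation y) : ∃ z : A, x = y * (z : ℂ) := by
  have h1 : A.valuation (x / y) ≤ 1 := by
    rw [map_div₀]
    exact div_le_one_of_le₀ h zero_le
  refine ⟨⟨_, (ValuationSubring.valuation_le_one_iff A _).1 h1⟩, ?_⟩
  show x = y * (x / y)
  rw [mul_div_cancel₀ _ hy]

include hA in
theorem a5_w1 {η : ℤ} (hη : η = 1 ∨ η = -1) {D : Eis} (hD : (3 : Eis) ∣ D - (η : Eis)) {s u₁ u₂ : ℂ}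
    (hs : s ^ 2 = emb D) (h1 : u₁ ∈ CF.KK) (h2 : u₂ ∈ CF.KK) (hnorm : u₁ ^ 2 - u₂ ^ 2 * emb D = 1)
    {B w₁ : A} (hB : emb la * (B : ℂ) = 1 - (u₁ + u₂ * s))
    (hw : A.valuation (4 * emb la ^ 3 * (w₁ : ℂ) - (1 - (u₁ + u₂ * s) ^ 3)) ≤ A.valuation 3 ^ 3) :
    ∃ (β₀ β₁ : ℤ) (sA : A), (sA : ℂ) = s ∧ rsd A sA ^ 2 = (η : IsLocalRing.ResidueField A) ∧
      A.valuation (u₂ / emb la - ((β₀ : ℂ) + (β₁ : ℂ) * emb la)) ≤ A.valuation 3 ∧
      rsd A B = -((β₀ : IsLocalRing.ResidueField A) * rsd A sA) ∧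
      A.valuation ((w₁ : ℂ) - ((1 - (η : ℂ)) * β₀ * s + emb la * ((β₀ + β₁ : ℂ) * s))) ≤ A.valuation 3 := by
  have hl := CUL.w_la_lt A hA
  have hla : emb la ≠ 0 := CUL.la_ne
  -- `D` is a unit
  obtain ⟨dd, hdd⟩ := hD
  have hDC : emb D = (η : ℂ) + 3 * emb dd := by
    have := congrArg emb hdd
    rw [map_sub, map_intCast, map_mul, map_ofNat] at this
    linear_combination this
  have vD3 : A.valuation (emb D - (η : ℂ)) < 1 := by
    rw [hDC, add_sub_cancel_left, map_mul]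
    exact lt_of_le_of_lt (mul_le_mul' le_rfl (CUL.w_emb_le A dd)) (by rwa [mul_one])
  have vη : A.valuation ((η : ℤ) : ℂ) = 1 := by
    rcases hη with rfl | rfl
    · simp
    · simp
  have vD : A.valuation (emb D) = 1 := by
    have e : emb D = (emb D - (η : ℂ)) + (η : ℂ) := by ring
    rw [e, Valuation.map_add_eq_of_lt_right, vη]
    rwa [vη]
  have vs : A.valuation s = 1 := by
    have h : A.valuation s ^ 2 = 1 := by rw [← map_pow, hs, vD]
    exact (pow_eq_one_iff.1 h).resolve_right (by norm_num)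
  have s0 : s ≠ 0 := by
    rintro rfl
    rw [map_zero] at vs
    exact zero_ne_one vs
  have hmul : (u₁ + u₂ * s) * (u₁ - u₂ * s) = 1 := by
    linear_combination hnorm - u₂ ^ 2 * hs
  obtain ⟨e, he⟩ : ∃ e, e = u₁ + u₂ * s := ⟨_, rfl⟩
  rw [← he] at hB hmul hw
  have he1 : e = 1 - emb la * (B : ℂ) := by rw [hB]; ring
  have ve : A.valuation e = 1 := by
    rw [he1]
    apply Valuation.map_one_sub_of_lt
    rw [map_mul]
    exact lt_of_le_of_lt (mul_le_mul' le_rfl (a3_le A B)) (by rwa [mul_one])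
  have e0 : e ≠ 0 := by
    rintro rfl
    rw [map_zero] at ve
    exact zero_ne_one ve
  have hu1 : 2 * u₁ = e + e⁻¹ := by
    have : u₁ - u₂ * s = e⁻¹ := eq_inv_of_mul_eq_one_right hmul
    rw [← this, he]
    ring
  have v2 := a1_two A hA
  have hbe : (B : ℂ) + (u₂ / emb la) * s = -(emb la * (B : ℂ) ^ 2 / (2 * e)) := by
    have h5 : (B : ℂ) = (1 - e) / emb la := by rw [he1]; field_simp; ring
    have h6 : u₁ = (e + e⁻¹) / 2 := by rw [← hu1]; ring
    have h7 : u₂ * s = e - u₁ := by rw [he]; ring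
    have h8 : (u₂ / emb la) * s = (u₂ * s) / emb la := by ring
    rw [h8, h7, h6, h5]
    field_simp
    ring
  have hb : A.valuation ((B : ℂ) + (u₂ / emb la) * s) < 1 := by
    rw [hbe, Valuation.map_neg, map_div₀, map_mul, map_mul, v2, ve, one_mul, div_one, map_pow]
    exact lt_of_le_of_lt (mul_le_mul' le_rfl (pow_le_one₀ zero_le (a3_le A B))) (by rwa [mul_one])
  have vb : A.valuation (u₂ / emb la) ≤ 1 := by
    have h5 : A.valuation ((u₂ / emb la) * s) ≤ 1 := by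
      have e2 : (u₂ / emb la) * s = ((B : ℂ) + (u₂ / emb la) * s) - (B : ℂ) := by ring
      rw [e2]
      exact (A.valuation.map_sub _ _).trans (max_le hb.le (a3_le A B))
    rwa [map_mul, vs, mul_one] at h5
  obtain ⟨β, hβ⟩ : ∃ β : A, (β : ℂ) = u₂ / emb la :=
    ⟨⟨_, (ValuationSubring.valuation_le_one_iff A _).1 vb⟩, rfl⟩
  obtain ⟨sA, hsA⟩ : ∃ sA : A, (sA : ℂ) = s :=
    ⟨⟨_, (ValuationSubring.valuation_le_one_iff A _).1 vs.le⟩, rfl⟩
  have hβK : u₂ / emb la ∈ CF.KK := by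
    apply CF.KK.div_mem h2
    rw [CUL.mem_KK]
    exact ⟨1, -1, by rw [CUL.emb_la]; push_cast; ring⟩
  obtain ⟨β₀, β₁, hdig⟩ := a4_dig A hA hβK vb
  have three_ne : (3 : ℂ) ≠ 0 := by norm_num
  obtain ⟨b, hb3⟩ := a5a_lift three_ne hdig
  have hw' : A.valuation (4 * emb la ^ 3 * (w₁ : ℂ) - (1 - e ^ 3)) ≤ A.valuation (27 : ℂ) := by
    have : (27 : ℂ) = 3 ^ 3 := by norm_num
    rw [this, map_pow]
    exact hw
  obtain ⟨c, hc⟩ := a5a_lift (by norm_num : (27 : ℂ) ≠ 0) hw'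
  -- elements of `A`
  obtain ⟨L, hL⟩ : ∃ L : A, L = 1 - wA A := ⟨_, rfl⟩
  have hLC : (L : ℂ) = emb la := by rw [hL]; exact coe_la A
  have hwC : ((wA A : A) : ℂ) = w := rfl
  have c3 : ((3 : A) : ℂ) = 3 := rfl
  have c4 : ((4 : A) : ℂ) = 4 := rfl
  have hw2 := CUL.w2
  have hw3 := CUL.w3
  have hlaw := CUL.emb_la
  have hla2 := CUL.la_sq
  obtain ⟨t, ht⟩ : ∃ t : A, t = B + β * sA := ⟨_, rfl⟩
  have htC : (t : ℂ) = (B : ℂ) + (u₂ / emb la) * s := by
    rw [ht]; push_cast; rw [hβ, hsA]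
  have hLβ : emb la * (β : ℂ) = u₂ := by
    rw [hβ, mul_div_cancel₀ _ hla]
  have hu1t : u₁ = 1 - emb la * (t : ℂ) := by
    have h5 : emb la * (t : ℂ) = emb la * (B : ℂ) + u₂ * s := by
      rw [htC, mul_add, ← mul_assoc, mul_div_cancel₀ _ hla]
    rw [h5, hB, he]
    ring
  have h2t : 2 * (t : ℂ) = emb la * ((t : ℂ) ^ 2 - (β : ℂ) ^ 2 * emb D) := by
    apply mul_left_cancel₀ hla
    have h5 := hnorm
    rw [hu1t, ← hLβ] at h5
    linear_combination -h5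
  obtain ⟨t', ht'⟩ : ∃ t' : A, t' = -(wA A) ^ 2 * L * t - t ^ 2 + β ^ 2 * embA A D := ⟨_, rfl⟩
  have ht'C : (t' : ℂ) = -w ^ 2 * emb la * (t : ℂ) - (t : ℂ) ^ 2 + (β : ℂ) ^ 2 * emb D := by
    rw [ht']
    push_cast
    rw [hLC, hwC, embA_coe]
  have htt : t = L * t' := by
    apply Subtype.ext
    rw [MulMemClass.coe_mul, hLC, ht'C]
    linear_combination -h2t + w ^ 2 * (t : ℂ) * hla2 - 3 * (t : ℂ) * hw3
  refine ⟨β₀, β₁, sA, hsA, ?_, hdig, ?_, ?_⟩
  · rw [← map_pow, ← map_intCast (rsd A), rsd_eq]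
    push_cast
    rw [hsA, hs]
    exact vD3
  · have h5 : B + β₀ * sA = L * t' - β₁ * L * sA - 3 * b * sA := by
      rw [← htt]
      apply Subtype.ext
      push_cast
      have h6 : (β : ℂ) = (β₀ : ℂ) + (β₁ : ℂ) * emb la + 3 * (b : ℂ) := by
        rw [hβ]
        linear_combination hb3
      rw [ht]
      push_cast
      rw [hLC, h6, c3]
      ring
    have h6 := congrArg (rsd A) h5
    have hL0 : rsd A L = 0 := by
      rw [hL, map_sub, map_one, rsd_w A hA, sub_self]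
    rw [map_sub, map_sub, map_mul, map_mul, map_mul, map_mul, map_mul, hL0, map_add, map_mul,
      map_ofNat, rsd_three A hA, map_intCast] at h6
    linear_combination h6
  · -- the quotient ring
    let I : Ideal A := Ideal.span {(3 : A)}
    let π : A →+* A ⧸ I := Ideal.Quotient.mk I
    have h3 : (3 : A ⧸ I) = 0 := by
      have : π 3 = 0 := Ideal.Quotient.eq_zero_iff_mem.2 (Ideal.mem_span_singleton_self _)
      rwa [map_ofNat] at this
    have q1 : π L = 1 - π (wA A) := by rw [hL, map_sub, map_one]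
    have q2 : π L ^ 2 = -3 * π (wA A) := by
      have : L ^ 2 = -3 * wA A := by
        apply Subtype.ext
        push_cast
        rw [hLC, hwC]
        exact hla2
      rw [← map_pow, this, map_mul, map_neg, map_ofNat]
    have q3 : π sA ^ 2 = π (embA A D) := by
      have : sA ^ 2 = embA A D := by
        apply Subtype.ext
        push_cast
        rw [hsA, embA_coe]
        exact hs
      rw [← map_pow, this]
    have q4 : π (embA A D) = (η : A ⧸ I) + 3 * π (embA A dd) := by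
      have : embA A D = (η : A) + 3 * embA A dd := by
        apply Subtype.ext
        push_cast
        rw [embA_coe, embA_coe]
        exact hDC
      rw [this, map_add, map_mul, map_ofNat, map_intCast]
    have q5 : π β = (β₀ : A ⧸ I) + (β₁ : A ⧸ I) * π L + 3 * π b := by
      have : β = (β₀ : A) + (β₁ : A) * L + 3 * b := by
        apply Subtype.ext
        push_cast
        rw [hLC, hβ, c3]
        linear_combination hb3
      rw [this, map_add, map_add, map_mul, map_mul, map_ofNat, map_intCast, map_intCast]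
    have q6 : (β₀ : A ⧸ I) ^ 3 = β₀ := by
      obtain ⟨m, hm⟩ := a5a_int3 β₀
      have h4 : ((β₀ ^ 3 - β₀ : ℤ) : A ⧸ I) = 0 := by
        rw [hm]
        push_cast
        rw [h3, zero_mul]
      push_cast at h4
      linear_combination h4
    have q7 : π t' = -(π (wA A)) ^ 2 * π L * (π L * π t') - (π L * π t') ^ 2 +
        π β ^ 2 * π (embA A D) := by
      rw [← map_mul, ← htt]
      conv_lhs => rw [ht']
      simp only [map_add, map_sub, map_mul, map_neg, map_pow]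
    have q8 : π L * π t' = π B + π β * π sA := by
      rw [← map_mul, ← htt, ht, map_add, map_mul]
    have q9 : 4 * π w₁ = π B ^ 3 - π (wA A) ^ 2 * π B + π (wA A) ^ 2 * π L * π B ^ 2 -
        π L ^ 3 * π c := by
      have : 4 * w₁ = B ^ 3 - (wA A) ^ 2 * B + (wA A) ^ 2 * L * B ^ 2 - L ^ 3 * c := by
        apply Subtype.ext
        push_cast
        rw [hLC, hwC, c4]
        apply mul_left_cancel₀ (pow_ne_zero 3 hla)
        rw [he1] at hc
        linear_combination hc + (emb la * (B : ℂ) - emb la ^ 2 * (B : ℂ) ^ 2) *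
          (w ^ 2 * hla2 - 3 * hw3) + (c : ℂ) *
          ((emb la ^ 4 - 3 * w * emb la ^ 2 + 9 * w ^ 2) * hla2 - 27 * hw3)
      have h5 := congrArg π this
      simpa only [map_add, map_sub, map_mul, map_pow, map_ofNat] using h5
    have key := a5a_core h3 q1 q2 q3 q4 q5 q6 q7 q8 q9
    have key2 : π (w₁ - ((1 - (η : A)) * β₀ * sA + L * (((β₀ : A) + β₁) * sA))) = 0 := by
      simp only [map_sub, map_add, map_mul, map_one, map_intCast]
      rw [key]
      ring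
    have key3 := Ideal.Quotient.eq_zero_iff_mem.1 key2
    obtain ⟨z, hz⟩ := Ideal.mem_span_singleton'.1 key3
    have hzC := congrArg (Subtype.val) hz
    have e9 : (w₁ : ℂ) - ((1 - (η : ℂ)) * β₀ * s + emb la * ((β₀ + β₁ : ℂ) * s)) =
        (z : ℂ) * 3 := by
      rw [← hsA, ← hLC]
      have := hzC
      push_cast at this
      rw [c3] at this
      rw [this]
    rw [e9, map_mul]
    calc A.valuation (z : ℂ) * A.valuation 3 ≤ 1 * A.valuation 3 := mul_le_mul' (a3_le A z) le_rfl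
      _ = _ := one_mul _

end JX
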