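import Pool.Agent.JX.Defs

/-!
# [JX-A5b] the elements `w₁, w₂` in terms of the unit `e' = u₁ + u₂ s`

`L = emb la`, `L B = 1 - e'`, `e' = u₁ + u₂ s`, `s² = emb D`, `u₁² - u₂² emb D = 1`, `3 = -w² L²`, `D ≡ η mod 3`; `O(x)` = valuation `≤ v(x)`. `β = u₂/L`.
(1) `v(β) ≤ 1`, `v(s) = 1`, `v(e') = 1`: see the proof of `a4_B` in JZ/LA4.lean (`2 u₁ = e' + e'⁻¹`, so `u₁ = 1 + O(L²)`). `a4_dig`: `β = β₀ + β₁ L + O(L²)`.
(2) `u₁ - 1 = u₂² D/(u₁ + 1) = L² β² D/(u₁ + 1)`, `u₁ + 1 = 2 + O(L²)`, so `B = -β s - L β² D/(u₁ + 1) = -β s + L β² D + O(L³)` (`-1/2 = 1 + O(L²)`) `= -(β₀ + β₁ L) s + L η β₀² + O(L²)`. In particular `rsd B = -β₀ rsd s`.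
(3) `e'³ = (1 - L B)³ = 1 - 3 L B + 3 L² B² - L³ B³ = 1 + w² L³ B - w² L⁴ B² - L³ B³`. Hypothesis: `4 L³ w₁ = 1 - e'³ + O(L⁶)`: `4 w₁ = B³ - w² B + w² L B² + O(L³)`. `B³ = (-β₀ s)³ + O(L²)` (`(x + L y)³ = x³ + 3 L x² y + 3 L² x y² + L³ y³`) `= -β₀³ s D + O(L²) = -η β₀ s + O(L²)` (`3 ∣ β₀³ - β₀`, `D = η + O(3)`).
    `w² = 1 + L + O(L²)`, `4 = 1 + 3`: `w₁ = -η β₀ s - (1 + L)(-β₀ s + L (η β₀² - β₁ s)) + L β₀² η + O(L²) = (1 - η) β₀ s + L (β₀ + β₁) s + O(L²)` (`s² = η + O(3)`).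
`a5_w2`: `w₁³ = ((1 - η) β₀ s)³ + O(L²) = (1 - η) η β₀ s + O(L²)` (`η = ± 1`: `(1 - η)³ - (1 - η)` is divisible by 3), so `L w₂ = η w₁ - w₁³ + O(L²) = L η (β₀ + β₁) s + O(L²)`, `w₂ = η (β₀ + β₁) s + O(L)`.
-/

set_option autoImplicit false

open NumberField IsDedekindDomain
open scoped Classical ComplexConjugate

namespace JX

open CM27 JZ JL
open CU (la eE)
open CUL (Nl ez si ta rh DS Cont LV IsRep rp cr mn zw OT GalU cu us FF W3)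

variable {D : Eis}

variable (A : ValuationSubring ℂ) (hA : A.valuation 3 < 1)

theorem a5b_div {A : ValuationSubring ℂ} {z : ℂ} (h : A.valuation z ≤ A.valuation 3) : ∃ c : A, z = 3 * (c : ℂ) := by
  have h3 : (3 : ℂ) ≠ 0 := by norm_num
  have h30 : A.valuation (3 : ℂ) ≠ 0 := (Valuation.ne_zero_iff _).2 h3
  have h1 : A.valuation (z / 3) ≤ 1 := by
    rw [map_div₀]
    exact div_le_one_of_le₀ h zero_le
  refine ⟨⟨z / 3, (ValuationSubring.valuation_le_one_iff A _).1 h1⟩, ?_⟩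
  show z = 3 * (z / 3)
  field_simp

theorem a5b_eta (η : ℤ) (hη : η = 1 ∨ η = -1) (R : Type*) [CommRing R] (β₀ : ℤ) (t D' : R)
    (ht : t ^ 2 = (η : R) + 3 * D') :
    ∃ k : R, (η : R) * ((1 - (η : R)) * β₀ * t) - ((1 - (η : R)) * β₀ * t) ^ 3 = 3 * k := by
  rcases hη with rfl | rfl
  · exact ⟨0, by push_cast; ring⟩
  · obtain ⟨m, hm⟩ : (3 : ℤ) ∣ β₀ ^ 3 - β₀ := by
      have h1 : β₀ % 3 = 0 ∨ β₀ % 3 = 1 ∨ β₀ % 3 = 2 := by omega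
      obtain ⟨q, hq⟩ : ∃ q, q = β₀ / 3 := ⟨_, rfl⟩
      have h2 : β₀ = 3 * q + β₀ % 3 := by omega
      rcases h1 with h1 | h1 | h1
      · rw [h2, h1]
        exact ⟨9 * q ^ 3 - q, by ring⟩
      · rw [h2, h1]
        exact ⟨9 * q ^ 3 + 9 * q ^ 2 + 2 * q, by ring⟩
      · rw [h2, h1]
        exact ⟨9 * q ^ 3 + 18 * q ^ 2 + 11 * q + 2, by ring⟩
    have hm' : ((β₀ : R)) ^ 3 - β₀ = 3 * (m : R) := by exact_mod_cast congrArg (Int.cast : ℤ → R) hm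
    refine ⟨(-2 * t) * (-(m : R) - (β₀ : R) ^ 3 + 4 * (β₀ : R) ^ 3 * D'), ?_⟩
    push_cast at ht ⊢
    linear_combination (2 * t) * hm' - (8 * (β₀ : R) ^ 3 * t) * ht

include hA in
theorem a5_w2 {η : ℤ} (hη : η = 1 ∨ η = -1) {D : Eis} (hD : (3 : Eis) ∣ D - (η : Eis)) {s : ℂ}
    (hs : s ^ 2 = emb D) {w₁ w₂ sA : A} (hsA : (sA : ℂ) = s) {β₀ β₁ : ℤ}
    (hw : A.valuation ((w₁ : ℂ) - ((1 - (η : ℂ)) * β₀ * s + emb la * ((β₀ + β₁ : ℂ) * s))) ≤ A.valuation 3)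
    (h2 : A.valuation ((η : ℂ) * (w₁ : ℂ) - (w₁ : ℂ) ^ 3 - emb la * (w₂ : ℂ)) ≤ A.valuation 3) :
    rsd A w₁ = (1 - (η : IsLocalRing.ResidueField A)) * β₀ * rsd A sA ∧
      rsd A w₂ = (η : IsLocalRing.ResidueField A) * ((β₀ : IsLocalRing.ResidueField A) + β₁) * rsd A sA := by
  obtain ⟨L, hL⟩ : ∃ L : A, L = 1 - wA A := ⟨_, rfl⟩
  have hLc : (L : ℂ) = emb la := by rw [hL]; exact coe_la A
  have hL0 : L ≠ 0 := by
    intro h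
    have h1 : ((L : A) : ℂ) = 0 := by rw [h]; rfl
    rw [hLc] at h1
    exact CUL.la_ne h1
  have hLr : rsd A L = 0 := by
    rw [hL, map_sub, map_one, rsd_w A hA, sub_self]
  have hw2 := wA_sq A
  have h3L : (3 : A) = -(wA A) ^ 2 * L ^ 2 := by
    rw [hL]
    linear_combination ((wA A) ^ 2 - 3 * (wA A) + 3) * hw2
  have h33 : ((3 : A) : ℂ) = 3 := rfl
  obtain ⟨c, hc⟩ := a5b_div hw
  obtain ⟨c', hc'⟩ := a5b_div h2
  obtain ⟨D', hD'⟩ := hD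
  have hs2 : sA ^ 2 = (η : A) + 3 * embA A D' := by
    apply Subtype.ext
    have h5 := congrArg emb hD'
    rw [map_sub, map_intCast, map_mul, map_ofNat] at h5
    push_cast
    rw [hsA, hs]
    show emb D = (η : ℂ) + 3 * emb D'
    linear_combination h5
  obtain ⟨k, hk⟩ := a5b_eta η hη A β₀ sA (embA A D') hs2
  have e1 : w₁ = (1 - (η : A)) * β₀ * sA + L * (((β₀ : A) + β₁) * sA) + 3 * c := by
    apply Subtype.ext
    push_cast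
    rw [hLc, hsA, h33]
    linear_combination hc
  have e2 : (η : A) * w₁ - w₁ ^ 3 = L * w₂ + 3 * c' := by
    apply Subtype.ext
    push_cast
    rw [hLc, h33]
    linear_combination hc'
  obtain ⟨a, ha⟩ : ∃ a : A, a = (1 - (η : A)) * β₀ * sA := ⟨_, rfl⟩
  obtain ⟨b, hb⟩ : ∃ b : A, b = ((β₀ : A) + β₁) * sA := ⟨_, rfl⟩
  rw [← ha, ← hb] at e1
  rw [← ha] at hk
  constructor
  · rw [e1, map_add, map_add, map_mul, map_mul, hLr, map_ofNat, rsd_three A hA, ha]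
    simp
  · obtain ⟨K, hK⟩ : ∃ K : A, K = k + (η : A) * c - a ^ 2 * (L * b + 3 * c) - a * (L * b + 3 * c) ^ 2 -
        3 * (L * b) ^ 2 * c - 9 * (L * b) * c ^ 2 - 9 * c ^ 3 - c' := ⟨_, rfl⟩
    have e3 : L * w₂ = L * ((η : A) * b - L ^ 2 * b ^ 3) + 3 * K := by
      rw [e1] at e2
      rw [hK]
      linear_combination hk - e2
    have e4 : w₂ = (η : A) * b - L ^ 2 * b ^ 3 - (wA A) ^ 2 * L * K := by
      apply mul_left_cancel₀ hL0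
      linear_combination e3 + K * h3L
    rw [e4, map_sub, map_sub, map_mul, map_mul, map_mul, map_mul, map_pow, hLr, hb]
    simp
    ring

end JX
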