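import Pool.Agent.JX.A1a
import Pool.Agent.JX.A1b
import Pool.Agent.JX.A2a
import Pool.Agent.JX.A2b
import Pool.Agent.JX.A3
import Pool.Agent.JX.A4b
import Pool.Agent.JX.A5a
import Pool.Agent.JX.A5b

/-!
# [JX-A6] the valuation of the sum and the line (abstract form)

Model: `A_main` in JZ/LA4.lean (the elements `B0, B` with `L B = 1 - e'`; for `k ≠ 0`: `j = 0`, `B = B0`, `rsd B = rsd (∑ n X)` by `a3_e`).
PROOF. `W c := a2_W (wA A) r (X c)`, `a1_U`; `a1_W` gives `W' c` (choose). `w₁ = ∑ n W`, `w₂ = ∑ n W²`. 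
(1) `(∏ x^n)³ = ∏ (U1 x)^n = ∏ (1 + L³ (-4 W))^n` (`∑ n = 0` kills the constant `-4`, as in `a3_e`), `a4_prod`, `(w^j)³ = 1`: the hypothesis `hw` of `a5_w1`.
(2) `∑ n x'³ = η ∑ n x³` and `∑ n = 0`, `U1 x = 1 - 4 L³ W`: `∑ n W' = η w₁`. With `W' = W³ + L W² + O(3)` and `a4_cube`: `η w₁ = w₁³ + L w₂ + O(3)`: `a5_w2`.
(3) `coef`, `a2_G`, `a3_T`: sum `= L² t`, `rsd t = {0 | σ₀ X̄} + (-1)^k (-σ₁ w₁ + α w₂ + σ₀ w₁³)`, `X̄ = rsd B = -β₀ s` for `k ≠ 0`.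
With `η² = 1`, `s³ = η s`, `β₀³ = β₀` in the residue field of characteristic 3 (`a4_int`): `rsd t = τ s (...)`:
 `k = 0`: `(1 - η) β₀ - τ μ η (β₀ + β₁)`, `k = 1`: `β₀ - τ μ η (β₀ + β₁)`, `k = 2`: `-(2 - η) β₀ - τ μ η (β₀ + β₁)`, each times `τ s`.
(4) `q^m = w^us` with `us = τ μ mod 3`, i.e. `i ≡ - τ μ mod 3`. The bracket is `-τ μ η (β₁ - c β₀)` in `F₃`, `c = -1 - i (k + η - 1)` (12 cases). `rsd s ≠ 0`. So `v(t) < 1` iff `3 ∣ β₁ - c β₀` iff `LC A c (u₂/L)` (`a4_LC`). The valuation of the sum is `v(L)² v(t) = v(3) v(t)`.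
(5) `v(e' - 1) = v(L B) ≤ v(L)`.
-/

set_option autoImplicit false

open NumberField IsDedekindDomain
open scoped Classical ComplexConjugate

namespace JX

open CM27 JZ JL
open CU (la eE)
open CUL (Nl ez si ta rh DS Cont LV IsRep rp cr mn zw OT GalU cu us FF W3)

variable {D : Eis}

variable (A : ValuationSubring ℂ) (hA : A.valuation 3 < 1)

theorem a6_la2 : A.valuation (emb la) ^ 2 = A.valuation 3 := by
  rw [← map_pow, CUL.la_sq, map_mul, Valuation.map_neg, CUL.w_w, mul_one]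

/-- the products of the `U1`, the cube of the unit -/
theorem a6_cube {ι : Type*} (s : Finset ι) (n : ι → ℤ) (x : ι → ℂ) (hn0 : ∑ c ∈ s, n c = 0) (j : ℕ) :
    (w ^ j * ∏ c ∈ s, x c ^ n c) ^ 3 = ∏ c ∈ s, U1 (x c) ^ n c := by
  have h1 : ∀ c ∈ s, U1 (x c) ^ n c = (-4 : ℂ) ^ n c * (x c ^ n c) ^ 3 := by
    intro c _
    unfold U1
    rw [mul_zpow, ← zpow_natCast (x c ^ n c) 3, ← zpow_mul, ← zpow_natCast (x c) 3, ← zpow_mul, mul_comm (n c)]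
  have h2 : ∏ c ∈ s, (-4 : ℂ) ^ n c = (-4 : ℂ) ^ ∑ c ∈ s, n c := by
    clear h1 hn0
    induction s using Finset.induction_on with
    | empty => simp
    | insert a s ha ih =>
      rw [Finset.prod_insert ha, Finset.sum_insert ha, ih, zpow_add₀ (by norm_num)]
  rw [Finset.prod_congr rfl h1, Finset.prod_mul_distrib, h2, hn0, zpow_zero, one_mul, mul_pow, ← pow_mul, mul_comm j 3,
    pow_mul, CUL.w3, one_pow, one_mul, Finset.prod_pow]

/-- sums with `∑ n = 0` -/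
theorem a6_sum {ι : Type*} (s : Finset ι) (n : ι → ℤ) (x : ι → ℂ) (Y : ι → A) (hn0 : ∑ c ∈ s, n c = 0)
    (hx : ∀ c ∈ s, U1 (x c) = 1 - 4 * emb la ^ 3 * (Y c : ℂ)) :
    ∑ c ∈ s, (n c : ℂ) * x c ^ 3 = emb la ^ 3 * ∑ c ∈ s, ((n c : ℂ) * (Y c : ℂ)) := by
  have h1 : ∀ c ∈ s, (n c : ℂ) * x c ^ 3 = (n c : ℂ) * (-1 / 4) + emb la ^ 3 * ((n c : ℂ) * (Y c : ℂ)) := by
    intro c hc
    have := hx c hc
    unfold U1 at this
    linear_combination (-(n c : ℂ) / 4) * this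
  have h2 : (∑ c ∈ s, (n c : ℂ)) = 0 := by exact_mod_cast hn0
  rw [Finset.sum_congr rfl h1, Finset.sum_add_distrib, ← Finset.sum_mul, h2, zero_mul, zero_add, Finset.mul_sum]

/-- `i ≡ - τ μ` -/
theorem a6_i {q : ℂ} {τ μ : ℤ} {m i : ℕ} (hq : (q = w ∧ τ = 1) ∨ (q = w ^ 2 ∧ τ = -1))
    (hm : (m = 1 ∧ μ = 1) ∨ (m = 2 ∧ μ = -1)) (hi : i = 1 ∨ i = 2) (hqm : q ^ m = zw (-(i : ZMod 3))) :
    (3 : ℤ) ∣ (i : ℤ) + τ * μ := by
  have h1 : ∀ k : ZMod 3, zw k = zw (-(i : ZMod 3)) → k = -(i : ZMod 3) := fun k h => CUL.zw_inj h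
  have hw1 : w = zw 1 := CUL.zw_one.symm
  have hw2 : w ^ 2 = zw 2 := CUL.zw_two.symm
  have hw4 : (w ^ 2) ^ 2 = zw 1 := by
    rw [CUL.zw_one]
    linear_combination w * CUL.w3
  rcases hq with ⟨rfl, rfl⟩ | ⟨rfl, rfl⟩ <;> rcases hm with ⟨rfl, rfl⟩ | ⟨rfl, rfl⟩ <;> rcases hi with rfl | rfl
  · rw [pow_one, hw1] at hqm
    exact absurd (h1 _ hqm) (by decide)
  · decide
  · decide
  · rw [hw2] at hqm
    exact absurd (h1 _ hqm) (by decide)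
  · decide
  · rw [pow_one, hw2] at hqm
    exact absurd (h1 _ hqm) (by decide)
  · rw [hw4] at hqm
    exact absurd (h1 _ hqm) (by decide)
  · decide

/-- the final computation in the residue field -/
theorem a6_final {K : Type*} [Field K] (h3 : (3 : K) = 0) {T M E I b0 b1 S w1 w2 s0 s1 al X t : K} {k : ℕ} (hk : k < 3)
    (hM : M ^ 2 = 1) (hE : E ^ 2 = 1) (hI : I = -(T * M)) (hb : b0 ^ 3 = b0) (hS : S ^ 2 = E)
    (hw1 : w1 = (1 - E) * b0 * S) (hw2 : w2 = E * (b0 + b1) * S) (hs0 : s0 = T * (-1) ^ k)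
    (hs1 : s1 = if k = 2 then 0 else T) (hal : al = -((-1) ^ k * M)) (hX : k ≠ 0 → X = -(b0 * S))
    (ht : t = (if k = 0 then 0 else s0 * X) + (-1) ^ k * (-(s1 * w1) + al * w2 + s0 * w1 ^ 3)) :
    t = -(M * E * S) * (b1 - (-1 - I * (k + E - 1)) * b0) := by
  have hw13 : w1 ^ 3 = (E - 1) * b0 * S := by
    have e1 : S ^ 3 = E * S := by linear_combination S * hS
    have e2 : (1 - E) ^ 3 * E = E - 1 := by
      linear_combination (-E ^ 2 + 3 * E - 4) * hE + (E - 1) * h3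
    rw [hw1, mul_pow, mul_pow, hb, e1]
    linear_combination b0 * S * e2
  interval_cases k
  · rw [ht, hw13, hw1, hw2, hs0, hs1, hal]
    simp only [if_pos, Nat.cast_zero, pow_zero, one_mul, zero_add, mul_one]
    rw [if_neg (by norm_num)]
    linear_combination (-T * (E - 1) * E * b0 * S) * hM + (T * b0 * S * (E - 1)) * h3 - (T * b0 * S) * hE +
      (M * E * S * (E - 1) * b0) * hI
  · rw [ht, hX (by norm_num), hw13, hw1, hw2, hs0, hs1, hal]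
    rw [if_neg (by norm_num), if_neg (by norm_num)]
    simp only [Nat.cast_one, pow_one]
    linear_combination (-T * b0 * S * E ^ 2) * hM - (T * b0 * S) * hE + (M * E * S * E * b0) * hI
  · rw [ht, hX (by norm_num), hw13, hw1, hw2, hs0, hs1, hal]
    rw [if_neg (by norm_num), if_pos rfl]
    simp only [Nat.cast_ofNat]
    linear_combination (-T * b0 * S * E * (1 + E)) * hM - (T * b0 * S) * hE + (M * E * S * (1 + E) * b0) * hI -
      (T * b0 * S) * h3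

include hA in
theorem AX_main {r : A} (hr : 4 * r ^ 3 = -1) {ι : Type*} (s : Finset ι) (X ψ : ι → A) (n : ι → ℤ)
    (x x' : ι → ℂ) (hx : ∀ c ∈ s, x c = (r : ℂ) + emb la * (X c : ℂ)) (hn : ∀ c ∈ s, n c = 1 ∨ n c = -1)
    (hxx : ∀ c ∈ s, 27 * x' c ^ 3 * x c ^ 6 = -(x c ^ 3 + 1) ^ 3)
    (hn0 : ∑ c ∈ s, n c = 0) (hψ : ∑ c ∈ s, ψ c = 0)
    (hψn : ∀ c ∈ s, rsd A (ψ c) = (n c : IsLocalRing.ResidueField A)) {η : ℤ} (hη : η = 1 ∨ η = -1)
    (hp : ∑ c ∈ s, (n c : ℂ) * x' c ^ 3 = (η : ℂ) * ∑ c ∈ s, (n c : ℂ) * x c ^ 3)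
    {q : ℂ} {k m i j : ℕ} (hk : k < 3) (hψk : k ≠ 0 → ∀ c ∈ s, ψ c = (n c : A)) (hj : k ≠ 0 → j = 0)
    (hq : q = w ∨ q = w ^ 2) (hm : m = 1 ∨ m = 2) (hi : i = 1 ∨ i = 2) (hqm : q ^ m = zw (-(i : ZMod 3)))
    {D : Eis} (hD : (3 : Eis) ∣ D - (η : Eis)) {sD u₁ u₂ : ℂ} (hs : sD ^ 2 = emb D)
    (h1 : u₁ ∈ CF.KK) (h2 : u₂ ∈ CF.KK) (hnorm : u₁ ^ 2 - u₂ ^ 2 * emb D = 1)
    (he : w ^ j * ∏ c ∈ s, x c ^ n c = u₁ + u₂ * sD) :
    A.valuation (∑ c ∈ s, (ψ c : ℂ) * (x c ^ k * Gc q k m (x c) (x' c))) ≤ A.valuation 3 ∧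
    A.valuation (u₁ + u₂ * sD - 1) ≤ A.valuation (emb la) ∧
    (A.valuation (∑ c ∈ s, (ψ c : ℂ) * (x c ^ k * Gc q k m (x c) (x' c))) = A.valuation 3 ↔
      ¬ LC A (sl i k η) (u₂ / emb la)) := by
  have h3 := rsd_three A hA
  have hl := CUL.w_la_lt A hA
  have hla : emb la ≠ 0 := CUL.la_ne
  have hla2 := a6_la2 A
  have hη0 : η ^ 2 = 1 := by
    rcases hη with rfl | rfl <;> norm_num
  -- the elements `W`, `W'`
  have hU : ∀ c ∈ s, U1 (x c) = 1 - 4 * emb la ^ 3 * ((a2_W (wA A) r (X c) : A) : ℂ) ∧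
      U2 (x c) = 1 - 4 * w * emb la * ((a2_W (wA A) r (X c) : A) : ℂ) := fun c hc => a1_U A hr (hx c hc)
  obtain ⟨W, hWdef⟩ : ∃ W : ι → A, W = fun c => a2_W (wA A) r (X c) := ⟨_, rfl⟩
  have hU1 : ∀ c ∈ s, U1 (x c) = 1 - 4 * emb la ^ 3 * (W c : ℂ) := fun c hc => by rw [hWdef]; exact (hU c hc).1
  have hU2 : ∀ c ∈ s, U2 (x c) = 1 - 4 * w * emb la * (W c : ℂ) := fun c hc => by rw [hWdef]; exact (hU c hc).2
  have hW' : ∀ c, ∃ W' : A, c ∈ s → U1 (x' c) = 1 - 4 * emb la ^ 3 * (W' : ℂ) ∧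
      U2 (x' c) = 1 - 4 * w * emb la * (W' : ℂ) ∧
      A.valuation ((W' : ℂ) - (W c : ℂ) ^ 3 - emb la * (W c : ℂ) ^ 2) ≤ A.valuation 3 := by
    intro c
    by_cases hc : c ∈ s
    · obtain ⟨W', h⟩ := a1_W A hA (hU1 c hc) (hU2 c hc) (hxx c hc)
      exact ⟨W', fun _ => h⟩
    · exact ⟨0, fun h => absurd h hc⟩
  choose W' hW' using hW'
  obtain ⟨w₁, hw₁⟩ : ∃ w₁ : A, w₁ = ∑ c ∈ s, (n c : A) * W c := ⟨_, rfl⟩
  obtain ⟨w₂, hw₂⟩ : ∃ w₂ : A, w₂ = ∑ c ∈ s, (n c : A) * W c ^ 2 := ⟨_, rfl⟩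
  have hw₁C : (w₁ : ℂ) = ∑ c ∈ s, ((n c : ℂ) * (W c : ℂ)) := by
    rw [hw₁]
    push_cast
    rfl
  have hw₂C : (w₂ : ℂ) = ∑ c ∈ s, ((n c : ℂ) * (W c : ℂ) ^ 2) := by
    rw [hw₂]
    push_cast
    rfl
  -- (1)
  have hcube : A.valuation (4 * emb la ^ 3 * (w₁ : ℂ) - (1 - (u₁ + u₂ * sD) ^ 3)) ≤ A.valuation 3 ^ 3 := by
    have h4 := a4_prod A hA s (fun c => -(W c + W c + W c + W c)) n hn
    have h5 : ∏ c ∈ s, (1 + emb la ^ 3 * ((-(W c + W c + W c + W c) : A) : ℂ)) ^ n c = (u₁ + u₂ * sD) ^ 3 := by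
      rw [← he, a6_cube s n x hn0 j]
      refine Finset.prod_congr rfl fun c hc => ?_
      rw [hU1 c hc]
      congr 1
      push_cast
      ring
    have h6 : ∑ c ∈ s, ((n c : ℂ) * ((-(W c + W c + W c + W c) : A) : ℂ)) = -4 * (w₁ : ℂ) := by
      rw [hw₁C, Finset.mul_sum]
      refine Finset.sum_congr rfl fun c _ => ?_
      push_cast
      ring
    rw [h5, h6] at h4
    have e : 4 * emb la ^ 3 * (w₁ : ℂ) - (1 - (u₁ + u₂ * sD) ^ 3) =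
        (u₁ + u₂ * sD) ^ 3 - 1 - emb la ^ 3 * (-4 * (w₁ : ℂ)) := by ring
    rw [e]
    exact h4
  -- (2)
  have hsum' : ∑ c ∈ s, ((n c : ℂ) * (W' c : ℂ)) = (η : ℂ) * (w₁ : ℂ) := by
    have h4 := a6_sum A s n x' W' hn0 (fun c hc => (hW' c hc).1)
    have h5 := a6_sum A s n x W hn0 hU1
    rw [h4, h5, ← hw₁C] at hp
    apply mul_left_cancel₀ (pow_ne_zero 3 hla)
    linear_combination hp
  have h2' : A.valuation ((η : ℂ) * (w₁ : ℂ) - (w₁ : ℂ) ^ 3 - emb la * (w₂ : ℂ)) ≤ A.valuation 3 := by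
    have h4 := a4_cube A hA s W n hn
    rw [← hw₁C] at h4
    have e : (η : ℂ) * (w₁ : ℂ) - (w₁ : ℂ) ^ 3 - emb la * (w₂ : ℂ) =
        ∑ c ∈ s, (n c : ℂ) * ((W' c : ℂ) - (W c : ℂ) ^ 3 - emb la * (W c : ℂ) ^ 2) +
          (∑ c ∈ s, ((n c : ℂ) * (W c : ℂ) ^ 3) - (w₁ : ℂ) ^ 3) := by
      have e1 : ∑ c ∈ s, (n c : ℂ) * ((W' c : ℂ) - (W c : ℂ) ^ 3 - emb la * (W c : ℂ) ^ 2) =
          ∑ c ∈ s, ((n c : ℂ) * (W' c : ℂ)) - ∑ c ∈ s, ((n c : ℂ) * (W c : ℂ) ^ 3) -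
            emb la * ∑ c ∈ s, ((n c : ℂ) * (W c : ℂ) ^ 2) := by
        rw [Finset.mul_sum, ← Finset.sum_sub_distrib, ← Finset.sum_sub_distrib]
        refine Finset.sum_congr rfl fun c _ => ?_
        ring
      rw [e1, hsum', hw₂C]
      ring
    rw [e]
    refine Valuation.map_add_le _ (Valuation.map_sum_le _ fun c hc => ?_) h4
    rw [map_mul]
    calc A.valuation (n c : ℂ) * A.valuation ((W' c : ℂ) - (W c : ℂ) ^ 3 - emb la * (W c : ℂ) ^ 2) ≤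
        1 * A.valuation 3 := mul_le_mul' ((ValuationSubring.valuation_le_one_iff A _).2 (intCast_mem A _)) (hW' c hc).2.2
      _ = _ := one_mul _
  -- the element `B`
  obtain ⟨B0, hB0, hB0r⟩ := a3_e A hA hr s X n x hx hn hn0
  obtain ⟨B, hB⟩ : ∃ B : A, B = ∑ i ∈ Finset.range j, wA A ^ i + wA A ^ j * B0 := ⟨_, rfl⟩
  have hBe : emb la * (B : ℂ) = 1 - (u₁ + u₂ * sD) := by
    rw [← he, hB]
    have e1 : (wA A : ℂ) = w := rfl
    push_cast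
    rw [e1]
    have e2 : emb la * ∑ i ∈ Finset.range j, w ^ i = 1 - w ^ j := by
      have := mul_neg_geom_sum w j
      rw [CUL.emb_la]
      exact this
    rw [mul_add, e2]
    linear_combination w ^ j * hB0
  have hBr : k ≠ 0 → rsd A B = rsd A (∑ c ∈ s, (n c : A) * X c) := by
    intro hk0
    rw [hB, hj hk0, Finset.range_zero, Finset.sum_empty, pow_zero, one_mul, zero_add, hB0r]
  obtain ⟨β₀, β₁, sA, hsA, hsA2, hβ, hBβ, hw1⟩ := a5_w1 A hA hη hD hs h1 h2 hnorm hBe hcube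
  obtain ⟨hr1, hr2⟩ := a5_w2 A hA hη hD hs hsA hw1 h2'
  -- (3)
  obtain ⟨τ, hτ⟩ : ∃ τ : ℤ, (q = w ∧ τ = 1) ∨ (q = w ^ 2 ∧ τ = -1) := by
    rcases hq with h | h
    · exact ⟨1, Or.inl ⟨h, rfl⟩⟩
    · exact ⟨-1, Or.inr ⟨h, rfl⟩⟩
  obtain ⟨μ, hμ⟩ : ∃ μ : ℤ, (m = 1 ∧ μ = 1) ∨ (m = 2 ∧ μ = -1) := by
    rcases hm with h | h
    · exact ⟨1, Or.inl ⟨h, rfl⟩⟩
    · exact ⟨-1, Or.inr ⟨h, rfl⟩⟩
  obtain ⟨σ₀, σ₁, α, c1, c2, c3, c4, c5, c6⟩ := coef A hA hτ hk hμ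
  obtain ⟨t, ht, htr⟩ := a3_T A hA hr s X W ψ n x x' hx hn hn0 hψ hψn hk hψk (σ₀ := σ₀) (σ₁ := σ₁) (α := α)
    (q := q) (m := m) (fun c hc => a2_G A hA (hU1 c hc) (hU2 c hc) (hW' c hc).2.1 (hW' c hc).2.2 c1 c2 c3)
  have hi3 := a6_i hτ hμ hi hqm
  -- (4)
  have hμ2 : (μ : IsLocalRing.ResidueField A) ^ 2 = 1 := by
    rcases hμ with ⟨_, rfl⟩ | ⟨_, rfl⟩
    · norm_num
    · norm_num
  have hη2 : (η : IsLocalRing.ResidueField A) ^ 2 = 1 := by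
    rcases hη with rfl | rfl
    · norm_num
    · norm_num
  have hI : (i : IsLocalRing.ResidueField A) = -((τ : IsLocalRing.ResidueField A) * μ) := by
    obtain ⟨y, hy⟩ := hi3
    have h4 : (((i : ℤ) + τ * μ : ℤ) : IsLocalRing.ResidueField A) = 0 := by
      rw [hy]
      push_cast
      rw [h3, zero_mul]
    push_cast at h4
    linear_combination h4
  rw [← hw₁, ← hw₂] at htr
  have hfin := a6_final h3 hk hμ2 hη2 hI (a4_int A hA β₀) hsA2 hr1 hr2 c4 c5 c6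
    (fun hk0 => (by rw [← hBr hk0]; exact hBβ : rsd A (∑ c ∈ s, (n c : A) * X c) = _)) htr
  have hS0 : rsd A sA ≠ 0 := by
    intro h
    rw [h] at hsA2
    have h4 : (η : IsLocalRing.ResidueField A) ≠ 0 := by
      intro h5
      rw [h5] at hη2
      norm_num at hη2
    exact h4 (by rw [← hsA2]; norm_num)
  have hη00 : (η : IsLocalRing.ResidueField A) ≠ 0 := by
    intro h5
    rw [h5] at hη2
    norm_num at hη2
  have hμ00 : (μ : IsLocalRing.ResidueField A) ≠ 0 := by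
    intro h5
    rw [h5] at hμ2
    norm_num at hμ2
  have hchar := rsd_char A hA
  have hiff : rsd A t = 0 ↔ LC A (sl i k η) (u₂ / emb la) := by
    have h6 : (3 : ℤ) ∣ β₁ - sl i k η * β₀ ↔ ((β₁ - sl i k η * β₀ : ℤ) : IsLocalRing.ResidueField A) = 0 := by
      have := CharP.intCast_eq_zero_iff (IsLocalRing.ResidueField A) 3 (β₁ - sl i k η * β₀)
      rw [Nat.cast_ofNat] at this
      exact this.symm
    rw [a4_LC A hA hβ, hfin, h6]
    have h4 : ((β₁ - sl i k η * β₀ : ℤ) : IsLocalRing.ResidueField A) =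
        (β₁ : IsLocalRing.ResidueField A) - (-1 - (i : IsLocalRing.ResidueField A) * ((k : IsLocalRing.ResidueField A) + η - 1)) * β₀ := by
      unfold sl
      push_cast
      ring
    rw [h4]
    have h5 : -((μ : IsLocalRing.ResidueField A) * η * rsd A sA) ≠ 0 :=
      neg_ne_zero.2 (mul_ne_zero (mul_ne_zero hμ00 hη00) hS0)
    exact ⟨fun h => (mul_eq_zero.1 h).resolve_left h5, fun h => by rw [h, mul_zero]⟩
  have hl0 : A.valuation (emb la) ≠ 0 := by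
    rw [Valuation.ne_zero_iff]
    exact hla
  have hsum : A.valuation (∑ c ∈ s, (ψ c : ℂ) * (x c ^ k * Gc q k m (x c) (x' c))) =
      A.valuation 3 * A.valuation (t : ℂ) := by
    rw [ht, map_mul, map_pow, hla2]
  refine ⟨?_, ?_, ?_⟩
  · rw [hsum]
    calc A.valuation 3 * A.valuation (t : ℂ) ≤ A.valuation 3 * 1 := mul_le_mul' le_rfl (a3_le A t)
      _ = _ := mul_one _
  · have hv : A.valuation (u₁ + u₂ * sD - 1) = A.valuation (emb la) * A.valuation (B : ℂ) := by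
      rw [← map_mul, hBe, ← Valuation.map_neg]
      congr 1
      ring
    rw [hv]
    calc A.valuation (emb la) * A.valuation (B : ℂ) ≤ A.valuation (emb la) * 1 :=
          mul_le_mul' le_rfl (a3_le A B)
      _ = _ := mul_one _
  · rw [← hiff, hsum]
    have h30 : A.valuation (3 : ℂ) ≠ 0 := by
      rw [Valuation.ne_zero_iff]
      norm_num
    constructor
    · intro h
      have h5 : A.valuation (t : ℂ) = 1 := mul_left_cancel₀ h30 (by rw [h, mul_one])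
      exact (a4_unit_iff A t).1 h5
    · intro h
      rw [(a4_unit_iff A t).2 h, mul_one]

end JX
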