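import Pool.Agent.JX.Defs
import Pool.Agent.JL.B5

/-!
# [JX-B1] the Hecke character of `y² = x³ + ω^i D` on primary elements

PROOF (model JL/B5.lean, all lemmas `b5_...` can be used). At a primary prime `p`: `qs (ω^i D) v = qs D v` (`ω^i = (ω^(2i))²` is a unit square: `b5_qs`, `p ∣ y² - ω^i D` iff `p ∣ (ω^(i) y)² - D`, `ω^(2i) ω^i = 1`...; `p ∣ ω^i D` iff `p ∣ D`),
`cs (4 ω^i D) v = cr p (ω^i · 4 D) = cr p (ω^i) cr p (4 D)` (`CUL.cs_eq`, `cr_mul`, `b5_cr`), and `cr p ω = zw (2 mn p)` (cubic reciprocity for units, in CUL: a lemma `cr p u = cu u p` for units `u`; `us ω = 1`).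
`conj (cu (iu i) p) = zw (- us (iu i) · 2 mn p) = zw (2 i mn p)` (`us_iu`, `zw_conj`). Then the induction `primary_induction` as in `Psi6_span` (`cu_mul`).
-/

set_option autoImplicit false

open NumberField IsDedekindDomain
open scoped Classical ComplexConjugate

namespace JX

open CM27 JZ JL
open CU (la eE)
open CUL (Nl ez si ta rh DS Cont LV IsRep rp cr mn zw OT GalU cu us FF W3)

variable {D : Eis}

theorem b1_om3 : CU.om ^ 3 = (1 : Eis) := by decide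

theorem b1_omU : IsUnit (CU.om : Eis) := IsUnit.of_pow_eq_one (n := 3) b1_om3 (by norm_num)

theorem b1_cr {p : Eis} (hp : Prime p) (hP : Primary p) {i : ℕ} (hi : i = 1 ∨ i = 2) :
    cr p (CU.om ^ i) = conj (cu (iu i) p) := by
  have h1 : ¬ p ∣ CU.om := fun h => hp.not_isUnit (isUnit_of_dvd_unit h b1_omU)
  rw [CUL.cr_pow hp hP]
  unfold cr cu
  rw [if_neg h1, CUL.zw_conj, us_iu hi]
  have h2 : CU.sy CU.om p = 2 * mn p := CUL.sy_om hp hP
  rw [h2, CUL.zw_pow]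
  congr 1
  ring

theorem b1_sq {p : Eis} (i : ℕ) : (∃ y : Eis, p ∣ y ^ 2 - CU.om ^ i * D) ↔ ∃ y : Eis, p ∣ y ^ 2 - D := by
  have h3 : (CU.om ^ i) ^ 3 = (1 : Eis) := by
    rw [← pow_mul, mul_comm, pow_mul, b1_om3, one_pow]
  constructor
  · rintro ⟨y, hy⟩
    refine ⟨CU.om ^ i * y, ?_⟩
    have e : (CU.om ^ i * y) ^ 2 - D = (y ^ 2 - CU.om ^ i * D) * (CU.om ^ i) ^ 2 := by
      linear_combination -(1 : Eis) * (-D) * h3
    rw [e]
    exact hy.mul_right _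
  · rintro ⟨y, hy⟩
    refine ⟨(CU.om ^ i) ^ 2 * y, ?_⟩
    have e : ((CU.om ^ i) ^ 2 * y) ^ 2 - CU.om ^ i * D = (y ^ 2 - D) * CU.om ^ i := by
      linear_combination (CU.om ^ i * y ^ 2) * h3
    rw [e]
    exact hy.mul_right _

theorem b1_dvd {p : Eis} (i : ℕ) : p ∣ CU.om ^ i * D ↔ p ∣ D := by
  have h : IsUnit (CU.om ^ i : Eis) := b1_omU.pow i
  exact h.dvd_mul_left

theorem b1_psv (d : Dat D) {i : ℕ} (hi : i = 1 ∨ i = 2) {p : Eis} (hp : Prime p) (hP : Primary p)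
    (v : HeightOneSpectrum (𝓞 CF.KK)) (hv : v.asIdeal = Ideal.span {eE p}) :
    emb (psv6 (eE (CU.om ^ i * D)) v) = chi d p * conj (cu (iu i) p) * emb p := by
  have hex : ∃ b : Eis, Primary b ∧ Prime b ∧ eE b ∈ v.asIdeal := ⟨p, hP, hp, (CUL.x2_mem hv p).2 dvd_rfl⟩
  have h5 : (4 : 𝓞 CF.KK) * eE (CU.om ^ i * D) = eE (CU.om ^ i * (4 * D)) := by
    have e : CU.om ^ i * (4 * D) = 4 * (CU.om ^ i * D) := by ring
    rw [e, map_mul eE 4, map_ofNat]
  have hq : Q3.qs (eE (CU.om ^ i * D)) v = Q3.qs (eE D) v := by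
    rw [b5_qs _ v hv, b5_qs _ v hv]
    simp only [b1_dvd, b1_sq]
  have hcr : cr p (CU.om ^ i * (4 * D)) = conj (cu (iu i) p) * cr p (4 * D) := by
    rw [CUL.cr_mul hp hP, b1_cr hp hP hi]
  have h6 : emb (psv6 (eE (CU.om ^ i * D)) v) = conj (cu (iu i) p) * emb (psv6 (eE D) v) := by
    have h7 : (4 : 𝓞 CF.KK) * eE D = eE (4 * D) := by
      rw [map_mul, map_ofNat]
    unfold psv6
    rw [dif_pos hex, dif_pos hex, h5, h7, hq, map_mul emb, map_mul emb, map_mul emb (_ * _), map_mul emb,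
      CUL.cs_eq hp hP _ v hv, CUL.cs_eq hp hP _ v hv, hcr]
    ring
  rw [h6, b5_psv d hp hP v hv]
  ring

theorem Psi6_spanX (d : Dat D) {i : ℕ} (hi : i = 1 ∨ i = 2) {b : Eis} (hb : Primary b) :
    emb (Psi6 (eE (CU.om ^ i * D)) (Ideal.span {eE b})) = chi d b * conj (cu (iu i) b) * emb b := by
  refine CUL.primary_induction (P := fun b => emb (Psi6 (eE (CU.om ^ i * D)) (Ideal.span {eE b})) =
    chi d b * conj (cu (iu i) b) * emb b ∧ Primary b) ?_ ?_ hb |>.1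
  · have h1 : (Ideal.span {eE 1} : Ideal (𝓞 CF.KK)) = 1 := by
      rw [map_one, Ideal.span_singleton_one, Ideal.one_eq_top]
    have h2 : chi d 1 = 1 := by
      unfold chi
      rw [q2_unit d isUnit_one, c3_one, Int.cast_one, one_mul]
    refine ⟨?_, CU.primary_one⟩
    show emb (Psi6 (eE (CU.om ^ i * D)) (Ideal.span {eE 1})) = chi d 1 * conj (cu (iu i) 1) * emb 1
    unfold Psi6
    rw [h1, NAB.cm_one, map_one, mul_one, h2, CUL.cu_one, map_one, mul_one]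
  · intro p c hp hP hc ih
    obtain ⟨v, hv⟩ := CUL.x2_exists_v hp
    refine ⟨?_, hP.mul hc⟩
    show emb (Psi6 (eE (CU.om ^ i * D)) (Ideal.span {eE (p * c)})) =
      chi d (p * c) * conj (cu (iu i) (p * c)) * emb (p * c)
    have h2 : emb (Psi6 (eE (CU.om ^ i * D)) (Ideal.span {eE p})) = chi d p * conj (cu (iu i) p) * emb p := by
      rw [← hv]
      unfold Psi6
      rw [NAB.cm_prime, b1_psv d hi hp hP v hv]
    have h3 : Psi6 (eE (CU.om ^ i * D)) (Ideal.span {eE p} * Ideal.span {eE c}) =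
        Psi6 (eE (CU.om ^ i * D)) (Ideal.span {eE p}) * Psi6 (eE (CU.om ^ i * D)) (Ideal.span {eE c}) := by
      unfold Psi6
      rw [NAB.cm_mul]
    rw [CUL.x2_span_mul, h3, map_mul, h2, ih.1, chi_mul, map_mul, CUL.cu_mul _ hP hc, map_mul]
    ring

end JX
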