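import Pool.Agent.JX.Field
import Pool.Agent.JL.G2
import Pool.Agent.JL.H3
import Pool.Agent.JZ.LA4
import Pool.Agent.CUL.V2

/-!
# [JX] the central value of `y² = x³ + ω^i D` over `ℚ(ω)`, `i = 1, 2`: definitions

`D ≡ ± 1 mod 3` is the `D` of `JL` (class `Cl0 D`, data `Dat D`), the curve is `y² = x³ + ω^i D`. The mathematics is in `JX_L.md` (team-store).
`x = xw`, `y = yw`, `y² = 4 x³ + 1`, `ez = E1 / OmC`, `rh = 1/λ³`, `si = 1/λ²`, `ta = 1/λ`, `la = 1 - ω`, `f = 4 D`.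
-/

set_option autoImplicit false

open NumberField IsDedekindDomain
open scoped Classical ComplexConjugate

namespace JX

open CM27 JZ JL
open CU (la eE)
open CUL (Nl ez si ta rh DS Cont LV IsRep rp cr mn zw OT GalU cu us FF W3)

variable {D : Eis}

/-- the unit `ω^(2 i)` -/
def iu (i : ℕ) : Eis := CU.om ^ (2 * i)

theorem us_iu {i : ℕ} (hi : i = 1 ∨ i = 2) : us (iu i) = -(i : ZMod 3) := by
  rcases hi with rfl | rfl
  · decide
  · decide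

theorem us_iu' {i : ℕ} (hi : i = 1 ∨ i = 2) : us (iu i) = 1 ∨ us (iu i) = 2 := by
  rcases hi with rfl | rfl
  · decide
  · decide

/-- The function whose Dirichlet series is the `L`-function of `y² = x³ + ω^i D`. -/
noncomputable def FfX (d : Dat D) (i : ℕ) (x : Eis) : ℂ := if Primary x then conj (chi d x) * cu (iu i) x else 0

/-- `V = ∑_{α mod 4 D} conj χ(α) F(α / 4 D)`, `F z = ∑_b (u/b)_3 e(z + b/λ³)`, `b` the primary classes mod `λ³` -/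
noncomputable def VF (d : Dat D) (i : ℕ) : ℂ :=
  ∑ α ∈ rp (4 * D), conj (chi d α) * FF (iu i) (emb α / emb (4 * D))

/-! ## the closed formula -/

/-- the coefficient of `U2 ^ 2` -/
def ca {R : Type*} [CommRing R] (q : R) : ℕ → ℕ → R
  | 0, 1 => -1
  | 0, 2 => q ^ 2
  | 1, 1 => 1
  | 1, 2 => -1
  | 2, 1 => -q
  | 2, 2 => 1
  | _, _ => 0

/-- the coefficient of `U1 U2` -/
def cb {R : Type*} [CommRing R] (q : R) : ℕ → ℕ → R
  | 0, 1 => -q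
  | 0, 2 => q
  | 1, 1 => q ^ 2
  | 1, 2 => -q
  | 2, 1 => 1 - 2 * q ^ 2
  | 2, 2 => 2 * q ^ 2 - q
  | _, _ => 0

/-- the coefficient of `U1 ^ 2` -/
def cg {R : Type*} [CommRing R] (q : R) : ℕ → ℕ → R
  | 0, 1 => 2
  | 0, 2 => -2 * q ^ 2
  | 1, 1 => q ^ 2
  | 1, 2 => -q
  | 2, 1 => -q ^ 2
  | 2, 2 => q ^ 2
  | _, _ => 0

/-- `-4 x³` -/
noncomputable def U1 (x : ℂ) : ℂ := -4 * x ^ 3

/-- `(4/3) (1 + x³)` -/
noncomputable def U2 (x : ℂ) : ℂ := 4 / 3 * (1 + x ^ 3)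

/-- the function `(α U2² + β U1 U2 + γ U1²) / (U1² U2(x'))` -/
noncomputable def Gc (q : ℂ) (k m : ℕ) (x x' : ℂ) : ℂ :=
  (ca q k m * U2 x ^ 2 + cb q k m * (U1 x * U2 x) + cg q k m * U1 x ^ 2) / (U1 x ^ 2 * U2 x')

/-- `T = ∑_{c ∈ R} conj χ(c) x_c ^ k G(x_c, x_{λ c})` -/
noncomputable def TF (d : Dat D) (R : Finset Eis) (q : ℂ) (m : ℕ) : ℂ :=
  ∑ c ∈ R, conj (chi d c) * (xc D c ^ (kk d).val * Gc q (kk d).val m (xc D c) (xc D (la * c)))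

/-! ## the line -/

/-- `β ≡ t (1 + c λ) mod λ²` for an integer `t` -/
def LC (A : ValuationSubring ℂ) (c : ℤ) (β : ℂ) : Prop :=
  ∃ t : ℤ, A.valuation (β - (t : ℂ) * (1 + (c : ℂ) * emb la)) ≤ A.valuation 3

/-- the slope for the sign `η`, the exponent `k` and `i` -/
def sl (i : ℕ) (k : ℕ) (η : ℤ) : ℤ := -1 - (i : ℤ) * ((k : ℤ) + η - 1)

/-- the integral version of `LC` for `E - E⁻¹ = 2 λ β s` -/
def OnS (c : ℤ) (s E : ℂ) : Prop :=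
  ∃ t : ℤ, IsIntegral ℤ ((E - E⁻¹ - (t : ℂ) * emb (la * (1 + (c : Eis) * la)) * s) / emb la ^ 3)

/-- the condition `UCX` in terms of `D` (instead of `ω^i D`) and the slope `c` -/
def UCs (D : Eis) (c : ℤ) : Prop :=
  ¬ 3 ∣ classNumber (KD D) ∧
  ∃ u₁ u₂ : ℂ, u₁ ∈ CF.KK ∧ u₂ ∈ CF.KK ∧ u₁ + u₂ * sD D ≠ 0 ∧ IsIntegral ℤ (u₁ + u₂ * sD D) ∧
    IsIntegral ℤ (u₁ + u₂ * sD D)⁻¹ ∧ ¬ OnS c (sD D) (((u₁ + u₂ * sD D) / (u₁ - u₂ * sD D)) ^ 8)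

/-- the sign as an integer -/
noncomputable def ei (d : Dat D) : ℤ := if d.η = 1 then 1 else -1

end JX
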